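import Mathlib

set_option autoImplicit false

namespace Pool.Agent.Lib.MP_c84763_mp.U

/-- Fixed point.
Proof: on the complete set of pairs `(x, Δ)` with `x j ∈ K`, `‖x j‖ ≤ s`, `‖Δ i j‖ ≤ s`, the map
`Φ (x, Δ) = (j ↦ R j (- g j + ∑ k, Δ k j • L (x k)), (i, j) ↦ m i j + p' i (x j) - ∑ k G i k Δ k j)`
is a contraction with constant `1/2`. -/
theorem inv_fix {X : Type*} [NormedAddCommGroup X] [InnerProductSpace ℂ X] [CompleteSpace X]
    (K : Submodule ℂ X) (hK : IsClosed (K : Set X)) (L : X →L[ℂ] X) (hL : ∀ x, ‖L x‖ ≤ ‖x‖)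
    {N : ℕ} (hN : 0 < N) {θ Z ε B s : ℝ} (hθ : 0 < θ) (hZ : 1 ≤ Z) (hε : 0 ≤ ε) (hB : 0 ≤ B)
    (hs : 0 < s) (R : Fin N → X →L[ℂ] X) (hRK : ∀ j z, R j z ∈ K)
    (hR : ∀ j z, ‖R j z‖ ≤ Z / θ * ‖z‖) (g : Fin N → X) (hg : ∀ j, ‖g j‖ ≤ ε)
    (m : Fin N → Fin N → ℂ) (hm : ∀ i j, ‖m i j‖ ≤ ε * B) (p' : Fin N → X →L[ℂ] ℂ)
    (hp' : ∀ i, ∀ z ∈ K, ‖p' i z‖ ≤ ε * ‖z‖) (G : Fin N → Fin N → ℂ)
    (hG : ∀ i k, ‖G i k‖ ≤ ε) (c1 : 4 * Z * N * s ≤ θ) (c2 : 4 * N * s ≤ 1)
    (c3 : 2 * Z * ε ≤ s * θ) (c4 : ε * (B + 1 + N) ≤ s) :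
    ∃ (x : Fin N → X) (Δ : Fin N → Fin N → ℂ), (∀ j, x j ∈ K) ∧
      (∀ j, x j = R j (- g j + ∑ k, Δ k j • L (x k))) ∧
      (∀ i j, Δ i j = m i j + p' i (x j) - ∑ k, G i k * Δ k j) ∧
      (∀ j, ‖x j‖ ≤ s) ∧ ∀ i j, ‖Δ i j‖ ≤ s := by
  have hN1 : (1 : ℝ) ≤ N := by exact_mod_cast hN
  have hZθ : 0 ≤ Z / θ := by positivity
  have hs4 : s ≤ 1 / 4 := by nlinarith
  have b1 : Z / θ * ε ≤ s / 2 := by
    rw [div_mul_eq_mul_div, div_le_iff₀ hθ]
    linarith
  have b2 : Z / θ * (N * s) ≤ 1 / 4 := by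
    rw [div_mul_eq_mul_div, div_le_iff₀ hθ]
    linarith
  let Y := (Fin N → X) × (Fin N → Fin N → ℂ)
  let Φ : Y → Y := fun y => (fun j => R j (- g j + ∑ k, y.2 k j • L (y.1 k)),
    fun i j => m i j + p' i (y.1 j) - ∑ k, G i k * y.2 k j)
  let S : Set Y := {y | (∀ j, y.1 j ∈ K) ∧ (∀ j, ‖y.1 j‖ ≤ s) ∧ ∀ i j, ‖y.2 i j‖ ≤ s}
  have hSc : IsClosed S := by
    have e1 : IsClosed {y : Y | ∀ j, y.1 j ∈ K} := by
      simp only [Set.ofPred_forall]
      refine isClosed_iInter (fun j => ?_)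
      exact hK.preimage ((continuous_apply j).comp continuous_fst)
    have e2 : IsClosed {y : Y | ∀ j, ‖y.1 j‖ ≤ s} := by
      simp only [Set.ofPred_forall]
      refine isClosed_iInter (fun j => ?_)
      exact isClosed_le ((continuous_apply j).comp continuous_fst).norm continuous_const
    have e3 : IsClosed {y : Y | ∀ i j, ‖y.2 i j‖ ≤ s} := by
      simp only [Set.ofPred_forall]
      refine isClosed_iInter (fun i => isClosed_iInter (fun j => ?_))
      exact isClosed_le ((continuous_apply j).comp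
        ((continuous_apply i).comp continuous_snd)).norm continuous_const
    exact e1.inter (e2.inter e3)
  have hmaps : Set.MapsTo Φ S S := by
    rintro y ⟨hy1, hy2, hy3⟩
    refine ⟨fun j => hRK j _, fun j => ?_, fun i j => ?_⟩
    · show ‖R j (- g j + ∑ k, y.2 k j • L (y.1 k))‖ ≤ s
      have h1 : ‖- g j + ∑ k, y.2 k j • L (y.1 k)‖ ≤ ε + N * (s * s) := by
        refine (norm_add_le _ _).trans (add_le_add ?_ ?_)
        · rw [norm_neg]; exact hg j
        · refine (norm_sum_le _ _).trans ?_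
          calc ∑ k, ‖y.2 k j • L (y.1 k)‖ ≤ ∑ _k : Fin N, s * s := by
                apply Finset.sum_le_sum
                intro k _
                rw [norm_smul]
                exact mul_le_mul (hy3 k j) ((hL _).trans (hy2 k)) (norm_nonneg _) hs.le
            _ = N * (s * s) := by simp
      calc ‖R j (- g j + ∑ k, y.2 k j • L (y.1 k))‖
          ≤ Z / θ * (ε + N * (s * s)) := (hR j _).trans (mul_le_mul_of_nonneg_left h1 hZθ)
        _ = Z / θ * ε + Z / θ * (N * s) * s := by ring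
        _ ≤ s / 2 + 1 / 4 * s := add_le_add b1 (mul_le_mul_of_nonneg_right b2 hs.le)
        _ ≤ s := by linarith
    · show ‖m i j + p' i (y.1 j) - ∑ k, G i k * y.2 k j‖ ≤ s
      have h1 : ‖∑ k, G i k * y.2 k j‖ ≤ N * (ε * s) := by
        refine (norm_sum_le _ _).trans ?_
        calc ∑ k, ‖G i k * y.2 k j‖ ≤ ∑ _k : Fin N, ε * s := by
              apply Finset.sum_le_sum
              intro k _
              rw [norm_mul]
              exact mul_le_mul (hG i k) (hy3 k j) (norm_nonneg _) hε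
          _ = N * (ε * s) := by simp
      have h2 : ‖p' i (y.1 j)‖ ≤ ε * s :=
        (hp' i _ (hy1 j)).trans (mul_le_mul_of_nonneg_left (hy2 j) hε)
      have h3 : ε * s ≤ ε * 1 := mul_le_mul_of_nonneg_left (by linarith) hε
      have h4 : (N : ℝ) * (ε * s) ≤ N * (ε * 1) := mul_le_mul_of_nonneg_left h3 (by positivity)
      calc ‖m i j + p' i (y.1 j) - ∑ k, G i k * y.2 k j‖
          ≤ ‖m i j + p' i (y.1 j)‖ + ‖∑ k, G i k * y.2 k j‖ := norm_sub_le _ _
        _ ≤ (‖m i j‖ + ‖p' i (y.1 j)‖) + N * (ε * s) := add_le_add (norm_add_le _ _) h1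
        _ ≤ (ε * B + ε * s) + N * (ε * s) := by
            have := hm i j
            linarith
        _ ≤ ε * (B + 1 + N) := by nlinarith
        _ ≤ s := c4
  have hlip : LipschitzWith (1 / 2) (hmaps.restrict Φ S S) := by
    refine LipschitzWith.of_dist_le_mul ?_
    rintro ⟨y, hy⟩ ⟨z, hz⟩
    show dist (Φ y) (Φ z) ≤ ((1 / 2 : NNReal) : ℝ) * dist y z
    obtain ⟨hy1, hy2, hy3⟩ := hy
    obtain ⟨hz1, hz2, hz3⟩ := hz
    have d0 : 0 ≤ dist y z := dist_nonneg
    have hc : ((1 / 2 : NNReal) : ℝ) = 1 / 2 := by norm_num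
    have d1 : ∀ k, ‖y.1 k - z.1 k‖ ≤ dist y z := by
      intro k
      rw [← dist_eq_norm]
      exact (dist_le_pi_dist y.1 z.1 k).trans (le_max_left _ _)
    have d2 : ∀ i j, ‖y.2 i j - z.2 i j‖ ≤ dist y z := by
      intro i j
      rw [← dist_eq_norm]
      exact ((dist_le_pi_dist (y.2 i) (z.2 i) j).trans (dist_le_pi_dist y.2 z.2 i)).trans
        (le_max_right _ _)
    rw [hc, Prod.dist_eq]
    apply max_le
    · rw [dist_pi_le_iff (by positivity)]
      intro j
      rw [dist_eq_norm]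
      show ‖R j (- g j + ∑ k, y.2 k j • L (y.1 k)) - R j (- g j + ∑ k, z.2 k j • L (z.1 k))‖ ≤ _
      rw [← map_sub]
      have e : (- g j + ∑ k, y.2 k j • L (y.1 k)) - (- g j + ∑ k, z.2 k j • L (z.1 k))
          = ∑ k, ((y.2 k j - z.2 k j) • L (y.1 k) + z.2 k j • L (y.1 k - z.1 k)) := by
        rw [add_sub_add_left_eq_sub, ← Finset.sum_sub_distrib]
        apply Finset.sum_congr rfl
        intro k _
        rw [map_sub, sub_smul, smul_sub]
        abel
      rw [e]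
      have h1 : ‖∑ k, ((y.2 k j - z.2 k j) • L (y.1 k) + z.2 k j • L (y.1 k - z.1 k))‖
          ≤ N * (2 * s * dist y z) := by
        refine (norm_sum_le _ _).trans ?_
        calc ∑ k, ‖(y.2 k j - z.2 k j) • L (y.1 k) + z.2 k j • L (y.1 k - z.1 k)‖
            ≤ ∑ _k : Fin N, 2 * s * dist y z := by
              apply Finset.sum_le_sum
              intro k _
              refine (norm_add_le _ _).trans ?_
              rw [norm_smul, norm_smul]
              have u1 : ‖y.2 k j - z.2 k j‖ * ‖L (y.1 k)‖ ≤ dist y z * s :=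
                mul_le_mul (d2 k j) ((hL _).trans (hy2 k)) (norm_nonneg _) d0
              have u2 : ‖z.2 k j‖ * ‖L (y.1 k - z.1 k)‖ ≤ s * dist y z :=
                mul_le_mul (hz3 k j) ((hL _).trans (d1 k)) (norm_nonneg _) hs.le
              linarith
          _ = N * (2 * s * dist y z) := by simp
      calc ‖R j (∑ k, ((y.2 k j - z.2 k j) • L (y.1 k) + z.2 k j • L (y.1 k - z.1 k)))‖
          ≤ Z / θ * (N * (2 * s * dist y z)) :=
            (hR j _).trans (mul_le_mul_of_nonneg_left h1 hZθ)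
        _ = (Z / θ * (N * s)) * (2 * dist y z) := by ring
        _ ≤ 1 / 4 * (2 * dist y z) := mul_le_mul_of_nonneg_right b2 (by positivity)
        _ = 1 / 2 * dist y z := by ring
    · rw [dist_pi_le_iff (by positivity)]
      intro i
      rw [dist_pi_le_iff (by positivity)]
      intro j
      rw [dist_eq_norm]
      show ‖(m i j + p' i (y.1 j) - ∑ k, G i k * y.2 k j) -
        (m i j + p' i (z.1 j) - ∑ k, G i k * z.2 k j)‖ ≤ _
      have e : (m i j + p' i (y.1 j) - ∑ k, G i k * y.2 k j) -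
        (m i j + p' i (z.1 j) - ∑ k, G i k * z.2 k j)
          = p' i (y.1 j - z.1 j) - ∑ k, G i k * (y.2 k j - z.2 k j) := by
        rw [map_sub]
        simp only [mul_sub, Finset.sum_sub_distrib]
        ring
      rw [e]
      have h1 : ‖∑ k, G i k * (y.2 k j - z.2 k j)‖ ≤ N * (ε * dist y z) := by
        refine (norm_sum_le _ _).trans ?_
        calc ∑ k, ‖G i k * (y.2 k j - z.2 k j)‖ ≤ ∑ _k : Fin N, ε * dist y z := by
              apply Finset.sum_le_sum
              intro k _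
              rw [norm_mul]
              exact mul_le_mul (hG i k) (d2 k j) (norm_nonneg _) hε
          _ = N * (ε * dist y z) := by simp
      have h2 : ‖p' i (y.1 j - z.1 j)‖ ≤ ε * dist y z :=
        (hp' i _ (K.sub_mem (hy1 j) (hz1 j))).trans (mul_le_mul_of_nonneg_left (d1 j) hε)
      have h3 : ε * (1 + N) ≤ 1 / 4 := by
        have : 0 ≤ ε * B := mul_nonneg hε hB
        nlinarith
      calc ‖p' i (y.1 j - z.1 j) - ∑ k, G i k * (y.2 k j - z.2 k j)‖
          ≤ ε * dist y z + N * (ε * dist y z) := (norm_sub_le _ _).trans (add_le_add h2 h1)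
        _ = (ε * (1 + N)) * dist y z := by ring
        _ ≤ 1 / 4 * dist y z := mul_le_mul_of_nonneg_right h3 d0
        _ ≤ 1 / 2 * dist y z := by linarith
  have hcon : ContractingWith (1 / 2) (hmaps.restrict Φ S S) := by
    refine ⟨?_, hlip⟩
    exact_mod_cast (by norm_num : (1 / 2 : ℝ) < 1)
  have h0 : (0 : Y) ∈ S := by
    refine ⟨fun j => K.zero_mem, fun j => ?_, fun i j => ?_⟩
    · show ‖(0 : X)‖ ≤ s
      rw [norm_zero]; exact hs.le
    · show ‖(0 : ℂ)‖ ≤ s
      rw [norm_zero]; exact hs.le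
  obtain ⟨y, hyS, hfix, -, -⟩ :=
    ContractingWith.exists_fixedPoint' hSc.isComplete hmaps hcon h0 (edist_ne_top _ _)
  obtain ⟨hy1, hy2, hy3⟩ := hyS
  have hfix' : Φ y = y := hfix
  refine ⟨y.1, y.2, hy1, fun j => ?_, fun i j => ?_, hy2, hy3⟩
  · have := congrFun (congrArg Prod.fst hfix') j
    exact this.symm
  · have := congrFun (congrFun (congrArg Prod.snd hfix') i) j
    exact this.symm

end Pool.Agent.Lib.MP_c84763_mp.U
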