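import Mathlib

set_option autoImplicit false

namespace Pool.Agent.Lib.MP_c84763_mp.U

/-- A matrix close to the identity is invertible (`det_ne_zero_of_sum_row_lt_diag`). -/
theorem gram_inv {N : ℕ} (G : Matrix (Fin N) (Fin N) ℂ) {ε : ℝ} (hε : 0 ≤ ε) (hN : N * ε < 1)
    (hG : ∀ i k, ‖G i k - if i = k then 1 else 0‖ ≤ ε) : IsUnit G.det := by
  rw [isUnit_iff_ne_zero]
  apply det_ne_zero_of_sum_row_lt_diag
  intro k
  have h1 : ∀ j ∈ Finset.univ.erase k, ‖G k j‖ ≤ ε := by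
    intro j hj
    have hjk : j ≠ k := Finset.ne_of_mem_erase hj
    have h := hG k j
    rw [if_neg (Ne.symm hjk), sub_zero] at h
    exact h
  have h2 : ∑ j ∈ Finset.univ.erase k, ‖G k j‖ ≤ ((N : ℝ) - 1) * ε := by
    calc ∑ j ∈ Finset.univ.erase k, ‖G k j‖ ≤ ∑ j ∈ Finset.univ.erase k, ε :=
          Finset.sum_le_sum h1
      _ = ((N : ℝ) - 1) * ε := by
          rw [Finset.sum_const, Finset.card_erase_of_mem (Finset.mem_univ k), Finset.card_univ,
            Fintype.card_fin, nsmul_eq_mul]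
          have hN1 : 1 ≤ N := Nat.succ_le_of_lt (lt_of_le_of_lt (Nat.zero_le _) k.2)
          rw [Nat.cast_sub hN1, Nat.cast_one]
  have h3 : 1 - ε ≤ ‖G k k‖ := by
    have h := hG k k
    rw [if_pos rfl] at h
    have h4 : ‖(1 : ℂ)‖ ≤ ‖G k k‖ + ‖G k k - 1‖ := by
      have : (1 : ℂ) = G k k - (G k k - 1) := by ring
      calc ‖(1 : ℂ)‖ = ‖G k k - (G k k - 1)‖ := by rw [← this]
        _ ≤ _ := norm_sub_le _ _
    rw [norm_one] at h4
    linarith
  have h5 : ((N : ℝ) - 1) * ε = N * ε - ε := by ring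
  linarith

end Pool.Agent.Lib.MP_c84763_mp.U
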