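import Pool.Agent.Lib.MP_c84763_mp.U.InvLax
import Pool.Agent.Lib.MP_c84763_mp.U.InvFix
import Pool.Agent.Lib.MP_c84763_mp.U.InvGram

set_option autoImplicit false

namespace Pool.Agent.Lib.MP_c84763_mp.U

/-- Invariant subspaces near approximate ones.
Proof sketch: `K = {y ∈ D | ∀ j, ⟪J p_j, J y⟫ = 0}` is closed. Let `L = J† J` (`‖L x‖ ≤ ‖x‖`,
`⟪φ, L x⟫ = ⟪J φ, J x⟫`), `A_j = A - μ_j L`. By `inv_lax` (`H1`) get `R j` for `A_j`. By Riesz on
the Hilbert space `K` (or `InnerProductSpace.toDual`, or orthogonal projection onto `K`) choose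
`g j ∈ K` with `⟪φ, g j⟫ = ⟪φ, A_j p_j⟫` for `φ ∈ K`: `g j` is the orthogonal projection on `K` of
`A_j p_j`; `‖g j‖ ≤ ε` by `H2` (test with `φ = g j`). Let `G i k = ⟪J p_i, J p_k⟫ - δ_ik`
(`H3`), `m i j = ⟪p_i, A p_j⟫ - μ_j ⟪J p_i, J p_j⟫` (`H2` with `y = p_i`, `H4`),
`p' i z = ⟪p_i, A z⟫` (`H2'` on `K`). `inv_fix` gives `x`, `Δ`. Put `w j = p j + x j`,
`T k j = δ_kj μ_j + Δ k j`. For `φ ∈ K`:
`⟪φ, A w_j⟫ - ∑ T_kj ⟪J φ, J w_k⟫ = ⟪φ, A_j x_j⟫ + ⟪φ, g_j⟫ - ∑ Δ_kj ⟪φ, L x_k⟫ = 0`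
(`⟪J φ, J p_k⟫ = 0`). For `φ = p_i`: `⟪J p_i, J w_k⟫ = ⟪J p_i, J p_k⟫ = δ_ik + G_ik`, so the identity
is the second equation of `inv_fix`. Every `φ ∈ D` is an element of `K` plus a combination of
the `p_i` (`gram_inv`: solve `∑_i c_i ⟪J p_k, J p_i⟫ = ⟪J p_k, J φ⟫`). Linear independence of
`J w_j`: `⟪J p_i, J w_j⟫` is the invertible Gram matrix. -/
theorem abs_inv {X L : Type*} [NormedAddCommGroup X] [InnerProductSpace ℂ X] [CompleteSpace X]
    [NormedAddCommGroup L] [InnerProductSpace ℂ L] [CompleteSpace L]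
    (J : X →L[ℂ] L) (hJ : ∀ x, ‖J x‖ ≤ ‖x‖) (A : X →L[ℂ] X) (D : Submodule ℂ X)
    (hD : IsClosed (D : Set X)) {N : ℕ} (hN : 0 < N) (p : Fin N → X) (hp : ∀ j, p j ∈ D)
    (μ : Fin N → ℂ) (ζ : ℂ) {θ Z ε B s : ℝ} (hθ : 0 < θ) (hZ : 1 ≤ Z) (hζ : ‖ζ‖ ≤ Z)
    (hε : 0 ≤ ε) (hs : 0 < s)
    (H1 : ∀ y ∈ D, (∀ j, (inner ℂ (J (p j)) (J y) : ℂ) = 0) → ∀ k, θ * ‖y‖ ^ 2 ≤
      (ζ * (inner ℂ y (A y) - μ k * ((‖J y‖ ^ 2 : ℝ) : ℂ))).re)
    (H2 : ∀ y ∈ D, ∀ j, ‖(inner ℂ y (A (p j)) : ℂ) - μ j * inner ℂ (J y) (J (p j))‖ ≤ ε * ‖y‖)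
    (H2' : ∀ y ∈ D, ∀ j, ‖(inner ℂ (p j) (A y) : ℂ) - μ j * inner ℂ (J (p j)) (J y)‖ ≤ ε * ‖y‖)
    (H3 : ∀ i j, ‖(inner ℂ (J (p i)) (J (p j)) : ℂ) - if i = j then 1 else 0‖ ≤ ε)
    (H4 : ∀ j, ‖p j‖ ≤ B) (c1 : 4 * Z * N * s ≤ θ) (c2 : 4 * N * s ≤ 1)
    (c3 : 2 * Z * ε ≤ s * θ) (c4 : ε * (B + 1 + N) ≤ s) :
    ∃ (w : Fin N → X) (T : Matrix (Fin N) (Fin N) ℂ), (∀ j, w j ∈ D) ∧
      (∀ i j, ‖T i j - if i = j then μ j else 0‖ ≤ s) ∧
      (∀ φ ∈ D, ∀ j, (inner ℂ φ (A (w j)) : ℂ) = ∑ k, T k j * inner ℂ (J φ) (J (w k))) ∧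
      LinearIndependent ℂ (fun j => J (w j)) := by
  classical
  -- the operator `L0 = J† J`
  obtain ⟨L0, hL0⟩ : ∃ L0 : X →L[ℂ] X, ∀ φ x, (inner ℂ φ (L0 x) : ℂ) = inner ℂ (J φ) (J x) :=
    ⟨(ContinuousLinearMap.adjoint J) ∘L J, fun φ x => by
      rw [ContinuousLinearMap.comp_apply, ContinuousLinearMap.adjoint_inner_right]⟩
  have hL0n : ∀ x, ‖L0 x‖ ≤ ‖x‖ := by
    intro x
    by_cases h0 : L0 x = 0
    · rw [h0, norm_zero]
      exact norm_nonneg _
    have h1 : ‖L0 x‖ ^ 2 ≤ ‖L0 x‖ * ‖x‖ := by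
      have h2 : (inner ℂ (L0 x) (L0 x) : ℂ) = inner ℂ (J (L0 x)) (J x) := hL0 _ _
      have h3 : ‖(inner ℂ (L0 x) (L0 x) : ℂ)‖ = ‖L0 x‖ ^ 2 := by
        rw [inner_self_eq_norm_sq_to_K]
        simp
      rw [← h3, h2]
      exact (norm_inner_le_norm _ _).trans (mul_le_mul (hJ _) (hJ _) (norm_nonneg _)
        (norm_nonneg _))
    have h4 : 0 < ‖L0 x‖ := norm_pos_iff.2 h0
    rw [pow_two] at h1
    exact le_of_mul_le_mul_left h1 h4
  -- the subspace `K`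
  let K : Submodule ℂ X :=
    { carrier := {y | y ∈ D ∧ ∀ j, (inner ℂ (J (p j)) (J y) : ℂ) = 0}
      add_mem' := by
        rintro a b ⟨ha, ha'⟩ ⟨hb, hb'⟩
        refine ⟨D.add_mem ha hb, fun j => ?_⟩
        rw [map_add, inner_add_right, ha', hb', add_zero]
      zero_mem' := ⟨D.zero_mem, fun j => by rw [map_zero, inner_zero_right]⟩
      smul_mem' := by
        rintro c a ⟨ha, ha'⟩
        refine ⟨D.smul_mem c ha, fun j => ?_⟩
        rw [map_smul, inner_smul_right, ha', mul_zero] }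
  have hKD : ∀ y ∈ K, y ∈ D := fun y hy => hy.1
  have hKp : ∀ y ∈ K, ∀ j, (inner ℂ (J (p j)) (J y) : ℂ) = 0 := fun y hy => hy.2
  have hKp' : ∀ y ∈ K, ∀ j, (inner ℂ (J y) (J (p j)) : ℂ) = 0 := fun y hy j => by
    rw [← inner_conj_symm, hKp y hy, map_zero]
  have hK : IsClosed (K : Set X) := by
    have : (K : Set X) = (D : Set X) ∩ ⋂ j, {y | (inner ℂ (J (p j)) (J y) : ℂ) = 0} := by
      ext y
      simp only [Set.mem_inter_iff, Set.mem_iInter]
      exact Iff.rfl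
    rw [this]
    exact hD.inter (isClosed_iInter fun j => isClosed_eq (by fun_prop) continuous_const)
  have : CompleteSpace K := hK.completeSpace_coe
  -- the operators `A_j`
  have hAj : ∀ j φ x, (inner ℂ φ ((A - μ j • L0) x) : ℂ) =
      inner ℂ φ (A x) - μ j * inner ℂ (J φ) (J x) := by
    intro j φ x
    rw [sub_apply, inner_sub_right, smul_apply,
      inner_smul_right, hL0]
  have hR0 : ∀ j, ∃ R : X →L[ℂ] X, (∀ z, R z ∈ K) ∧ (∀ z, ‖R z‖ ≤ Z / θ * ‖z‖) ∧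
      ∀ z, ∀ φ ∈ K, (inner ℂ φ ((A - μ j • L0) (R z)) : ℂ) = inner ℂ φ z := by
    intro j
    refine inv_lax K hK (A - μ j • L0) ζ hθ hζ ?_
    intro y hy
    rw [hAj, inner_self_eq_norm_sq_to_K]
    have := H1 y (hKD y hy) (hKp y hy) j
    push_cast at this
    exact this
  choose R hRK hRn hRi using hR0
  -- the vectors `g_j`
  let g : Fin N → X := fun j => (K.orthogonalProjectionOnto ((A - μ j • L0) (p j)) : X)
  have hgK : ∀ j, g j ∈ K := fun j => SetLike.coe_mem _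
  have hgi : ∀ j, ∀ φ ∈ K, (inner ℂ φ (g j) : ℂ) = inner ℂ φ ((A - μ j • L0) (p j)) := by
    intro j φ hφ
    exact K.inner_orthogonalProjectionOnto_eq_of_mem_left ⟨φ, hφ⟩ _
  have hg : ∀ j, ‖g j‖ ≤ ε := by
    intro j
    by_cases h0 : g j = 0
    · rw [h0, norm_zero]
      exact hε
    have h1 : ‖g j‖ ^ 2 ≤ ε * ‖g j‖ := by
      have h3 : ‖(inner ℂ (g j) (g j) : ℂ)‖ = ‖g j‖ ^ 2 := by
        rw [inner_self_eq_norm_sq_to_K]
        simp
      rw [← h3, hgi j (g j) (hgK j), hAj]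
      exact H2 (g j) (hKD _ (hgK j)) j
    have h4 : 0 < ‖g j‖ := norm_pos_iff.2 h0
    rw [pow_two] at h1
    exact le_of_mul_le_mul_right h1 h4
  have hB : 0 ≤ B := (norm_nonneg _).trans (H4 ⟨0, hN⟩)
  -- the data of the fixed point
  let G : Fin N → Fin N → ℂ := fun i k => inner ℂ (J (p i)) (J (p k)) - if i = k then 1 else 0
  let m : Fin N → Fin N → ℂ := fun i j =>
    inner ℂ (p i) (A (p j)) - μ j * inner ℂ (J (p i)) (J (p j))
  let p' : Fin N → X →L[ℂ] ℂ := fun i => (innerSL ℂ (p i)) ∘L A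
  have hp'a : ∀ i z, p' i z = inner ℂ (p i) (A z) := fun i z => rfl
  have hm : ∀ i j, ‖m i j‖ ≤ ε * B := by
    intro i j
    exact (H2 (p i) (hp i) j).trans (mul_le_mul_of_nonneg_left (H4 i) hε)
  have hp' : ∀ i, ∀ z ∈ K, ‖p' i z‖ ≤ ε * ‖z‖ := by
    intro i z hz
    have := H2' z (hKD z hz) i
    rwa [hKp z hz, mul_zero, sub_zero] at this
  obtain ⟨x, Δ, hxK, hx, hΔ, hxs, hΔs⟩ := inv_fix K hK L0 hL0n hN hθ hZ hε hB hs R hRK hRn g hg
    m hm p' hp' G H3 c1 c2 c3 c4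
  have hw : ∀ i k, (inner ℂ (J (p i)) (J (p k + x k)) : ℂ) = inner ℂ (J (p i)) (J (p k)) := by
    intro i k
    rw [map_add, inner_add_right, hKp _ (hxK k), add_zero]
  -- the Gram matrix
  let M : Matrix (Fin N) (Fin N) ℂ := Matrix.of fun i k => inner ℂ (J (p i)) (J (p k))
  have hMa : ∀ i k, M i k = inner ℂ (J (p i)) (J (p k)) := fun i k => rfl
  have hNε : N * ε < 1 := by
    have hN' : (1 : ℝ) ≤ N := by exact_mod_cast hN
    have h1 : ε * N ≤ s := by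
      refine le_trans ?_ c4
      exact mul_le_mul_of_nonneg_left (by linarith) hε
    have h2 : s ≤ 1 / 4 := by nlinarith
    linarith
  have hM : IsUnit M.det := gram_inv M hε hNε fun i k => H3 i k
  let T : Matrix (Fin N) (Fin N) ℂ := Matrix.of fun k j => (if k = j then μ j else 0) + Δ k j
  have hTa : ∀ k j, T k j = (if k = j then μ j else 0) + Δ k j := fun k j => rfl
  refine ⟨fun j => p j + x j, T, fun j => D.add_mem (hp j) (hKD _ (hxK j)), ?_, ?_, ?_⟩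
  · intro i j
    rw [hTa, add_sub_cancel_left]
    exact hΔs i j
  · -- the identity
    have hTs : ∀ j (b : Fin N → ℂ), ∑ k, T k j * b k = μ j * b j + ∑ k, Δ k j * b k := by
      intro j b
      simp only [hTa, add_mul, ite_mul, zero_mul, Finset.sum_add_distrib]
      rw [Finset.sum_ite_eq' Finset.univ j]
      simp
    have hKi : ∀ φ ∈ K, ∀ j, (inner ℂ φ (A (p j + x j)) : ℂ) =
        ∑ k, T k j * inner ℂ (J φ) (J (p k + x k)) := by
      intro φ hφ j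
      have e1 : ∀ k, (inner ℂ (J φ) (J (p k + x k)) : ℂ) = inner ℂ φ (L0 (x k)) := by
        intro k
        rw [map_add, inner_add_right, hKp' φ hφ, zero_add, hL0]
      rw [hTs]
      have e2 : (inner ℂ φ ((A - μ j • L0) (x j)) : ℂ) =
          -inner ℂ φ (g j) + ∑ k, Δ k j * inner ℂ φ (L0 (x k)) := by
        conv_lhs => rw [hx j]
        rw [hRi j _ φ hφ, inner_add_right, inner_neg_right, inner_sum]
        simp only [inner_smul_right]
      have e3 := hgi j φ hφ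
      rw [hAj] at e2 e3
      simp only [e1]
      rw [map_add, inner_add_right]
      rw [hL0] at *
      rw [hKp' φ hφ] at e3
      linear_combination e2 - e3
    have hpi : ∀ i j, (inner ℂ (p i) (A (p j + x j)) : ℂ) =
        ∑ k, T k j * inner ℂ (J (p i)) (J (p k + x k)) := by
      intro i j
      rw [hTs]
      simp only [hw]
      have e1 := hΔ i j
      rw [hp'a] at e1
      have e2 : ∑ k, Δ k j * (inner ℂ (J (p i)) (J (p k)) : ℂ) = Δ i j + ∑ k, G i k * Δ k j := by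
        have : ∀ k, Δ k j * (inner ℂ (J (p i)) (J (p k)) : ℂ) =
            (if i = k then Δ k j else 0) + G i k * Δ k j := by
          intro k
          show _ = _ + (inner ℂ (J (p i)) (J (p k)) - if i = k then 1 else 0) * Δ k j
          split_ifs <;> ring
        rw [Finset.sum_congr rfl fun k _ => this k, Finset.sum_add_distrib,
          Finset.sum_ite_eq Finset.univ i]
        simp
      rw [e2, map_add, inner_add_right]
      have e3 : m i j = inner ℂ (p i) (A (p j)) - μ j * inner ℂ (J (p i)) (J (p j)) := rfl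
      rw [e3] at e1
      linear_combination -e1
    intro φ hφ j
    -- decompose `φ`
    let b : Fin N → ℂ := fun k => inner ℂ (J (p k)) (J φ)
    let c : Fin N → ℂ := M⁻¹.mulVec b
    have hc : ∀ k, ∑ i, c i * (inner ℂ (J (p k)) (J (p i)) : ℂ) = inner ℂ (J (p k)) (J φ) := by
      intro k
      have h1 : M.mulVec c = b := by
        show M.mulVec (M⁻¹.mulVec b) = b
        rw [Matrix.mulVec_mulVec, Matrix.mul_nonsing_inv M hM, Matrix.one_mulVec]
      have h2 : ∑ i, M k i * c i = inner ℂ (J (p k)) (J φ) := congrFun h1 k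
      rw [← h2]
      exact Finset.sum_congr rfl fun i _ => by rw [hMa, mul_comm]
    have hκ : φ - ∑ i, c i • p i ∈ K := by
      refine ⟨D.sub_mem hφ (D.sum_mem fun i _ => D.smul_mem _ (hp i)), fun k => ?_⟩
      rw [map_sub, inner_sub_right, map_sum, inner_sum]
      simp only [map_smul, inner_smul_right]
      rw [hc, sub_self]
    obtain ⟨v, hv⟩ : ∃ v : X, ∀ ψ, (inner ℂ ψ v : ℂ) = inner ℂ ψ (A (p j + x j)) -
        ∑ k, T k j * inner ℂ (J ψ) (J (p k + x k)) := by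
      refine ⟨A (p j + x j) - ∑ k, T k j • L0 (p k + x k), fun ψ => ?_⟩
      rw [inner_sub_right, inner_sum]
      simp only [inner_smul_right, hL0]
    have v1 : (inner ℂ (φ - ∑ i, c i • p i) v : ℂ) = 0 := by
      rw [hv, hKi _ hκ j, sub_self]
    have v2 : ∀ i, (inner ℂ (p i) v : ℂ) = 0 := by
      intro i
      rw [hv, hpi i j, sub_self]
    have v3 : (inner ℂ φ v : ℂ) = 0 := by
      have hdec : φ = (φ - ∑ i, c i • p i) + ∑ i, c i • p i := by abel
      rw [hdec, inner_add_left, v1, sum_inner, zero_add]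
      refine Finset.sum_eq_zero fun i _ => ?_
      rw [inner_smul_left, v2, mul_zero]
    rw [hv] at v3
    exact sub_eq_zero.1 v3
  · rw [Fintype.linearIndependent_iff]
    intro c hc
    have h1 : M.mulVec c = 0 := by
      ext i
      rw [Matrix.mulVec, dotProduct]
      have h2 : (inner ℂ (J (p i)) (∑ j, c j • J (p j + x j)) : ℂ) = 0 := by
        rw [hc, inner_zero_right]
      rw [inner_sum] at h2
      simp only [inner_smul_right, hw] at h2
      simp only [Pi.zero_apply]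
      rw [← h2]
      exact Finset.sum_congr rfl fun j _ => by rw [hMa, mul_comm]
    have h2 : c = 0 := by
      have := congrArg (M⁻¹.mulVec) h1
      rwa [Matrix.mulVec_mulVec, Matrix.nonsing_inv_mul M hM, Matrix.one_mulVec,
        Matrix.mulVec_zero] at this
    intro i
    rw [h2]
    rfl

end Pool.Agent.Lib.MP_c84763_mp.U
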