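import Pool.Agent.Lib.MP_c84763_mp.U.CutM

set_option autoImplicit false

namespace Pool.Agent.Lib.MP_c84763_mp.U

open MeasureTheory
open scoped ContDiff ENNReal

namespace Cut

variable {d : ℕ} {P : Base d} {M : ℝ} (Q : Cut P M)

/-- The partial derivatives of the exponential weight. -/
private theorem agId_pd (s : ℝ) (x : Sp d) (i : Fin d) :
    pd i (fun y => Real.exp (s * Q.F y)) x = Real.exp (s * Q.F x) * (s * pd i Q.F x) := by
  have h1 : HasFDerivAt Q.F (fderiv ℝ Q.F x) x :=
    ((Q.sF.differentiable (by simp)) x).hasFDerivAt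
  have h2 : HasFDerivAt (fun y => Real.exp (s * Q.F y))
      (Real.exp (s * Q.F x) • (s • fderiv ℝ Q.F x)) x := (h1.const_mul s).exp
  unfold pd
  rw [h2.fderiv]
  simp

private theorem agId_smooth (s : ℝ) : ContDiff ℝ ∞ (fun y => Real.exp (s * Q.F y)) :=
  (contDiff_const.mul Q.sF).exp

private theorem agId_pdF_abs (x : Sp d) (i : Fin d) : |pd i Q.F x| ≤ Real.sqrt Q.C2 := by
  rw [← Real.sqrt_sq_eq_abs]
  apply Real.sqrt_le_sqrt
  refine le_trans ?_ (Q.F_grad_le x)
  exact Finset.single_le_sum (f := fun i => pd i Q.F x ^ 2) (fun i _ => sq_nonneg _)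
    (Finset.mem_univ i)

private theorem agId_exp_le {s : ℝ} (hs : 0 ≤ s) (x : Sp d) :
    Real.exp (s * Q.F x) ≤ Real.exp s := by
  apply Real.exp_le_exp.2
  have := Q.F_le x
  nlinarith

/-- Agmon identity: test the eigenvalue equation with `e^{2 (b/h) F} e`.
Proof sketch: with `E = exp (2 (b/h) F)`, `φ := mulOp h q q E e ∈ Y` by `dom_mul` (`E` is smooth,
bounded by `exp (2 b / h)`, with bounded gradient `∂_i E = 2 (b/h) ∂_i F E`). By `mulOp_ae`,
`inner_X`, `inner_J`, `Y_pot` (`e_s = √q e_0`, so `E √(q/q) |e_s|² = E q |e_0|²`, also where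
`q = 0`), `⟪φ, e⟫ = ∫ E ((1+q) |e_0|² + ∑ |e_i|² + 2 b ∑ ∂_i F conj(e_0) e_i)` and
`⟪J φ, J e⟫ = ∫ E |e_0|²`. Take real parts. -/
theorem ag_id {h : ℝ} (h0 : 0 < h) {b lam : ℝ} (b0 : 0 ≤ b) (hM : Q.κ h ≤ M) {e : X d}
    (he : e ∈ Q.Y h)
    (eig : ∀ φ ∈ Q.Y h, (inner ℂ φ e : ℂ) = ((1 + lam : ℝ) : ℂ) * inner ℂ (J φ) (J e)) :
    ∫ t, Real.exp (2 * (b / h) * Q.F t) * ((Q.q h t - lam) * ‖(e t) none‖ ^ 2 +
      ∑ i, ‖(e t) (some (some i))‖ ^ 2 +
      2 * b * ∑ i, pd i Q.F t * (star ((e t) none) * (e t) (some (some i))).re) = 0 := by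
  have hs : 0 ≤ 2 * (b / h) := by positivity
  set s : ℝ := 2 * (b / h) with hsdef
  set E : Sp d → ℝ := fun y => Real.exp (s * Q.F y) with hE
  have sE : ContDiff ℝ ∞ E := Q.agId_smooth s
  have hB0 : 0 ≤ s * Real.sqrt Q.C2 := by positivity
  set B : ℝ := Real.exp s * (1 + s * Real.sqrt Q.C2) with hB
  have hEb : ∀ x, |E x| ≤ B := by
    intro x
    rw [abs_of_pos (Real.exp_pos _)]
    have h1 := Q.agId_exp_le hs x
    have h2 : 0 ≤ Real.exp s * (s * Real.sqrt Q.C2) := by positivity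
    show Real.exp (s * Q.F x) ≤ B
    rw [hB]
    linarith
  have hEb' : ∀ x i, |pd i E x| ≤ B := by
    intro x i
    rw [hE, Q.agId_pd s x i, abs_mul, abs_of_pos (Real.exp_pos _), abs_mul, abs_of_nonneg hs]
    have h1 := Q.agId_exp_le hs x
    have h3 := Q.agId_pdF_abs x i
    have h4 : Real.exp (s * Q.F x) * (s * |pd i Q.F x|) ≤
        Real.exp s * (s * Real.sqrt Q.C2) := by
      gcongr
    have h5 := Real.exp_pos s
    rw [hB]
    linarith
  have hK : ∀ x, Q.q h x ≤ 1 * Q.q h x := fun x => by rw [one_mul]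
  have hmem : mulOp h (Q.q h) (Q.q h) E e ∈ Q.Y h :=
    dom_mul (Q.q_meas h) (Q.q_meas h) (Q.q_nonneg hM) (Q.q_nonneg hM) sE hEb hEb' hK
      (fun _ hx _ => hx) he
  have hae := mulOp_ae (h := h) (Q.q_meas h) (Q.q_meas h) (Q.q_nonneg hM) (Q.q_nonneg hM) sE hEb
    hEb' hK e
  set φ : X d := mulOp h (Q.q h) (Q.q h) E e with hφ
  have hpot := Q.Y_pot he
  have heq := eig φ hmem
  rw [inner_X, inner_J] at heq
  have i1 : Integrable (fun x => (star ((φ x) none) * (e x) none +
      star ((φ x) (some none)) * (e x) (some none) +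
      ∑ i, star ((φ x) (some (some i))) * (e x) (some (some i)))) := by
    refine ((int_mul φ e none none).add (int_mul φ e (some none) (some none))).add ?_
    exact integrable_finsetSum _ fun i _ => int_mul φ e (some (some i)) (some (some i))
  have i2 : Integrable (fun x => ((1 + lam : ℝ) : ℂ) * (star ((φ x) none) * (e x) none)) :=
    (int_mul φ e none none).const_mul _
  have hz : ∫ x, ((star ((φ x) none) * (e x) none +
      star ((φ x) (some none)) * (e x) (some none) +
      ∑ i, star ((φ x) (some (some i))) * (e x) (some (some i))) -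
      ((1 + lam : ℝ) : ℂ) * (star ((φ x) none) * (e x) none)) = 0 := by
    rw [integral_sub i1 i2, heq, integral_const_mul, sub_self]
  have hre := integral_re (𝕜 := ℂ) (i1.sub i2)
  simp only [Pi.sub_apply] at hre
  rw [hz] at hre
  rw [map_zero] at hre
  rw [← hre]
  apply integral_congr_ae
  filter_upwards [hae, hpot] with t ht hp
  obtain ⟨a1, a2, a3⟩ := ht
  rw [a1, a2, hp]
  simp only [a3]
  have hq := Q.q_nonneg hM t
  have hqq : Real.sqrt (Q.q h t / Q.q h t) * (Real.sqrt (Q.q h t) * Real.sqrt (Q.q h t)) =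
      Q.q h t := by
    rw [Real.mul_self_sqrt hq]
    by_cases hq0 : Q.q h t = 0
    · rw [hq0]; simp
    · rw [div_self hq0, Real.sqrt_one, one_mul]
  have hns : ∀ z : ℂ, ‖z‖ ^ 2 = z.re * z.re + z.im * z.im := fun z => by
    rw [← Complex.normSq_eq_norm_sq, Complex.normSq_apply]
  have hpdE : ∀ i, h * pd i E t = E t * (2 * b * pd i Q.F t) := by
    intro i
    rw [hE, Q.agId_pd s t i, hsdef]
    field_simp
  simp only [hpdE]
  simp only [RCLike.re_to_complex, Complex.sub_re, Complex.add_re, Complex.re_sum,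
    Complex.mul_re, Complex.star_def, Complex.conj_re, Complex.conj_im, Complex.ofReal_re,
    Complex.ofReal_im, Complex.mul_im, Complex.add_im, map_mul, map_add, hns]
  rw [Finset.mul_sum, mul_add, mul_add, Finset.mul_sum, Finset.mul_sum]
  have hsum : ∀ (f g k : Fin d → ℝ), (∀ i, f i + g i = k i) → ∑ i, f i + ∑ i, g i = ∑ i, k i := by
    intro f g k hfg
    rw [← Finset.sum_add_distrib]
    exact Finset.sum_congr rfl fun i _ => hfg i
  rw [add_assoc, hsum _ _ (fun i => (E t * ((e t) (some (some i))).re +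
      E t * (2 * b * pd i Q.F t) * ((e t) none).re) * ((e t) (some (some i))).re +
      (E t * ((e t) (some (some i))).im +
      E t * (2 * b * pd i Q.F t) * ((e t) none).im) * ((e t) (some (some i))).im)]
  · have key : ∀ (a c e' : ℝ) (f g : Fin d → ℝ), (∀ i, f i = g i) → a = c - e' →
        a + ∑ i, f i = c + ∑ i, g i - e' := by
      intro a c e' f g hfg hac
      rw [Finset.sum_congr rfl fun i _ => hfg i, hac]
      ring
    refine key _ _ _ _ _ (fun i => by ring) ?_
    have hEt : Real.exp (s * Q.F t) = E t := rfl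
    rw [hEt]
    linear_combination (-(E t) * (((e t) none).re * ((e t) none).re +
      ((e t) none).im * ((e t) none).im)) * hqq
  · intro i
    have hEt : Real.exp (s * Q.F t) = E t := rfl
    rw [hEt]
    ring

end Cut

end Pool.Agent.Lib.MP_c84763_mp.U
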