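import Pool.Agent.Lib.MP_c84763_mp.U.AgId

set_option autoImplicit false

namespace Pool.Agent.Lib.MP_c84763_mp.U

open MeasureTheory
open scoped ContDiff ENNReal

namespace Cut

variable {d : ℕ} {P : Base d} {M : ℝ} (Q : Cut P M)

/-- Pointwise completion of squares. -/
private theorem agmon_sq {d : ℕ} {qq lam b C2 : ℝ} {f : Fin d → ℝ} {z0 : ℂ} {z : Fin d → ℂ}
    (b0 : 0 ≤ b) (hq : 1 + lam + b ^ 2 * C2 ≤ qq) (hf : ∑ i, f i ^ 2 ≤ C2) :
    ‖z0‖ ^ 2 ≤ (qq - lam) * ‖z0‖ ^ 2 + ∑ i, ‖z i‖ ^ 2 +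
      2 * b * ∑ i, f i * (star z0 * z i).re := by
  have h1 : ∀ i, -(b ^ 2 * f i ^ 2 * ‖z0‖ ^ 2) ≤ ‖z i‖ ^ 2 + 2 * b * (f i * (star z0 * z i).re) := by
    intro i
    have h2 : |(star z0 * z i).re| ≤ ‖z0‖ * ‖z i‖ := by
      refine (Complex.abs_re_le_norm _).trans ?_
      rw [norm_mul, norm_star]
    have h3 : |f i * (star z0 * z i).re| ≤ |f i| * (‖z0‖ * ‖z i‖) := by
      rw [abs_mul]
      exact mul_le_mul_of_nonneg_left h2 (abs_nonneg _)
    have h4 := (abs_le.1 h3).1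
    have h5 : 2 * b * (-(|f i| * (‖z0‖ * ‖z i‖))) ≤ 2 * b * (f i * (star z0 * z i).re) :=
      mul_le_mul_of_nonneg_left h4 (by linarith)
    have h6 : 0 ≤ (b * |f i| * ‖z0‖ - ‖z i‖) ^ 2 := sq_nonneg _
    have h7 : |f i| ^ 2 = f i ^ 2 := sq_abs _
    have h8 : (b * |f i| * ‖z0‖ - ‖z i‖) ^ 2 = b ^ 2 * |f i| ^ 2 * ‖z0‖ ^ 2 -
        2 * b * (|f i| * (‖z0‖ * ‖z i‖)) + ‖z i‖ ^ 2 := by ring
    rw [h8, h7] at h6
    linarith
  have h8 : ∑ i, -(b ^ 2 * f i ^ 2 * ‖z0‖ ^ 2) ≤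
      ∑ i, (‖z i‖ ^ 2 + 2 * b * (f i * (star z0 * z i).re)) := Finset.sum_le_sum fun i _ => h1 i
  rw [Finset.sum_neg_distrib, Finset.sum_add_distrib, ← Finset.mul_sum, ← Finset.sum_mul,
    ← Finset.mul_sum] at h8
  have h9 : b ^ 2 * ∑ i, f i ^ 2 ≤ b ^ 2 * C2 := mul_le_mul_of_nonneg_left hf (sq_nonneg b)
  have h10 : 0 ≤ ‖z0‖ ^ 2 := sq_nonneg _
  nlinarith

private theorem agmon_pd_cont {d : ℕ} {F : Sp d → ℝ} (sF : ContDiff ℝ ∞ F) (i : Fin d) :
    Continuous (pd i F) := by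
  have h1 : Continuous (fderiv ℝ F) := sF.continuous_fderiv (by simp)
  exact h1.clm_apply continuous_const

/-- Agmon estimate: eigenfunctions are exponentially small on `T`.
Proof sketch: let `E = exp (2 (b/h) F)` and let `I = 0` be the integral of `ag_id`. Pointwise the
integrand of `I` is
`≥ E (q - lam - b² ∑ (∂_i F)²) |e_0|² + E ∑ |e_i + b ∂_i F e_0|²` (in fact equal; complete the
square). Cases:
* `t ∈ ball c (l-w)`: `F = 0`, `∂F = 0`, `E = 1`, `q ≥ 0`, so integrand `≥ - lam |e_0|²`;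
* `t ∈ Ω`, `t ∉ ball c (l-w)`: `q - lam - b² C2 ≥ M - κ - lam - b² C2 ≥ 1` (`q_collar`), so the
  integrand is `≥ 0`, and on `T` (where `F = 1`, `∂F = 0`) it is
  `≥ exp (2 b / h) (|e_0|² + ∑ |e_i|²)`;
* `t ∉ Ω`: `e t = 0` (`Y_off`), the integrand is `0`.
Hence `exp (2 b / h) ∫_T (...) - lam ‖J e‖² ≤ I = 0`. (All terms are integrable by `int_comp`,
`int_mul`, boundedness of `E`, `∂F`, and `q |e_0|² = |e_s|²`.) -/
theorem agmon {h : ℝ} (h0 : 0 < h) {b lam : ℝ} (b0 : 0 ≤ b) (l0 : 0 ≤ lam)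
    (hM : 1 + Q.κ h + lam + b ^ 2 * Q.C2 ≤ M) {e : X d} (he : e ∈ Q.Y h)
    (eig : ∀ φ ∈ Q.Y h, (inner ℂ φ e : ℂ) = ((1 + lam : ℝ) : ℂ) * inner ℂ (J φ) (J e)) :
    ∫ t in Q.T, (‖(e t) none‖ ^ 2 + ∑ i, ‖(e t) (some (some i))‖ ^ 2) ≤
      lam * Real.exp (-(2 * b / h)) * ‖J e‖ ^ 2 := by
  have hC2 := Q.C2_pos
  have hbC : 0 ≤ b ^ 2 * Q.C2 := mul_nonneg (sq_nonneg b) hC2.le
  have hκM : Q.κ h ≤ M := by linarith
  have hid := Q.ag_id h0 b0 hκM he eig
  have hq0 := Q.q_nonneg hκM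
  have hbh : 0 ≤ b / h := by positivity
  -- exponential weight
  have hEcont : Continuous (fun t => Real.exp (2 * (b / h) * Q.F t)) := by
    have := Q.sF.continuous
    fun_prop
  have hEbd : ∀ t, ‖Real.exp (2 * (b / h) * Q.F t)‖ ≤ Real.exp (2 * b / h) := by
    intro t
    rw [Real.norm_eq_abs, abs_of_pos (Real.exp_pos _), Real.exp_le_exp]
    have h1 := Q.F_le t
    have : 2 * (b / h) * Q.F t ≤ 2 * (b / h) * 1 := mul_le_mul_of_nonneg_left h1 (by linarith)
    calc 2 * (b / h) * Q.F t ≤ 2 * (b / h) * 1 := this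
      _ = 2 * b / h := by ring
  -- integrability
  have hI0 : Integrable (fun t => ‖(e t) none‖ ^ 2) := int_comp e none
  have hIs : Integrable (fun t => Q.q h t * ‖(e t) none‖ ^ 2) := by
    refine (int_comp e (some none)).congr ?_
    filter_upwards [Q.Y_pot he] with t ht
    rw [ht, norm_mul, mul_pow, Complex.norm_real, Real.norm_eq_abs, sq_abs,
      Real.sq_sqrt (hq0 t)]
  have hIi : Integrable (fun t => ∑ i, ‖(e t) (some (some i))‖ ^ 2) :=
    integrable_finsetSum _ fun i _ => int_comp e (some (some i))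
  have hpdbd : ∀ i t, ‖pd i Q.F t‖ ≤ Real.sqrt Q.C2 := by
    intro i t
    rw [Real.norm_eq_abs, ← Real.sqrt_sq_eq_abs]
    apply Real.sqrt_le_sqrt
    refine le_trans ?_ (Q.F_grad_le t)
    exact Finset.single_le_sum (f := fun i => pd i Q.F t ^ 2) (fun i _ => sq_nonneg _)
      (Finset.mem_univ i)
  have hIc : Integrable (fun t => 2 * b * ∑ i, pd i Q.F t *
      (star ((e t) none) * (e t) (some (some i))).re) := by
    refine Integrable.const_mul (integrable_finsetSum _ fun i _ => ?_) _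
    refine Integrable.bdd_mul (c := Real.sqrt Q.C2) (int_mul e e none (some (some i))).re
      (agmon_pd_cont Q.sF i).aestronglyMeasurable
      (Filter.Eventually.of_forall fun t => hpdbd i t)
  have hIX : Integrable (fun t => (Q.q h t - lam) * ‖(e t) none‖ ^ 2 +
      ∑ i, ‖(e t) (some (some i))‖ ^ 2 +
      2 * b * ∑ i, pd i Q.F t * (star ((e t) none) * (e t) (some (some i))).re) := by
    refine ((?_ : Integrable (fun t => (Q.q h t - lam) * ‖(e t) none‖ ^ 2)).add hIi).add hIc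
    have h1 := hIs.sub (hI0.const_mul lam)
    refine h1.congr (Filter.Eventually.of_forall fun t => ?_)
    simp only [Pi.sub_apply]
    ring
  have hIG : Integrable (fun t => Real.exp (2 * (b / h) * Q.F t) *
      ((Q.q h t - lam) * ‖(e t) none‖ ^ 2 + ∑ i, ‖(e t) (some (some i))‖ ^ 2 +
      2 * b * ∑ i, pd i Q.F t * (star ((e t) none) * (e t) (some (some i))).re)) :=
    Integrable.bdd_mul (c := Real.exp (2 * b / h)) hIX hEcont.aestronglyMeasurable
      (Filter.Eventually.of_forall hEbd)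
  have hIT : Integrable (fun t => ‖(e t) none‖ ^ 2 + ∑ i, ‖(e t) (some (some i))‖ ^ 2) :=
    hI0.add hIi
  have hIT' : Integrable (Q.T.indicator (fun t => Real.exp (2 * b / h) *
      (‖(e t) none‖ ^ 2 + ∑ i, ‖(e t) (some (some i))‖ ^ 2))) :=
    (hIT.const_mul _).indicator Q.T_meas
  -- pointwise inequality
  have hpt : ∀ᵐ t, Q.T.indicator (fun t => Real.exp (2 * b / h) *
      (‖(e t) none‖ ^ 2 + ∑ i, ‖(e t) (some (some i))‖ ^ 2)) t - lam * ‖(e t) none‖ ^ 2 ≤
      Real.exp (2 * (b / h) * Q.F t) *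
      ((Q.q h t - lam) * ‖(e t) none‖ ^ 2 + ∑ i, ‖(e t) (some (some i))‖ ^ 2 +
      2 * b * ∑ i, pd i Q.F t * (star ((e t) none) * (e t) (some (some i))).re) := by
    filter_upwards [Q.Y_off he] with t ht
    have hn0 : 0 ≤ ‖(e t) none‖ ^ 2 := sq_nonneg _
    have hni : 0 ≤ ∑ i, ‖(e t) (some (some i))‖ ^ 2 := Finset.sum_nonneg fun i _ => sq_nonneg _
    by_cases hΩ : t ∈ P.Ω
    · by_cases hb : t ∈ Metric.ball P.c (P.l - Q.w)
      · have hT : t ∉ Q.T := fun hT => hT.2 (Q.ball_sub' hb)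
        rw [Set.indicator_of_notMem hT, Q.F_in t hb]
        have h1 : ∑ i, pd i Q.F t * (star ((e t) none) * (e t) (some (some i))).re = 0 :=
          Finset.sum_eq_zero fun i _ => by rw [Q.F_grad_in t hb i, zero_mul]
        rw [h1, mul_zero, mul_zero, Real.exp_zero, one_mul, add_zero, zero_sub]
        have := mul_nonneg (hq0 t) hn0
        nlinarith
      · have hqc := Q.q_collar (h := h) hΩ hb
        have hsq := agmon_sq (qq := Q.q h t) (lam := lam) (C2 := Q.C2) (f := fun i => pd i Q.F t)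
          (z0 := (e t) none) (z := fun i => (e t) (some (some i))) b0 (by linarith)
          (Q.F_grad_le t)
        by_cases hT : t ∈ Q.T
        · rw [Set.indicator_of_mem hT, Q.F_off t hT.2]
          have h1 : ∑ i, pd i Q.F t * (star ((e t) none) * (e t) (some (some i))).re = 0 :=
            Finset.sum_eq_zero fun i _ => by rw [Q.F_grad_off t hT.2 i, zero_mul]
          rw [h1, mul_zero, add_zero]
          have h2 : 2 * (b / h) * 1 = 2 * b / h := by ring
          rw [h2]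
          have h3 : ‖(e t) none‖ ^ 2 + ∑ i, ‖(e t) (some (some i))‖ ^ 2 ≤
              (Q.q h t - lam) * ‖(e t) none‖ ^ 2 + ∑ i, ‖(e t) (some (some i))‖ ^ 2 := by
            have : 1 ≤ Q.q h t - lam := by linarith
            nlinarith
          have h4 := mul_le_mul_of_nonneg_left h3 (Real.exp_pos (2 * b / h)).le
          have h5 : 0 ≤ lam * ‖(e t) none‖ ^ 2 := mul_nonneg l0 hn0
          linarith
        · rw [Set.indicator_of_notMem hT, zero_sub]
          have h5 : 0 ≤ lam * ‖(e t) none‖ ^ 2 := mul_nonneg l0 hn0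
          have h6 := mul_nonneg (Real.exp_pos (2 * (b / h) * Q.F t)).le (hn0.trans hsq)
          linarith
    · have hT : t ∉ Q.T := fun hT => hΩ (Q.T_sub hT)
      rw [Set.indicator_of_notMem hT, ht hΩ]
      simp
  -- integrate
  have hmono := integral_mono_ae (hIT'.sub (hI0.const_mul lam)) hIG hpt
  rw [hid] at hmono
  have hint : ∫ t, (Q.T.indicator (fun t => Real.exp (2 * b / h) *
      (‖(e t) none‖ ^ 2 + ∑ i, ‖(e t) (some (some i))‖ ^ 2)) - fun t => lam * ‖(e t) none‖ ^ 2) t =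
      Real.exp (2 * b / h) * (∫ t in Q.T, (‖(e t) none‖ ^ 2 +
        ∑ i, ‖(e t) (some (some i))‖ ^ 2)) - lam * ‖J e‖ ^ 2 := by
    rw [norm_sq_J, ← integral_const_mul, ← integral_const_mul]
    simp only [Pi.sub_apply]
    rw [integral_sub hIT' (hI0.const_mul lam), integral_indicator Q.T_meas]
  rw [hint] at hmono
  have hexp : Real.exp (-(2 * b / h)) * Real.exp (2 * b / h) = 1 := by
    rw [← Real.exp_add, neg_add_cancel, Real.exp_zero]
  have h7 : Real.exp (-(2 * b / h)) * (Real.exp (2 * b / h) * (∫ t in Q.T, (‖(e t) none‖ ^ 2 +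
        ∑ i, ‖(e t) (some (some i))‖ ^ 2))) ≤
      Real.exp (-(2 * b / h)) * (lam * ‖J e‖ ^ 2) :=
    mul_le_mul_of_nonneg_left (by linarith) (Real.exp_pos _).le
  rw [← mul_assoc, hexp, one_mul] at h7
  linarith

end Cut

end Pool.Agent.Lib.MP_c84763_mp.U
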