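import Pool.Agent.Lib.MP_c84763_mp.U.BlkEx

set_option autoImplicit false

namespace Pool.Agent.Lib.MP_c84763_mp.U

open MeasureTheory

open Classical in
/-- The operator on `X d` given by the block multiplier `blkFun α β γ dl`. -/
noncomputable def blk {d : ℕ} (α β γ : Sp d → ℂ) (dl : Fin d → Sp d → ℂ) : X d →L[ℂ] X d :=
  if h : BlkOK α β γ dl then (exists_blk h).choose else 0

theorem blk_ae {d : ℕ} {α β γ : Sp d → ℂ} {dl : Fin d → Sp d → ℂ} (h : BlkOK α β γ dl)
    (f : X d) :
    (blk α β γ dl f : Sp d → Vec d) =ᵐ[volume] fun x => blkFun α β γ dl x (f x) := by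
  unfold blk
  rw [dif_pos h]
  exact (exists_blk h).choose_spec f

theorem vec_none {d : ℕ} (z0 zs : ℂ) (z : Fin d → ℂ) : (vec z0 zs z) none = z0 := rfl

theorem vec_some_none {d : ℕ} (z0 zs : ℂ) (z : Fin d → ℂ) : (vec z0 zs z) (some none) = zs := rfl

theorem vec_some_some {d : ℕ} (z0 zs : ℂ) (z : Fin d → ℂ) (i : Fin d) :
    (vec z0 zs z) (some (some i)) = z i := rfl

theorem vec_ext {d : ℕ} {z w : Vec d} (h0 : z none = w none) (hs : z (some none) = w (some none))
    (hi : ∀ i, z (some (some i)) = w (some (some i))) : z = w := by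
  ext k
  match k with
  | none => exact h0
  | some none => exact hs
  | some (some i) => exact hi i

theorem J_ae {d : ℕ} (f : X d) :
    (J f : Sp d → ℂ) =ᵐ[volume] fun x => (f x) none := by
  unfold J
  exact ContinuousLinearMap.coeFn_compLpL _ _

end Pool.Agent.Lib.MP_c84763_mp.U
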