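import Pool.Agent.Lib.MP_c84763_mp.U.Defs

set_option autoImplicit false

namespace Pool.Agent.Lib.MP_c84763_mp.U

open MeasureTheory

private theorem BlkEx_apply {d : ℕ} (α β γ : Sp d → ℂ) (dl : Fin d → Sp d → ℂ) (x : Sp d)
    (z : Vec d) :
    (blkFun α β γ dl x z) none = α x * z none ∧
    (blkFun α β γ dl x z) (some none) = β x * z (some none) ∧
    ∀ i, (blkFun α β γ dl x z) (some (some i)) = γ x * z (some (some i)) + dl i x * z none :=
  ⟨rfl, rfl, fun _ => rfl⟩

private theorem BlkEx_bound {d : ℕ} {α β γ : Sp d → ℂ} {dl : Fin d → Sp d → ℂ} {C : ℝ} (x : Sp d)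
    (h : ‖α x‖ ≤ C ∧ ‖β x‖ ≤ C ∧ ‖γ x‖ ≤ C ∧ ∀ i, ‖dl i x‖ ≤ C) (z : Vec d) :
    ‖blkFun α β γ dl x z‖ ≤ (Fintype.card (Idx d) * (2 * C)) * ‖z‖ := by
  obtain ⟨h1, h2, h3, h4⟩ := h
  have hC : 0 ≤ C := (norm_nonneg _).trans h1
  have hz : ∀ k, ‖z k‖ ≤ ‖z‖ := fun k => PiLp.norm_apply_le z k
  have hprod : ∀ (a : ℂ) (k : Idx d), ‖a‖ ≤ C → ‖a * z k‖ ≤ C * ‖z‖ := by
    intro a k ha
    rw [norm_mul]
    exact mul_le_mul ha (hz k) (norm_nonneg _) hC
  have hCz : 0 ≤ C * ‖z‖ := mul_nonneg hC (norm_nonneg _)
  have hk : ∀ k, ‖(blkFun α β γ dl x z) k‖ ≤ 2 * C * ‖z‖ := by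
    obtain ⟨e1, e2, e3⟩ := BlkEx_apply α β γ dl x z
    intro k
    match k with
    | none =>
      rw [e1]
      have := hprod (α x) none h1
      linarith
    | some none =>
      rw [e2]
      have := hprod (β x) (some none) h2
      linarith
    | some (some i) =>
      rw [e3]
      have a1 := hprod (γ x) (some (some i)) h3
      have a2 := hprod (dl i x) none (h4 i)
      have a3 := norm_add_le (γ x * z (some (some i))) (dl i x * z none)
      linarith
  have h5 : ‖blkFun α β γ dl x z‖ ^ 2 ≤ ((Fintype.card (Idx d) * (2 * C)) * ‖z‖) ^ 2 := by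
    rw [EuclideanSpace.norm_sq_eq]
    have h6 : ∑ k, ‖(blkFun α β γ dl x z) k‖ ^ 2 ≤ ∑ _k : Idx d, (2 * C * ‖z‖) ^ 2 :=
      Finset.sum_le_sum fun k _ => pow_le_pow_left₀ (norm_nonneg _) (hk k) 2
    refine h6.trans ?_
    rw [Finset.sum_const, nsmul_eq_mul, Finset.card_univ]
    have h7 : (1 : ℝ) ≤ Fintype.card (Idx d) := by
      exact_mod_cast Fintype.card_pos
    have h8 : 0 ≤ (2 * C * ‖z‖) ^ 2 := sq_nonneg _
    have h9 : (Fintype.card (Idx d) : ℝ) ≤ (Fintype.card (Idx d) : ℝ) ^ 2 := by nlinarith
    calc (Fintype.card (Idx d) : ℝ) * (2 * C * ‖z‖) ^ 2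
        ≤ (Fintype.card (Idx d) : ℝ) ^ 2 * (2 * C * ‖z‖) ^ 2 := mul_le_mul_of_nonneg_right h9 h8
      _ = _ := by ring
  refine le_of_sq_le_sq h5 ?_
  positivity

private theorem BlkEx_meas {d : ℕ} {α β γ : Sp d → ℂ} {dl : Fin d → Sp d → ℂ} (h : BlkOK α β γ dl)
    {f : Sp d → Vec d} (hf : AEStronglyMeasurable f (volume : Measure (Sp d))) :
    AEStronglyMeasurable (fun x => blkFun α β γ dl x (f x)) (volume : Measure (Sp d)) := by
  have hk : ∀ k, AEMeasurable (fun x => (f x) k) (volume : Measure (Sp d)) := by
    intro k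
    have hcont : Continuous fun z : Vec d => z k := (EuclideanSpace.proj k : Vec d →L[ℂ] ℂ).continuous
    exact (hcont.comp_aestronglyMeasurable hf).aemeasurable
  have h1 : AEMeasurable (fun x => (fun k : Idx d => (match k with
      | none => α x * (f x) none
      | some none => β x * (f x) (some none)
      | some (some i) => γ x * (f x) (some (some i)) + dl i x * (f x) none : ℂ)))
      (volume : Measure (Sp d)) := by
    rw [aemeasurable_pi_iff]
    intro k
    match k with
    | none => exact h.mα.aemeasurable.mul (hk none)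
    | some none => exact h.mβ.aemeasurable.mul (hk (some none))
    | some (some i) =>
      exact (h.mγ.aemeasurable.mul (hk (some (some i)))).add ((h.md i).aemeasurable.mul (hk none))
  have h2 : Continuous (fun g : Idx d → ℂ => (WithLp.toLp 2 g : Vec d)) :=
    PiLp.continuous_toLp 2 _
  exact h2.comp_aestronglyMeasurable h1.aestronglyMeasurable

/-- Bounded measurable block multipliers act on `X d`.
Proof sketch: pointwise `‖blkFun α β γ dl x z‖ ≤ C' ‖z‖` (with `C' = 2 (d+2) (|C|+1)`, say);
`x ↦ blkFun α β γ dl x (f x)` is a.e. strongly measurable (componentwise: `EuclideanSpace` is a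
finite product, use `WithLp.toLp` continuity and measurability of each component); so
`MemLp.of_le_mul`; define the map by `MemLp.toLp`, linear by a.e. equality, and
`LinearMap.mkContinuous` with `Lp.norm_le_mul_norm_of_ae_le_mul`. -/
theorem exists_blk {d : ℕ} {α β γ : Sp d → ℂ} {dl : Fin d → Sp d → ℂ} (h : BlkOK α β γ dl) :
    ∃ T : X d →L[ℂ] X d, ∀ f : X d,
      (T f : Sp d → Vec d) =ᵐ[volume] fun x => blkFun α β γ dl x (f x) := by
  obtain ⟨C, hC⟩ := h.bd
  have hmem : ∀ f : X d, MemLp (fun x => blkFun α β γ dl x (f x)) 2 (volume : Measure (Sp d)) := by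
    intro f
    exact (Lp.memLp f).of_le_mul (c := Fintype.card (Idx d) * (2 * C))
      (BlkEx_meas h (Lp.memLp f).1) (Filter.Eventually.of_forall fun x => BlkEx_bound x (hC x) _)
  let L : X d →ₗ[ℂ] X d :=
    { toFun := fun f => (hmem f).toLp _
      map_add' := by
        intro f g
        rw [← MemLp.toLp_add]
        apply MemLp.toLp_congr
        filter_upwards [Lp.coeFn_add f g] with x hx
        rw [hx]
        ext k
        match k with
        | none =>
          show α x * (f x none + g x none) = α x * f x none + α x * g x none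
          ring
        | some none =>
          show β x * (f x (some none) + g x (some none)) =
            β x * f x (some none) + β x * g x (some none)
          ring
        | some (some i) =>
          show γ x * (f x (some (some i)) + g x (some (some i))) + dl i x * (f x none + g x none) =
            (γ x * f x (some (some i)) + dl i x * f x none) +
              (γ x * g x (some (some i)) + dl i x * g x none)
          ring
      map_smul' := by
        intro c f
        rw [RingHom.id_apply, ← MemLp.toLp_const_smul]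
        apply MemLp.toLp_congr
        filter_upwards [Lp.coeFn_smul c f] with x hx
        rw [hx]
        ext k
        match k with
        | none =>
          show α x * (c * f x none) = c * (α x * f x none)
          ring
        | some none =>
          show β x * (c * f x (some none)) = c * (β x * f x (some none))
          ring
        | some (some i) =>
          show γ x * (c * f x (some (some i))) + dl i x * (c * f x none) =
            c * (γ x * f x (some (some i)) + dl i x * f x none)
          ring }
  refine ⟨L.mkContinuous (Fintype.card (Idx d) * (2 * C)) fun f => ?_, fun f => ?_⟩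
  · refine Lp.norm_le_mul_norm_of_ae_le_mul ?_
    filter_upwards [(hmem f).coeFn_toLp] with x hx
    show ‖((hmem f).toLp _ : Sp d → Vec d) x‖ ≤ _
    rw [hx]
    exact BlkEx_bound x (hC x) _
  · exact (hmem f).coeFn_toLp

end Pool.Agent.Lib.MP_c84763_mp.U
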