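import Pool.Agent.Lib.MP_c84763_mp.U.Defs

set_option autoImplicit false

namespace Pool.Agent.Lib.MP_c84763_mp.U

open MeasureTheory
open scoped ContDiff ENNReal

/-- The model bump. -/
private noncomputable def bpaB (d : ℕ) : ContDiffBump (0 : Sp d) :=
  ⟨1 / 8, 1 / 4, by norm_num, by norm_num⟩

private noncomputable def bpaG (d : ℕ) (x : Sp d) : ℂ := ((bpaB d x : ℝ) : ℂ)

private theorem bpaG_smooth (d : ℕ) : ContDiff ℝ ∞ (bpaG d) :=
  Complex.ofRealCLM.contDiff.comp (bpaB d).contDiff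

private theorem bpaG_tsupport (d : ℕ) : tsupport (bpaG d) ⊆ Metric.closedBall 0 (1 / 4) := by
  have h : tsupport (bpaB d) = Metric.closedBall 0 (1 / 4) := (bpaB d).tsupport_eq
  rw [← h]
  apply closure_mono
  intro x hx
  simp only [Function.mem_support, ne_eq, bpaG, Complex.ofReal_eq_zero] at hx ⊢
  exact hx

private theorem bpaG_cpt (d : ℕ) : HasCompactSupport (bpaG d) :=
  (isCompact_closedBall (0 : Sp d) (1 / 4)).of_isClosed_subset (isClosed_tsupport _)
    (bpaG_tsupport d)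

private theorem bpaG_pos (d : ℕ) : 0 < ∫ x, ‖bpaG d x‖ ^ 2 := by
  have hc : Continuous (fun x => ‖bpaG d x‖ ^ 2) := by
    have := (bpaG_smooth d).continuous
    fun_prop
  have hs : HasCompactSupport (fun x => ‖bpaG d x‖ ^ 2) := by
    apply (bpaG_cpt d).mono
    intro x hx
    simp only [Function.mem_support, ne_eq] at hx ⊢
    intro h
    apply hx
    rw [h]; simp
  have hi := hc.integrable_of_hasCompactSupport hs (μ := volume)
  rw [integral_pos_iff_support_of_nonneg (fun x => by positivity) hi]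
  have ho : IsOpen (Function.support (fun x => ‖bpaG d x‖ ^ 2)) := hc.isOpen_support
  refine ho.measure_pos volume ⟨0, ?_⟩
  simp only [Function.mem_support, ne_eq]
  have : bpaB d 0 = 1 := (bpaB d).one_of_mem_closedBall (by
    simp [bpaB])
  simp [bpaG, this]

private theorem bpa_int {d : ℕ} (f : Sp d → ℝ) (R : ℝ) (hR : 0 < R) (a : Sp d) :
    ∫ x, f (R • (x - a)) = (R ^ d)⁻¹ * ∫ x, f x := by
  rw [integral_sub_right_eq_self (fun x => f (R • x)) a, Measure.integral_comp_smul]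
  simp only [Module.finrank_fintype_fun_eq_card, Fintype.card_fin, smul_eq_mul]
  rw [abs_of_nonneg (by positivity)]

private theorem bpa_pd {d : ℕ} (i : Fin d) (R : ℝ) (a x : Sp d) :
    pd i (fun x => bpaG d (R • (x - a))) x = (R : ℂ) * pd i (bpaG d) (R • (x - a)) := by
  have h1 : HasFDerivAt (fun x : Sp d => R • (x - a)) (R • ContinuousLinearMap.id ℝ (Sp d)) x :=
    ((hasFDerivAt_id x).sub_const a).const_smul R
  have h2 : HasFDerivAt (bpaG d) (fderiv ℝ (bpaG d) (R • (x - a))) (R • (x - a)) :=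
    ((bpaG_smooth d).differentiable (by simp) _).hasFDerivAt
  have h3 := h2.comp x h1
  unfold pd
  have h4 : fderiv ℝ (fun x => bpaG d (R • (x - a))) x =
    (fderiv ℝ (bpaG d) (R • (x - a))).comp (R • ContinuousLinearMap.id ℝ (Sp d)) := h3.fderiv
  rw [h4]
  simp

private noncomputable def bpaX {d : ℕ} (c : Sp d) (l : ℝ) (m : ℕ) (k : Fin d → Fin m) : Sp d :=
  fun j => c j - l / 2 + ((k j : ℕ) + 1 / 2) * (l / m)

/-- Disjoint scaled bumps: `g_k x = g0 ((m/l) (x - x_k))`, `x_k = c - l/2 + (k + 1/2) l/m`, `g0` a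
smooth bump supported in the closed ball of radius `1/4` (sup norm; `ContDiffBump`). -/
theorem exists_bumps (d : ℕ) : ∃ Cb : ℝ, 0 < Cb ∧ ∀ (c : Sp d) (l : ℝ), 0 < l → ∀ m : ℕ, 1 ≤ m →
    ∃ g : (Fin d → Fin m) → Sp d → ℂ, (∀ k, IsTest (g k)) ∧
      (∀ k, tsupport (g k) ⊆ Metric.ball c (l / 2)) ∧
      (∀ k k', k ≠ k' → Disjoint (tsupport (g k)) (tsupport (g k'))) ∧
      (∀ k, 0 < ∫ x, ‖g k x‖ ^ 2) ∧
      ∀ k, ∑ i, ∫ x, ‖pd i (g k) x‖ ^ 2 ≤ Cb * (m / l) ^ 2 * ∫ x, ‖g k x‖ ^ 2 := by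
  set I0 : ℝ := ∫ x, ‖bpaG d x‖ ^ 2 with hI0
  set I1 : ℝ := ∑ i, ∫ x, ‖pd i (bpaG d) x‖ ^ 2 with hI1
  have hI0p : 0 < I0 := bpaG_pos d
  have hI1p : 0 ≤ I1 := Finset.sum_nonneg fun i _ => integral_nonneg fun x => by positivity
  refine ⟨I1 / I0 + 1, by positivity, ?_⟩
  intro c l hl m hm
  have hm' : (0 : ℝ) < m := by exact_mod_cast hm
  have hR : 0 < (m : ℝ) / l := by positivity
  have hsup : ∀ k : Fin d → Fin m,
      tsupport (fun x => bpaG d (((m : ℝ) / l) • (x - bpaX c l m k))) ⊆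
        Metric.closedBall (bpaX c l m k) (l / (4 * m)) := by
    intro k
    apply closure_minimal _ Metric.isClosed_closedBall
    intro x hx
    have h1 : ((m : ℝ) / l) • (x - bpaX c l m k) ∈ Metric.closedBall (0 : Sp d) (1 / 4) :=
      bpaG_tsupport d (subset_tsupport _ hx)
    rw [mem_closedBall_zero_iff, norm_smul, Real.norm_of_nonneg hR.le] at h1
    rw [mem_closedBall_iff_norm]
    rw [le_div_iff₀ (by positivity)]
    rw [div_mul_eq_mul_div, div_le_iff₀ hl] at h1
    nlinarith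
  refine ⟨fun k x => bpaG d (((m : ℝ) / l) • (x - bpaX c l m k)), ?_, ?_, ?_, ?_, ?_⟩
  · intro k
    refine ⟨(bpaG_smooth d).comp (by fun_prop), ?_⟩
    exact (isCompact_closedBall (bpaX c l m k) (l / (4 * m))).of_isClosed_subset
      (isClosed_tsupport _) (hsup k)
  · intro k
    refine (hsup k).trans ?_
    apply Metric.closedBall_subset_ball'
    have : dist (bpaX c l m k) c ≤ (1 / 2 - 1 / (2 * m)) * l := by
      have h0 : (0 : ℝ) ≤ (1 / 2 - 1 / (2 * m)) := by
        have : (1 : ℝ) ≤ m := by exact_mod_cast hm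
        rw [sub_nonneg]
        apply one_div_le_one_div_of_le (by norm_num); linarith
      rw [dist_pi_le_iff (by positivity)]
      intro j
      rw [Real.dist_eq]
      have hk0 : (0 : ℝ) ≤ (k j : ℕ) := by positivity
      have hk1 : ((k j : ℕ) : ℝ) + 1 ≤ m := by exact_mod_cast (k j).2
      have e : bpaX c l m k j - c j = (((k j : ℕ) + 1 / 2) / m - 1 / 2) * l := by
        unfold bpaX; field_simp; ring
      rw [e, abs_mul, abs_of_pos hl]
      apply mul_le_mul_of_nonneg_right _ hl.le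
      rw [abs_le]
      constructor
      · have : 0 ≤ ((k j : ℕ) : ℝ) / m := by positivity
        have e2 : (((k j : ℕ) : ℝ) + 1 / 2) / m - 1 / 2 =
          ((k j : ℕ) : ℝ) / m + 1 / (2 * m) - 1 / 2 := by field_simp
        rw [e2]; linarith
      · have : (((k j : ℕ) : ℝ) + 1) / m ≤ 1 := by
          rw [div_le_one hm']; exact hk1
        have e2 : (((k j : ℕ) : ℝ) + 1 / 2) / m - 1 / 2 =
          (((k j : ℕ) : ℝ) + 1) / m - 1 / (2 * m) - 1 / 2 := by field_simp; ring
        rw [e2]; linarith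
    have h2 : l / (4 * m) + (1 / 2 - 1 / (2 * m)) * l = l / 2 - l / (4 * m) := by
      field_simp; ring
    have h3 : 0 < l / (4 * m) := by positivity
    linarith
  · intro k k' hkk
    refine Disjoint.mono (hsup k) (hsup k') ?_
    apply Metric.closedBall_disjoint_closedBall
    obtain ⟨j, hj⟩ : ∃ j, k j ≠ k' j := by
      by_contra h
      push Not at h
      exact hkk (funext h)
    have h1 : dist (bpaX c l m k j) (bpaX c l m k' j) ≤ dist (bpaX c l m k) (bpaX c l m k') :=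
      dist_le_pi_dist _ _ j
    have h2 : (1 : ℝ) ≤ |((k j : ℕ) : ℝ) - ((k' j : ℕ) : ℝ)| := by
      have hne : ((k j : ℕ) : ℤ) - ((k' j : ℕ) : ℤ) ≠ 0 := by
        intro h
        apply hj
        apply Fin.ext
        omega
      have := Int.one_le_abs hne
      exact_mod_cast this
    have e : bpaX c l m k j - bpaX c l m k' j =
        (((k j : ℕ) : ℝ) - ((k' j : ℕ) : ℝ)) * (l / m) := by
      unfold bpaX; ring
    rw [Real.dist_eq, e, abs_mul, abs_of_pos (by positivity : 0 < l / m)] at h1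
    have h3 : l / m ≤ |((k j : ℕ) : ℝ) - ((k' j : ℕ) : ℝ)| * (l / m) :=
      le_mul_of_one_le_left (by positivity) h2
    have h4 : l / (4 * m) + l / (4 * m) = (l / m) / 2 := by field_simp; ring
    have h5 : 0 < l / m := by positivity
    linarith
  · intro k
    have := bpa_int (fun x => ‖bpaG d x‖ ^ 2) ((m : ℝ) / l) hR (bpaX c l m k)
    rw [this]
    positivity
  · intro k
    have h0 := bpa_int (fun x => ‖bpaG d x‖ ^ 2) ((m : ℝ) / l) hR (bpaX c l m k)
    rw [h0]
    have h1 : ∀ i : Fin d, ∫ x, ‖pd i (fun x => bpaG d (((m : ℝ) / l) • (x - bpaX c l m k))) x‖ ^ 2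
        = ((m : ℝ) / l) ^ 2 * ((((m : ℝ) / l) ^ d)⁻¹ * ∫ x, ‖pd i (bpaG d) x‖ ^ 2) := by
      intro i
      rw [← bpa_int (fun x => ‖pd i (bpaG d) x‖ ^ 2) ((m : ℝ) / l) hR (bpaX c l m k),
        ← integral_const_mul]
      apply integral_congr_ae
      filter_upwards with x
      rw [bpa_pd, norm_mul, mul_pow]
      congr 2
      rw [Complex.norm_real, Real.norm_of_nonneg hR.le]
    rw [Finset.sum_congr rfl (fun i _ => h1 i), ← Finset.mul_sum, ← Finset.mul_sum, ← hI1, ← hI0]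
    have h2 : I1 ≤ (I1 / I0 + 1) * I0 := by
      rw [add_mul, div_mul_cancel₀ _ hI0p.ne']
      linarith
    have h3 : (I1 / I0 + 1) * ((m : ℝ) / l) ^ 2 * ((((m : ℝ) / l) ^ d)⁻¹ * I0) =
        ((m : ℝ) / l) ^ 2 * ((((m : ℝ) / l) ^ d)⁻¹ * ((I1 / I0 + 1) * I0)) := by ring
    rw [h3]
    gcongr

end Pool.Agent.Lib.MP_c84763_mp.U
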