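import Pool.Agent.Lib.MP_c84763_mp.U.Par

set_option autoImplicit false

namespace Pool.Agent.Lib.MP_c84763_mp.U

open MeasureTheory
open scoped ContDiff ENNReal

namespace Base

variable {d : ℕ} (P : Base d)

theorem Ω_open : IsOpen P.Ω := Metric.isOpen_ball

theorem Ω_meas : MeasurableSet P.Ω := P.Ω_open.measurableSet

theorem v_notin {x : Sp d} (hx : x ∉ P.Ω) : P.v x = 0 := P.v_off x hx

theorem V1_in {x : Sp d} (hx : x ∈ P.Ω) : P.V1 x = (P.a : ℂ) * Complex.I := by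
  simp [V1, hx]

theorem V1_notin {x : Sp d} (hx : x ∉ P.Ω) : P.V1 x = P.V0 x := by
  simp [V1, hx]

end Base

namespace Cut

variable {d : ℕ} {P : Base d} {M : ℝ} (Q : Cut P M)

theorem ball_sub : Metric.ball P.c (P.l / 2) ⊆ Metric.ball P.c (P.l - Q.w / 2) :=
  Metric.ball_subset_ball (by have := Q.w_le; have := P.l_pos; linarith)

theorem ball_sub' : Metric.ball P.c (P.l - Q.w) ⊆ Metric.ball P.c (P.l - Q.w / 2) :=
  Metric.ball_subset_ball (by have := Q.w_pos; linarith)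

theorem ball_sub_Ω : Metric.ball P.c (P.l - Q.w / 2) ⊆ P.Ω :=
  Metric.ball_subset_ball (by have := Q.w_pos; linarith)

theorem T_sub : Q.T ⊆ P.Ω := Set.sdiff_subset

theorem T_meas : MeasurableSet Q.T := P.Ω_meas.diff Metric.isOpen_ball.measurableSet

theorem κ_nonneg (h : ℝ) : 0 ≤ Q.κ h := mul_nonneg (sq_nonneg h) Q.C1_pos.le

theorem v_T {x : Sp d} (hx : x ∈ Q.T) : M ≤ P.v x :=
  Q.big x hx.1 (fun h => hx.2 (Q.ball_sub' h))

theorem q_meas (h : ℝ) : Measurable (Q.q h) :=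
  P.mv.sub (measurable_const.indicator Q.T_meas)

theorem q_notT {h : ℝ} {x : Sp d} (hx : x ∉ Q.T) : Q.q h x = P.v x := by
  simp [q, hx]

theorem q_T {h : ℝ} {x : Sp d} (hx : x ∈ Q.T) : Q.q h x = P.v x - Q.κ h := by
  simp [q, hx]

theorem q_off {h : ℝ} {x : Sp d} (hx : x ∉ P.Ω) : Q.q h x = 0 := by
  rw [Q.q_notT (fun h => hx (Q.T_sub h)), P.v_notin hx]

theorem q_in {h : ℝ} {x : Sp d} (hx : x ∈ Metric.ball P.c (P.l / 2)) : Q.q h x = 0 := by
  rw [Q.q_notT (fun h => h.2 (Q.ball_sub hx)), P.v_in x hx]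

theorem q_nonneg {h : ℝ} (hM : Q.κ h ≤ M) (x : Sp d) : 0 ≤ Q.q h x := by
  by_cases hx : x ∈ Q.T
  · rw [Q.q_T hx]
    have := Q.v_T hx
    linarith
  · rw [Q.q_notT hx]
    exact P.v_nonneg x

theorem q_le (h : ℝ) (x : Sp d) : Q.q h x ≤ P.v x := by
  by_cases hx : x ∈ Q.T
  · rw [Q.q_T hx]
    have := Q.κ_nonneg h
    linarith
  · rw [Q.q_notT hx]

theorem v_le {h : ℝ} (hM : 2 * Q.κ h ≤ M) (x : Sp d) : P.v x ≤ 2 * Q.q h x := by
  by_cases hx : x ∈ Q.T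
  · rw [Q.q_T hx]
    have := Q.v_T hx
    linarith
  · rw [Q.q_notT hx]
    have := P.v_nonneg x
    linarith

theorem q_collar {h : ℝ} {x : Sp d} (hx : x ∈ P.Ω) (hx' : x ∉ Metric.ball P.c (P.l - Q.w)) :
    M - Q.κ h ≤ Q.q h x := by
  have h1 := Q.big x hx hx'
  by_cases hT : x ∈ Q.T
  · rw [Q.q_T hT]; linarith
  · rw [Q.q_notT hT]
    have := Q.κ_nonneg h
    linarith

theorem χ_abs (x : Sp d) : |Q.χ x| ≤ 1 := by
  rw [← sq_le_one_iff_abs_le_one]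
  nlinarith [Q.χη x, sq_nonneg (Q.η x)]

theorem η_abs (x : Sp d) : |Q.η x| ≤ 1 := by
  rw [← sq_le_one_iff_abs_le_one]
  nlinarith [Q.χη x, sq_nonneg (Q.χ x)]

theorem η_in {x : Sp d} (hx : x ∈ Metric.ball P.c (P.l - Q.w / 2)) : Q.η x = 0 := by
  have := Q.χη x
  rw [Q.χ_in x hx] at this
  have h2 : Q.η x ^ 2 = 0 := by linarith
  exact pow_eq_zero_iff (two_ne_zero) |>.1 h2

theorem grad_T {x : Sp d} (hx : x ∉ Q.T) (i : Fin d) : pd i Q.χ x = 0 ∧ pd i Q.η x = 0 := by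
  by_cases h1 : x ∈ P.Ω
  · have h2 : x ∈ Metric.ball P.c (P.l - Q.w / 2) := by
      by_contra h3
      exact hx ⟨h1, h3⟩
    exact Q.grad_in x h2 i
  · exact Q.grad_off x h1 i

theorem pd_χ_sq (x : Sp d) : ∑ i, pd i Q.χ x ^ 2 ≤ Q.C1 := by
  refine le_trans (Finset.sum_le_sum fun i _ => ?_) (Q.grad_le x)
  nlinarith [sq_nonneg (pd i Q.η x)]

theorem pd_χ_abs (x : Sp d) (i : Fin d) : |pd i Q.χ x| ≤ Real.sqrt Q.C1 := by
  rw [← Real.sqrt_sq_eq_abs]
  apply Real.sqrt_le_sqrt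
  refine le_trans ?_ (Q.pd_χ_sq x)
  exact Finset.single_le_sum (f := fun i => pd i Q.χ x ^ 2) (fun i _ => sq_nonneg _)
    (Finset.mem_univ i)

theorem tsupport_χ : tsupport Q.χ ⊆ P.Ω := by
  have h1 : tsupport Q.χ ⊆ Metric.closedBall P.c (P.l - Q.w / 4) := by
    apply closure_minimal _ Metric.isClosed_closedBall
    intro x hx
    by_contra h2
    apply hx
    exact Q.χ_off x (fun h3 => h2 (Metric.ball_subset_closedBall h3))
  refine h1.trans (Metric.closedBall_subset_ball ?_)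
  have := Q.w_pos
  linarith

theorem χη_grad (x : Sp d) (i : Fin d) :
    Q.χ x * pd i Q.χ x + Q.η x * pd i Q.η x = 0 := by
  have h1 : HasFDerivAt Q.χ (fderiv ℝ Q.χ x) x :=
    ((Q.sχ.differentiable (by simp)) x).hasFDerivAt
  have h2 : HasFDerivAt Q.η (fderiv ℝ Q.η x) x :=
    ((Q.sη.differentiable (by simp)) x).hasFDerivAt
  have h3 := (h1.mul h1).add (h2.mul h2)
  have h5 : HasFDerivAt (fun _ : Sp d => (1 : ℝ)) (0 : Sp d →L[ℝ] ℝ) x := hasFDerivAt_const _ _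
  have h3' : HasFDerivAt (fun _ : Sp d => (1 : ℝ))
      ((Q.χ x • fderiv ℝ Q.χ x + Q.χ x • fderiv ℝ Q.χ x) +
        (Q.η x • fderiv ℝ Q.η x + Q.η x • fderiv ℝ Q.η x)) x := by
    refine h3.congr_of_eventuallyEq (Filter.Eventually.of_forall fun y => ?_)
    have := Q.χη y
    simp only [Pi.add_apply, Pi.mul_apply]
    nlinarith
  have h6 := h3'.unique h5
  have h7 := congrArg (fun L : Sp d →L[ℝ] ℝ => L (Pi.single i 1)) h6
  simp only [ContinuousLinearMap.add_apply, ContinuousLinearMap.smul_apply, smul_eq_mul,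
    ContinuousLinearMap.zero_apply] at h7
  simp only [pd]
  linarith

end Cut

end Pool.Agent.Lib.MP_c84763_mp.U
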