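import Pool.Agent.Lib.MP_c84763_mp.U.InnerJ

set_option autoImplicit false

namespace Pool.Agent.Lib.MP_c84763_mp.U

open MeasureTheory
open scoped ContDiff ENNReal

theorem isClosed_Dom {d : ℕ} (h : ℝ) (q : Sp d → ℝ) (U : Set (Sp d)) :
    IsClosed (Dom h q U : Set (X d)) :=
  Submodule.isClosed_topologicalClosure _

private theorem DomA_pd_cont {d : ℕ} {f : Sp d → ℂ} (hf : IsTest f) (i : Fin d) :
    Continuous (pd i f) := by
  unfold pd
  exact (hf.smooth.continuous_fderiv (by simp)).clm_apply continuous_const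

private theorem DomA_pd_cpt {d : ℕ} {f : Sp d → ℂ} (hf : IsTest f) (i : Fin d) :
    HasCompactSupport (pd i f) := by
  unfold pd
  exact (hf.cpt.fderiv (𝕜 := ℝ)).comp_left (g := fun L : Sp d →L[ℝ] ℂ => L (Pi.single i 1)) (by simp)

private theorem DomA_int {d : ℕ} {g : Sp d → ℂ} (hg : Continuous g) (hc : HasCompactSupport g) :
    Integrable (fun x => ‖g x‖ ^ 2) := by
  have h1 : HasCompactSupport ((fun z : ℂ => ‖z‖ ^ 2) ∘ g) :=
    hc.comp_left (g := fun z : ℂ => ‖z‖ ^ 2) (by simp)
  have h2 : Continuous ((fun z : ℂ => ‖z‖ ^ 2) ∘ g) := (continuous_norm.pow 2).comp hg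
  exact h2.integrable_of_hasCompactSupport h1

private theorem DomA_memLp {d : ℕ} {h : ℝ} {q : Sp d → ℝ} (q0 : ∀ x, 0 ≤ q x)
    (qi : Integrable q) {f : Sp d → ℂ} (hf : IsTest f) : MemLp (jet h q f) 2 volume := by
  have hmeas : AEStronglyMeasurable (jet h q f) volume := by
    have h1 : AEMeasurable (fun x => (fun k : Idx d => (jet h q f x) k)) volume := by
      refine aemeasurable_pi_iff.2 fun k => ?_
      match k with
      | none => exact hf.smooth.continuous.aemeasurable
      | some none =>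
        refine AEMeasurable.mul ?_ hf.smooth.continuous.aemeasurable
        exact Complex.measurable_ofReal.comp_aemeasurable
          (Real.continuous_sqrt.measurable.comp_aemeasurable qi.aemeasurable)
      | some (some i) => exact ((DomA_pd_cont hf i).aemeasurable).const_mul _
    have h2 := (PiLp.continuous_toLp 2 (fun _ : Idx d => ℂ)).comp_aestronglyMeasurable
      h1.aestronglyMeasurable
    exact h2
  rw [memLp_two_iff_integrable_sq_norm hmeas]
  have hsq : ∀ x, ‖jet h q f x‖ ^ 2 =
      ‖f x‖ ^ 2 + (q x * ‖f x‖ ^ 2 + ∑ i, h ^ 2 * ‖pd i f x‖ ^ 2) := by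
    intro x
    rw [EuclideanSpace.norm_sq_eq, Fintype.sum_option, Fintype.sum_option]
    have e1 : (jet h q f x) none = f x := rfl
    have e2 : (jet h q f x) (some none) = (Real.sqrt (q x) : ℂ) * f x := rfl
    have e3 : ∀ i, (jet h q f x) (some (some i)) = (h : ℂ) * pd i f x := fun _ => rfl
    simp only [e1, e2, e3, norm_mul, Complex.norm_real, mul_pow, Real.norm_eq_abs, sq_abs,
      Real.sq_sqrt (q0 x)]
  simp only [hsq]
  have hfi := DomA_int hf.smooth.continuous hf.cpt
  obtain ⟨M, hM⟩ := hf.cpt.exists_bound_of_continuous hf.smooth.continuous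
  refine hfi.add (Integrable.add ?_ (integrable_finsetSum _ fun i _ =>
    (DomA_int (DomA_pd_cont hf i) (DomA_pd_cpt hf i)).const_mul _))
  refine qi.mul_bdd (c := M ^ 2) (hf.smooth.continuous.norm.pow 2).aestronglyMeasurable
    (Filter.Eventually.of_forall fun x => ?_)
  rw [Real.norm_of_nonneg (by positivity)]
  exact pow_le_pow_left₀ (norm_nonneg _) (hM x) 2

/-- Jets of test functions supported in `U` lie in `Dom h q U` when `q ≥ 0` is integrable
(the jet is in `L²`: `q |f|²` is integrable as `f` is bounded, `f` and `∂_i f` are continuous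
with compact support). -/
theorem jet_mem {d : ℕ} {h : ℝ} {q : Sp d → ℝ} {U : Set (Sp d)} (q0 : ∀ x, 0 ≤ q x)
    (qi : Integrable q) {f : Sp d → ℂ} (hf : IsTest f) (hU : tsupport f ⊆ U) :
    ∃ x ∈ Dom h q U, (x : Sp d → Vec d) =ᵐ[volume] jet h q f := by
  have hm := DomA_memLp (h := h) q0 qi hf
  exact ⟨hm.toLp _, Submodule.le_topologicalClosure _
    (Submodule.subset_span ⟨f, hf, hU, hm.coeFn_toLp⟩), hm.coeFn_toLp⟩

end Pool.Agent.Lib.MP_c84763_mp.U
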