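import Pool.Agent.Lib.MP_c84763_mp.U.BpA
import Pool.Agent.Lib.MP_c84763_mp.U.CutL
import Pool.Agent.Lib.MP_c84763_mp.U.DomA

set_option autoImplicit false

namespace Pool.Agent.Lib.MP_c84763_mp.U

open MeasureTheory
open scoped ContDiff ENNReal

private theorem BpB_orth {E ι : Type*} [NormedAddCommGroup E] [InnerProductSpace ℂ E] [Fintype ι]
    (x : ι → E) (hx : ∀ i j, i ≠ j → (inner ℂ (x i) (x j) : ℂ) = 0) (c : ι → ℂ) :
    ‖∑ i, c i • x i‖ ^ 2 = ∑ i, ‖c i‖ ^ 2 * ‖x i‖ ^ 2 := by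
  classical
  rw [← inner_self_eq_norm_sq (𝕜 := ℂ), sum_inner, map_sum]
  refine Finset.sum_congr rfl fun i _ => ?_
  rw [inner_sum, Finset.sum_eq_single i]
  · rw [inner_smul_left, inner_smul_right, inner_self_eq_norm_sq_to_K, ← mul_assoc,
      mul_comm ((starRingEnd ℂ) (c i)), Complex.mul_conj, Complex.normSq_eq_norm_sq]
    have : ((‖c i‖ ^ 2 : ℝ) : ℂ) * ((‖x i‖ : ℝ) : ℂ) ^ 2 = ((‖c i‖ ^ 2 * ‖x i‖ ^ 2 : ℝ) : ℂ) := by
      push_cast
      ring
    exact (congrArg RCLike.re this).trans (Complex.ofReal_re _)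
  · intro j _ hj
    rw [inner_smul_left, inner_smul_right, hx i j (Ne.symm hj), mul_zero, mul_zero]
  · intro h
    exact absurd (Finset.mem_univ i) h

private theorem BpB_q_int {d : ℕ} {P : Base d} {M : ℝ} (Q : Cut P M) (h : ℝ) :
    Integrable (Q.q h) := by
  refine P.v_int.sub ?_
  rw [integrable_indicator_iff Q.T_meas]
  refine integrableOn_const ?_
  exact ((measure_mono Q.T_sub).trans_lt Metric.isBounded_ball.measure_lt_top).ne

private theorem BpB_jet_zero {d : ℕ} (h : ℝ) (q : Sp d → ℝ) (f : Sp d → ℂ) {x : Sp d}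
    (hx : x ∉ tsupport f) (k : Idx d) : (jet h q f x) k = 0 := by
  have h0 : f x = 0 := image_eq_zero_of_notMem_tsupport hx
  have h1 : ∀ i, pd i f x = 0 := by
    intro i
    rw [pd, fderiv_of_notMem_tsupport ℝ hx]
    rfl
  match k with
  | none => exact h0
  | some none =>
    show (Real.sqrt (q x) : ℂ) * f x = 0
    rw [h0, mul_zero]
  | some (some i) =>
    show (h : ℂ) * pd i f x = 0
    rw [h1, mul_zero]

/-- The span of the jets of the bumps (`jet_mem`; `q = 0` on `ball c (l/2)`, `Cut.q_in`): for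
`y = ∑ c_k jet g_k`, disjoint supports give `‖J y‖² = ∑ |c_k|² ∫ |g_k|²`,
`‖y‖² = ‖J y‖² + h² ∑_k |c_k|² ∑_i ∫ |∂_i g_k|²`. The jets are linearly independent. -/
theorem bump_space (d : ℕ) : ∃ Cb : ℝ, 0 < Cb ∧ ∀ (P : Base d) (M : ℝ) (Q : Cut P M) (h r : ℝ)
    (m : ℕ), 0 < h → Q.κ h ≤ M → 1 ≤ m → h ^ 2 * (Cb * (m / P.l) ^ 2) ≤ r →
    ∃ S : Submodule ℂ (X d), S ≤ Q.Y h ∧ Module.Finite ℂ S ∧ Module.finrank ℂ S = m ^ d ∧
      ∀ y ∈ S, ‖y‖ ^ 2 ≤ (1 + r) * ‖J y‖ ^ 2 := by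
  obtain ⟨Cb, hCb, hb⟩ := exists_bumps d
  refine ⟨Cb, hCb, fun P M Q h r m hh hκ hm hr => ?_⟩
  obtain ⟨g, hg1, hg2, hg3, hg4, hg5⟩ := hb P.c P.l P.l_pos m hm
  have hsub : Metric.ball P.c (P.l / 2) ⊆ P.Ω :=
    Metric.ball_subset_ball (by have := P.l_pos; linarith)
  choose x hxY hxj using fun k => jet_mem (h := h) (Q.q_nonneg hκ) (BpB_q_int Q h) (hg1 k)
    ((hg2 k).trans hsub)
  have hdis : ∀ k k', k ≠ k' → ∀ t, t ∉ tsupport (g k) ∨ t ∉ tsupport (g k') := by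
    intro k k' hk t
    by_contra hcon
    push Not at hcon
    exact Set.disjoint_left.1 (hg3 k k' hk) hcon.1 hcon.2
  have horthJ : ∀ k k', k ≠ k' → (inner ℂ (J (x k)) (J (x k')) : ℂ) = 0 := by
    intro k k' hk
    rw [inner_J]
    refine integral_eq_zero_of_ae ?_
    filter_upwards [hxj k, hxj k'] with t h1 h2
    rw [h1, h2]
    rcases hdis k k' hk t with h3 | h3
    · rw [BpB_jet_zero _ _ _ h3, star_zero, zero_mul]
      rfl
    · rw [BpB_jet_zero _ _ _ h3, mul_zero]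
      rfl
  have horth : ∀ k k', k ≠ k' → (inner ℂ (x k) (x k') : ℂ) = 0 := by
    intro k k' hk
    rw [inner_X]
    refine integral_eq_zero_of_ae ?_
    filter_upwards [hxj k, hxj k'] with t h1 h2
    rw [h1, h2]
    rcases hdis k k' hk t with h3 | h3
    · simp [BpB_jet_zero _ _ _ h3]
    · simp [BpB_jet_zero _ _ _ h3]
  have hnJ : ∀ k, ‖J (x k)‖ ^ 2 = ∫ t, ‖g k t‖ ^ 2 := by
    intro k
    rw [norm_sq_J]
    refine integral_congr_ae ?_
    filter_upwards [hxj k] with t h1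
    rw [h1]
    rfl
  have hn : ∀ k, ‖x k‖ ^ 2 = (∫ t, ‖g k t‖ ^ 2) + h ^ 2 * ∑ i, ∫ t, ‖pd i (g k) t‖ ^ 2 := by
    intro k
    have i1 : Integrable fun t => ‖(x k t) none‖ ^ 2 + ‖(x k t) (some none)‖ ^ 2 :=
      (int_comp (x k) none).add (int_comp (x k) (some none))
    have i2 : Integrable fun t => ∑ i, ‖(x k t) (some (some i))‖ ^ 2 :=
      integrable_finsetSum _ fun i _ => int_comp (x k) (some (some i))
    rw [norm_sq_X, integral_add i1 i2,
      integral_add (int_comp (x k) none) (int_comp (x k) (some none)),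
      integral_finsetSum _ fun i _ => int_comp (x k) (some (some i)), ← norm_sq_J, hnJ]
    have e1 : ∫ t, ‖(x k t) (some none)‖ ^ 2 = 0 := by
      refine integral_eq_zero_of_ae ?_
      filter_upwards [hxj k] with t h1
      rw [h1]
      have h2 : (jet h (Q.q h) (g k) t) (some none) = 0 := by
        show (Real.sqrt (Q.q h t) : ℂ) * g k t = 0
        by_cases ht : t ∈ tsupport (g k)
        · rw [Q.q_in (hg2 k ht)]
          simp
        · rw [image_eq_zero_of_notMem_tsupport ht, mul_zero]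
      rw [h2]
      simp
    rw [e1, add_zero, Finset.mul_sum]
    congr 1
    refine Finset.sum_congr rfl fun i _ => ?_
    rw [← integral_const_mul]
    refine integral_congr_ae ?_
    filter_upwards [hxj k] with t h1
    rw [h1]
    show ‖(h : ℂ) * pd i (g k) t‖ ^ 2 = h ^ 2 * ‖pd i (g k) t‖ ^ 2
    rw [norm_mul, mul_pow, Complex.norm_real, Real.norm_eq_abs, sq_abs]
  have hxne : ∀ k, x k ≠ 0 := by
    intro k h0
    have h1 := hg4 k
    rw [← hnJ, h0, map_zero, norm_zero] at h1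
    simp at h1
  have hle : ∀ k, ‖x k‖ ^ 2 ≤ (1 + r) * ‖J (x k)‖ ^ 2 := by
    intro k
    rw [hn, hnJ]
    have h1 := hg5 k
    have h2 := (hg4 k).le
    calc (∫ t, ‖g k t‖ ^ 2) + h ^ 2 * ∑ i, ∫ t, ‖pd i (g k) t‖ ^ 2
        ≤ (∫ t, ‖g k t‖ ^ 2) + h ^ 2 * (Cb * (m / P.l) ^ 2 * ∫ t, ‖g k t‖ ^ 2) := by gcongr
      _ = (1 + h ^ 2 * (Cb * (m / P.l) ^ 2)) * ∫ t, ‖g k t‖ ^ 2 := by ring
      _ ≤ (1 + r) * ∫ t, ‖g k t‖ ^ 2 := by gcongr
  have hli : LinearIndependent ℂ x :=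
    linearIndependent_of_ne_zero_of_inner_eq_zero hxne fun i j hij => horth i j hij
  refine ⟨Submodule.span ℂ (Set.range x), ?_, FiniteDimensional.span_of_finite ℂ (Set.finite_range x),
    ?_, ?_⟩
  · rw [Submodule.span_le]
    rintro _ ⟨k, rfl⟩
    exact hxY k
  · rw [finrank_span_eq_card hli]
    simp
  · intro y hy
    obtain ⟨c, rfl⟩ := (Submodule.mem_span_range_iff_exists_fun ℂ).1 hy
    have e1 : J (∑ i, c i • x i) = ∑ i, c i • J (x i) := by
      rw [map_sum]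
      refine Finset.sum_congr rfl fun i _ => ?_
      rw [map_smul]
    rw [e1, BpB_orth x horth, BpB_orth (fun i => J (x i)) horthJ, Finset.mul_sum]
    refine Finset.sum_le_sum fun i _ => ?_
    calc ‖c i‖ ^ 2 * ‖x i‖ ^ 2 ≤ ‖c i‖ ^ 2 * ((1 + r) * ‖J (x i)‖ ^ 2) := by
          gcongr
          exact hle i
      _ = (1 + r) * (‖c i‖ ^ 2 * ‖J (x i)‖ ^ 2) := by ring

end Pool.Agent.Lib.MP_c84763_mp.U
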