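import Pool.Agent.Lib.MP_c84763_mp.U.BpB

set_option autoImplicit false

namespace Pool.Agent.Lib.MP_c84763_mp.U

open MeasureTheory
open scoped ContDiff ENNReal

/-- A subspace of `Y` on which the Rayleigh quotient is at most `1 + r` has dimension at most the
number of modes. -/
private theorem bpC_finrank_le {d : ℕ} {P : Base d} {M : ℝ} {Q : Cut P M} {h r : ℝ} (hr : 1 ≤ r)
    (m : Q.Modes h r) {S : Submodule ℂ (X d)} (hS : S ≤ Q.Y h) (hfin : Module.Finite ℂ S)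
    (hb : ∀ y ∈ S, ‖y‖ ^ 2 ≤ (1 + r) * ‖J y‖ ^ 2) : Module.finrank ℂ S ≤ m.N := by
  by_contra hlt
  push Not at hlt
  let L : S →ₗ[ℂ] (Fin m.N → ℂ) := LinearMap.pi fun j =>
    ((innerSL ℂ (J (m.e j))).comp (J (d := d))).toLinearMap.comp S.subtype
  have hL : ∀ (y : S) (j : Fin m.N), L y j = inner ℂ (J (m.e j)) (J (y : X d)) := fun y j => rfl
  have hni : ¬ Function.Injective L := by
    intro hinj
    have h1 := LinearMap.finrank_le_finrank_of_injective hinj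
    rw [Module.finrank_fin_fun] at h1
    omega
  have hker : L.ker ≠ ⊥ := fun h => hni (LinearMap.ker_eq_bot.1 h)
  obtain ⟨y, hy, hy0⟩ := (Submodule.ne_bot_iff _).1 hker
  have hyL : L y = 0 := hy
  have h1 : ∀ j, (inner ℂ (J (m.e j)) (J (y : X d)) : ℂ) = 0 := fun j => by
    rw [← hL, hyL]; rfl
  have h2 := m.gap y (hS y.2) h1
  have h3 := hb y y.2
  have hy1 : 0 < ‖(y : X d)‖ ^ 2 := by
    have : (y : X d) ≠ 0 := fun h => hy0 (Subtype.ext h)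
    positivity
  have hβ : m.β * (1 + r) < 1 := by
    have h5 : m.β < 1 / (r + 1) := m.β_lt.trans_le m.α_le
    rw [lt_div_iff₀ (by linarith)] at h5
    linarith [h5, add_comm 1 r]
  have h4 : ‖(y : X d)‖ ^ 2 ≤ (m.β * (1 + r)) * ‖(y : X d)‖ ^ 2 := by
    calc ‖(y : X d)‖ ^ 2 ≤ (1 + r) * ‖J (y : X d)‖ ^ 2 := h3
      _ ≤ (1 + r) * (m.β * ‖(y : X d)‖ ^ 2) := by
          apply mul_le_mul_of_nonneg_left h2; linarith
      _ = _ := by ring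
  nlinarith

/-- Many modes.
Proof sketch: if `S ≤ Y` has `‖y‖² ≤ (1 + r) ‖J y‖²` on `S` and `finrank S > N`, some `y ≠ 0` in `S`
has `⟪J e_j, J y⟫ = 0` for all `j < N`, so by `gap`
`‖J y‖² ≤ β ‖y‖² < ‖y‖² / (r+1) ≤ ‖J y‖²`, a contradiction. So `N ≥ m^d` for
`m = ⌊l √r / (√Cb h)⌋ ≥ l √r / (2 √Cb h)` (`bump_space`), where `h ≤ hb = l / √Cb`. -/
theorem lower_count {d : ℕ} (P : Base d) : ∃ cb : ℝ, 0 < cb ∧ ∃ hb : ℝ, 0 < hb ∧
    ∀ (M : ℝ) (Q : Cut P M) (h r : ℝ), 0 < h → h ≤ hb → 1 ≤ r → Q.κ h ≤ M →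
      ∀ m : Q.Modes h r, cb * r ^ ((d : ℝ) / 2) ≤ m.N * h ^ d := by
  obtain ⟨Cb, hCb, hbump⟩ := bump_space d
  have l0 := P.l_pos
  have sC : 0 < Real.sqrt Cb := Real.sqrt_pos.2 hCb
  refine ⟨(P.l / (2 * Real.sqrt Cb)) ^ d, by positivity, P.l / Real.sqrt Cb, by positivity, ?_⟩
  intro M Q h r h0 hh hr hκ m
  have r0 : 0 < r := by linarith
  have sr : 1 ≤ Real.sqrt r := Real.one_le_sqrt.2 hr
  set t : ℝ := P.l * Real.sqrt r / (Real.sqrt Cb * h) with ht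
  have t1 : 1 ≤ t := by
    rw [ht, le_div_iff₀ (by positivity)]
    rw [le_div_iff₀ sC] at hh
    nlinarith
  have t0 : 0 ≤ t := by linarith
  have n1 : 1 ≤ ⌊t⌋₊ := by
    rw [Nat.one_le_floor_iff]; exact t1
  have nt : (⌊t⌋₊ : ℝ) ≤ t := Nat.floor_le t0
  have tn : t / 2 ≤ (⌊t⌋₊ : ℝ) := by
    have h1 := Nat.lt_floor_add_one t
    have h2 : (1 : ℝ) ≤ (⌊t⌋₊ : ℝ) := by exact_mod_cast n1
    linarith
  have hcond : h ^ 2 * (Cb * ((⌊t⌋₊ : ℝ) / P.l) ^ 2) ≤ r := by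
    have h1 : ((⌊t⌋₊ : ℝ) / P.l) ^ 2 ≤ (t / P.l) ^ 2 := by
      apply pow_le_pow_left₀ (by positivity)
      exact div_le_div_of_nonneg_right nt l0.le
    have h2 : h ^ 2 * (Cb * (t / P.l) ^ 2) = r := by
      have e1 : t / P.l = Real.sqrt r / (Real.sqrt Cb * h) := by
        rw [ht]; field_simp
      rw [e1, div_pow, mul_pow, Real.sq_sqrt r0.le, Real.sq_sqrt hCb.le]
      field_simp
    calc h ^ 2 * (Cb * ((⌊t⌋₊ : ℝ) / P.l) ^ 2) ≤ h ^ 2 * (Cb * (t / P.l) ^ 2) := by gcongr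
      _ = r := h2
  obtain ⟨S, hS, hfin, hrank, hSb⟩ := hbump P M Q h r ⌊t⌋₊ h0 hκ n1 hcond
  have h5 : Module.finrank ℂ S ≤ m.N := bpC_finrank_le hr m hS hfin hSb
  rw [hrank] at h5
  have h6 : ((⌊t⌋₊ : ℝ)) ^ d ≤ m.N := by exact_mod_cast h5
  have h7 : r ^ ((d : ℝ) / 2) = (Real.sqrt r) ^ d := by
    rw [Real.sqrt_eq_rpow, ← Real.rpow_natCast, ← Real.rpow_mul r0.le]
    congr 1
    ring
  have h8 : (P.l / (2 * Real.sqrt Cb)) ^ d * r ^ ((d : ℝ) / 2) = (t / 2) ^ d * h ^ d := by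
    rw [h7, ← mul_pow, ← mul_pow]
    congr 1
    rw [ht]
    field_simp
  rw [h8]
  apply mul_le_mul_of_nonneg_right _ (by positivity)
  exact (pow_le_pow_left₀ (by positivity) tn d).trans h6

end Pool.Agent.Lib.MP_c84763_mp.U
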