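import Pool.Agent.Lib.MP_c84763_mp.U.DomA

set_option autoImplicit false

namespace Pool.Agent.Lib.MP_c84763_mp.U

open MeasureTheory
open scoped ContDiff ENNReal

/-- Fields of subspaces give submodules of `X d`. -/
private def DomC_sub {d : ℕ} (K : Sp d → Submodule ℂ (Vec d)) : Submodule ℂ (X d) where
  carrier := {x | ∀ᵐ t, x t ∈ K t}
  add_mem' := by
    intro a b ha hb
    simp only [Set.mem_ofPred_eq] at ha hb ⊢
    filter_upwards [ha, hb, Lp.coeFn_add a b] with t h1 h2 h3
    rw [h3]
    exact (K t).add_mem h1 h2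
  zero_mem' := by
    simp only [Set.mem_ofPred_eq]
    filter_upwards [Lp.coeFn_zero (Vec d) 2 (volume : Measure (Sp d))] with t h1
    rw [h1]
    exact (K t).zero_mem
  smul_mem' := by
    intro c x hx
    simp only [Set.mem_ofPred_eq] at hx ⊢
    filter_upwards [hx, Lp.coeFn_smul c x] with t h1 h3
    rw [h3]
    exact (K t).smul_mem c h1

private theorem DomC_closed {d : ℕ} (K : Sp d → Submodule ℂ (Vec d)) :
    IsClosed (DomC_sub K : Set (X d)) := by
  rw [← isSeqClosed_iff_isClosed]
  intro x y hx hy
  have h1 : TendstoInMeasure (volume : Measure (Sp d)) (fun n => (x n : Sp d → Vec d))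
      Filter.atTop y := tendstoInMeasure_of_tendsto_Lp hy
  obtain ⟨ns, _, h2⟩ := h1.exists_seq_tendsto_ae
  have h3 : ∀ᵐ t, ∀ n, x n t ∈ K t := by
    rw [ae_all_iff]
    exact fun n => hx n
  change ∀ᵐ t, y t ∈ K t
  filter_upwards [h2, h3] with t h4 h5
  have : IsClosed (K t : Set (Vec d)) := (K t).closed_of_finiteDimensional
  exact this.mem_of_tendsto h4 (Filter.Eventually.of_forall fun n => h5 (ns n))

private theorem DomC_key {d : ℕ} {h : ℝ} {q : Sp d → ℝ} {U : Set (Sp d)}
    (K : Sp d → Submodule ℂ (Vec d))
    (hK : ∀ f : Sp d → ℂ, IsTest f → tsupport f ⊆ U → ∀ t, jet h q f t ∈ K t) {x : X d}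
    (hx : x ∈ Dom h q U) : ∀ᵐ t, x t ∈ K t := by
  have : Dom h q U ≤ DomC_sub K := by
    unfold Dom
    apply Submodule.topologicalClosure_minimal _ _ (DomC_closed K)
    rw [Submodule.span_le]
    rintro y ⟨f, hf, hU, hy⟩
    change ∀ᵐ t, y t ∈ K t
    filter_upwards [hy] with t ht
    rw [ht]
    exact hK f hf hU t
  exact this hx

/-- The potential component is `√q` times the first component.
Proof sketch: for each `n`, `{x | 1_{|q| ≤ n} x_s = 1_{|q| ≤ n} √q x_0 a.e.}` is a closed
submodule of `X d` (difference of two `blk` type bounded operators, or: an `L²`-convergent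
sequence has an a.e. convergent subsequence) containing the jets. -/
theorem dom_pot {d : ℕ} {h : ℝ} {q : Sp d → ℝ} {U : Set (Sp d)} (mq : Measurable q) {x : X d}
    (hx : x ∈ Dom h q U) :
    ∀ᵐ t, (x t) (some none) = (Real.sqrt (q t) : ℂ) * (x t) none := by
  exact DomC_key (h := h) (q := q) (U := U)
    (fun t =>
      { carrier := {v | v (some none) = (Real.sqrt (q t) : ℂ) * v none}
        add_mem' := by
          intro a b ha hb
          simp only [Set.mem_ofPred_eq, PiLp.add_apply] at ha hb ⊢
          rw [ha, hb]; ring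
        zero_mem' := by simp
        smul_mem' := by
          intro c a ha
          simp only [Set.mem_ofPred_eq, PiLp.smul_apply, smul_eq_mul] at ha ⊢
          rw [ha]; ring })
    (fun f _ _ t => by
      change (jet h q f t) (some none) = (Real.sqrt (q t) : ℂ) * (jet h q f t) none
      rfl) hx

/-- Elements of `Dom h q U` vanish a.e. off `U`. -/
theorem dom_supp {d : ℕ} {h : ℝ} {q : Sp d → ℝ} {U : Set (Sp d)} (mU : MeasurableSet U)
    {x : X d} (hx : x ∈ Dom h q U) : ∀ᵐ t, t ∉ U → x t = 0 := by
  exact DomC_key (h := h) (q := q) (U := U)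
    (fun t =>
      { carrier := {v | t ∉ U → v = 0}
        add_mem' := by
          intro a b ha hb
          simp only [Set.mem_ofPred_eq] at ha hb ⊢
          intro ht
          rw [ha ht, hb ht, add_zero]
        zero_mem' := by simp
        smul_mem' := by
          intro c a ha
          simp only [Set.mem_ofPred_eq] at ha ⊢
          intro ht
          rw [ha ht, smul_zero] })
    (fun f hf hU t => by
      change t ∉ U → jet h q f t = 0
      intro ht
      have h1 : t ∉ tsupport f := fun h => ht (hU h)
      have h2 : f t = 0 := image_eq_zero_of_notMem_tsupport h1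
      have h3 : fderiv ℝ f t = 0 := fderiv_of_notMem_tsupport (𝕜 := ℝ) h1
      unfold jet vec pd
      ext i
      rcases i with _ | _ | i
      · simp [h2]
      · simp [h2]
      · simp [h3]) hx

end Pool.Agent.Lib.MP_c84763_mp.U
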