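import Pool.Agent.Lib.MP_c84763_mp.U.InnerJ

set_option autoImplicit false

namespace Pool.Agent.Lib.MP_c84763_mp.U

open MeasureTheory
open scoped ContDiff ENNReal

/-- The potential: `V = v + (R+1) i` on the cube `Ω = ball c ℓ`, `V = V0` off `Ω`, where `v ≥ 0`
vanishes on `ball c (ℓ/2)` and blows up at `∂Ω`. -/
structure Base (d : ℕ) where
  c : Sp d
  l : ℝ
  R : ℝ
  V0 : Sp d → ℂ
  v : Sp d → ℝ
  hd : 0 < d
  l_pos : 0 < l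
  R_nonneg : 0 ≤ R
  mV0 : Measurable V0
  bV0 : ∀ x, ‖V0 x‖ ≤ R
  mv : Measurable v
  v_nonneg : ∀ x, 0 ≤ v x
  v_off : ∀ x, x ∉ Metric.ball c l → v x = 0
  v_in : ∀ x ∈ Metric.ball c (l / 2), v x = 0
  v_int : Integrable v
  v_big : ∀ M : ℝ, ∃ w, 0 < w ∧ w ≤ l / 2 ∧
    ∀ x ∈ Metric.ball c l, x ∉ Metric.ball c (l - w) → M ≤ v x

/-- Cut-off data for the barrier height `M`. -/
structure Cut {d : ℕ} (P : Base d) (M : ℝ) where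
  w : ℝ
  χ : Sp d → ℝ
  η : Sp d → ℝ
  F : Sp d → ℝ
  C1 : ℝ
  C2 : ℝ
  w_pos : 0 < w
  w_le : w ≤ P.l / 2
  big : ∀ x ∈ Metric.ball P.c P.l, x ∉ Metric.ball P.c (P.l - w) → M ≤ P.v x
  C1_pos : 0 < C1
  C2_pos : 0 < C2
  sχ : ContDiff ℝ ∞ χ
  sη : ContDiff ℝ ∞ η
  sF : ContDiff ℝ ∞ F
  χη : ∀ x, χ x ^ 2 + η x ^ 2 = 1
  χ_in : ∀ x ∈ Metric.ball P.c (P.l - w / 2), χ x = 1
  χ_off : ∀ x, x ∉ Metric.ball P.c (P.l - w / 4) → χ x = 0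
  grad_in : ∀ x ∈ Metric.ball P.c (P.l - w / 2), ∀ i, pd i χ x = 0 ∧ pd i η x = 0
  grad_off : ∀ x, x ∉ Metric.ball P.c P.l → ∀ i, pd i χ x = 0 ∧ pd i η x = 0
  grad_le : ∀ x, ∑ i, (pd i χ x ^ 2 + pd i η x ^ 2) ≤ C1
  F_nonneg : ∀ x, 0 ≤ F x
  F_le : ∀ x, F x ≤ 1
  F_in : ∀ x ∈ Metric.ball P.c (P.l - w), F x = 0
  F_off : ∀ x, x ∉ Metric.ball P.c (P.l - w / 2) → F x = 1
  F_grad_in : ∀ x ∈ Metric.ball P.c (P.l - w), ∀ i, pd i F x = 0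
  F_grad_off : ∀ x, x ∉ Metric.ball P.c (P.l - w / 2) → ∀ i, pd i F x = 0
  F_grad_le : ∀ x, ∑ i, pd i F x ^ 2 ≤ C2

/-- Multiplication of the function component by `ζ`, from jets with potential `q` to jets with
potential `q'`. -/
noncomputable def mulOp {d : ℕ} (h : ℝ) (q q' ζ : Sp d → ℝ) : X d →L[ℂ] X d :=
  blk (fun x => (ζ x : ℂ)) (fun x => ((ζ x * Real.sqrt (q' x / q x) : ℝ) : ℂ))
    (fun x => (ζ x : ℂ)) (fun i x => ((h * pd i ζ x : ℝ) : ℂ))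

namespace Base

variable {d : ℕ} (P : Base d)

def Ω : Set (Sp d) := Metric.ball P.c P.l

def a : ℝ := P.R + 1

open Classical in
noncomputable def V1 (x : Sp d) : ℂ := if x ∈ P.Ω then (P.a : ℂ) * Complex.I else P.V0 x

noncomputable def V (x : Sp d) : ℂ := P.V1 x + (P.v x : ℂ)

/-- Form domain of `-h² Δ + V`. -/
noncomputable def D (h : ℝ) : Submodule ℂ (X d) := Dom h P.v Set.univ

/-- The form of `-h² Δ + V` is `⟪y, Mop x⟫`. -/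
noncomputable def Mop : X d →L[ℂ] X d := blk P.V1 (fun _ => 1) (fun _ => 1) (fun _ _ => 0)

end Base

namespace Cut

variable {d : ℕ} {P : Base d} {M : ℝ} (Q : Cut P M)

def T : Set (Sp d) := P.Ω \ Metric.ball P.c (P.l - Q.w / 2)

def κ (h : ℝ) : ℝ := h ^ 2 * Q.C1

noncomputable def q (h : ℝ) (x : Sp d) : ℝ := P.v x - Q.T.indicator (fun _ => Q.κ h) x

noncomputable def Y (h : ℝ) : Submodule ℂ (X d) := Dom h (Q.q h) P.Ω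

noncomputable def up (h : ℝ) : X d →L[ℂ] X d := mulOp h (Q.q h) P.v Q.χ

noncomputable def dn (h : ℝ) : X d →L[ℂ] X d := mulOp h P.v (Q.q h) Q.χ

/-- The eigenfunctions of the Dirichlet operator `-h² Δ + q` on `Ω` with eigenvalues
`1/s_j - 1 ≤ 1/α - 1`, together with a spectral gap `(1/α - 1, 1/β - 1)`. -/
structure Modes (h r : ℝ) where
  N : ℕ
  e : Fin N → X d
  s : Fin N → ℝ
  α : ℝ
  β : ℝ
  mem : ∀ j, e j ∈ Q.Y h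
  eig : ∀ j, ∀ φ ∈ Q.Y h, (inner ℂ (J φ) (J (e j)) : ℂ) = (s j : ℂ) * inner ℂ φ (e j)
  ortho : ∀ i j, (inner ℂ (J (e i)) (J (e j)) : ℂ) = if i = j then 1 else 0
  α_le_s : ∀ j, α ≤ s j
  s_le : ∀ j, s j ≤ 1
  β_lt : β < α
  le_β : 1 / (2 * r + 1) ≤ β
  α_le : α ≤ 1 / (r + 1)
  gap : ∀ y ∈ Q.Y h, (∀ j, (inner ℂ (J (e j)) (J y) : ℂ) = 0) → ‖J y‖ ^ 2 ≤ β * ‖y‖ ^ 2

end Cut

end Pool.Agent.Lib.MP_c84763_mp.U
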