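import Pool.Agent.Lib.MP_c84763_mp.U.DomA
import Pool.Agent.Lib.MP_c84763_mp.U.Par

set_option autoImplicit false

namespace Pool.Agent.Lib.MP_c84763_mp.U

open MeasureTheory
open scoped ContDiff ENNReal

private theorem domD_pd_meas {d : ℕ} {ζ : Sp d → ℝ} (sζ : ContDiff ℝ ∞ ζ) (i : Fin d) :
    Measurable (fun x => pd i ζ x) := by
  have h1 : Continuous (fun x => fderiv ℝ ζ x) := sζ.continuous_fderiv (by simp)
  exact (h1.clm_apply continuous_const).measurable

private theorem domD_ok {d : ℕ} {h : ℝ} {q q' ζ : Sp d → ℝ} (mq : Measurable q)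
    (mq' : Measurable q') (q0 : ∀ x, 0 ≤ q x) (sζ : ContDiff ℝ ∞ ζ)
    {B K : ℝ} (hB : ∀ x, |ζ x| ≤ B) (hB' : ∀ x i, |pd i ζ x| ≤ B) (hK : ∀ x, q' x ≤ K * q x) :
    BlkOK (d := d) (fun x => (ζ x : ℂ)) (fun x => ((ζ x * Real.sqrt (q' x / q x) : ℝ) : ℂ))
      (fun x => (ζ x : ℂ)) (fun i x => ((h * pd i ζ x : ℝ) : ℂ)) where
  mα := Complex.measurable_ofReal.comp sζ.continuous.measurable
  mβ := Complex.measurable_ofReal.comp
    (sζ.continuous.measurable.mul (mq'.div mq).sqrt)
  mγ := Complex.measurable_ofReal.comp sζ.continuous.measurable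
  md := fun i => Complex.measurable_ofReal.comp
    (measurable_const.mul (domD_pd_meas sζ i))
  bd := by
    have hB0 : 0 ≤ B := (abs_nonneg _).trans (hB 0)
    have hs : ∀ x, Real.sqrt (q' x / q x) ≤ Real.sqrt K := by
      intro x
      rcases (q0 x).eq_or_lt with h0 | h0
      · rw [← h0, div_zero, Real.sqrt_zero]
        exact Real.sqrt_nonneg _
      · exact Real.sqrt_le_sqrt ((div_le_iff₀ h0).2 (hK x))
    refine ⟨max B (max (B * Real.sqrt K) (|h| * B)), fun x => ⟨?_, ?_, ?_, fun i => ?_⟩⟩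
    · rw [Complex.norm_real, Real.norm_eq_abs]
      exact (hB x).trans (le_max_left _ _)
    · rw [Complex.norm_real, Real.norm_eq_abs, abs_mul, abs_of_nonneg (Real.sqrt_nonneg _)]
      exact (mul_le_mul (hB x) (hs x) (Real.sqrt_nonneg _) hB0).trans
        ((le_max_left _ _).trans (le_max_right _ _))
    · rw [Complex.norm_real, Real.norm_eq_abs]
      exact (hB x).trans (le_max_left _ _)
    · rw [Complex.norm_real, Real.norm_eq_abs, abs_mul]
      exact (mul_le_mul_of_nonneg_left (hB' x i) (abs_nonneg _)).trans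
        ((le_max_right _ _).trans (le_max_right _ _))

/-- `mulOp` is an admissible block multiplier under boundedness hypotheses, so it acts as
expected. (`√(q'/q) ≤ √K`, where `q x = 0` gives `q' x / q x = 0`.) -/
theorem mulOp_ae {d : ℕ} {h : ℝ} {q q' ζ : Sp d → ℝ} (mq : Measurable q) (mq' : Measurable q')
    (q0 : ∀ x, 0 ≤ q x) (q0' : ∀ x, 0 ≤ q' x) (sζ : ContDiff ℝ ∞ ζ) {B K : ℝ}
    (hB : ∀ x, |ζ x| ≤ B) (hB' : ∀ x i, |pd i ζ x| ≤ B) (hK : ∀ x, q' x ≤ K * q x) (x : X d) :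
    ∀ᵐ t, (mulOp h q q' ζ x t) none = (ζ t : ℂ) * (x t) none ∧
      (mulOp h q q' ζ x t) (some none) =
        ((ζ t * Real.sqrt (q' t / q t) : ℝ) : ℂ) * (x t) (some none) ∧
      ∀ i, (mulOp h q q' ζ x t) (some (some i)) =
        (ζ t : ℂ) * (x t) (some (some i)) + ((h * pd i ζ t : ℝ) : ℂ) * (x t) none := by
  filter_upwards [blk_ae (domD_ok (h := h) mq mq' q0 sζ hB hB' hK) x] with t ht
  have ht' : mulOp h q q' ζ x t = blkFun (fun x => (ζ x : ℂ))
      (fun x => ((ζ x * Real.sqrt (q' x / q x) : ℝ) : ℂ))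
      (fun x => (ζ x : ℂ)) (fun i x => ((h * pd i ζ x : ℝ) : ℂ)) t (x t) := ht
  rw [ht']
  exact ⟨rfl, rfl, fun i => rfl⟩

private theorem domD_pd_mul {d : ℕ} {ζ : Sp d → ℝ} (sζ : ContDiff ℝ ∞ ζ) {f : Sp d → ℂ}
    (hf : ContDiff ℝ ∞ f) (i : Fin d) (x : Sp d) :
    pd i (fun y => (ζ y : ℂ) * f y) x = (ζ x : ℂ) * pd i f x + ((pd i ζ x : ℝ) : ℂ) * f x := by
  have h1 : HasFDerivAt ζ (fderiv ℝ ζ x) x := ((sζ.differentiable (by simp)) x).hasFDerivAt
  have h2 : HasFDerivAt (fun y => (ζ y : ℂ)) (Complex.ofRealCLM.comp (fderiv ℝ ζ x)) x :=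
    (Complex.ofRealCLM.hasFDerivAt (x := ζ x)).comp x h1
  have h3 : HasFDerivAt f (fderiv ℝ f x) x := ((hf.differentiable (by simp)) x).hasFDerivAt
  have h4 := h2.mul h3
  have h5 : fderiv ℝ (fun y => (ζ y : ℂ) * f y) x = _ := h4.fderiv
  unfold pd
  rw [h5]
  simp only [ContinuousLinearMap.add_apply, ContinuousLinearMap.smul_apply, smul_eq_mul,
    ContinuousLinearMap.comp_apply, Complex.ofRealCLM_apply]
  ring

private theorem domD_test {d : ℕ} {ζ : Sp d → ℝ} (sζ : ContDiff ℝ ∞ ζ) {f : Sp d → ℂ}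
    (hf : IsTest f) : IsTest (fun y => (ζ y : ℂ) * f y) where
  smooth := (Complex.ofRealCLM.contDiff.comp sζ).mul hf.smooth
  cpt := hf.cpt.mul_left

/-- Multiplication by `ζ` maps `Dom h q U` into `Dom h q' U'`.
Proof sketch: the continuous linear map `mulOp h q q' ζ` sends the jet (for `q`) of a test
function `f` supported in `U` to the jet (for `q'`) of `ζ f` (product rule for `pd`; `√q' = 0`
where `q = 0`), a test function supported in `U'`. Hence it maps the span into the span and the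
closure into the closure (`Submodule.map_topologicalClosure...` / `map_mem_closure`). -/
theorem dom_mul {d : ℕ} {h : ℝ} {q q' ζ : Sp d → ℝ} {U U' : Set (Sp d)}
    (mq : Measurable q) (mq' : Measurable q')
    (q0 : ∀ x, 0 ≤ q x) (q0' : ∀ x, 0 ≤ q' x) (sζ : ContDiff ℝ ∞ ζ) {B K : ℝ}
    (hB : ∀ x, |ζ x| ≤ B) (hB' : ∀ x i, |pd i ζ x| ≤ B) (hK : ∀ x, q' x ≤ K * q x)
    (hU : ∀ x ∈ U, x ∈ tsupport ζ → x ∈ U') {x : X d} (hx : x ∈ Dom h q U) :
    mulOp h q q' ζ x ∈ Dom h q' U' := by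
  set A : Set (X d) := {x : X d | ∃ f : Sp d → ℂ, IsTest f ∧ tsupport f ⊆ U ∧
    (x : Sp d → Vec d) =ᵐ[volume] jet h q f} with hA
  set A' : Set (X d) := {x : X d | ∃ f : Sp d → ℂ, IsTest f ∧ tsupport f ⊆ U' ∧
    (x : Sp d → Vec d) =ᵐ[volume] jet h q' f} with hA'
  have gen : ∀ y ∈ A, mulOp h q q' ζ y ∈ A' := by
    rintro y ⟨f, hf, hfU, hy⟩
    refine ⟨fun t => (ζ t : ℂ) * f t, domD_test sζ hf, ?_, ?_⟩
    · intro t ht
      have hsub1 : tsupport (fun t => (ζ t : ℂ) * f t) ⊆ tsupport f :=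
        closure_mono (Function.support_mul_subset_right _ _)
      have hsub2 : tsupport (fun t => (ζ t : ℂ) * f t) ⊆ tsupport ζ := by
        apply closure_mono
        intro s hs
        have h1 : (ζ s : ℂ) ≠ 0 := left_ne_zero_of_mul hs
        exact fun h0 => h1 (by rw [h0]; exact Complex.ofReal_zero)
      exact hU t (hfU (hsub1 ht)) (hsub2 ht)
    · filter_upwards [hy, mulOp_ae (h := h) mq mq' q0 q0' sζ hB hB' hK y] with t ht hm
      obtain ⟨m0, ms, mi⟩ := hm
      rw [ht] at m0 ms mi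
      refine vec_ext ?_ ?_ fun i => ?_
      · rw [m0]
        rfl
      · rw [ms]
        show ((ζ t * Real.sqrt (q' t / q t) : ℝ) : ℂ) * ((Real.sqrt (q t) : ℂ) * f t) =
          (Real.sqrt (q' t) : ℂ) * ((ζ t : ℂ) * f t)
        have key : Real.sqrt (q' t / q t) * Real.sqrt (q t) = Real.sqrt (q' t) := by
          rcases (q0 t).eq_or_lt with h0 | h0
          · have h1 : q' t = 0 := by
              have := hK t
              rw [← h0, mul_zero] at this
              exact le_antisymm this (q0' t)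
            rw [← h0, h1]
            simp
          · rw [Real.sqrt_div (q0' t), div_mul_cancel₀]
            exact (Real.sqrt_pos.2 h0).ne'
        rw [← key]
        push_cast
        ring
      · rw [mi]
        show (ζ t : ℂ) * ((h : ℂ) * pd i f t) + ((h * pd i ζ t : ℝ) : ℂ) * f t =
          (h : ℂ) * pd i (fun y => (ζ y : ℂ) * f y) t
        rw [domD_pd_mul sζ hf.smooth]
        push_cast
        ring
  have hspan : ∀ y ∈ (Submodule.span ℂ A : Submodule ℂ (X d)),
      mulOp h q q' ζ y ∈ (Submodule.span ℂ A' : Submodule ℂ (X d)) := by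
    intro y hy
    induction hy using Submodule.span_induction with
    | mem y hy => exact Submodule.subset_span (gen y hy)
    | zero => rw [map_zero]; exact Submodule.zero_mem _
    | add y z _ _ hy hz => rw [map_add]; exact Submodule.add_mem _ hy hz
    | smul a y _ hy => rw [map_smul]; exact Submodule.smul_mem _ _ hy
  have hx' : x ∈ closure ((Submodule.span ℂ A : Submodule ℂ (X d)) : Set (X d)) := by
    rw [← Submodule.topologicalClosure_coe]
    exact hx
  have hres : mulOp h q q' ζ x ∈ closure ((Submodule.span ℂ A' : Submodule ℂ (X d)) : Set (X d)) :=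
    map_mem_closure (mulOp h q q' ζ).continuous hx' hspan
  rw [← Submodule.topologicalClosure_coe] at hres
  exact hres

end Pool.Agent.Lib.MP_c84763_mp.U
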