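import Pool.Agent.Lib.MP_c84763_mp.U.CutL
import Pool.Agent.Lib.MP_c84763_mp.U.DomC
import Pool.Agent.Lib.MP_c84763_mp.U.DomD

set_option autoImplicit false

namespace Pool.Agent.Lib.MP_c84763_mp.U

open MeasureTheory
open scoped ContDiff ENNReal

namespace Cut

variable {d : ℕ} {P : Base d} {M : ℝ} (Q : Cut P M)

theorem κ_le {h : ℝ} (hM : 2 * Q.κ h ≤ M) : Q.κ h ≤ M := by
  have := Q.κ_nonneg h
  linarith

theorem χ_bd (x : Sp d) : |Q.χ x| ≤ max 1 (Real.sqrt Q.C1) := (Q.χ_abs x).trans (le_max_left _ _)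

theorem pd_χ_bd (x : Sp d) (i : Fin d) : |pd i Q.χ x| ≤ max 1 (Real.sqrt Q.C1) :=
  (Q.pd_χ_abs x i).trans (le_max_right _ _)

theorem up_mem {h : ℝ} (hM : 2 * Q.κ h ≤ M) {e : X d} (he : e ∈ Q.Y h) :
    Q.up h e ∈ P.D h :=
  dom_mul (Q.q_meas h) P.mv (Q.q_nonneg (Q.κ_le hM)) P.v_nonneg Q.sχ Q.χ_bd Q.pd_χ_bd
    (Q.v_le hM) (fun _ _ _ => Set.mem_univ _) he

theorem dn_mem {h : ℝ} (hM : 2 * Q.κ h ≤ M) {y : X d} (hy : y ∈ P.D h) :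
    Q.dn h y ∈ Q.Y h :=
  dom_mul P.mv (Q.q_meas h) P.v_nonneg (Q.q_nonneg (Q.κ_le hM)) Q.sχ Q.χ_bd Q.pd_χ_bd
    (K := 1) (fun x => by rw [one_mul]; exact Q.q_le h x) (fun _ _ hx => Q.tsupport_χ hx) hy

theorem up_ae {h : ℝ} (hM : 2 * Q.κ h ≤ M) (e : X d) :
    ∀ᵐ t, (Q.up h e t) none = (Q.χ t : ℂ) * (e t) none ∧
      (Q.up h e t) (some none) =
        ((Q.χ t * Real.sqrt (P.v t / Q.q h t) : ℝ) : ℂ) * (e t) (some none) ∧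
      ∀ i, (Q.up h e t) (some (some i)) =
        (Q.χ t : ℂ) * (e t) (some (some i)) + ((h * pd i Q.χ t : ℝ) : ℂ) * (e t) none :=
  mulOp_ae (Q.q_meas h) P.mv (Q.q_nonneg (Q.κ_le hM)) P.v_nonneg Q.sχ Q.χ_bd Q.pd_χ_bd
    (Q.v_le hM) e

theorem dn_ae {h : ℝ} (hM : 2 * Q.κ h ≤ M) (y : X d) :
    ∀ᵐ t, (Q.dn h y t) none = (Q.χ t : ℂ) * (y t) none ∧
      (Q.dn h y t) (some none) =
        ((Q.χ t * Real.sqrt (Q.q h t / P.v t) : ℝ) : ℂ) * (y t) (some none) ∧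
      ∀ i, (Q.dn h y t) (some (some i)) =
        (Q.χ t : ℂ) * (y t) (some (some i)) + ((h * pd i Q.χ t : ℝ) : ℂ) * (y t) none :=
  mulOp_ae P.mv (Q.q_meas h) P.v_nonneg (Q.q_nonneg (Q.κ_le hM)) Q.sχ Q.χ_bd Q.pd_χ_bd
    (K := 1) (fun x => by rw [one_mul]; exact Q.q_le h x) y

/-- The potential component of elements of `Y`. -/
theorem Y_pot {h : ℝ} {e : X d} (he : e ∈ Q.Y h) :
    ∀ᵐ t, (e t) (some none) = (Real.sqrt (Q.q h t) : ℂ) * (e t) none :=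
  dom_pot (Q.q_meas h) he

theorem Y_off {h : ℝ} {e : X d} (he : e ∈ Q.Y h) : ∀ᵐ t, t ∉ P.Ω → e t = 0 :=
  dom_supp P.Ω_meas he

end Cut

namespace Base

variable {d : ℕ} (P : Base d)

theorem D_pot {h : ℝ} {y : X d} (hy : y ∈ P.D h) :
    ∀ᵐ t, (y t) (some none) = (Real.sqrt (P.v t) : ℂ) * (y t) none :=
  dom_pot P.mv hy

end Base

end Pool.Agent.Lib.MP_c84763_mp.U
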