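import Pool.Agent.Lib.MP_c84763_mp.U.CoerD
import Pool.Agent.Lib.MP_c84763_mp.U.CutM

set_option autoImplicit false

namespace Pool.Agent.Lib.MP_c84763_mp.U

open MeasureTheory
open scoped ContDiff ENNReal

private theorem CoerB_re (χ η h a b : ℝ) (h1 : χ ^ 2 + η ^ 2 = 1) (h2 : χ * a + η * b = 0)
    (x x0 : ℝ) : (χ * x + h * a * x0) ^ 2 ≤ x ^ 2 + h ^ 2 * (a ^ 2 + b ^ 2) * x0 ^ 2 := by
  have h3 : x ^ 2 + h ^ 2 * (a ^ 2 + b ^ 2) * x0 ^ 2 - (χ * x + h * a * x0) ^ 2 =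
      (η * x + h * b * x0) ^ 2 := by
    linear_combination -x ^ 2 * h1 - 2 * h * x * x0 * h2
  nlinarith [sq_nonneg (η * x + h * b * x0)]

private theorem CoerB_cx (χ η h a b : ℝ) (h1 : χ ^ 2 + η ^ 2 = 1) (h2 : χ * a + η * b = 0)
    (z z0 : ℂ) : ‖(χ : ℂ) * z + ((h * a : ℝ) : ℂ) * z0‖ ^ 2 ≤
      ‖z‖ ^ 2 + h ^ 2 * (a ^ 2 + b ^ 2) * ‖z0‖ ^ 2 := by
  rw [Complex.sq_norm, Complex.sq_norm, Complex.sq_norm, Complex.normSq_apply,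
    Complex.normSq_apply, Complex.normSq_apply, Complex.add_re, Complex.add_im,
    Complex.re_ofReal_mul, Complex.im_ofReal_mul, Complex.re_ofReal_mul, Complex.im_ofReal_mul]
  have e1 := CoerB_re χ η h a b h1 h2 z.re z0.re
  have e2 := CoerB_re χ η h a b h1 h2 z.im z0.im
  nlinarith

/-- IMS localisation, pointwise. -/
theorem ims_pt {d : ℕ} (χ η h : ℝ) (a b : Fin d → ℝ) (h1 : χ ^ 2 + η ^ 2 = 1)
    (h2 : ∀ i, χ * a i + η * b i = 0) (z0 : ℂ) (z : Fin d → ℂ) :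
    ∑ i, ‖(χ : ℂ) * z i + ((h * a i : ℝ) : ℂ) * z0‖ ^ 2 ≤
      ∑ i, ‖z i‖ ^ 2 + h ^ 2 * (∑ i, (a i ^ 2 + b i ^ 2)) * ‖z0‖ ^ 2 := by
  calc ∑ i, ‖(χ : ℂ) * z i + ((h * a i : ℝ) : ℂ) * z0‖ ^ 2
      ≤ ∑ i, (‖z i‖ ^ 2 + h ^ 2 * (a i ^ 2 + b i ^ 2) * ‖z0‖ ^ 2) :=
        Finset.sum_le_sum fun i _ => CoerB_cx χ η h (a i) (b i) h1 (h2 i) (z i) z0
    _ = ∑ i, ‖z i‖ ^ 2 + h ^ 2 * (∑ i, (a i ^ 2 + b i ^ 2)) * ‖z0‖ ^ 2 := by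
        rw [Finset.sum_add_distrib, ← Finset.sum_mul, ← Finset.mul_sum]

namespace Cut

variable {d : ℕ} {P : Base d} {M : ℝ} (Q : Cut P M)

/-- The pointwise inequality inside `Ω`. -/
private theorem CoerB_pt {h r β : ℝ} (hM' : Q.κ h + 2 * r ≤ M) (hβ0 : 0 < β)
    (hβ1 : 1 ≤ β * (2 * r + 1)) (hκM : Q.κ h ≤ M) {t : Sp d} (ht : t ∈ P.Ω) (y0 : ℂ)
    (yi : Fin d → ℂ) :
    β * (‖(Q.χ t : ℂ) * y0‖ ^ 2 +
        ‖(Real.sqrt (Q.q h t) : ℂ) * ((Q.χ t : ℂ) * y0)‖ ^ 2 +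
        ∑ i, ‖(Q.χ t : ℂ) * yi i + ((h * pd i Q.χ t : ℝ) : ℂ) * y0‖ ^ 2) -
        ‖(Q.χ t : ℂ) * y0‖ ^ 2 ≤
      β * ((‖(Real.sqrt (P.v t) : ℂ) * y0‖ ^ 2 + ∑ i, ‖yi i‖ ^ 2) + ‖y0‖ ^ 2) - ‖y0‖ ^ 2 := by
  have hims := ims_pt (Q.χ t) (Q.η t) h (fun i => pd i Q.χ t) (fun i => pd i Q.η t) (Q.χη t)
    (fun i => Q.χη_grad t i) y0 yi
  have hq0 := Q.q_nonneg hκM t
  have hv0 := P.v_nonneg t
  have hY : 0 ≤ ‖y0‖ ^ 2 := sq_nonneg _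
  have n1 : ‖(Q.χ t : ℂ) * y0‖ ^ 2 = Q.χ t ^ 2 * ‖y0‖ ^ 2 := by
    rw [norm_mul, mul_pow, Complex.norm_real, Real.norm_eq_abs, sq_abs]
  have n2 : ‖(Real.sqrt (Q.q h t) : ℂ) * ((Q.χ t : ℂ) * y0)‖ ^ 2 =
      Q.q h t * (Q.χ t ^ 2 * ‖y0‖ ^ 2) := by
    rw [norm_mul, mul_pow, n1, Complex.norm_real, Real.norm_eq_abs, sq_abs, Real.sq_sqrt hq0]
  have n3 : ‖(Real.sqrt (P.v t) : ℂ) * y0‖ ^ 2 = P.v t * ‖y0‖ ^ 2 := by
    rw [norm_mul, mul_pow, Complex.norm_real, Real.norm_eq_abs, sq_abs, Real.sq_sqrt hv0]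
  rw [n1, n2, n3]
  have hgr : h ^ 2 * (∑ i, (pd i Q.χ t ^ 2 + pd i Q.η t ^ 2)) + Q.q h t ≤ P.v t := by
    by_cases hT : t ∈ Q.T
    · rw [Q.q_T hT]
      have h1 := mul_le_mul_of_nonneg_left (Q.grad_le t) (sq_nonneg h)
      have h2 : Q.κ h = h ^ 2 * Q.C1 := rfl
      linarith
    · rw [Q.q_notT hT]
      have h1 : ∑ i, (pd i Q.χ t ^ 2 + pd i Q.η t ^ 2) = 0 := by
        apply Finset.sum_eq_zero
        intro i _
        rw [(Q.grad_T hT i).1, (Q.grad_T hT i).2]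
        ring
      rw [h1]
      linarith
  have hη : 0 ≤ Q.η t ^ 2 * (β * (Q.q h t + 1) - 1) := by
    by_cases h0 : Q.η t = 0
    · rw [h0]
      simp
    · have h1 : t ∉ Metric.ball P.c (P.l - Q.w / 2) := fun h2 => h0 (Q.η_in h2)
      have h2 : t ∉ Metric.ball P.c (P.l - Q.w) := fun h3 => h1 (Q.ball_sub' h3)
      have h3 := Q.q_collar (h := h) ht h2
      refine mul_nonneg (sq_nonneg _) ?_
      have h4 : β * (2 * r + 1) ≤ β * (Q.q h t + 1) :=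
        mul_le_mul_of_nonneg_left (by linarith) hβ0.le
      linarith
  have hη' := mul_nonneg hη hY
  have hχη := Q.χη t
  have h5 := mul_le_mul_of_nonneg_left hims hβ0.le
  have h6 := mul_le_mul_of_nonneg_left (mul_le_mul_of_nonneg_right hgr hY) hβ0.le
  have e1 : Q.η t ^ 2 = 1 - Q.χ t ^ 2 := by linarith
  rw [e1] at hη'
  nlinarith

/-- Functions orthogonal to the (transplanted) modes have large energy inside `Ω`.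
Proof sketch: put `z = dn y ∈ Y` (`dn_mem`). By `up_ae`, `dn_ae`, `inner_J`,
`⟪J (up e_j), J y⟫ = ∫ χ conj(e_j) y_0 = ⟪J e_j, J z⟫`, so `m.gap` gives
`∫ χ² |y_0|² ≤ β (∫ χ² |y_0|² + ∫ χ² q |y_0|² + ∑ ∫ |χ y_i + h ∂_i χ y_0|²)`
(`norm_sq_J`, `norm_sq_X`, `dn_ae`, `Y_pot` for `z`). The integrands on the right vanish off `Ω`.
Pointwise on `Ω` (`ims_pt`, `grad_T`, `grad_le`, `D_pot`: `|y_s|² = v |y_0|²`)
`∑ |χ y_i + h ∂_i χ y_0|² ≤ ∑ |y_i|² + κ 1_T |y_0|²`, hence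
`|y_s|² + ∑ |y_i|² + |y_0|² ≥ q |y_0|² + ∑ |z_i|² + |y_0|²
   = (χ² (q + 1) |y_0|² + ∑ |z_i|²) + η² (q + 1) |y_0|²`, and `β (q + 1) ≥ 1` where `η ≠ 0` in `Ω`
(there `t ∈ T`, `q ≥ M - κ ≥ 2 r`, `β ≥ 1 / (2 r + 1)`). Integrate over `Ω`:
`β (AIn + mIn) ≥ ∫_Ω χ² |y_0|² + ∫_Ω η² |y_0|² = mIn`. -/
theorem coer_in {h r : ℝ} (hr : 0 < r) (hM : 2 * Q.κ h ≤ M) (hM' : Q.κ h + 2 * r ≤ M)
    (m : Q.Modes h r) {y : X d} (hy : y ∈ P.D h)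
    (ho : ∀ j, (inner ℂ (J (Q.up h (m.e j))) (J y) : ℂ) = 0) :
    P.mIn y ≤ m.β * (P.AIn y + P.mIn y) := by
  have hκM : Q.κ h ≤ M := Q.κ_le hM
  have hβ : 1 / (2 * r + 1) ≤ m.β := m.le_β
  have hβ0 : 0 < m.β := lt_of_lt_of_le (by positivity) hβ
  have hβ1 : 1 ≤ m.β * (2 * r + 1) := by rwa [div_le_iff₀ (by positivity)] at hβ
  have hzY : Q.dn h y ∈ Q.Y h := Q.dn_mem hM hy
  have hae := Q.dn_ae hM y
  have hort : ∀ j, (inner ℂ (J (m.e j)) (J (Q.dn h y)) : ℂ) = 0 := by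
    intro j
    rw [← ho j, inner_J, inner_J]
    apply integral_congr_ae
    filter_upwards [hae, Q.up_ae hM (m.e j)] with t a b
    rw [a.1, b.1, star_mul']
    have e : star (Q.χ t : ℂ) = (Q.χ t : ℂ) := Complex.conj_ofReal _
    rw [e]
    ring
  have hgap := m.gap _ hzY hort
  rw [norm_sq_J, norm_sq_X] at hgap
  have i0 := int_comp (Q.dn h y) none
  have is := int_comp (Q.dn h y) (some none)
  have ii : Integrable (fun t => ∑ i, ‖(Q.dn h y t) (some (some i))‖ ^ 2) :=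
    integrable_finsetSum _ fun i _ => int_comp (Q.dn h y) (some (some i))
  have j0 := int_comp y none
  have js := int_comp y (some none)
  have ji : Integrable (fun t => ∑ i, ‖(y t) (some (some i))‖ ^ 2) :=
    integrable_finsetSum _ fun i _ => int_comp y (some (some i))
  have iS : Integrable (fun t => ‖(Q.dn h y t) none‖ ^ 2 + ‖(Q.dn h y t) (some none)‖ ^ 2 +
      ∑ i, ‖(Q.dn h y t) (some (some i))‖ ^ 2) := (i0.add is).add ii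
  have iSm : Integrable (fun t => m.β * (‖(Q.dn h y t) none‖ ^ 2 +
      ‖(Q.dn h y t) (some none)‖ ^ 2 + ∑ i, ‖(Q.dn h y t) (some (some i))‖ ^ 2)) :=
    iS.const_mul m.β
  have iG : Integrable (fun t => m.β * (‖(Q.dn h y t) none‖ ^ 2 +
      ‖(Q.dn h y t) (some none)‖ ^ 2 + ∑ i, ‖(Q.dn h y t) (some (some i))‖ ^ 2) -
      ‖(Q.dn h y t) none‖ ^ 2) := iSm.sub i0
  have jS : Integrable (fun t => ‖(y t) (some none)‖ ^ 2 + ∑ i, ‖(y t) (some (some i))‖ ^ 2) :=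
    js.add ji
  have jS2 : Integrable (fun t => (‖(y t) (some none)‖ ^ 2 +
      ∑ i, ‖(y t) (some (some i))‖ ^ 2) + ‖(y t) none‖ ^ 2) := jS.add j0
  have jSm : Integrable (fun t => m.β * ((‖(y t) (some none)‖ ^ 2 +
      ∑ i, ‖(y t) (some (some i))‖ ^ 2) + ‖(y t) none‖ ^ 2)) := jS2.const_mul m.β
  have iF : Integrable (fun t => m.β * ((‖(y t) (some none)‖ ^ 2 +
      ∑ i, ‖(y t) (some (some i))‖ ^ 2) + ‖(y t) none‖ ^ 2) - ‖(y t) none‖ ^ 2) := jSm.sub j0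
  have h1 : 0 ≤ ∫ t, (m.β * (‖(Q.dn h y t) none‖ ^ 2 + ‖(Q.dn h y t) (some none)‖ ^ 2 +
      ∑ i, ‖(Q.dn h y t) (some (some i))‖ ^ 2) - ‖(Q.dn h y t) none‖ ^ 2) := by
    rw [integral_sub iSm i0, integral_const_mul]
    linarith
  have h2 : ∫ t in P.Ω, (m.β * (‖(Q.dn h y t) none‖ ^ 2 + ‖(Q.dn h y t) (some none)‖ ^ 2 +
      ∑ i, ‖(Q.dn h y t) (some (some i))‖ ^ 2) - ‖(Q.dn h y t) none‖ ^ 2) =
      ∫ t, (m.β * (‖(Q.dn h y t) none‖ ^ 2 + ‖(Q.dn h y t) (some none)‖ ^ 2 +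
      ∑ i, ‖(Q.dn h y t) (some (some i))‖ ^ 2) - ‖(Q.dn h y t) none‖ ^ 2) := by
    apply setIntegral_eq_integral_of_ae_compl_eq_zero
    filter_upwards [Q.Y_off hzY] with t ht ht2
    rw [ht ht2]
    simp
  have h3 : ∫ t in P.Ω, (m.β * (‖(Q.dn h y t) none‖ ^ 2 + ‖(Q.dn h y t) (some none)‖ ^ 2 +
      ∑ i, ‖(Q.dn h y t) (some (some i))‖ ^ 2) - ‖(Q.dn h y t) none‖ ^ 2) ≤
      ∫ t in P.Ω, (m.β * ((‖(y t) (some none)‖ ^ 2 + ∑ i, ‖(y t) (some (some i))‖ ^ 2) +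
        ‖(y t) none‖ ^ 2) - ‖(y t) none‖ ^ 2) := by
    apply setIntegral_mono_on_ae iG.integrableOn iF.integrableOn P.Ω_meas
    filter_upwards [hae, Q.Y_pot hzY, P.D_pot hy] with t a b c ht
    have h4 := Q.CoerB_pt hM' hβ0 hβ1 hκM ht ((y t) none) (fun i => (y t) (some (some i)))
    rw [b, a.1, c]
    simp only [a.2.2]
    exact h4
  have h5 : ∫ t in P.Ω, (m.β * ((‖(y t) (some none)‖ ^ 2 + ∑ i, ‖(y t) (some (some i))‖ ^ 2) +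
        ‖(y t) none‖ ^ 2) - ‖(y t) none‖ ^ 2) = m.β * (P.AIn y + P.mIn y) - P.mIn y := by
    rw [integral_sub jSm.integrableOn j0.integrableOn,
      integral_const_mul, integral_add jS.integrableOn j0.integrableOn]
    rfl
  linarith

end Cut

end Pool.Agent.Lib.MP_c84763_mp.U
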