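import Pool.Agent.Lib.MP_c84763_mp.U.CoerA
import Pool.Agent.Lib.MP_c84763_mp.U.CoerB

set_option autoImplicit false

namespace Pool.Agent.Lib.MP_c84763_mp.U

open MeasureTheory
open scoped ContDiff ENNReal

namespace Cut

variable {d : ℕ} {P : Base d} {M : ℝ} (Q : Cut P M)

theorem coercive {h r : ℝ} (hr : 1 ≤ r) (hM : 2 * Q.κ h ≤ M) (hM' : Q.κ h + 2 * r ≤ M)
    (m : Q.Modes h r) {y : X d} (hy : y ∈ P.D h)
    (ho : ∀ j, (inner ℂ (J (Q.up h (m.e j))) (J y) : ℂ) = 0) {lam : ℝ} (l0 : 0 ≤ lam)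
    (hlam : m.α * (1 + lam) ≤ 1) :
    (m.α - m.β) * ‖y‖ ^ 2 ≤ (((1 : ℂ) + ((P.R + 2 * r + 2 : ℝ) : ℂ) * Complex.I) *
      (inner ℂ y (P.Mop y) -
        ((lam : ℂ) + (P.a : ℂ) * Complex.I) * ((‖J y‖ ^ 2 : ℝ) : ℂ))).re := by
  have h1 := Q.coer_in (by linarith) hM hM' m hy ho
  have h2 := P.norm_W0 y
  rw [P.form_split y, P.norm_split y, P.normJ_split y]
  have a1 := P.mIn_nonneg y
  have a2 := P.mOut_nonneg y
  have a3 := P.AIn_nonneg y
  have a4 := P.AOut_nonneg y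
  have hβ := m.β_lt
  have hβ' := m.le_β
  have hα := m.α_le
  have hR := P.R_nonneg
  set x1 := P.mIn y
  set x2 := P.mOut y
  set x3 := P.AIn y
  set x4 := P.AOut y
  set W := P.W0 y
  have hβ0 : 0 < m.β := lt_of_lt_of_le (by positivity) hβ'
  have hα1 : m.α ≤ 1 := hα.trans (by rw [div_le_one (by linarith)]; linarith)
  -- real and imaginary parts of `W`
  have hre : -(P.R * x2) ≤ W.re := by
    have := (abs_le.1 ((Complex.abs_re_le_norm W).trans h2)).1
    linarith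
  have him : W.im ≤ P.R * x2 := (abs_le.1 ((Complex.abs_im_le_norm W).trans h2)).2
  -- expand the real part
  have hexp : (((1 : ℂ) + ((P.R + 2 * r + 2 : ℝ) : ℂ) * Complex.I) *
      ((((x3 + x4 : ℝ) : ℂ) + (P.a : ℂ) * Complex.I * (x1 : ℂ) + W) -
        ((lam : ℂ) + (P.a : ℂ) * Complex.I) * ((x1 + x2 : ℝ) : ℂ))).re =
      (x3 + x4 + W.re - lam * (x1 + x2)) -
        (P.R + 2 * r + 2) * (W.im - P.a * x2) := by
    simp only [Complex.mul_re, Complex.add_re, Complex.sub_re, Complex.one_re, Complex.ofReal_re,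
      Complex.I_re, Complex.I_im, Complex.ofReal_im, Complex.add_im, Complex.sub_im,
      Complex.mul_im, Complex.one_im]
    ring
  rw [hexp]
  have ha : P.a = P.R + 1 := rfl
  have k1 : (P.R + 2 * r + 2) * (W.im - P.a * x2) ≤ -((P.R + 2 * r + 2) * x2) := by
    have : W.im - P.a * x2 ≤ -x2 := by rw [ha]; nlinarith
    nlinarith
  have hlam' : lam ≤ 2 * r := by
    have h5 : 1 ≤ (2 * r + 1) * m.α := by
      have : 1 / (2 * r + 1) ≤ m.α := hβ'.trans hβ.le
      rw [div_le_iff₀ (by linarith)] at this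
      linarith
    by_contra hc
    push Not at hc
    nlinarith
  -- inside
  have k2 : (m.α - m.β) * (x3 + x1) ≤ x3 - lam * x1 := by
    have e1 : (1 + lam) * x1 ≤ (1 + lam) * (m.β * (x3 + x1)) :=
      mul_le_mul_of_nonneg_left h1 (by linarith)
    have e2 : (1 + lam) * m.β ≤ 1 - (m.α - m.β) := by
      have e3 : (1 + lam) * (m.α - m.β) ≥ (m.α - m.β) := by nlinarith
      nlinarith
    have e4 : (1 + lam) * (m.β * (x3 + x1)) ≤ (1 - (m.α - m.β)) * (x3 + x1) := by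
      have := mul_le_mul_of_nonneg_right e2 (by linarith : (0 : ℝ) ≤ x3 + x1)
      linarith
    linarith
  have k3 : (m.α - m.β) * (x2 + x4) ≤ x4 + 2 * x2 := by
    have : m.α - m.β ≤ 1 := by linarith
    nlinarith
  have k4 : lam * x2 ≤ 2 * r * x2 := mul_le_mul_of_nonneg_right hlam' a2
  nlinarith

end Cut

end Pool.Agent.Lib.MP_c84763_mp.U
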