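import Pool.Agent.Lib.MP_c84763_mp.U.CoerD

set_option autoImplicit false

namespace Pool.Agent.Lib.MP_c84763_mp.U

open MeasureTheory
open scoped ContDiff ENNReal

namespace Base

variable {d : ℕ} (P : Base d)

private theorem CoerA_int (y : X d) : Integrable (fun t =>
    ‖(y t) (some none)‖ ^ 2 + ∑ i, ‖(y t) (some (some i))‖ ^ 2) :=
  (int_comp y (some none)).add (integrable_finsetSum _ fun i _ => int_comp y (some (some i)))

private theorem CoerA_mass (y : X d) : (∫ t, ‖(y t) none‖ ^ 2) = P.mIn y + P.mOut y :=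
  (integral_add_compl P.Ω_meas (int_comp y none)).symm

private theorem CoerA_energy (y : X d) :
    (∫ t, (‖(y t) (some none)‖ ^ 2 + ∑ i, ‖(y t) (some (some i))‖ ^ 2)) = P.AIn y + P.AOut y :=
  (integral_add_compl P.Ω_meas (CoerA_int y)).symm

/-- Split the norm over `Ω` and its complement (`norm_sq_X`, `integral_add_compl`, `int_comp`). -/
theorem norm_split (y : X d) : ‖y‖ ^ 2 = P.mIn y + P.mOut y + P.AIn y + P.AOut y := by
  rw [norm_sq_X]
  have h1 : (∫ x, (‖(y x) none‖ ^ 2 + ‖(y x) (some none)‖ ^ 2 +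
      ∑ i, ‖(y x) (some (some i))‖ ^ 2)) =
      ∫ x, (‖(y x) none‖ ^ 2 + (‖(y x) (some none)‖ ^ 2 +
      ∑ i, ‖(y x) (some (some i))‖ ^ 2)) := by
    simp only [add_assoc]
  rw [h1, integral_add (int_comp y none) (CoerA_int y), P.CoerA_mass, P.CoerA_energy]
  ring

theorem normJ_split (y : X d) : ‖J y‖ ^ 2 = P.mIn y + P.mOut y := by
  rw [norm_sq_J, P.CoerA_mass]

private theorem CoerA_star (z : ℂ) : star z * z = ((‖z‖ ^ 2 : ℝ) : ℂ) := by
  rw [Complex.star_def, mul_comm, Complex.mul_conj, Complex.normSq_eq_norm_sq]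

private theorem CoerA_intV (y : X d) :
    Integrable (fun t => P.V1 t * ((‖(y t) none‖ ^ 2 : ℝ) : ℂ)) := by
  have h1 : Integrable (fun t => ((‖(y t) none‖ ^ 2 : ℝ) : ℂ)) := (int_comp y none).ofReal
  exact h1.bdd_mul P.V1_meas.aestronglyMeasurable
    (Filter.Eventually.of_forall fun t => P.V1_bd t)

/-- The quadratic form (`form_val`, split over `Ω` and its complement; `V1 = a i` on `Ω`). -/
theorem form_split (y : X d) :
    (inner ℂ y (P.Mop y) : ℂ) = ((P.AIn y + P.AOut y : ℝ) : ℂ) +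
      (P.a : ℂ) * Complex.I * (P.mIn y : ℂ) + P.W0 y := by
  rw [P.form_val]
  have h1 : (∫ t, (P.V1 t * (star ((y t) none) * (y t) none) +
      star ((y t) (some none)) * (y t) (some none) +
      ∑ i, star ((y t) (some (some i))) * (y t) (some (some i)))) =
      ∫ t, (P.V1 t * ((‖(y t) none‖ ^ 2 : ℝ) : ℂ) +
        ((‖(y t) (some none)‖ ^ 2 + ∑ i, ‖(y t) (some (some i))‖ ^ 2 : ℝ) : ℂ)) := by
    apply integral_congr_ae
    refine Filter.Eventually.of_forall fun t => ?_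
    simp only [CoerA_star]
    push_cast
    ring
  have h2 : Integrable (fun t =>
      ((‖(y t) (some none)‖ ^ 2 + ∑ i, ‖(y t) (some (some i))‖ ^ 2 : ℝ) : ℂ)) :=
    (CoerA_int y).ofReal
  rw [h1, integral_add (P.CoerA_intV y) h2, integral_complex_ofReal, P.CoerA_energy,
    ← integral_add_compl P.Ω_meas (P.CoerA_intV y)]
  have h3 : (∫ t in P.Ω, P.V1 t * ((‖(y t) none‖ ^ 2 : ℝ) : ℂ)) =
      (P.a : ℂ) * Complex.I * (P.mIn y : ℂ) := by
    have h4 : (∫ t in P.Ω, P.V1 t * ((‖(y t) none‖ ^ 2 : ℝ) : ℂ)) =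
        ∫ t in P.Ω, ((P.a : ℂ) * Complex.I) * ((‖(y t) none‖ ^ 2 : ℝ) : ℂ) :=
      setIntegral_congr_fun P.Ω_meas fun t ht => by simp only [P.V1_in ht]
    rw [h4, integral_const_mul, integral_complex_ofReal]
    rfl
  have h5 : (∫ t in P.Ωᶜ, P.V1 t * ((‖(y t) none‖ ^ 2 : ℝ) : ℂ)) = P.W0 y :=
    setIntegral_congr_fun P.Ω_meas.compl fun t ht => by simp only [P.V1_notin ht]
  rw [h3, h5]

  ring

theorem norm_W0 (y : X d) : ‖P.W0 y‖ ≤ P.R * P.mOut y := by
  unfold W0 mOut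
  rw [← integral_const_mul]
  refine norm_integral_le_of_norm_le ((int_comp y none).integrableOn.const_mul _)
    (Filter.Eventually.of_forall fun t => ?_)
  rw [norm_mul, Complex.norm_real, Real.norm_eq_abs, abs_of_nonneg (sq_nonneg _)]
  exact mul_le_mul_of_nonneg_right (P.bV0 t) (sq_nonneg _)

end Base

end Pool.Agent.Lib.MP_c84763_mp.U
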