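import Pool.Agent.Lib.MP_c84763_mp.U.Form

set_option autoImplicit false

namespace Pool.Agent.Lib.MP_c84763_mp.U

open MeasureTheory
open scoped ContDiff ENNReal

namespace Base

variable {d : ℕ} (P : Base d)

/-- Mass inside `Ω`. -/
noncomputable def mIn (y : X d) : ℝ := ∫ t in P.Ω, ‖(y t) none‖ ^ 2

/-- Mass outside `Ω`. -/
noncomputable def mOut (y : X d) : ℝ := ∫ t in P.Ωᶜ, ‖(y t) none‖ ^ 2

/-- Energy inside `Ω`. -/
noncomputable def AIn (y : X d) : ℝ :=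
  ∫ t in P.Ω, (‖(y t) (some none)‖ ^ 2 + ∑ i, ‖(y t) (some (some i))‖ ^ 2)

/-- Energy outside `Ω`. -/
noncomputable def AOut (y : X d) : ℝ :=
  ∫ t in P.Ωᶜ, (‖(y t) (some none)‖ ^ 2 + ∑ i, ‖(y t) (some (some i))‖ ^ 2)

/-- Potential energy outside `Ω`. -/
noncomputable def W0 (y : X d) : ℂ := ∫ t in P.Ωᶜ, P.V0 t * ((‖(y t) none‖ ^ 2 : ℝ) : ℂ)

theorem mIn_nonneg (y : X d) : 0 ≤ P.mIn y := integral_nonneg fun _ => by positivity

theorem mOut_nonneg (y : X d) : 0 ≤ P.mOut y := integral_nonneg fun _ => by positivity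

theorem AIn_nonneg (y : X d) : 0 ≤ P.AIn y := integral_nonneg fun _ => by positivity

theorem AOut_nonneg (y : X d) : 0 ≤ P.AOut y := integral_nonneg fun _ => by positivity

end Base

end Pool.Agent.Lib.MP_c84763_mp.U
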