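import Pool.Agent.Lib.MP_c84763_mp.U.Par

set_option autoImplicit false

namespace Pool.Agent.Lib.MP_c84763_mp.U

open MeasureTheory
open scoped ContDiff ENNReal

private theorem cutX_pd_const {d : ℕ} {f : Sp d → ℝ} {x : Sp d} {c : ℝ}
    (h : ∀ᶠ y in nhds x, f y = c) (i : Fin d) : pd i f x = 0 := by
  have h1 : f =ᶠ[nhds x] fun _ => c := h
  unfold pd
  rw [h1.fderiv_eq]
  simp

/-- A smooth function which is locally constant off a compact set has bounded partial
derivatives. -/
private theorem cutX_bdd {d : ℕ} {f : Sp d → ℝ} (hf : ContDiff ℝ ∞ f) {K : Set (Sp d)}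
    (hK : IsCompact K) (h0 : ∀ x, x ∉ K → ∀ i, pd i f x = 0) :
    ∃ C, 0 ≤ C ∧ ∀ x, ∑ i, pd i f x ^ 2 ≤ C := by
  have hc : Continuous fun x => ∑ i, pd i f x ^ 2 := by
    refine continuous_finsetSum _ fun i _ => ?_
    have h1 : Continuous fun x => fderiv ℝ f x := hf.continuous_fderiv (by simp)
    exact (h1.clm_apply continuous_const).pow 2
  obtain ⟨C, hC⟩ := hK.exists_bound_of_continuousOn hc.continuousOn
  refine ⟨max C 0, le_max_right _ _, fun x => ?_⟩
  by_cases hx : x ∈ K
  · exact (le_abs_self _).trans ((hC x hx).trans (le_max_left _ _))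
  · have : ∑ i, pd i f x ^ 2 = 0 := Finset.sum_eq_zero fun i _ => by rw [h0 x hx i]; simp
    rw [this]
    exact le_max_right _ _

/-- Existence of the cut-offs.
Proof sketch: `w` from `v_big`. `ρ1`, `ρ2` smooth bumps (`ContDiffBump P.c`, available for the
sup-norm since `Sp d` is finite-dimensional), `ρ1 = 1` on the closed ball of radius `l - w/2`, `= 0`
off the open ball of radius `l - w/4`, `ρ2 = 1` on the closed ball of radius `l - w`, `= 0` off the
open ball of radius `l - w/2`. `χ = sin (π/2 ρ1)`, `η = cos (π/2 ρ1)`, `F = 1 - ρ2`. Gradients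
vanish where the functions are locally constant, and where `F = 1` (a maximum of `F`); they are
bounded because they are continuous with compact support. -/
theorem exists_cut {d : ℕ} (P : Base d) (M : ℝ) : Nonempty (Cut P M) := by
  obtain ⟨w, w0, wl, hw⟩ := P.v_big M
  have l0 := P.l_pos
  let ρ1 : ContDiffBump P.c := ⟨P.l - w / 2, P.l - w / 4, by linarith, by linarith⟩
  let ρ2 : ContDiffBump P.c := ⟨P.l - w, P.l - w / 2, by linarith, by linarith⟩
  have s1 : ContDiff ℝ ∞ (ρ1 : Sp d → ℝ) := ρ1.contDiff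
  have s2 : ContDiff ℝ ∞ (ρ2 : Sp d → ℝ) := ρ2.contDiff
  have one1 : ∀ x ∈ Metric.ball P.c (P.l - w / 2), ρ1 x = 1 := fun x hx =>
    ρ1.one_of_mem_closedBall (Metric.ball_subset_closedBall hx)
  have zero1 : ∀ x, x ∉ Metric.ball P.c (P.l - w / 4) → ρ1 x = 0 := fun x hx => by
    have h1 : x ∉ Function.support (ρ1 : Sp d → ℝ) := by
      rw [ρ1.support_eq]; exact hx
    exact Function.notMem_support.1 h1
  have one2 : ∀ x ∈ Metric.ball P.c (P.l - w), ρ2 x = 1 := fun x hx =>
    ρ2.one_of_mem_closedBall (Metric.ball_subset_closedBall hx)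
  have zero2 : ∀ x, x ∉ Metric.ball P.c (P.l - w / 2) → ρ2 x = 0 := fun x hx => by
    have h1 : x ∉ Function.support (ρ2 : Sp d → ℝ) := by
      rw [ρ2.support_eq]; exact hx
    exact Function.notMem_support.1 h1
  let χ : Sp d → ℝ := fun x => Real.sin (Real.pi / 2 * ρ1 x)
  let η : Sp d → ℝ := fun x => Real.cos (Real.pi / 2 * ρ1 x)
  let F : Sp d → ℝ := fun x => 1 - ρ2 x
  have sχ : ContDiff ℝ ∞ χ := Real.contDiff_sin.comp (contDiff_const.mul s1)
  have sη : ContDiff ℝ ∞ η := Real.contDiff_cos.comp (contDiff_const.mul s1)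
  have sF : ContDiff ℝ ∞ F := contDiff_const.sub s2
  have gin : ∀ x ∈ Metric.ball P.c (P.l - w / 2), ∀ i, pd i χ x = 0 ∧ pd i η x = 0 := by
    intro x hx i
    have h1 : ∀ᶠ y in nhds x, ρ1 y = 1 := by
      filter_upwards [Metric.isOpen_ball.mem_nhds hx] with y hy using one1 y hy
    constructor
    · refine cutX_pd_const (c := Real.sin (Real.pi / 2 * 1)) ?_ i
      filter_upwards [h1] with y hy
      simp only [χ, hy]
    · refine cutX_pd_const (c := Real.cos (Real.pi / 2 * 1)) ?_ i
      filter_upwards [h1] with y hy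
      simp only [η, hy]
  have goff : ∀ x, x ∉ Metric.closedBall P.c (P.l - w / 4) → ∀ i,
      pd i χ x = 0 ∧ pd i η x = 0 := by
    intro x hx i
    have h1 : ∀ᶠ y in nhds x, ρ1 y = 0 := by
      filter_upwards [Metric.isClosed_closedBall.isOpen_compl.mem_nhds hx] with y hy
      exact zero1 y (fun h => hy (Metric.ball_subset_closedBall h))
    constructor
    · refine cutX_pd_const (c := Real.sin (Real.pi / 2 * 0)) ?_ i
      filter_upwards [h1] with y hy
      simp only [χ, hy]
    · refine cutX_pd_const (c := Real.cos (Real.pi / 2 * 0)) ?_ i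
      filter_upwards [h1] with y hy
      simp only [η, hy]
  have Foff : ∀ x, x ∉ Metric.ball P.c (P.l - w / 2) → ∀ i, pd i F x = 0 := by
    intro x hx i
    have h1 : IsLocalMax F x := by
      refine Filter.Eventually.of_forall fun y => ?_
      simp only [F, zero2 x hx, sub_zero]
      have := ρ2.nonneg (x := y)
      linarith
    unfold pd
    rw [h1.fderiv_eq_zero]
    simp
  obtain ⟨Cχ, Cχ0, hCχ⟩ := cutX_bdd sχ (isCompact_closedBall P.c (P.l - w / 4))
    (fun x hx i => (goff x hx i).1)
  obtain ⟨Cη, Cη0, hCη⟩ := cutX_bdd sη (isCompact_closedBall P.c (P.l - w / 4))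
    (fun x hx i => (goff x hx i).2)
  obtain ⟨CF, CF0, hCF⟩ := cutX_bdd sF (isCompact_closedBall P.c (P.l - w / 2))
    (fun x hx i => Foff x (fun h => hx (Metric.ball_subset_closedBall h)) i)
  refine ⟨{
    w := w
    χ := χ
    η := η
    F := F
    C1 := Cχ + Cη + 1
    C2 := CF + 1
    w_pos := w0
    w_le := wl
    big := hw
    C1_pos := by linarith
    C2_pos := by linarith
    sχ := sχ
    sη := sη
    sF := sF
    χη := fun x => Real.sin_sq_add_cos_sq _
    χ_in := fun x hx => by simp [χ, one1 x hx]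
    χ_off := fun x hx => by simp [χ, zero1 x hx]
    grad_in := gin
    grad_off := fun x hx i => goff x (fun h => hx
      (Metric.closedBall_subset_ball (by linarith) h)) i
    grad_le := fun x => ?_
    F_nonneg := fun x => ?_
    F_le := fun x => ?_
    F_in := fun x hx => by simp [F, one2 x hx]
    F_off := fun x hx => by simp [F, zero2 x hx]
    F_grad_in := fun x hx i => ?_
    F_grad_off := Foff
    F_grad_le := fun x => ?_ }⟩
  · rw [Finset.sum_add_distrib]
    linarith [hCχ x, hCη x]
  · have := ρ2.le_one (x := x)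
    simp only [F]
    linarith
  · have := ρ2.nonneg (x := x)
    simp only [F]
    linarith
  · refine cutX_pd_const (c := 1 - 1) ?_ i
    filter_upwards [Metric.isOpen_ball.mem_nhds hx] with y hy
    simp only [F, one2 y hy]
  · linarith [hCF x]

end Pool.Agent.Lib.MP_c84763_mp.U
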