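import Mathlib

set_option autoImplicit false

namespace Pool.Agent.Lib.MP_c84763_mp.U

theorem exp_small (K : ℝ) {b c : ℝ} (hb : 0 < b) (hc : 0 < c) (n : ℕ) :
    ∃ h0 > 0, ∀ h, 0 < h → h < h0 → K * Real.exp (-(b / h)) ≤ c * h ^ n := by
  -- x ^ n * exp (-(b x)) → 0 as x → ∞
  have h1 : Filter.Tendsto (fun x : ℝ => K * (x ^ n * Real.exp (-b * x))) Filter.atTop
      (nhds (K * 0)) := by
    apply Filter.Tendsto.const_mul
    have := tendsto_rpow_mul_exp_neg_mul_atTop_nhds_zero (n : ℝ) b hb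
    refine this.congr (fun x => ?_)
    rw [Real.rpow_natCast]
  rw [mul_zero] at h1
  have h2 : ∀ᶠ x : ℝ in Filter.atTop, K * (x ^ n * Real.exp (-b * x)) < c :=
    h1.eventually_lt_const hc
  rw [Filter.eventually_atTop] at h2
  obtain ⟨a, ha⟩ := h2
  refine ⟨1 / (|a| + 1), by positivity, fun h hh hh0 => ?_⟩
  have ha1 : 0 < |a| + 1 := by positivity
  have h3 : a ≤ 1 / h := by
    have : |a| + 1 ≤ 1 / h := by
      rw [le_div_iff₀ hh]
      rw [lt_div_iff₀ ha1] at hh0
      linarith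
    have := le_abs_self a
    linarith
  have h4 := ha (1 / h) h3
  have h5 : -b * (1 / h) = -(b / h) := by ring
  rw [h5, one_div, inv_pow] at h4
  have h6 : 0 < h ^ n := pow_pos hh n
  have h7 : K * Real.exp (-(b / h)) = (K * ((h ^ n)⁻¹ * Real.exp (-(b / h)))) * h ^ n := by
    field_simp
  rw [h7]
  exact mul_le_mul_of_nonneg_right h4.le h6.le

end Pool.Agent.Lib.MP_c84763_mp.U
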