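import Pool.Agent.Lib.MP_c84763_mp.U.DomA

set_option autoImplicit false

namespace Pool.Agent.Lib.MP_c84763_mp.U

open MeasureTheory
open scoped ContDiff ENNReal

private noncomputable def domB_P {d : ℕ} (k : Idx d) : X d →L[ℂ] L2 d :=
  ContinuousLinearMap.compLpL 2 volume (EuclideanSpace.proj k : Vec d →L[ℂ] ℂ)

private theorem domB_P_ae {d : ℕ} (k : Idx d) (x : X d) :
    (domB_P k x : Sp d → ℂ) =ᵐ[volume] fun t => (x t) k :=
  ContinuousLinearMap.coeFn_compLpL _ _

private theorem domB_memLp {d : ℕ} {ψ : Sp d → ℂ} (hc : Continuous ψ) (hs : HasCompactSupport ψ) :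
    MemLp (fun t => star (ψ t)) 2 (volume : Measure (Sp d)) := by
  refine Continuous.memLp_of_hasCompactSupport (continuous_star.comp hc) ?_
  exact hs.comp_left (g := fun z : ℂ => star z) (star_zero _)

/-- the functional `x ↦ ∫ x_k ψ` -/
private noncomputable def domB_L {d : ℕ} (k : Idx d) {ψ : Sp d → ℂ} (hc : Continuous ψ)
    (hs : HasCompactSupport ψ) : X d →L[ℂ] ℂ :=
  (innerSL ℂ ((domB_memLp hc hs).toLp _)).comp (domB_P k)

private theorem domB_L_val {d : ℕ} (k : Idx d) {ψ : Sp d → ℂ} (hc : Continuous ψ)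
    (hs : HasCompactSupport ψ) (x : X d) : domB_L k hc hs x = ∫ t, (x t) k * ψ t := by
  show (inner ℂ ((domB_memLp hc hs).toLp _) (domB_P k x) : ℂ) = _
  rw [L2.inner_def]
  apply integral_congr_ae
  filter_upwards [(domB_memLp hc hs).coeFn_toLp, domB_P_ae k x] with t h1 h2
  rw [h1, h2]
  simp [mul_comm]

private theorem domB_pd_cont {d : ℕ} {φ : Sp d → ℂ} (hφ : IsTest φ) (i : Fin d) :
    Continuous (fun x => pd i φ x) := by
  have h1 : Continuous (fun x => fderiv ℝ φ x) := hφ.smooth.continuous_fderiv (by simp)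
  exact h1.clm_apply continuous_const

private theorem domB_pd_supp {d : ℕ} {φ : Sp d → ℂ} (hφ : IsTest φ) (i : Fin d) :
    HasCompactSupport (fun x => pd i φ x) := by
  have h1 : HasCompactSupport (fun x => fderiv ℝ φ x) := hφ.cpt.fderiv ℝ
  exact h1.comp_left (g := fun L : Sp d →L[ℝ] ℂ => L (Pi.single i 1)) rfl

private theorem domB_parts {d : ℕ} {f φ : Sp d → ℂ} (hf : IsTest f) (hφ : IsTest φ) (i : Fin d) :
    ∫ t, f t * pd i φ t = -∫ t, pd i f t * φ t := by
  have i1 : Integrable (fun x => pd i f x * φ x) (volume : Measure (Sp d)) := by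
    refine Continuous.integrable_of_hasCompactSupport
      ((domB_pd_cont hf i).mul hφ.smooth.continuous) ?_
    exact (domB_pd_supp hf i).mul_right
  have i2 : Integrable (fun x => f x * pd i φ x) (volume : Measure (Sp d)) := by
    refine Continuous.integrable_of_hasCompactSupport
      (hf.smooth.continuous.mul (domB_pd_cont hφ i)) ?_
    exact hf.cpt.mul_right
  have i3 : Integrable (fun x => f x * φ x) (volume : Measure (Sp d)) := by
    refine Continuous.integrable_of_hasCompactSupport
      (hf.smooth.continuous.mul hφ.smooth.continuous) ?_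
    exact hf.cpt.mul_right
  exact integral_mul_fderiv_eq_neg_fderiv_mul_of_integrable i1 i2 i3
    (fun x _ => (hf.smooth.differentiable (by simp)) x)
    (fun x _ => (hφ.smooth.differentiable (by simp)) x)

/-- The last components are `h` times the weak gradient of the first one.
Proof sketch: for fixed `φ`, both sides are continuous linear in `x ∈ X d` (each component map
`X d → L2 d` is continuous, and `φ`, `∂_i φ` are in `L²`), so the identity defines a closed
submodule; it contains the jets of test functions by integration by parts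
(`integral_mul_fderiv_eq_neg_fderiv_mul_of_integrable` or
`MeasureTheory.integral_bilinear_hasLineDerivAt_right_eq_neg_left_of_integrable`). Use
`Submodule.closure_induction` / `Submodule.topologicalClosure_minimal` and
`Submodule.span_le`. -/
theorem dom_grad {d : ℕ} {h : ℝ} {q : Sp d → ℝ} {U : Set (Sp d)} {x : X d}
    (hx : x ∈ Dom h q U) (i : Fin d) {φ : Sp d → ℂ} (hφ : IsTest φ) :
    (h : ℂ) * ∫ t, (x t) none * pd i φ t = -∫ t, (x t) (some (some i)) * φ t := by
  set Φ : X d →L[ℂ] ℂ := (h : ℂ) • domB_L none (domB_pd_cont hφ i) (domB_pd_supp hφ i) +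
    domB_L (some (some i)) hφ.smooth.continuous hφ.cpt with hΦ
  have hval : ∀ y : X d, Φ y = (h : ℂ) * (∫ t, (y t) none * pd i φ t) +
      ∫ t, (y t) (some (some i)) * φ t := by
    intro y
    rw [hΦ]
    show (h : ℂ) * domB_L none (domB_pd_cont hφ i) (domB_pd_supp hφ i) y +
      domB_L (some (some i)) hφ.smooth.continuous hφ.cpt y = _
    rw [domB_L_val, domB_L_val]
  have hker : Dom h q U ≤ LinearMap.ker (Φ : X d →ₗ[ℂ] ℂ) := by
    refine Submodule.topologicalClosure_minimal _ ?_ Φ.isClosed_ker
    rw [Submodule.span_le]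
    rintro y ⟨f, hf, -, hy⟩
    show Φ y = 0
    rw [hval]
    have e1 : ∫ t, (y t) none * pd i φ t = ∫ t, f t * pd i φ t := by
      apply integral_congr_ae
      filter_upwards [hy] with t ht
      rw [ht]
      rfl
    have e2 : ∫ t, (y t) (some (some i)) * φ t = (h : ℂ) * ∫ t, pd i f t * φ t := by
      rw [← integral_const_mul]
      apply integral_congr_ae
      filter_upwards [hy] with t ht
      rw [ht]
      show ((h : ℂ) * pd i f t) * φ t = _
      ring
    rw [e1, e2, domB_parts hf hφ i]
    ring
  have h0 : Φ x = 0 := hker hx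
  rw [hval] at h0
  exact eq_neg_of_add_eq_zero_left h0

end Pool.Agent.Lib.MP_c84763_mp.U
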