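import Pool.Agent.Lib.MP_c84763_mp.U.Form
import Pool.Agent.Lib.MP_c84763_mp.U.DomB
import Pool.Agent.Lib.MP_c84763_mp.U.DomC

set_option autoImplicit false

namespace Pool.Agent.Lib.MP_c84763_mp.U

open MeasureTheory
open scoped ContDiff ENNReal

private theorem conj_test {d : ℕ} {φ : Sp d → ℂ} (hφ : IsTest φ) :
    IsTest (fun t => (starRingEnd ℂ) (φ t)) where
  smooth := Complex.conjCLE.contDiff.comp hφ.smooth
  cpt := hφ.cpt.comp_left (g := fun z : ℂ => (starRingEnd ℂ) z) (map_zero _)

private theorem pd_conj {d : ℕ} {φ : Sp d → ℂ} (hφ : IsTest φ) (i : Fin d) (t : Sp d) :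
    pd i (fun t => (starRingEnd ℂ) (φ t)) t = (starRingEnd ℂ) (pd i φ t) := by
  have h1 : HasFDerivAt φ (fderiv ℝ φ t) t := ((hφ.smooth.differentiable (by simp)) t).hasFDerivAt
  have h2 : HasFDerivAt (fun t => (starRingEnd ℂ) (φ t))
      ((Complex.conjCLE : ℂ →L[ℝ] ℂ).comp (fderiv ℝ φ t)) t :=
    (Complex.conjCLE : ℂ →L[ℝ] ℂ).hasFDerivAt.comp t h1
  unfold pd
  rw [h2.fderiv]
  rfl

namespace Base

variable {d : ℕ} (P : Base d)

/-- From the form to the operator.
Proof sketch: `|V| |x_0|² ≤ |V1| |x_0|² + v |x_0|²`, `v |x_0|² = |x_s|²` (`dom_pot`), integrable.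
Take `G i = (1/h) x_i` (as an `L2` element, the composition of `x` with the coordinate
projection, cf. `J`); `dom_grad` gives the weak gradient. For a test function `φ`, apply the
hypothesis to the jet of `conj φ` (`jet_mem` with `U = univ`; `pd i (conj φ) = conj (pd i φ)`):
by `form_val`, `⟪jet, Mop x⟫ = ∫ V1 φ x_0 + ∫ √v φ √v x_0 + h ∑ ∫ ∂_i φ x_i`, while
`⟪J jet, z⟫ = ∫ φ z`. -/
theorem ham_of_form {h : ℝ} (h0 : 0 < h) {x : X d} (hx : x ∈ P.D h) {z : L2 d}
    (hz : ∀ φ ∈ P.D h, (inner ℂ φ (P.Mop x) : ℂ) = inner ℂ (J φ) z) :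
    Ham P.V h (J x) z := by
  have hh : (h : ℂ) ≠ 0 := Complex.ofReal_ne_zero.mpr h0.ne'
  have hpot := dom_pot P.mv hx
  have hVm : Measurable P.V := P.V1_meas.add (Complex.measurable_ofReal.comp P.mv)
  have hVle : ∀ t, ‖P.V t‖ ≤ P.a + P.v t := fun t => by
    refine (norm_add_le _ _).trans (add_le_add (P.V1_bd t) ?_)
    rw [Complex.norm_real, Real.norm_eq_abs, abs_of_nonneg (P.v_nonneg t)]
  refine ⟨?_, ?_⟩
  · refine Integrable.mono' (((int_comp x none).const_mul P.a).add (int_comp x (some none))) ?_ ?_
    · exact (hVm.norm.aestronglyMeasurable).mul ((Lp.aestronglyMeasurable (J x)).norm.pow 2)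
    · filter_upwards [hpot, J_ae x] with t h1 h2
      have h3 : ‖(x t) (some none)‖ ^ 2 = P.v t * ‖(x t) none‖ ^ 2 := by
        rw [h1, norm_mul, mul_pow, Complex.norm_real, Real.norm_eq_abs, sq_abs,
          Real.sq_sqrt (P.v_nonneg t)]
      show ‖‖P.V t‖ * ‖J x t‖ ^ 2‖ ≤ P.a * ‖(x t) none‖ ^ 2 + ‖(x t) (some none)‖ ^ 2
      rw [h2, h3, Real.norm_eq_abs, abs_of_nonneg (by positivity)]
      have := mul_le_mul_of_nonneg_right (hVle t) (by positivity : 0 ≤ ‖(x t) none‖ ^ 2)
      linarith
  · let G : Fin d → L2 d := fun i => (h : ℂ)⁻¹ •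
      (ContinuousLinearMap.compLpL 2 volume
        (EuclideanSpace.proj (some (some i) : Idx d) : Vec d →L[ℂ] ℂ)) x
    have hG : ∀ i, (G i : Sp d → ℂ) =ᵐ[volume] fun t => (h : ℂ)⁻¹ * (x t) (some (some i)) := by
      intro i
      have h1 := ContinuousLinearMap.coeFn_compLpL (p := 2) (μ := (volume : Measure (Sp d)))
        (EuclideanSpace.proj (some (some i) : Idx d) : Vec d →L[ℂ] ℂ) x
      filter_upwards [Lp.coeFn_smul (h : ℂ)⁻¹ ((ContinuousLinearMap.compLpL 2 volume
        (EuclideanSpace.proj (some (some i) : Idx d) : Vec d →L[ℂ] ℂ)) x), h1] with t a b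
      show (G i : Sp d → ℂ) t = _
      rw [a, Pi.smul_apply, b]
      rfl
    refine ⟨G, ?_, ?_⟩
    · intro i φ hφ
      have h1 := dom_grad hx i hφ
      have e1 : ∫ t, J x t * pd i φ t = ∫ t, (x t) none * pd i φ t := by
        apply integral_congr_ae
        filter_upwards [J_ae x] with t a
        rw [a]
      have e2 : ∫ t, G i t * φ t = (h : ℂ)⁻¹ * ∫ t, (x t) (some (some i)) * φ t := by
        rw [← integral_const_mul]
        apply integral_congr_ae
        filter_upwards [hG i] with t a
        rw [a, mul_assoc]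
      rw [e1, e2]
      have h2 : ∫ t, (x t) none * pd i φ t = (h : ℂ)⁻¹ * ((h : ℂ) * ∫ t, (x t) none * pd i φ t) := by
        rw [inv_mul_cancel_left₀ hh]
      rw [h2, h1]
      ring
    · intro φ hφ
      obtain ⟨y, hy, hyj⟩ := jet_mem (h := h) P.v_nonneg P.v_int (conj_test hφ)
        (Set.subset_univ (tsupport fun t => (starRingEnd ℂ) (φ t)))
      have h1 := hz y hy
      rw [P.form_val, MeasureTheory.L2.inner_def] at h1
      -- the components of `y`
      have hyc : ∀ᵐ t, star ((y t) none) = φ t ∧ star ((y t) (some none)) =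
          (Real.sqrt (P.v t) : ℂ) * φ t ∧ ∀ i, star ((y t) (some (some i))) = (h : ℂ) * pd i φ t := by
        filter_upwards [hyj] with t a
        rw [a]
        refine ⟨?_, ?_, fun i => ?_⟩
        · show star ((starRingEnd ℂ) (φ t)) = φ t
          simp
        · show star ((Real.sqrt (P.v t) : ℂ) * (starRingEnd ℂ) (φ t)) = _
          simp
        · show star ((h : ℂ) * pd i (fun t => (starRingEnd ℂ) (φ t)) t) = _
          rw [pd_conj hφ]
          simp
      -- right hand side
      have e0 : ∫ t, (inner ℂ ((J y) t) (z t) : ℂ) = ∫ t, z t * φ t := by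
        apply integral_congr_ae
        filter_upwards [J_ae y, hyc] with t a b
        rw [a, RCLike.inner_apply]
        have : (starRingEnd ℂ) ((y t) none) = φ t := b.1
        rw [this]
      -- left hand side
      have i1 : Integrable (fun t => P.V1 t * (star ((y t) none) * (x t) none)) :=
        (int_mul y x none none).bdd_mul (c := P.a) P.V1_meas.aestronglyMeasurable
          (Filter.Eventually.of_forall fun t => P.V1_bd t)
      have i2 := int_mul y x (some none) (some none)
      have i3 : ∀ i, Integrable (fun t => star ((y t) (some (some i))) * (x t) (some (some i))) :=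
        fun i => int_mul y x (some (some i)) (some (some i))
      have e1 : ∫ t, (P.V1 t * (star ((y t) none) * (x t) none) +
          star ((y t) (some none)) * (x t) (some none) +
          ∑ i, star ((y t) (some (some i))) * (x t) (some (some i))) =
          (∫ t, (P.V1 t * (star ((y t) none) * (x t) none) +
          star ((y t) (some none)) * (x t) (some none))) +
          ∑ i, ∫ t, star ((y t) (some (some i))) * (x t) (some (some i)) := by
        have i12 : Integrable (fun t => P.V1 t * (star ((y t) none) * (x t) none) +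
          star ((y t) (some none)) * (x t) (some none)) := i1.add i2
        rw [integral_add i12 (integrable_finsetSum _ fun i _ => i3 i),
          integral_finsetSum _ fun i _ => i3 i]
      have e2 : ∫ t, (P.V1 t * (star ((y t) none) * (x t) none) +
          star ((y t) (some none)) * (x t) (some none)) = ∫ t, P.V t * J x t * φ t := by
        apply integral_congr_ae
        filter_upwards [hyc, hpot, J_ae x] with t a b c
        rw [a.1, a.2.1, b, c]
        have hs : (Real.sqrt (P.v t) : ℂ) * (Real.sqrt (P.v t) : ℂ) = (P.v t : ℂ) := by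
          rw [← Complex.ofReal_mul, Real.mul_self_sqrt (P.v_nonneg t)]
        unfold V
        linear_combination (φ t * (x t) none) * hs
      have e3 : ∀ i, ∫ t, star ((y t) (some (some i))) * (x t) (some (some i)) =
          (h : ℂ) ^ 2 * ∫ t, G i t * pd i φ t := by
        intro i
        rw [← integral_const_mul]
        apply integral_congr_ae
        filter_upwards [hyc, hG i] with t a b
        rw [a.2.2 i, b]
        field_simp
      rw [e1, e2, e0] at h1
      rw [← h1, Finset.mul_sum, add_comm, Finset.sum_congr rfl fun i _ => e3 i]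

end Base

end Pool.Agent.Lib.MP_c84763_mp.U
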