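import Mathlib

set_option autoImplicit false

namespace Pool.Agent.Lib.MP_c84763_mp.U

private theorem spB_self {E : Type*} [NormedAddCommGroup E] [InnerProductSpace ℂ E] (x : E) :
    (inner ℂ x x : ℂ) = ((‖x‖ ^ 2 : ℝ) : ℂ) := by
  rw [inner_self_eq_norm_sq_to_K]
  push_cast
  rfl

private theorem spB_inner {E ι : Type*} [NormedAddCommGroup E] [InnerProductSpace ℂ E]
    [Fintype ι] (v : ι → E) (hv : ∀ i j, i ≠ j → (inner ℂ (v i) (v j) : ℂ) = 0)
    (c d : ι → ℂ) : (inner ℂ (∑ i, c i • v i) (∑ j, d j • v j) : ℂ) =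
      ∑ i, (starRingEnd ℂ) (c i) * d i * ((‖v i‖ ^ 2 : ℝ) : ℂ) := by
  classical
  rw [sum_inner]
  refine Finset.sum_congr rfl fun i _ => ?_
  rw [inner_smul_left, inner_sum, Finset.sum_eq_single i]
  · rw [inner_smul_right, spB_self]
    ring
  · intro j _ hj
    rw [inner_smul_right, hv i j hj.symm, mul_zero]
  · intro h
    exact absurd (Finset.mem_univ i) h

open Module.End in
/-- Finitely many large eigenvalues.
Proof sketch: `T = J† J` is symmetric with `⟪y, T y⟫ = ‖J y‖²`. For distinct eigenvalues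
`x_1, .., x_k ≥ a`, the sum of one-dimensional subspaces of eigenvectors (orthogonal) has
dimension `k` and `‖J y‖² = ⟪y, T y⟫ ≥ a ‖y‖²` on it; so `k ≤ n`. More generally the direct sum
of the eigenspaces for eigenvalues `≥ a` has dimension `≤ n`. -/
theorem large_eigs {E L : Type*} [NormedAddCommGroup E] [InnerProductSpace ℂ E]
    [CompleteSpace E] [NormedAddCommGroup L] [InnerProductSpace ℂ L] [CompleteSpace L]
    (J : E →L[ℂ] L) {a : ℝ} (ha : 0 < a) {n : ℕ}
    (hn : ∀ S : Submodule ℂ E, Module.Finite ℂ S → (∀ y ∈ S, a * ‖y‖ ^ 2 ≤ ‖J y‖ ^ 2) →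
      Module.finrank ℂ S ≤ n) :
    ∃ s : Finset ℝ, s.card ≤ n ∧ ∀ x : ℝ, a ≤ x →
      HasEigenvalue ((ContinuousLinearMap.adjoint J ∘L J : E →L[ℂ] E) : Module.End ℂ E) (x : ℂ) →
      x ∈ s := by
  classical
  obtain ⟨T, hT⟩ : ∃ T : Module.End ℂ E,
      T = ((ContinuousLinearMap.adjoint J ∘L J : E →L[ℂ] E) : Module.End ℂ E) := ⟨_, rfl⟩
  have hTi : ∀ φ x, (inner ℂ φ (T x) : ℂ) = inner ℂ (J φ) (J x) := by
    intro φ x
    rw [hT]
    exact ContinuousLinearMap.adjoint_inner_right J φ (J x)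
  rw [← hT]
  have key : ∀ t : Finset ℝ, (∀ x ∈ t, a ≤ x ∧ HasEigenvalue T (x : ℂ)) → t.card ≤ n := by
    intro t ht
    have h0 : ∀ i : t, ∃ v : E, HasEigenvector T ((i : ℝ) : ℂ) v := fun i =>
      (ht i i.2).2.exists_hasEigenvector
    choose v hv using h0
    have hlin : LinearIndependent ℂ v := by
      refine Module.End.eigenvectors_linearIndependent' T (fun i : t => ((i : ℝ) : ℂ)) ?_ v hv
      intro i j hij
      exact Subtype.ext (Complex.ofReal_injective hij)
    have horth : ∀ i j, i ≠ j → (inner ℂ (v i) (v j) : ℂ) = 0 := by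
      intro i j hij
      have h1 : (inner ℂ (v i) (T (v j)) : ℂ) = inner ℂ (T (v i)) (v j) := by
        rw [hTi, ← inner_conj_symm (T (v i)), hTi, inner_conj_symm]
      rw [(hv i).apply_eq_smul, (hv j).apply_eq_smul, inner_smul_left, inner_smul_right,
        Complex.conj_ofReal] at h1
      have h2 : ((((j : ℝ) : ℂ)) - ((i : ℝ) : ℂ)) * (inner ℂ (v i) (v j) : ℂ) = 0 := by
        rw [sub_mul, h1, sub_self]
      rcases mul_eq_zero.1 h2 with h3 | h3
      · exfalso
        apply hij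
        have h4 := sub_eq_zero.1 h3
        exact Subtype.ext (Complex.ofReal_injective h4).symm
      · exact h3
    have hfr := hn (Submodule.span ℂ (Set.range v))
      (FiniteDimensional.span_of_finite ℂ (Set.finite_range v)) ?_
    · rw [finrank_span_eq_card hlin] at hfr
      simpa using hfr
    · intro y hy
      obtain ⟨c, hc⟩ := (Submodule.mem_span_range_iff_exists_fun ℂ).1 hy
      have e1 : (inner ℂ y y : ℂ) = ∑ i, (starRingEnd ℂ) (c i) * c i * ((‖v i‖ ^ 2 : ℝ) : ℂ) := by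
        rw [← hc]
        exact spB_inner v horth c c
      have e2 : (inner ℂ y (T y) : ℂ) =
          ∑ i : t, (starRingEnd ℂ) (c i) * (c i * ((i : ℝ) : ℂ)) * ((‖v i‖ ^ 2 : ℝ) : ℂ) := by
        have h5 : T y = ∑ i : t, (c i * ((i : ℝ) : ℂ)) • v i := by
          rw [← hc, map_sum]
          refine Finset.sum_congr rfl fun i _ => ?_
          rw [map_smul, (hv i).apply_eq_smul, smul_smul]
        rw [h5, ← hc]
        exact spB_inner v horth c _
      have f1 : ‖y‖ ^ 2 = ∑ i, ‖c i‖ ^ 2 * ‖v i‖ ^ 2 := by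
        have h6 : ((‖y‖ ^ 2 : ℝ) : ℂ) = ((∑ i, ‖c i‖ ^ 2 * ‖v i‖ ^ 2 : ℝ) : ℂ) := by
          rw [← spB_self, e1]
          push_cast
          refine Finset.sum_congr rfl fun i _ => ?_
          rw [Complex.conj_mul']
        exact Complex.ofReal_injective h6
      have f2 : ‖J y‖ ^ 2 = ∑ i : t, (i : ℝ) * (‖c i‖ ^ 2 * ‖v i‖ ^ 2) := by
        have h6 : ((‖J y‖ ^ 2 : ℝ) : ℂ) = ((∑ i : t, (i : ℝ) * (‖c i‖ ^ 2 * ‖v i‖ ^ 2) : ℝ) : ℂ) := by
          rw [hTi] at e2
          rw [← spB_self, e2]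
          push_cast
          refine Finset.sum_congr rfl fun i _ => ?_
          rw [← mul_assoc, Complex.conj_mul']
          ring
        exact Complex.ofReal_injective h6
      rw [f1, f2, Finset.mul_sum]
      exact Finset.sum_le_sum fun i _ => mul_le_mul_of_nonneg_right (ht i i.2).1 (by positivity)
  by_cases hfin : {x : ℝ | a ≤ x ∧ HasEigenvalue T (x : ℂ)}.Finite
  · refine ⟨hfin.toFinset, key _ fun x hx => ?_, fun x hx hx' => ?_⟩
    · exact (Set.Finite.mem_toFinset hfin).1 hx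
    · exact (Set.Finite.mem_toFinset hfin).2 ⟨hx, hx'⟩
  · exfalso
    obtain ⟨t, ht, hc⟩ := Set.Infinite.exists_subset_card_eq hfin (n + 1)
    have := key t fun x hx => ht hx
    omega

end Pool.Agent.Lib.MP_c84763_mp.U
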