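import Mathlib

set_option autoImplicit false

namespace Pool.Agent.Lib.MP_c84763_mp.U

open Module.End in
private theorem SpC_top {F : Type*} [NormedAddCommGroup F] [InnerProductSpace ℂ F]
    [CompleteSpace F] (S : F →L[ℂ] F) (hS : IsCompactOperator S) (hS' : S.IsSymmetric)
    (hpos : ∀ x, 0 ≤ RCLike.re (inner ℂ x (S x) : ℂ)) (h0 : S ≠ 0) :
    HasEigenvalue (S : Module.End ℂ F) ((‖S‖ : ℝ) : ℂ) := by
  have hnt : Nontrivial (F →L[ℂ] F) := ⟨S, 0, h0⟩
  obtain ⟨z, hz, hzn⟩ := spectrum.exists_nnnorm_eq_spectralRadius S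
  rw [S.spectralRadius_eq_nnnorm hS'.isSelfAdjoint] at hzn
  have hzn' : ‖z‖ = ‖S‖ := by
    have : ‖z‖₊ = ‖S‖₊ := by exact_mod_cast hzn
    exact congrArg NNReal.toReal this
  have hz0 : z ≠ 0 := by
    rw [← norm_ne_zero_iff, hzn']
    exact norm_ne_zero_iff.2 h0
  have hev : HasEigenvalue (S : Module.End ℂ F) z := (hS.hasEigenvalue_iff_mem_spectrum hz0).2 hz
  have hconj := LinearMap.IsSymmetric.conj_eigenvalue_eq_self hS' hev
  obtain ⟨x, rfl⟩ : ∃ x : ℝ, z = x := ⟨z.re, (Complex.conj_eq_iff_re.1 hconj).symm⟩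
  have hx : 0 ≤ x := eigenvalue_nonneg_of_nonneg (T := (S : F →ₗ[ℂ] F)) hev hpos
  rw [Complex.norm_real, Real.norm_eq_abs, abs_of_nonneg hx] at hzn'
  rw [← hzn']
  exact hev

open Module.End in
/-- Orthonormal eigenvectors above a spectral gap.
Proof sketch: `T = J† J` is compact and symmetric. Let `W` be the orthogonal direct sum of the
eigenspaces for eigenvalues in `[α, ∞)`: `‖J y‖² ≥ α ‖y‖²` on finite sums, so `W` is
finite-dimensional of dimension `≤ n` (`hn`). Choose an orthonormal basis `v_j` of eigenvectors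
(orthonormal bases of the eigenspaces), `T v_j = s_j v_j`, and `e_j = v_j / √s_j`, so that
`⟪J e_i, J e_j⟫ = ⟪e_i, T e_j⟫ = δ_ij`, `⟪J φ, J e_j⟫ = s_j ⟪φ, e_j⟫`. `Wᗮ` is invariant under `T`,
the restriction is compact and symmetric, with all eigenvalues `≤ β` (they are `≥ 0` and not in
`(β, α)` by `hgap`, not `≥ α`); its norm is its spectral radius
(`ContinuousLinearMap.spectralRadius_eq_nnnorm`,
`IsCompactOperator.hasEigenvalue_iff_mem_spectrum`), so `‖J y‖² = ⟪y, T y⟫ ≤ β ‖y‖²` on `Wᗮ`. -/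
theorem modes_of_gap {E L : Type*} [NormedAddCommGroup E] [InnerProductSpace ℂ E]
    [CompleteSpace E] [NormedAddCommGroup L] [InnerProductSpace ℂ L] [CompleteSpace L]
    (J : E →L[ℂ] L) (hJ : IsCompactOperator J) {α β : ℝ} (hβ : 0 < β) (hβα : β < α) {n : ℕ}
    (hn : ∀ S : Submodule ℂ E, Module.Finite ℂ S → (∀ y ∈ S, α * ‖y‖ ^ 2 ≤ ‖J y‖ ^ 2) →
      Module.finrank ℂ S ≤ n)
    (hgap : ∀ x : ℝ, β < x → x < α →
      ¬ HasEigenvalue ((ContinuousLinearMap.adjoint J ∘L J : E →L[ℂ] E) : Module.End ℂ E)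
        (x : ℂ)) :
    ∃ (N : ℕ) (e : Fin N → E) (s : Fin N → ℝ), N ≤ n ∧ (∀ j, α ≤ s j) ∧
      (∀ j φ, (inner ℂ (J φ) (J (e j)) : ℂ) = (s j : ℂ) * inner ℂ φ (e j)) ∧
      (∀ i j, (inner ℂ (J (e i)) (J (e j)) : ℂ) = if i = j then 1 else 0) ∧
      ∀ y, (∀ j, (inner ℂ (J (e j)) (J y) : ℂ) = 0) → ‖J y‖ ^ 2 ≤ β * ‖y‖ ^ 2 := by
  classical
  set T : E →L[ℂ] E := ContinuousLinearMap.adjoint J ∘L J with hT
  have hin : ∀ x y, (inner ℂ (J x) (J y) : ℂ) = inner ℂ x (T y) := by
    intro x y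
    rw [hT, ContinuousLinearMap.comp_apply, ContinuousLinearMap.adjoint_inner_right]
  have hin' : ∀ x y, (inner ℂ (J x) (J y) : ℂ) = inner ℂ (T x) y := by
    intro x y
    rw [hT, ContinuousLinearMap.comp_apply, ContinuousLinearMap.adjoint_inner_left]
  have hTsym : T.IsSymmetric := fun x y => by
    show (inner ℂ (T x) y : ℂ) = inner ℂ x (T y)
    rw [← hin, ← hin']
  have hTcpt : IsCompactOperator T := hJ.clm_comp (ContinuousLinearMap.adjoint J)
  have hnorm : ∀ y, ‖J y‖ ^ 2 = RCLike.re (inner ℂ y (T y) : ℂ) := by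
    intro y
    rw [← hin, inner_self_eq_norm_sq]
  have hα : 0 < α := hβ.trans hβα
  let Good : ℕ → Prop := fun N => ∃ (v : Fin N → E) (s : Fin N → ℝ), Orthonormal ℂ v ∧
    (∀ j, T (v j) = (s j : ℂ) • v j) ∧ ∀ j, α ≤ s j
  have hGn : ∀ N, Good N → N ≤ n := by
    rintro N ⟨v, s, hv, hs, hα'⟩
    have hfin := hn (Submodule.span ℂ (Set.range v))
      (FiniteDimensional.span_of_finite ℂ (Set.finite_range v)) (by
      intro y hy
      obtain ⟨c, rfl⟩ := (Submodule.mem_span_range_iff_exists_fun ℂ).1 hy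
      have e1 : T (∑ i, c i • v i) = ∑ i, (c i * (s i : ℂ)) • v i := by
        rw [map_sum]
        refine Finset.sum_congr rfl fun i _ => ?_
        rw [map_smul, hs, smul_smul]
      have e2 : ‖∑ i, c i • v i‖ ^ 2 = ∑ i, ‖c i‖ ^ 2 := by
        rw [← inner_self_eq_norm_sq (𝕜 := ℂ), hv.inner_sum, map_sum]
        refine Finset.sum_congr rfl fun i _ => ?_
        rw [mul_comm, Complex.mul_conj, Complex.normSq_eq_norm_sq]
        exact Complex.ofReal_re _
      have e3 : ‖J (∑ i, c i • v i)‖ ^ 2 = ∑ i, s i * ‖c i‖ ^ 2 := by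
        rw [hnorm, e1, hv.inner_sum, map_sum]
        refine Finset.sum_congr rfl fun i _ => ?_
        rw [← mul_assoc, mul_comm ((starRingEnd ℂ) (c i)), Complex.mul_conj,
          Complex.normSq_eq_norm_sq, ← Complex.ofReal_mul]
        simp only [RCLike.re_to_complex, Complex.ofReal_re]
        ring
      rw [e2, e3, Finset.mul_sum]
      refine Finset.sum_le_sum fun i _ => ?_
      exact mul_le_mul_of_nonneg_right (hα' i) (by positivity))
    rwa [finrank_span_eq_card hv.linearIndependent, Fintype.card_fin] at hfin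
  have hG0 : Good 0 := ⟨fun j => j.elim0, fun j => j.elim0,
    ⟨fun j => j.elim0, fun j => j.elim0⟩, fun j => j.elim0, fun j => j.elim0⟩
  obtain ⟨N, hNdef⟩ : ∃ N, N = Nat.findGreatest Good n := ⟨_, rfl⟩
  have hGN : Good N := hNdef ▸ Nat.findGreatest_spec (Nat.zero_le n) hG0
  have hmax : ¬ Good (N + 1) := by
    intro h
    have := hGn _ h
    exact Nat.findGreatest_is_greatest (P := Good) (n := n) (k := N + 1) (by omega) this h
  obtain ⟨v, s, hv, hs, hα'⟩ := hGN
  have hs0 : ∀ j, 0 < s j := fun j => hα.trans_le (hα' j)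
  have hsq : ∀ j, √(s j) * √(s j) = s j := fun j => Real.mul_self_sqrt (hs0 j).le
  have hsqne : ∀ j, ((√(s j) : ℝ) : ℂ) ≠ 0 := fun j => by
    exact_mod_cast (Real.sqrt_pos.2 (hs0 j)).ne'
  -- the orthogonal complement
  set V : Submodule ℂ E := (Submodule.span ℂ (Set.range v))ᗮ with hV
  have hmemV : ∀ y, y ∈ V ↔ ∀ j, (inner ℂ (v j) y : ℂ) = 0 := by
    intro y
    rw [hV, Submodule.mem_orthogonal]
    constructor
    · intro h j
      exact h _ (Submodule.subset_span ⟨j, rfl⟩)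
    · intro h u hu
      obtain ⟨c, rfl⟩ := (Submodule.mem_span_range_iff_exists_fun ℂ).1 hu
      rw [sum_inner]
      refine Finset.sum_eq_zero fun i _ => ?_
      rw [inner_smul_left, h i, mul_zero]
  have hinv : ∀ y ∈ V, T y ∈ V := by
    intro y hy
    rw [hmemV] at hy ⊢
    intro j
    rw [← hin, hin', hs, inner_smul_left, hy j, mul_zero]
  have hVc : CompleteSpace V := by
    rw [hV]
    infer_instance
  let S : V →L[ℂ] V := T.restrict hinv
  have hSapp : ∀ x : V, ((S x : V) : E) = T x := fun x => rfl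
  have hScpt : IsCompactOperator S := hTcpt.restrict' hinv
  have hSsym : S.IsSymmetric := hTsym.restrict_invariant hinv
  have hSpos : ∀ x : V, 0 ≤ RCLike.re (inner ℂ x (S x) : ℂ) := by
    intro x
    have : (inner ℂ x (S x) : ℂ) = inner ℂ (x : E) (T x) := rfl
    rw [this, ← hnorm]
    positivity
  have hSn : ‖S‖ ≤ β := by
    by_contra hcon
    push Not at hcon
    have hS0 : S ≠ 0 := by
      intro h
      have h1 : ‖S‖ = 0 := by
        rw [h]
        exact ContinuousLinearMap.opNorm_zero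
      rw [h1] at hcon
      linarith
    obtain ⟨x, hx⟩ := (SpC_top S hScpt hSsym hSpos hS0).exists_hasEigenvector
    have hx1 : S x = ((‖S‖ : ℝ) : ℂ) • x := hx.apply_eq_smul
    have hx0 : x ≠ 0 := hx.2
    have hx2 : T (x : E) = ((‖S‖ : ℝ) : ℂ) • (x : E) := by
      rw [← hSapp, hx1]
      rfl
    have hx0' : (x : E) ≠ 0 := by simpa using hx0
    have hevT : HasEigenvalue (T : Module.End ℂ E) ((‖S‖ : ℝ) : ℂ) :=
      hasEigenvalue_of_hasEigenvector (x := (x : E)) ⟨mem_eigenspace_iff.2 hx2, hx0'⟩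
    have hge : α ≤ ‖S‖ := by
      by_contra hlt
      push Not at hlt
      exact hgap _ hcon hlt hevT
    apply hmax
    have hxn : ((‖(x : E)‖ : ℝ) : ℂ) ≠ 0 := by
      exact_mod_cast norm_ne_zero_iff.2 hx0'
    refine ⟨Fin.cons ((((‖(x : E)‖ : ℝ) : ℂ))⁻¹ • (x : E)) v, Fin.cons ‖S‖ s, ?_, ?_, ?_⟩
    · have horth : ∀ j, (inner ℂ (v j) (x : E) : ℂ) = 0 := (hmemV _).1 x.2
      have horth' : ∀ j, (inner ℂ (x : E) (v j) : ℂ) = 0 := fun j => by
        rw [← inner_conj_symm, horth, map_zero]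
      constructor
      · refine Fin.cases ?_ (fun j => ?_)
        · rw [Fin.cons_zero, norm_smul, norm_inv, Complex.norm_real, norm_norm]
          exact inv_mul_cancel₀ (norm_ne_zero_iff.2 hx0')
        · rw [Fin.cons_succ]
          exact hv.1 j
      · intro i j hij
        revert hij
        refine Fin.cases (Fin.cases ?_ (fun j => ?_) j) (fun i => Fin.cases ?_ (fun j => ?_) j) i
        · intro h
          exact absurd rfl h
        · intro _
          simp only [Fin.cons_zero, Fin.cons_succ]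
          rw [inner_smul_left, horth', mul_zero]
        · intro _
          simp only [Fin.cons_zero, Fin.cons_succ]
          rw [inner_smul_right, horth, mul_zero]
        · intro h
          simp only [Fin.cons_succ]
          exact hv.2 (fun h' => h (by rw [h']))
    · refine Fin.cases ?_ (fun j => ?_)
      · simp only [Fin.cons_zero]
        rw [map_smul, hx2, smul_comm]
      · simp only [Fin.cons_succ]
        exact hs j
    · refine Fin.cases ?_ (fun j => ?_)
      · simp only [Fin.cons_zero]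
        exact hge
      · simp only [Fin.cons_succ]
        exact hα' j
  refine ⟨N, fun j => ((√(s j) : ℝ) : ℂ)⁻¹ • v j, s, hGn N ⟨v, s, hv, hs, hα'⟩, hα', ?_, ?_, ?_⟩
  · intro j φ
    rw [hin, map_smul, hs, inner_smul_right, inner_smul_right, inner_smul_right]
    ring
  · intro i j
    rw [hin, map_smul, hs, inner_smul_right, inner_smul_right, inner_smul_left,
      orthonormal_iff_ite.1 hv i j]
    split_ifs with h
    · subst h
      rw [map_inv₀, Complex.conj_ofReal]
      have h1 : ((s i : ℝ) : ℂ) = ((√(s i) : ℝ) : ℂ) * ((√(s i) : ℝ) : ℂ) := by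
        rw [← Complex.ofReal_mul, hsq]
      rw [h1]
      have := hsqne i
      field_simp
    · ring
  · intro y hy
    have hyV : y ∈ V := by
      rw [hmemV]
      intro j
      have h1 := hy j
      rw [hin', map_smul, hs, inner_smul_left, inner_smul_left] at h1
      rcases mul_eq_zero.1 h1 with h2 | h2
      · exfalso
        rw [map_inv₀, Complex.conj_ofReal] at h2
        exact inv_ne_zero (hsqne j) h2
      · rcases mul_eq_zero.1 h2 with h3 | h3
        · exfalso
          rw [Complex.conj_ofReal] at h3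
          exact (hs0 j).ne' (by exact_mod_cast h3)
        · exact h3
    rw [hnorm]
    have h1 : RCLike.re (inner ℂ y (T y) : ℂ) ≤ ‖y‖ * ‖T y‖ :=
      (RCLike.re_le_norm _).trans (norm_inner_le_norm _ _)
    have h2 : ‖T y‖ ≤ β * ‖y‖ := by
      have h3 : ‖S ⟨y, hyV⟩‖ ≤ ‖S‖ * ‖(⟨y, hyV⟩ : V)‖ := S.le_opNorm _
      have h4 : ‖S ⟨y, hyV⟩‖ = ‖T y‖ := rfl
      have h5 : ‖(⟨y, hyV⟩ : V)‖ = ‖y‖ := rfl
      rw [h4, h5] at h3
      exact h3.trans (mul_le_mul_of_nonneg_right hSn (norm_nonneg _))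
    calc RCLike.re (inner ℂ y (T y) : ℂ) ≤ ‖y‖ * ‖T y‖ := h1
      _ ≤ ‖y‖ * (β * ‖y‖) := by gcongr
      _ = β * ‖y‖ ^ 2 := by ring

end Pool.Agent.Lib.MP_c84763_mp.U
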