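import Pool.Agent.Lib.MP_c84763_mp.U.MdA
import Pool.Agent.Lib.MP_c84763_mp.U.SpB
import Pool.Agent.Lib.MP_c84763_mp.U.SpC

set_option autoImplicit false

namespace Pool.Agent.Lib.MP_c84763_mp.U

open MeasureTheory
open scoped ContDiff ENNReal

namespace Cut

variable {d : ℕ} {P : Base d} {M : ℝ} (Q : Cut P M)

private theorem Y_complete (h : ℝ) : CompleteSpace (Q.Y h) := by
  unfold Y Dom
  infer_instance

/-- Existence of the modes.
Proof sketch: `E = Y h` (complete, as `Dom` is closed), `J' = J ∘ subtypeL` compact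
(`J_compact`). With `a0 = 1/(2r+1) < a1 = 1/(r+1)` and `n = ⌊C / h^d⌋` (`dim_bound`), `large_eigs`
(for `a0`) gives a finite set `s` of at most `n` eigenvalues `≥ a0`; `exists_gap` gives `β < α` in
`[a0, a1]` with `α - β ≥ (a1 - a0)/(n+2)`; `modes_of_gap`. `s_j ≤ 1`: from the two identities
`1 = ⟪J e_j, J e_j⟫ = s_j ‖e_j‖²` and `1 = ‖J e_j‖² ≤ ‖e_j‖²` (`norm_J_le`). -/
theorem exists_modes {r : ℝ} (hr : 1 ≤ r) :
    ∃ Cn : ℝ, 1 ≤ Cn ∧ ∀ h : ℝ, 0 < h → h ≤ 1 → ∃ m : Q.Modes h r,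
      (m.N : ℝ) * h ^ d ≤ Cn ∧ h ^ d ≤ Cn * (m.α - m.β) := by
  obtain ⟨C, hC, hdim⟩ := Q.dim_bound hr
  set a0 : ℝ := 1 / (2 * r + 1) with ha0
  set a1 : ℝ := 1 / (r + 1) with ha1
  have ha0p : 0 < a0 := by rw [ha0]; positivity
  have ha01 : a0 < a1 := by
    rw [ha0, ha1]
    apply one_div_lt_one_div_of_lt <;> linarith
  refine ⟨max 1 (max C ((C + 2) / (a1 - a0))), le_max_left _ _, fun h h0 h1 => ?_⟩
  have hCn1 : C ≤ max 1 (max C ((C + 2) / (a1 - a0))) :=
    (le_max_left _ _).trans (le_max_right _ _)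
  have hCn2 : (C + 2) / (a1 - a0) ≤ max 1 (max C ((C + 2) / (a1 - a0))) :=
    (le_max_right _ _).trans (le_max_right _ _)
  set Cn : ℝ := max 1 (max C ((C + 2) / (a1 - a0))) with hCn
  have hhd : 0 < h ^ d := pow_pos h0 d
  have hhd1 : h ^ d ≤ 1 := pow_le_one₀ h0.le h1
  have := Q.Y_complete h
  set J' : Q.Y h →L[ℂ] L2 d := (J : X d →L[ℂ] L2 d) ∘L (Q.Y h).subtypeL with hJ'
  have hJ'a : ∀ y : Q.Y h, J' y = J (y : X d) := fun y => rfl
  set n : ℕ := ⌊C / h ^ d⌋₊ with hn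
  have hnle : (n : ℝ) ≤ C / h ^ d := Nat.floor_le (by positivity)
  have hnC : (n : ℝ) * h ^ d ≤ C := by
    rw [← le_div_iff₀ hhd]
    exact hnle
  have hnS : ∀ S : Submodule ℂ (Q.Y h), Module.Finite ℂ S →
      (∀ y ∈ S, a0 * ‖y‖ ^ 2 ≤ ‖J' y‖ ^ 2) → Module.finrank ℂ S ≤ n := by
    intro S hS hy
    have := hdim h h0 h1 S hS (fun y hyS => hy y hyS)
    rw [← le_div_iff₀ hhd] at this
    exact Nat.le_floor this
  obtain ⟨s, hs, hse⟩ := large_eigs J' ha0p hnS
  obtain ⟨β, α, hβ, hβα, hα, hgap, hsx⟩ := exists_gap s n hs ha01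
  have hβp : 0 < β := lt_of_lt_of_le ha0p hβ
  obtain ⟨N, e, sg, hN, hαs, heig, hortho, hmin⟩ := modes_of_gap J' (Q.J_compact h0) hβp hβα
    (n := n)
    (fun S hS hy => hnS S hS (fun y hyS => (mul_le_mul_of_nonneg_right
      (hβ.trans hβα.le) (sq_nonneg _)).trans (hy y hyS)))
    (fun x hx1 hx2 hev => by
      have hmem := hse x (hβ.trans hx1.le) hev
      rcases hsx x hmem with h' | h'
      · linarith
      · linarith)
  have hnorm : ∀ j, ‖J' (e j)‖ ^ 2 = 1 := by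
    intro j
    have h2 := hortho j j
    have h3 : (inner ℂ (J' (e j)) (J' (e j)) : ℂ) = ((‖J' (e j)‖ : ℝ) : ℂ) ^ 2 :=
      inner_self_eq_norm_sq_to_K (J' (e j))
    rw [if_pos rfl, h3] at h2
    exact_mod_cast h2
  have hnorm2 : ∀ j, (1 : ℝ) ≤ ‖e j‖ ^ 2 := by
    intro j
    rw [← hnorm j]
    have h3 : ‖J' (e j)‖ ≤ ‖e j‖ := norm_J_le (e j : X d)
    gcongr
  have hsn : ∀ j, sg j * ‖e j‖ ^ 2 = 1 := by
    intro j
    have h2 := heig j (e j)
    have h3 : (inner ℂ (e j) (e j) : ℂ) = ((‖e j‖ : ℝ) : ℂ) ^ 2 := inner_self_eq_norm_sq_to_K (e j)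
    rw [hortho j j, if_pos rfl, h3] at h2
    exact_mod_cast h2.symm
  refine ⟨{ N := N
            e := fun j => (e j : X d)
            s := sg
            α := α
            β := β
            mem := fun j => (e j).2
            eig := fun j φ hφ => heig j ⟨φ, hφ⟩
            ortho := fun i j => hortho i j
            α_le_s := hαs
            s_le := fun j => ?_
            β_lt := hβα
            le_β := hβ
            α_le := hα
            gap := fun y hy hy' => hmin ⟨y, hy⟩ hy' }, ?_, ?_⟩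
  · have h2 := hsn j
    have h3 := hnorm2 j
    have h4 : 0 < sg j := lt_of_lt_of_le (hβp.trans hβα) (hαs j)
    nlinarith
  · show (N : ℝ) * h ^ d ≤ Cn
    have hNn : (N : ℝ) ≤ n := by exact_mod_cast hN
    calc (N : ℝ) * h ^ d ≤ n * h ^ d := by gcongr
      _ ≤ C := hnC
      _ ≤ Cn := hCn1
  · show h ^ d ≤ Cn * (α - β)
    have hd1 : 0 < a1 - a0 := by linarith
    have hn2 : (0 : ℝ) < (n : ℝ) + 2 := by positivity
    have h5 : a1 - a0 ≤ (α - β) * ((n : ℝ) + 2) := by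
      rwa [div_le_iff₀ hn2] at hgap
    have h6 : (a1 - a0) * h ^ d ≤ (α - β) * (C + 2) := by
      have hαβ : 0 ≤ α - β := by linarith
      calc (a1 - a0) * h ^ d ≤ ((α - β) * ((n : ℝ) + 2)) * h ^ d := by gcongr
        _ = (α - β) * ((n : ℝ) * h ^ d + 2 * h ^ d) := by ring
        _ ≤ (α - β) * (C + 2) := by
          apply mul_le_mul_of_nonneg_left _ hαβ
          linarith
    have h7 : h ^ d ≤ (C + 2) / (a1 - a0) * (α - β) := by
      rw [div_mul_eq_mul_div, le_div_iff₀ hd1]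
      linarith
    refine h7.trans ?_
    apply mul_le_mul_of_nonneg_right hCn2
    linarith

end Cut

end Pool.Agent.Lib.MP_c84763_mp.U
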