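import Pool.Agent.Lib.MP_c84763_mp.U.CutM

set_option autoImplicit false

namespace Pool.Agent.Lib.MP_c84763_mp.U

open MeasureTheory
open scoped ContDiff ENNReal

namespace Cut

variable {d : ℕ} {P : Base d} {M : ℝ} (Q : Cut P M)

/-- Gram matrix of the transplanted modes: `⟪J up e, J up e'⟫ - ⟪J e, J e'⟫ = - ∫ η² ē_0 e'_0`,
where `η = 0` on `ball c (l - w/2)` and `e_0 = 0` off `Ω`, so the integral is over `T`;
Cauchy-Schwarz. -/
theorem gram {h : ℝ} (hM : 2 * Q.κ h ≤ M) {e e' : X d} (he : e ∈ Q.Y h) (he' : e' ∈ Q.Y h)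
    {τ : ℝ} (τ0 : 0 ≤ τ)
    (hτ : ∫ t in Q.T, (‖(e t) none‖ ^ 2 + ∑ i, ‖(e t) (some (some i))‖ ^ 2) ≤ τ ^ 2)
    (hτ' : ∫ t in Q.T, (‖(e' t) none‖ ^ 2 + ∑ i, ‖(e' t) (some (some i))‖ ^ 2) ≤ τ ^ 2) :
    ‖(inner ℂ (J (Q.up h e)) (J (Q.up h e')) : ℂ) - inner ℂ (J e) (J e')‖ ≤ τ ^ 2 := by
  rw [inner_J, inner_J, ← integral_sub (int_mul _ _ _ _) (int_mul _ _ _ _)]
  have hg : ∀ u : X d, Integrable (fun t => ‖(u t) none‖ ^ 2 + ∑ i, ‖(u t) (some (some i))‖ ^ 2) :=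
    fun u => (int_comp u none).add (integrable_finsetSum _ fun i _ => int_comp u (some (some i)))
  have hle : ∀ᵐ t, ‖star ((Q.up h e t) none) * (Q.up h e' t) none -
      star ((e t) none) * (e' t) none‖ ≤
      Q.T.indicator (fun t => ((‖(e t) none‖ ^ 2 + ∑ i, ‖(e t) (some (some i))‖ ^ 2) +
        (‖(e' t) none‖ ^ 2 + ∑ i, ‖(e' t) (some (some i))‖ ^ 2)) / 2) t := by
    filter_upwards [Q.up_ae hM e, Q.up_ae hM e', Q.Y_off he] with t h1 h2 h3
    have e1 : star ((Q.up h e t) none) * (Q.up h e' t) none - star ((e t) none) * (e' t) none =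
        -((Q.η t ^ 2 : ℝ) : ℂ) * (star ((e t) none) * (e' t) none) := by
      rw [h1.1, h2.1]
      have h4 : ((Q.η t ^ 2 : ℝ) : ℂ) = 1 - ((Q.χ t ^ 2 : ℝ) : ℂ) := by
        have h5 := Q.χη t
        have h6 : Q.η t ^ 2 = 1 - Q.χ t ^ 2 := by linarith
        rw [h6]
        push_cast
        ring
      rw [h4]
      simp only [star_mul', RCLike.star_def, Complex.conj_ofReal]
      push_cast
      ring
    rw [e1]
    by_cases hT : t ∈ Q.T
    · rw [Set.indicator_of_mem hT, norm_mul, norm_mul, norm_neg, norm_star, Complex.norm_real,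
        Real.norm_eq_abs, abs_of_nonneg (sq_nonneg _)]
      have hη : Q.η t ^ 2 ≤ 1 := by nlinarith [Q.χη t, sq_nonneg (Q.χ t)]
      have s1 : 0 ≤ ∑ i, ‖(e t) (some (some i))‖ ^ 2 := Finset.sum_nonneg fun i _ => by positivity
      have s2 : 0 ≤ ∑ i, ‖(e' t) (some (some i))‖ ^ 2 := Finset.sum_nonneg fun i _ => by positivity
      have s3 := two_mul_le_add_sq ‖(e t) none‖ ‖(e' t) none‖
      calc Q.η t ^ 2 * (‖(e t) none‖ * ‖(e' t) none‖) ≤ 1 * (‖(e t) none‖ * ‖(e' t) none‖) :=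
            mul_le_mul_of_nonneg_right hη (by positivity)
        _ ≤ _ := by linarith
    · rw [Set.indicator_of_notMem hT]
      by_cases hΩ : t ∈ P.Ω
      · have h5 : t ∈ Metric.ball P.c (P.l - Q.w / 2) := by
          by_contra h6
          exact hT ⟨hΩ, h6⟩
        rw [Q.η_in h5]
        simp
      · have h6 : (e t) none = 0 := by
          rw [h3 hΩ]
          rfl
        rw [h6]
        simp
  have hI : Integrable (Q.T.indicator (fun t =>
      ((‖(e t) none‖ ^ 2 + ∑ i, ‖(e t) (some (some i))‖ ^ 2) +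
        (‖(e' t) none‖ ^ 2 + ∑ i, ‖(e' t) (some (some i))‖ ^ 2)) / 2)) :=
    (((hg e).add (hg e')).div_const 2).indicator Q.T_meas
  refine (norm_integral_le_of_norm_le hI hle).trans ?_
  rw [integral_indicator Q.T_meas, integral_div,
    integral_add (hg e).integrableOn (hg e').integrableOn]
  linarith

/-- Pointwise `|up e|² ≤ (1 + 2 κ) |e_0|² + 2 |e_s|² + 2 ∑ |e_i|² ≤ 4 |e|²`
(`√(v/q)² = v/q ≤ 2`). -/
theorem up_norm {h : ℝ} (hM : 2 * Q.κ h ≤ M) (hκ : Q.κ h ≤ 1) (e : X d) :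
    ‖Q.up h e‖ ≤ 2 * ‖e‖ := by
  have hint : ∀ u : X d, Integrable (fun x => ‖(u x) none‖ ^ 2 + ‖(u x) (some none)‖ ^ 2 +
      ∑ i, ‖(u x) (some (some i))‖ ^ 2) := fun u =>
    ((int_comp u none).add (int_comp u (some none))).add
      (integrable_finsetSum _ fun i _ => int_comp u (some (some i)))
  have hsq : ‖Q.up h e‖ ^ 2 ≤ (2 * ‖e‖) ^ 2 := by
    rw [mul_pow, norm_sq_X, norm_sq_X, ← integral_const_mul]
    refine integral_mono_ae (hint _) ((hint e).const_mul _) ?_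
    filter_upwards [Q.up_ae hM e] with t ht
    obtain ⟨h1, h2, h3⟩ := ht
    show ‖(Q.up h e t) none‖ ^ 2 + ‖(Q.up h e t) (some none)‖ ^ 2 +
      ∑ i, ‖(Q.up h e t) (some (some i))‖ ^ 2 ≤ 2 ^ 2 * (‖(e t) none‖ ^ 2 +
        ‖(e t) (some none)‖ ^ 2 + ∑ i, ‖(e t) (some (some i))‖ ^ 2)
    have hχ : Q.χ t ^ 2 ≤ 1 := by nlinarith [Q.χη t, sq_nonneg (Q.η t)]
    have a1 : ‖(Q.up h e t) none‖ ^ 2 ≤ ‖(e t) none‖ ^ 2 := by
      rw [h1, norm_mul, mul_pow, Complex.norm_real, Real.norm_eq_abs, sq_abs]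
      calc Q.χ t ^ 2 * ‖(e t) none‖ ^ 2 ≤ 1 * ‖(e t) none‖ ^ 2 :=
            mul_le_mul_of_nonneg_right hχ (by positivity)
        _ = _ := one_mul _
    have a2 : ‖(Q.up h e t) (some none)‖ ^ 2 ≤ 2 * ‖(e t) (some none)‖ ^ 2 := by
      rw [h2, norm_mul, mul_pow, Complex.norm_real, Real.norm_eq_abs, sq_abs, mul_pow]
      have hq := Q.q_nonneg (Q.κ_le hM) t
      have hv := P.v_nonneg t
      have hvq : P.v t / Q.q h t ≤ 2 := by
        rcases hq.eq_or_lt with h0 | h0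
        · rw [← h0, div_zero]
          norm_num
        · rw [div_le_iff₀ h0]
          exact Q.v_le hM t
      rw [Real.sq_sqrt (div_nonneg hv hq)]
      have hb : Q.χ t ^ 2 * (P.v t / Q.q h t) ≤ 1 * 2 :=
        mul_le_mul hχ hvq (div_nonneg hv hq) (by norm_num)
      rw [one_mul] at hb
      exact mul_le_mul_of_nonneg_right hb (by positivity)
    have a3 : ∑ i, ‖(Q.up h e t) (some (some i))‖ ^ 2 ≤
        2 * ∑ i, ‖(e t) (some (some i))‖ ^ 2 + 2 * ‖(e t) none‖ ^ 2 := by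
      have b1 : ∀ i, ‖(Q.up h e t) (some (some i))‖ ^ 2 ≤
          2 * ‖(e t) (some (some i))‖ ^ 2 + 2 * (h ^ 2 * pd i Q.χ t ^ 2) * ‖(e t) none‖ ^ 2 := by
        intro i
        rw [h3 i]
        have c1 : ‖(Q.χ t : ℂ) * (e t) (some (some i)) + ((h * pd i Q.χ t : ℝ) : ℂ) * (e t) none‖ ≤
            |Q.χ t| * ‖(e t) (some (some i))‖ + |h * pd i Q.χ t| * ‖(e t) none‖ := by
          refine (norm_add_le _ _).trans ?_
          rw [norm_mul, norm_mul, Complex.norm_real, Complex.norm_real, Real.norm_eq_abs,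
            Real.norm_eq_abs]
        have c2 := pow_le_pow_left₀ (norm_nonneg _) c1 2
        refine c2.trans ?_
        have c3 : (|Q.χ t| * ‖(e t) (some (some i))‖ + |h * pd i Q.χ t| * ‖(e t) none‖) ^ 2 ≤
            2 * (|Q.χ t| * ‖(e t) (some (some i))‖) ^ 2 +
              2 * (|h * pd i Q.χ t| * ‖(e t) none‖) ^ 2 := by
          nlinarith [sq_nonneg (|Q.χ t| * ‖(e t) (some (some i))‖ -
            |h * pd i Q.χ t| * ‖(e t) none‖)]
        refine c3.trans ?_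
        rw [mul_pow, mul_pow, sq_abs, sq_abs, mul_pow]
        have c4 : Q.χ t ^ 2 * ‖(e t) (some (some i))‖ ^ 2 ≤ 1 * ‖(e t) (some (some i))‖ ^ 2 :=
          mul_le_mul_of_nonneg_right hχ (by positivity)
        nlinarith
      have b2 : h ^ 2 * ∑ i, pd i Q.χ t ^ 2 ≤ 1 := by
        have c1 : h ^ 2 * ∑ i, pd i Q.χ t ^ 2 ≤ h ^ 2 * Q.C1 :=
          mul_le_mul_of_nonneg_left (Q.pd_χ_sq t) (sq_nonneg h)
        exact c1.trans hκ
      calc ∑ i, ‖(Q.up h e t) (some (some i))‖ ^ 2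
          ≤ ∑ i, (2 * ‖(e t) (some (some i))‖ ^ 2 +
              2 * (h ^ 2 * pd i Q.χ t ^ 2) * ‖(e t) none‖ ^ 2) :=
            Finset.sum_le_sum fun i _ => b1 i
        _ = 2 * ∑ i, ‖(e t) (some (some i))‖ ^ 2 +
              2 * (h ^ 2 * ∑ i, pd i Q.χ t ^ 2) * ‖(e t) none‖ ^ 2 := by
            rw [Finset.sum_add_distrib, ← Finset.mul_sum, Finset.mul_sum (s := Finset.univ)
              (f := fun i => pd i Q.χ t ^ 2), Finset.mul_sum (s := Finset.univ)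
              (f := fun i => h ^ 2 * pd i Q.χ t ^ 2), Finset.sum_mul]
        _ ≤ 2 * ∑ i, ‖(e t) (some (some i))‖ ^ 2 + 2 * ‖(e t) none‖ ^ 2 := by
            have c2 : 2 * (h ^ 2 * ∑ i, pd i Q.χ t ^ 2) * ‖(e t) none‖ ^ 2 ≤
                2 * ‖(e t) none‖ ^ 2 :=
              mul_le_mul_of_nonneg_right (by linarith) (by positivity)
            linarith
    have p1 : 0 ≤ ‖(e t) none‖ ^ 2 := by positivity
    have p2 : 0 ≤ ‖(e t) (some none)‖ ^ 2 := by positivity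
    have p3 : 0 ≤ ∑ i, ‖(e t) (some (some i))‖ ^ 2 := Finset.sum_nonneg fun i _ => by positivity
    linarith
  exact le_of_sq_le_sq hsq (by positivity)

end Cut

end Pool.Agent.Lib.MP_c84763_mp.U
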