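import Pool.Agent.Lib.MP_c84763_mp.U.ResD

set_option autoImplicit false

namespace Pool.Agent.Lib.MP_c84763_mp.U

open MeasureTheory
open scoped ContDiff ENNReal

namespace Base

private theorem int_mul_bd {d : ℕ} {V : Sp d → ℂ} (mV : Measurable V) {C : ℝ}
    (hV : ∀ t, ‖V t‖ ≤ C) (f g : X d) (k l : Idx d) :
    Integrable (fun t => V t * (star ((f t) k) * (g t) l)) := by
  refine (int_mul f g k l).bdd_mul (c := C) mV.aestronglyMeasurable ?_
  exact Filter.Eventually.of_forall hV

/-- For `x` supported in `Ω`, where `V1 = a i`, the adjoint form is obtained by conjugation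
(`form_val` twice, `integral_conj`). -/
theorem flip {d : ℕ} (P : Base d) {x : X d} (hx : ∀ᵐ t, t ∉ P.Ω → x t = 0) (y : X d) :
    (inner ℂ x (P.Mop y) : ℂ) = star (inner ℂ y (P.Mop x) : ℂ) +
      2 * ((P.a : ℂ) * Complex.I) * inner ℂ (J x) (J y) := by
  rw [P.form_val, P.form_val, inner_J]
  have h1 : star (∫ t, (P.V1 t * (star ((y t) none) * (x t) none) +
      star ((y t) (some none)) * (x t) (some none) +
      ∑ i, star ((y t) (some (some i))) * (x t) (some (some i)))) =
      ∫ t, (star (P.V1 t) * (star ((x t) none) * (y t) none) +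
      star ((x t) (some none)) * (y t) (some none) +
      ∑ i, star ((x t) (some (some i))) * (y t) (some (some i))) := by
    have h2 := integral_conj (μ := (volume : Measure (Sp d))) (𝕜 := ℂ)
      (f := fun t => (P.V1 t * (star ((y t) none) * (x t) none) +
      star ((y t) (some none)) * (x t) (some none) +
      ∑ i, star ((y t) (some (some i))) * (x t) (some (some i))))
    rw [starRingEnd_apply] at h2
    rw [← h2]
    apply integral_congr_ae
    filter_upwards with t
    simp only [starRingEnd_apply, star_add, star_mul', star_star, star_sum]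
    congr 1
    · congr 1
      · ring
      · ring
    · apply Finset.sum_congr rfl
      intro i _
      ring
  rw [h1, ← integral_const_mul, ← integral_add]
  · apply integral_congr_ae
    filter_upwards [hx] with t ht
    by_cases h : t ∈ P.Ω
    · rw [P.V1_in h]
      have h3 : star ((P.a : ℂ) * Complex.I) = -((P.a : ℂ) * Complex.I) := by
        simp
      rw [h3]
      ring
    · rw [ht h]
      simp
  · refine ((int_mul_bd (V := fun t => star (P.V1 t)) (continuous_star.measurable.comp P.V1_meas) (C := P.a)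
      (fun t => by rw [norm_star]; exact P.V1_bd t) x y none none).add
      (int_mul x y (some none) (some none))).add ?_
    exact integrable_finsetSum _ (fun i _ => int_mul x y (some (some i)) (some (some i)))
  · exact (int_mul x y none none).const_mul _

end Base

namespace Cut

variable {d : ℕ} {P : Base d} {M : ℝ} (Q : Cut P M)

private theorem cs_int {d : ℕ} {μ : Measure (Sp d)} {f g : Sp d → ℝ} (hf : ∀ t, 0 ≤ f t)
    (hg : ∀ t, 0 ≤ g t) (mf : AEStronglyMeasurable f μ) (mg : AEStronglyMeasurable g μ)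
    (if2 : Integrable (fun t => f t ^ 2) μ) (ig2 : Integrable (fun t => g t ^ 2) μ) :
    ∫ t, f t * g t ∂μ ≤ Real.sqrt (∫ t, f t ^ 2 ∂μ) * Real.sqrt (∫ t, g t ^ 2 ∂μ) := by
  have h := integral_mul_le_Lp_mul_Lq_of_nonneg (μ := μ) (p := 2) (q := 2)
    Real.HolderConjugate.two_two (f := f) (g := g)
    (Filter.Eventually.of_forall hf) (Filter.Eventually.of_forall hg)
    (by
      rw [ENNReal.ofReal_ofNat]
      exact (memLp_two_iff_integrable_sq mf).2 if2)
    (by
      rw [ENNReal.ofReal_ofNat]
      exact (memLp_two_iff_integrable_sq mg).2 ig2)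
  simp only [Real.rpow_two] at h
  rw [Real.sqrt_eq_rpow, Real.sqrt_eq_rpow]
  exact h

/-- Size of the function and gradient components. -/
private noncomputable def sz {d : ℕ} (z : Vec d) : ℝ :=
  Real.sqrt (‖z none‖ ^ 2 + ∑ i, ‖z (some (some i))‖ ^ 2)

private theorem sz_sq {d : ℕ} (z : Vec d) :
    sz z ^ 2 = ‖z none‖ ^ 2 + ∑ i, ‖z (some (some i))‖ ^ 2 := by
  unfold sz
  rw [Real.sq_sqrt]
  positivity

private theorem sz_nonneg {d : ℕ} (z : Vec d) : 0 ≤ sz z := Real.sqrt_nonneg _

private theorem sz_cont {d : ℕ} : Continuous (fun z : Vec d => sz z) := by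
  unfold sz
  fun_prop

private theorem pt_bd {d : ℕ} (p : Fin d → ℝ) {C : ℝ} (hp : ∑ i, p i ^ 2 ≤ C)
    (y e : Vec d) :
    ‖∑ i, ((p i : ℝ) : ℂ) * (star (y (some (some i))) * e none -
      star (y none) * e (some (some i)))‖ ≤ 2 * Real.sqrt C * (sz y * sz e) := by
  have hsum : ∀ z : Vec d, 0 ≤ ∑ i, ‖z (some (some i))‖ ^ 2 := fun z =>
    Finset.sum_nonneg fun i _ => by positivity
  have hcs : ∀ z : Vec d, ∑ i, |p i| * ‖z (some (some i))‖ ≤
      Real.sqrt C * Real.sqrt (∑ i, ‖z (some (some i))‖ ^ 2) := by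
    intro z
    have h := Real.sum_mul_le_sqrt_mul_sqrt (Finset.univ : Finset (Fin d)) (fun i => |p i|)
      (fun i => ‖z (some (some i))‖)
    refine h.trans ?_
    apply mul_le_mul_of_nonneg_right _ (Real.sqrt_nonneg _)
    apply Real.sqrt_le_sqrt
    simpa only [sq_abs] using hp
  have h0 : ∀ z : Vec d, ‖z none‖ ≤ sz z := by
    intro z
    unfold sz
    apply Real.le_sqrt_of_sq_le
    have := hsum z
    linarith
  have h1 : ∀ z : Vec d, Real.sqrt (∑ i, ‖z (some (some i))‖ ^ 2) ≤ sz z := by
    intro z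
    unfold sz
    apply Real.sqrt_le_sqrt
    have := sq_nonneg ‖z none‖
    linarith
  have h2 : ∀ z : Vec d, ∑ i, |p i| * ‖z (some (some i))‖ ≤ Real.sqrt C * sz z := fun z =>
    (hcs z).trans (mul_le_mul_of_nonneg_left (h1 z) (Real.sqrt_nonneg _))
  calc ‖∑ i, ((p i : ℝ) : ℂ) * (star (y (some (some i))) * e none -
      star (y none) * e (some (some i)))‖
      ≤ ∑ i, ‖((p i : ℝ) : ℂ) * (star (y (some (some i))) * e none -
      star (y none) * e (some (some i)))‖ := norm_sum_le _ _
    _ ≤ ∑ i, (|p i| * ‖y (some (some i))‖ * ‖e none‖ +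
        |p i| * ‖e (some (some i))‖ * ‖y none‖) := by
        apply Finset.sum_le_sum
        intro i _
        rw [norm_mul, Complex.norm_real, Real.norm_eq_abs]
        have h3 : ‖star (y (some (some i))) * e none - star (y none) * e (some (some i))‖ ≤
            ‖y (some (some i))‖ * ‖e none‖ + ‖y none‖ * ‖e (some (some i))‖ := by
          refine (norm_sub_le _ _).trans ?_
          rw [norm_mul, norm_mul, norm_star, norm_star]
        calc |p i| * ‖star (y (some (some i))) * e none - star (y none) * e (some (some i))‖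
            ≤ |p i| * (‖y (some (some i))‖ * ‖e none‖ + ‖y none‖ * ‖e (some (some i))‖) :=
              mul_le_mul_of_nonneg_left h3 (abs_nonneg _)
          _ = _ := by ring
    _ = (∑ i, |p i| * ‖y (some (some i))‖) * ‖e none‖ +
        (∑ i, |p i| * ‖e (some (some i))‖) * ‖y none‖ := by
        rw [Finset.sum_add_distrib, Finset.sum_mul, Finset.sum_mul]
    _ ≤ (Real.sqrt C * sz y) * sz e + (Real.sqrt C * sz e) * sz y := by
        apply add_le_add
        · exact mul_le_mul (h2 y) (h0 e) (norm_nonneg _)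
            (mul_nonneg (Real.sqrt_nonneg _) (sz_nonneg _))
        · exact mul_le_mul (h2 e) (h0 y) (norm_nonneg _)
            (mul_nonneg (Real.sqrt_nonneg _) (sz_nonneg _))
    _ = 2 * Real.sqrt C * (sz y * sz e) := by ring

private theorem int_sz {d : ℕ} (y : X d) : Integrable (fun t => sz (y t) ^ 2) := by
  simp only [sz_sq]
  exact (int_comp y none).add
    (integrable_finsetSum _ (fun i _ => int_comp y (some (some i))))

private theorem meas_sz {d : ℕ} (y : X d) : AEStronglyMeasurable (fun t => sz (y t)) volume :=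
  sz_cont.comp_aestronglyMeasurable (Lp.aestronglyMeasurable y)

/-- Bound of the residual. Pointwise (`grad_T`, `|χ| ≤ 1`, Cauchy-Schwarz and `pd_χ_sq`) the
integrand is at most `1_T (κ |y_0| |e_0| + h √C1 (|y'| |e_0| + |y_0| |e'|))` with
`|y'|² = ∑ |y_i|²`, `|e'|² = ∑ |e_i|²`; then Cauchy-Schwarz in `L²(T)` three times, with
`‖y‖² ≥ ∫ (|y_0|² + |y'|²)` (`norm_sq_X`). -/
theorem res_bd {h : ℝ} (h0 : 0 < h) (y e : X d) {τ : ℝ} (τ0 : 0 ≤ τ)
    (hτ : ∫ t in Q.T, (‖(e t) none‖ ^ 2 + ∑ i, ‖(e t) (some (some i))‖ ^ 2) ≤ τ ^ 2) :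
    ‖Q.resv h y e‖ ≤ (Q.κ h + 2 * h * Real.sqrt Q.C1) * τ * ‖y‖ := by
  set K : ℝ := Q.κ h + 2 * h * Real.sqrt Q.C1 with hK
  have hκ := Q.κ_nonneg h
  have hK0 : 0 ≤ K := by
    have := Real.sqrt_nonneg Q.C1
    positivity
  have hsz0 : ∀ z : Vec d, ‖z none‖ ≤ sz z := by
    intro z
    unfold sz
    apply Real.le_sqrt_of_sq_le
    have : 0 ≤ ∑ i, ‖z (some (some i))‖ ^ 2 := Finset.sum_nonneg fun i _ => by positivity
    linarith
  have hpt : ∀ t, ‖(((Q.T.indicator (fun _ => Q.κ h) t * Q.χ t : ℝ) : ℂ) *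
      (star ((y t) none) * (e t) none) +
    (h : ℂ) * ∑ i, ((pd i Q.χ t : ℝ) : ℂ) * (star ((y t) (some (some i))) * (e t) none -
      star ((y t) none) * (e t) (some (some i))))‖ ≤
      Q.T.indicator (fun t => K * (sz (y t) * sz (e t))) t := by
    intro t
    by_cases ht : t ∈ Q.T
    · rw [Set.indicator_of_mem ht, Set.indicator_of_mem ht]
      refine (norm_add_le _ _).trans ?_
      have h1 : ‖(((Q.κ h * Q.χ t : ℝ) : ℂ) * (star ((y t) none) * (e t) none))‖ ≤
          Q.κ h * (sz (y t) * sz (e t)) := by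
        rw [norm_mul, Complex.norm_real, Real.norm_eq_abs, abs_mul, abs_of_nonneg hκ, norm_mul,
          norm_star]
        have h2 := Q.χ_abs t
        have h3 := hsz0 (y t)
        have h4 := hsz0 (e t)
        calc Q.κ h * |Q.χ t| * (‖(y t) none‖ * ‖(e t) none‖)
            ≤ Q.κ h * 1 * (sz (y t) * sz (e t)) := by
              apply mul_le_mul
              · exact mul_le_mul_of_nonneg_left h2 hκ
              · exact mul_le_mul h3 h4 (norm_nonneg _) (sz_nonneg _)
              · positivity
              · positivity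
          _ = _ := by ring
      have h5 : ‖(h : ℂ) * ∑ i, ((pd i Q.χ t : ℝ) : ℂ) *
          (star ((y t) (some (some i))) * (e t) none -
          star ((y t) none) * (e t) (some (some i)))‖ ≤
          h * (2 * Real.sqrt Q.C1 * (sz (y t) * sz (e t))) := by
        rw [norm_mul, Complex.norm_real, Real.norm_eq_abs, abs_of_pos h0]
        exact mul_le_mul_of_nonneg_left (pt_bd _ (Q.pd_χ_sq t) _ _) h0.le
      calc _ ≤ Q.κ h * (sz (y t) * sz (e t)) + h * (2 * Real.sqrt Q.C1 * (sz (y t) * sz (e t))) :=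
            add_le_add h1 h5
        _ = K * (sz (y t) * sz (e t)) := by rw [hK]; ring
    · rw [Set.indicator_of_notMem ht, Set.indicator_of_notMem ht]
      have h6 : ∀ i, pd i Q.χ t = 0 := fun i => (Q.grad_T ht i).1
      simp [h6]
  have hprod : Integrable (fun t => sz (y t) * sz (e t)) := by
    refine ((int_sz y).add (int_sz e)).mono' ((meas_sz y).mul (meas_sz e)) ?_
    filter_upwards with t
    rw [Real.norm_eq_abs, abs_of_nonneg (mul_nonneg (sz_nonneg _) (sz_nonneg _))]
    simp only [Pi.add_apply]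
    nlinarith [sq_nonneg (sz (y t) - sz (e t)), sq_nonneg (sz (y t)), sq_nonneg (sz (e t))]
  have hKprod : Integrable (fun t => K * (sz (y t) * sz (e t))) := hprod.const_mul K
  have hstep : ‖Q.resv h y e‖ ≤ ∫ t in Q.T, K * (sz (y t) * sz (e t)) := by
    unfold resv
    rw [← integral_indicator Q.T_meas]
    exact norm_integral_le_of_norm_le (hKprod.indicator Q.T_meas) (Filter.Eventually.of_forall hpt)
  refine hstep.trans ?_
  rw [integral_const_mul]
  have hcs := cs_int (μ := volume.restrict Q.T) (f := fun t => sz (y t)) (g := fun t => sz (e t))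
    (fun t => sz_nonneg _) (fun t => sz_nonneg _) (meas_sz y).restrict (meas_sz e).restrict
    (int_sz y).restrict (int_sz e).restrict
  have hy : Real.sqrt (∫ t in Q.T, sz (y t) ^ 2) ≤ ‖y‖ := by
    apply Real.sqrt_le_iff.2
    refine ⟨norm_nonneg _, ?_⟩
    rw [norm_sq_X]
    refine (setIntegral_le_integral (int_sz y)
      (Filter.Eventually.of_forall fun t => sq_nonneg _)).trans ?_
    apply integral_mono (int_sz y)
    · exact ((int_comp y none).add (int_comp y (some none))).add
        (integrable_finsetSum _ (fun i _ => int_comp y (some (some i))))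
    · intro t
      simp only [sz_sq]
      have := sq_nonneg ‖(y t) (some none)‖
      linarith
  have he : Real.sqrt (∫ t in Q.T, sz (e t) ^ 2) ≤ τ := by
    apply Real.sqrt_le_iff.2
    refine ⟨τ0, ?_⟩
    simp only [sz_sq]
    exact hτ
  calc K * ∫ t in Q.T, sz (y t) * sz (e t)
      ≤ K * (Real.sqrt (∫ t in Q.T, sz (y t) ^ 2) * Real.sqrt (∫ t in Q.T, sz (e t) ^ 2)) :=
        mul_le_mul_of_nonneg_left hcs hK0
    _ ≤ K * (‖y‖ * τ) := by
        apply mul_le_mul_of_nonneg_left _ hK0
        exact mul_le_mul hy he (Real.sqrt_nonneg _) (norm_nonneg _)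
    _ = K * τ * ‖y‖ := by ring

end Cut

end Pool.Agent.Lib.MP_c84763_mp.U
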