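import Pool.Agent.Lib.MP_c84763_mp.U.ResA
import Pool.Agent.Lib.MP_c84763_mp.U.ResB

set_option autoImplicit false

namespace Pool.Agent.Lib.MP_c84763_mp.U

open MeasureTheory
open scoped ContDiff ENNReal

namespace Cut

variable {d : ℕ} {P : Base d} {M : ℝ} (Q : Cut P M)

theorem resid {h : ℝ} (h0 : 0 < h) (hM : 2 * Q.κ h ≤ M) {e : X d} (he : e ∈ Q.Y h) {lam : ℝ}
    (eig : ∀ φ ∈ Q.Y h, (inner ℂ φ e : ℂ) = ((1 + lam : ℝ) : ℂ) * inner ℂ (J φ) (J e))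
    {τ : ℝ} (τ0 : 0 ≤ τ)
    (hτ : ∫ t in Q.T, (‖(e t) none‖ ^ 2 + ∑ i, ‖(e t) (some (some i))‖ ^ 2) ≤ τ ^ 2)
    {y : X d} (hy : y ∈ P.D h) :
    ‖(inner ℂ y (P.Mop (Q.up h e)) : ℂ) -
      ((lam : ℂ) + (P.a : ℂ) * Complex.I) * inner ℂ (J y) (J (Q.up h e))‖ ≤
        (Q.κ h + 2 * h * Real.sqrt Q.C1) * τ * ‖y‖ := by
  rw [Q.res_id hM he eig hy]
  exact Q.res_bd h0 y e τ0 hτ

theorem resid' {h : ℝ} (h0 : 0 < h) (hM : 2 * Q.κ h ≤ M) {e : X d} (he : e ∈ Q.Y h) {lam : ℝ}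
    (eig : ∀ φ ∈ Q.Y h, (inner ℂ φ e : ℂ) = ((1 + lam : ℝ) : ℂ) * inner ℂ (J φ) (J e))
    {τ : ℝ} (τ0 : 0 ≤ τ)
    (hτ : ∫ t in Q.T, (‖(e t) none‖ ^ 2 + ∑ i, ‖(e t) (some (some i))‖ ^ 2) ≤ τ ^ 2)
    {y : X d} (hy : y ∈ P.D h) :
    ‖(inner ℂ (Q.up h e) (P.Mop y) : ℂ) -
      ((lam : ℂ) + (P.a : ℂ) * Complex.I) * inner ℂ (J (Q.up h e)) (J y)‖ ≤
        (Q.κ h + 2 * h * Real.sqrt Q.C1) * τ * ‖y‖ := by
  have hsupp : ∀ᵐ t, t ∉ P.Ω → Q.up h e t = 0 := by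
    filter_upwards [Q.Y_off he, Q.up_ae hM e] with t ht hu ht'
    have e0 : e t = 0 := ht ht'
    obtain ⟨h1, h2, h3⟩ := hu
    apply vec_ext
    · rw [h1, e0]; simp
    · rw [h2, e0]; simp
    · intro i
      rw [h3 i, e0]; simp
  have h1 := Q.resid h0 hM he eig τ0 hτ hy
  rw [P.flip hsupp y]
  have h2 : (inner ℂ (J (Q.up h e)) (J y) : ℂ) = star (inner ℂ (J y) (J (Q.up h e)) : ℂ) := by
    rw [← inner_conj_symm]
    rfl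
  have h3 : star (inner ℂ y (P.Mop (Q.up h e)) : ℂ) +
      2 * ((P.a : ℂ) * Complex.I) * inner ℂ (J (Q.up h e)) (J y) -
      ((lam : ℂ) + (P.a : ℂ) * Complex.I) * inner ℂ (J (Q.up h e)) (J y) =
      star ((inner ℂ y (P.Mop (Q.up h e)) : ℂ) -
      ((lam : ℂ) + (P.a : ℂ) * Complex.I) * inner ℂ (J y) (J (Q.up h e))) := by
    rw [h2]
    simp only [star_sub, star_mul', star_add]
    have e1 : star (lam : ℂ) = (lam : ℂ) := Complex.conj_ofReal _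
    have e2 : star (P.a : ℂ) = (P.a : ℂ) := Complex.conj_ofReal _
    have e3 : star Complex.I = -Complex.I := Complex.conj_I
    rw [e1, e2, e3]
    ring
  rw [h3, norm_star]
  exact h1

end Cut

end Pool.Agent.Lib.MP_c84763_mp.U
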