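import Pool.Agent.Lib.MP_c84763_mp.U.GenL

set_option autoImplicit false

namespace Pool.Agent.Lib.MP_c84763_mp.U

open MeasureTheory
open scoped ContDiff ENNReal

/-- The eigenvalues of `T` with algebraic multiplicities add up to `N`.
(`Module.End.iSup_maxGenEigenspace_eq_top`, `Module.End.independent_maxGenEigenspace`,
`DirectSum.IsInternal` and `finrank` of a direct sum; or via the roots of the characteristic
polynomial.) -/
theorem sum_finrank {N : ℕ} (T : Matrix (Fin N) (Fin N) ℂ) :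
    ∃ s : Finset ℂ, (∀ E ∈ s, Module.End.HasEigenvalue (Matrix.toLin' T) E) ∧
      ∑ E ∈ s, Module.finrank ℂ (Module.End.maxGenEigenspace (Matrix.toLin' T) E) = N := by
  classical
  set f : Module.End ℂ (Fin N → ℂ) := Matrix.toLin' T with hf
  have hfin : {μ | f.HasEigenvalue μ}.Finite := Module.End.finite_hasEigenvalue f
  refine ⟨hfin.toFinset, fun E hE => by simpa using hE, ?_⟩
  set s := hfin.toFinset with hs
  let A : s → Submodule ℂ (Fin N → ℂ) := fun E => f.maxGenEigenspace (E : ℂ)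
  have hind : iSupIndep A :=
    (f.independent_maxGenEigenspace).comp Subtype.val_injective
  have htop : iSup A = ⊤ := by
    rw [eq_top_iff, ← f.iSup_maxGenEigenspace_eq_top]
    refine iSup_le (fun E => ?_)
    by_cases hE : f.HasEigenvalue E
    · have hEs : E ∈ s := by simpa [hs] using hE
      exact le_iSup A ⟨E, hEs⟩
    · have hb : f.maxGenEigenspace E = ⊥ := by
        by_contra hne
        apply hE
        have h1 : f.HasUnifEigenvalue E ⊤ := hne
        exact (Module.End.hasUnifEigenvalue_iff_hasUnifEigenvalue_one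
          (by simp : (0 : ℕ∞) < ⊤)).mp h1
      rw [hb]
      exact bot_le
  have hint := DirectSum.isInternal_submodule_of_iSupIndep_of_iSup_eq_top hind htop
  have e := LinearEquiv.ofBijective (DirectSum.coeLinearMap A) hint
  have h1 := e.finrank_eq
  rw [Module.finrank_directSum, Module.finrank_fin_fun] at h1
  exact (Finset.sum_coe_sort s
    (fun E => Module.finrank ℂ (f.maxGenEigenspace E))).symm.trans h1

/-- Gershgorin (`eigenvalue_mem_ball`). -/
theorem gersh {N : ℕ} (T : Matrix (Fin N) (Fin N) ℂ) (μ : Fin N → ℂ) {s : ℝ}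
    (hT : ∀ i j, ‖T i j - if i = j then μ j else 0‖ ≤ s) (hs : 4 * N * s ≤ 1) {E : ℂ}
    (hE : Module.End.HasEigenvalue (Matrix.toLin' T) E) : ∃ i, ‖E - μ i‖ ≤ 1 / 4 := by
  obtain ⟨k, hk⟩ := eigenvalue_mem_ball hE
  refine ⟨k, ?_⟩
  rw [Metric.mem_closedBall, dist_eq_norm] at hk
  have h1 : ∑ j ∈ Finset.univ.erase k, ‖T k j‖ ≤ ((N : ℝ) - 1) * s := by
    calc ∑ j ∈ Finset.univ.erase k, ‖T k j‖ ≤ ∑ j ∈ Finset.univ.erase k, s := by
          apply Finset.sum_le_sum
          intro j hj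
          have hjk : j ≠ k := Finset.ne_of_mem_erase hj
          have h := hT k j
          rw [if_neg (Ne.symm hjk), sub_zero] at h
          exact h
      _ = ((N : ℝ) - 1) * s := by
          rw [Finset.sum_const, Finset.card_erase_of_mem (Finset.mem_univ k), Finset.card_univ,
            Fintype.card_fin, nsmul_eq_mul]
          have hN1 : 1 ≤ N := Nat.succ_le_of_lt (lt_of_le_of_lt (Nat.zero_le _) k.2)
          rw [Nat.cast_sub hN1, Nat.cast_one]
  have h2 : ‖T k k - μ k‖ ≤ s := by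
    have h := hT k k
    rwa [if_pos rfl] at h
  calc ‖E - μ k‖ = ‖(E - T k k) + (T k k - μ k)‖ := by rw [sub_add_sub_cancel]
    _ ≤ ‖E - T k k‖ + ‖T k k - μ k‖ := norm_add_le _ _
    _ ≤ ((N : ℝ) - 1) * s + s := add_le_add (hk.trans h1) h2
    _ = N * s := by ring
    _ ≤ 1 / 4 := by linarith

theorem roots_sum {d : ℕ} {V : Sp d → ℂ} (mV : Measurable V) (iV : LocallyIntegrable V)
    {h : ℝ} {N : ℕ} (u : Fin N → L2 d) (hu : LinearIndependent ℂ u)
    (T : Matrix (Fin N) (Fin N) ℂ)
    (hH : ∀ j, Ham V h (u j) (∑ k, T k j • u k)) (B : Set ℂ)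
    (hB : ∀ E : ℂ, Module.End.HasEigenvalue (Matrix.toLin' T) E → E ∈ B) :
    (N : ℝ≥0∞) ≤ ∑' E : ℂ, (algMult V h E : ℝ≥0∞) * B.indicator 1 E := by
  obtain ⟨s, hs1, hs2⟩ := sum_finrank T
  calc (N : ℝ≥0∞) = ∑ E ∈ s,
        ((Module.finrank ℂ (Module.End.maxGenEigenspace (Matrix.toLin' T) E) : ℕ) : ℝ≥0∞) := by
        rw [← Nat.cast_sum, hs2]
    _ ≤ ∑ E ∈ s, (algMult V h E : ℝ≥0∞) * B.indicator 1 E := by
        apply Finset.sum_le_sum
        intro E hE
        rw [Set.indicator_of_mem (hB E (hs1 E hE)), Pi.one_apply, mul_one]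
        have := algMult_ge mV iV u hu T hH E
        have h2 := ENat.toENNReal_mono this
        simpa using h2
    _ ≤ ∑' E : ℂ, (algMult V h E : ℝ≥0∞) * B.indicator 1 E := ENNReal.sum_le_tsum s

end Pool.Agent.Lib.MP_c84763_mp.U
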