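import Pool.Agent.Lib.MP_c84763_mp.U.Agmon
import Pool.Agent.Lib.MP_c84763_mp.U.Coer
import Pool.Agent.Lib.MP_c84763_mp.U.Resid
import Pool.Agent.Lib.MP_c84763_mp.U.ResC
import Pool.Agent.Lib.MP_c84763_mp.U.HamF
import Pool.Agent.Lib.MP_c84763_mp.U.Roots
import Pool.Agent.Lib.MP_c84763_mp.U.AbsInv
import Pool.Agent.Lib.MP_c84763_mp.U.MdB
import Pool.Agent.Lib.MP_c84763_mp.U.BpC
import Pool.Agent.Lib.MP_c84763_mp.U.CutX
import Pool.Agent.Lib.MP_c84763_mp.U.ExpS
import Pool.Agent.Lib.MP_c84763_mp.U.SmC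

set_option autoImplicit false

namespace Pool.Agent.Lib.MP_c84763_mp.U

open MeasureTheory
open scoped ContDiff ENNReal

namespace Base

variable {d : ℕ} (P : Base d)

theorem V_meas : Measurable P.V := by
  unfold V
  exact P.V1_meas.add (Complex.measurable_ofReal.comp P.mv)

theorem V_loc : LocallyIntegrable P.V := by
  have h1 : LocallyIntegrable P.V1 := by
    refine (locallyIntegrable_const P.a).mono P.V1_meas.aestronglyMeasurable ?_
    refine Filter.Eventually.of_forall fun x => ?_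
    refine (P.V1_bd x).trans ?_
    exact le_abs_self _
  have h2 : LocallyIntegrable (fun x => (P.v x : ℂ)) := by
    exact (P.v_int.ofReal (𝕜 := ℂ)).locallyIntegrable
  exact h1.add h2

end Base

/-- One mode. -/
theorem mode_facts {d : ℕ} {P : Base d} {M : ℝ} (Q : Cut P M) {h r : ℝ} (hr : 1 ≤ r)
    (m : Q.Modes h r) (j : Fin m.N) :
    ∃ lam : ℝ, 0 ≤ lam ∧ lam ≤ 2 * r ∧ m.α * (1 + lam) ≤ 1 ∧
      (∀ φ ∈ Q.Y h, (inner ℂ φ (m.e j) : ℂ) = ((1 + lam : ℝ) : ℂ) *
        inner ℂ (J φ) (J (m.e j))) ∧ ‖J (m.e j)‖ = 1 ∧ ‖m.e j‖ ≤ 2 * r + 1 := by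
  have hβ := m.β_lt
  have hβ' := m.le_β
  have hα := m.α_le
  have hs := m.α_le_s j
  have hs1 := m.s_le j
  have hr' : (0 : ℝ) < 2 * r + 1 := by linarith
  have hβ0 : 0 < m.β := lt_of_lt_of_le (by positivity) hβ'
  have hs0 : 0 < m.s j := by linarith
  have hJ : ‖J (m.e j)‖ = 1 := by
    have h1 := m.ortho j j
    rw [if_pos rfl, inner_self_eq_norm_sq_to_K] at h1
    have h2 : ((‖J (m.e j)‖ ^ 2 : ℝ) : ℂ) = ((1 : ℝ) : ℂ) := by
      push_cast
      exact h1
    have h3 : ‖J (m.e j)‖ ^ 2 = 1 := by exact_mod_cast h2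
    have h4 : 0 ≤ ‖J (m.e j)‖ := norm_nonneg _
    nlinarith
  have hsr : 1 / m.s j ≤ 2 * r + 1 := by
    rw [div_le_iff₀ hs0]
    have : 1 / (2 * r + 1) ≤ m.s j := by linarith
    rw [div_le_iff₀ hr'] at this
    linarith
  have hnorm : m.s j * ‖m.e j‖ ^ 2 = 1 := by
    have h1 := m.eig j (m.e j) (m.mem j)
    rw [inner_self_eq_norm_sq_to_K, inner_self_eq_norm_sq_to_K, hJ] at h1
    have h2 : ((m.s j * ‖m.e j‖ ^ 2 : ℝ) : ℂ) = ((1 : ℝ) : ℂ) := by
      push_cast
      rw [eq_comm]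
      simpa using h1
    exact_mod_cast h2
  refine ⟨1 / m.s j - 1, ?_, by linarith, ?_, ?_, hJ, ?_⟩
  · rw [sub_nonneg, le_div_iff₀ hs0]
    linarith
  · have : 1 + (1 / m.s j - 1) = 1 / m.s j := by ring
    rw [this, mul_one_div, div_le_one hs0]
    exact hs
  · intro φ hφ
    rw [m.eig j φ hφ]
    have : (1 + (1 / m.s j - 1) : ℝ) = 1 / m.s j := by ring
    rw [this]
    push_cast
    have hne : (m.s j : ℂ) ≠ 0 := by exact_mod_cast hs0.ne'
    field_simp
  · have h1 : ‖m.e j‖ ^ 2 = 1 / m.s j := by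
      rw [eq_div_iff hs0.ne']
      linarith
    have h2 : ‖m.e j‖ ^ 2 ≤ (2 * r + 1) ^ 2 := by
      rw [h1]
      nlinarith
    exact le_of_sq_le_sq h2 hr'.le |> fun h => h

/-- The main construction at level `r`, for small `h`. -/
theorem core_step {d : ℕ} (P : Base d) {M : ℝ} (Q : Cut P M) {h r : ℝ} (h0 : 0 < h)
    (hr : 1 ≤ r) (hκ : Q.κ h ≤ 1) (hM : 2 * r + 3 ≤ M) (m : Q.Modes h r) (hN : 0 < m.N)
    {b ε s : ℝ} (b0 : 0 ≤ b) (hb : b ^ 2 * Q.C2 ≤ 1) (hε : 0 ≤ ε) (hs : 0 < s)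
    (hε1 : (Q.κ h + 2 * h * Real.sqrt Q.C1) * (Real.sqrt (2 * r) * Real.exp (-(b / h))) ≤ ε)
    (hε2 : (Real.sqrt (2 * r) * Real.exp (-(b / h))) ^ 2 ≤ ε)
    (c1 : 4 * (P.R + 2 * r + 3) * m.N * s ≤ m.α - m.β) (c2 : 4 * m.N * s ≤ 1)
    (c3 : 2 * (P.R + 2 * r + 3) * ε ≤ s * (m.α - m.β))
    (c4 : ε * (2 * (2 * r + 1) + 1 + m.N) ≤ s) :
    (m.N : ℝ≥0∞) ≤ ∑' E : ℂ, (algMult P.V h E : ℝ≥0∞) * (BB P.a r).indicator 1 E := by
  have hR := P.R_nonneg
  have hM2 : 2 * Q.κ h ≤ M := by linarith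
  have hM3 : Q.κ h + 2 * r ≤ M := by linarith
  choose lam l0 l1 l2 eig hJ hn using fun j => mode_facts Q hr m j
  set τ : ℝ := Real.sqrt (2 * r) * Real.exp (-(b / h)) with hτdef
  have τ0 : 0 ≤ τ := by positivity
  have hag : ∀ j, ∫ t in Q.T, (‖(m.e j t) none‖ ^ 2 + ∑ i, ‖(m.e j t) (some (some i))‖ ^ 2) ≤
      τ ^ 2 := by
    intro j
    have h1 := Q.agmon h0 b0 (l0 j) (by have := l1 j; linarith) (m.mem j) (eig j)
    rw [hJ j, one_pow, mul_one] at h1
    refine h1.trans ?_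
    have h2 : τ ^ 2 = (2 * r) * Real.exp (-(2 * b / h)) := by
      rw [hτdef, mul_pow, Real.sq_sqrt (by linarith), ← Real.exp_nat_mul]
      congr 2
      push_cast
      ring
    rw [h2]
    exact mul_le_mul_of_nonneg_right (l1 j) (Real.exp_pos _).le
  have hD : IsClosed (P.D h : Set (X d)) := isClosed_Dom _ _ _
  obtain ⟨w, T, hw, hT, hform, hind⟩ := abs_inv (J : X d →L[ℂ] L2 d) norm_J_le P.Mop (P.D h) hD hN
    (fun j => Q.up h (m.e j)) (fun j => Q.up_mem hM2 (m.mem j))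
    (fun j => (lam j : ℂ) + (P.a : ℂ) * Complex.I)
    ((1 : ℂ) + ((P.R + 2 * r + 2 : ℝ) : ℂ) * Complex.I) (θ := m.α - m.β)
    (Z := P.R + 2 * r + 3) (ε := ε) (B := 2 * (2 * r + 1)) (s := s)
    (by have := m.β_lt; linarith) (by linarith)
    (by
      refine (norm_add_le _ _).trans ?_
      rw [norm_one, norm_mul, Complex.norm_I, mul_one, Complex.norm_real, Real.norm_eq_abs,
        abs_of_nonneg (by linarith)]
      linarith)
    hε hs
    (fun y hy ho k => Q.coercive hr hM2 hM3 m hy ho (l0 k) (l2 k))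
    (fun y hy j => (Q.resid h0 hM2 (m.mem j) (eig j) τ0 (hag j) hy).trans
      (mul_le_mul_of_nonneg_right hε1 (norm_nonneg _)))
    (fun y hy j => (Q.resid' h0 hM2 (m.mem j) (eig j) τ0 (hag j) hy).trans
      (mul_le_mul_of_nonneg_right hε1 (norm_nonneg _)))
    (fun i j => by
      have h1 := Q.gram hM2 (m.mem i) (m.mem j) τ0 (hag i) (hag j)
      rw [m.ortho i j] at h1
      exact h1.trans hε2)
    (fun j => (Q.up_norm hM2 hκ (m.e j)).trans (by have := hn j; linarith))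
    c1 c2 c3 c4
  refine roots_sum P.V_meas P.V_loc (fun j => J (w j)) hind T (fun j => ?_) (BB P.a r)
    (fun E hE => ?_)
  · refine P.ham_of_form h0 (hw j) (fun φ hφ => ?_)
    rw [hform φ hφ j, inner_sum]
    refine Finset.sum_congr rfl fun k _ => ?_
    rw [inner_smul_right]
  · obtain ⟨i, hi⟩ := gersh T _ hT c2 hE
    have hi0 := l0 i
    have hi1 := l1 i
    have ha : 0 ≤ P.a := by unfold Base.a; linarith
    constructor
    · have h1 := (abs_le.1 ((Complex.abs_im_le_norm _).trans hi)).1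
      simp only [Complex.sub_im, Complex.add_im, Complex.mul_im, Complex.ofReal_im,
        Complex.ofReal_re, Complex.I_im, Complex.I_re] at h1
      linarith
    · have h1 : ‖(lam i : ℂ) + (P.a : ℂ) * Complex.I‖ ≤ 2 * r + P.a := by
        refine (norm_add_le _ _).trans ?_
        rw [norm_mul, Complex.norm_I, mul_one, Complex.norm_real, Complex.norm_real,
          Real.norm_eq_abs, Real.norm_eq_abs, abs_of_nonneg hi0, abs_of_nonneg ha]
        linarith
      have h2 : ‖E‖ ≤ ‖E - ((lam i : ℂ) + (P.a : ℂ) * Complex.I)‖ +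
          ‖(lam i : ℂ) + (P.a : ℂ) * Complex.I‖ := by
        have := norm_add_le (E - ((lam i : ℂ) + (P.a : ℂ) * Complex.I))
          ((lam i : ℂ) + (P.a : ℂ) * Complex.I)
        rwa [sub_add_cancel] at this
      linarith

/-- Counting: for each `r ≥ 1` and `h` small, `h^d` times the number of eigenvalues in
`BB a r` is at least `c r^(d/2)`. -/
theorem core {d : ℕ} (P : Base d) : ∃ c > 0, ∀ r : ℝ, 1 ≤ r → ∃ h0 > 0, ∀ h, 0 < h → h < h0 →
    ENNReal.ofReal (c * r ^ ((d : ℝ) / 2)) ≤ ENNReal.ofReal (h ^ d) *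
      ∑' E : ℂ, (algMult P.V h E : ℝ≥0∞) * (BB P.a r).indicator 1 E := by
  obtain ⟨cb, hcb, hb, hhb, hlow⟩ := lower_count P
  refine ⟨cb, hcb, fun r hr => ?_⟩
  have hR := P.R_nonneg
  obtain ⟨Q⟩ := exists_cut P (2 * r + 3)
  obtain ⟨Cn, hCn, hmod⟩ := Q.exists_modes hr
  have hC1 := Q.C1_pos
  have hC2 := Q.C2_pos
  set Z : ℝ := P.R + 2 * r + 3 with hZ
  have hZ1 : 1 ≤ Z := by rw [hZ]; linarith
  set b : ℝ := 1 / Real.sqrt Q.C2 with hbdef
  have hb0 : 0 < b := by positivity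
  have hb2 : b ^ 2 * Q.C2 ≤ 1 := by
    rw [hbdef, div_pow, Real.sq_sqrt hC2.le, one_pow, one_div, inv_mul_cancel₀ hC2.ne']
  set K : ℝ := (Q.C1 + 2 * Real.sqrt Q.C1) * Real.sqrt (2 * r) + 2 * r with hK
  have hK0 : 0 < K := by positivity
  obtain ⟨h1, hh1, H1⟩ := exp_small (2 * Z * K) hb0 (c := 1 / (4 * Z * Cn ^ 3)) (by positivity)
    (3 * d)
  obtain ⟨h2, hh2, H2⟩ := exp_small (K * (2 * (2 * r + 1) + 1 + Cn)) hb0
    (c := 1 / (4 * Z * Cn ^ 2)) (by positivity) (3 * d)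
  refine ⟨min (min 1 hb) (min (min h1 h2) (1 / (1 + Q.C1))), by positivity, fun h h0 hh => ?_⟩
  have hlt1 : h < 1 := lt_of_lt_of_le hh ((min_le_left _ _).trans (min_le_left _ _))
  have hlthb : h < hb := lt_of_lt_of_le hh ((min_le_left _ _).trans (min_le_right _ _))
  have hlth1 : h < h1 := lt_of_lt_of_le hh
    ((min_le_right _ _).trans ((min_le_left _ _).trans (min_le_left _ _)))
  have hlth2 : h < h2 := lt_of_lt_of_le hh
    ((min_le_right _ _).trans ((min_le_left _ _).trans (min_le_right _ _)))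
  have hltC : h < 1 / (1 + Q.C1) := lt_of_lt_of_le hh
    ((min_le_right _ _).trans (min_le_right _ _))
  have hκ : Q.κ h ≤ 1 := by
    have e1 : h * (1 + Q.C1) < 1 := by
      rw [lt_div_iff₀ (by linarith)] at hltC
      linarith
    unfold Cut.κ
    nlinarith
  have hκ' : Q.κ h ≤ Q.C1 := by
    have e1 : h ^ 2 ≤ 1 := by nlinarith
    have e2 := mul_le_mul_of_nonneg_right e1 hC1.le
    unfold Cut.κ
    linarith
  obtain ⟨m, hmN, hmθ⟩ := hmod h h0 hlt1.le
  have hcount := hlow (2 * r + 3) Q h r h0 hlthb.le hr (by linarith) m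
  have hrpos : 0 < r ^ ((d : ℝ) / 2) := Real.rpow_pos_of_pos (by linarith) _
  have hd0 : 0 < h ^ d := pow_pos h0 d
  have hd1 : h ^ d ≤ 1 := pow_le_one₀ h0.le hlt1.le
  have hN : 0 < m.N := by
    rcases Nat.eq_zero_or_pos m.N with h0N | h0N
    · rw [h0N] at hcount
      have : 0 < cb * r ^ ((d : ℝ) / 2) := by positivity
      push_cast at hcount
      linarith
    · exact h0N
  have hθ : 0 < m.α - m.β := by have := m.β_lt; linarith
  set ε : ℝ := K * Real.exp (-(b / h)) with hεdef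
  set s : ℝ := h ^ (2 * d) / (4 * Z * Cn ^ 2) with hsdef
  have hs : 0 < s := by positivity
  have hexp1 : Real.exp (-(b / h)) ≤ 1 := by
    rw [Real.exp_le_one_iff]
    have : 0 ≤ b / h := by positivity
    linarith
  have hexp0 : 0 < Real.exp (-(b / h)) := Real.exp_pos _
  have hpow2 : h ^ (2 * d) = h ^ d * h ^ d := by rw [two_mul, pow_add]
  have hpow3 : h ^ (3 * d) = h ^ d * h ^ d * h ^ d := by
    rw [show 3 * d = d + d + d by ring, pow_add, pow_add]
  have hNr : (0 : ℝ) < m.N := by exact_mod_cast hN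
  have key := core_step P Q h0 hr hκ le_rfl m hN (b := b) (ε := ε) (s := s) hb0.le hb2
    (by positivity) hs
    (by
      have e1 : Q.κ h + 2 * h * Real.sqrt Q.C1 ≤ Q.C1 + 2 * Real.sqrt Q.C1 := by
        have : h * Real.sqrt Q.C1 ≤ 1 * Real.sqrt Q.C1 :=
          mul_le_mul_of_nonneg_right hlt1.le (Real.sqrt_nonneg _)
        linarith
      have e2 : 0 ≤ Real.sqrt (2 * r) * Real.exp (-(b / h)) := by positivity
      have e3 := mul_le_mul_of_nonneg_right e1 e2
      have e4 : 0 ≤ 2 * r * Real.exp (-(b / h)) := by positivity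
      rw [hεdef, hK]
      nlinarith)
    (by
      rw [hεdef, hK, mul_pow, Real.sq_sqrt (by linarith)]
      have e1 : Real.exp (-(b / h)) ^ 2 ≤ Real.exp (-(b / h)) := by
        rw [sq]
        nlinarith
      have e2 : 0 ≤ (Q.C1 + 2 * Real.sqrt Q.C1) * Real.sqrt (2 * r) := by positivity
      nlinarith)
    (by
      rw [← hZ, hsdef, hpow2]
      have e1 : 4 * Z * (m.N : ℝ) * (h ^ d * h ^ d / (4 * Z * Cn ^ 2)) =
          ((m.N : ℝ) * h ^ d) * h ^ d / Cn ^ 2 := by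
        field_simp
      rw [e1, div_le_iff₀ (by positivity)]
      calc (m.N : ℝ) * h ^ d * h ^ d ≤ Cn * h ^ d := by
            exact mul_le_mul_of_nonneg_right hmN hd0.le
        _ ≤ Cn * (Cn * (m.α - m.β)) := by
            exact mul_le_mul_of_nonneg_left hmθ (by linarith)
        _ = (m.α - m.β) * Cn ^ 2 := by ring)
    (by
      rw [hsdef, hpow2]
      have e1 : 4 * (m.N : ℝ) * (h ^ d * h ^ d / (4 * Z * Cn ^ 2)) =
          ((m.N : ℝ) * h ^ d) * h ^ d / (Z * Cn ^ 2) := by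
        field_simp
      rw [e1, div_le_one (by positivity)]
      have e2 : (m.N : ℝ) * h ^ d * h ^ d ≤ Cn * 1 :=
        mul_le_mul hmN hd1 hd0.le (by linarith)
      have e3 : Cn ≤ Z * Cn ^ 2 := by nlinarith
      linarith)
    (by
      rw [← hZ, hεdef]
      have e1 := H1 h h0 hlth1
      have e2 : 1 / (4 * Z * Cn ^ 3) * h ^ (3 * d) ≤ s * (m.α - m.β) := by
        rw [hsdef, hpow2, hpow3]
        have e3 : h ^ d / Cn ≤ m.α - m.β := by
          rw [div_le_iff₀ (by linarith)]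
          linarith
        calc 1 / (4 * Z * Cn ^ 3) * (h ^ d * h ^ d * h ^ d) =
              h ^ d * h ^ d / (4 * Z * Cn ^ 2) * (h ^ d / Cn) := by
              field_simp
          _ ≤ h ^ d * h ^ d / (4 * Z * Cn ^ 2) * (m.α - m.β) :=
              mul_le_mul_of_nonneg_left e3 (by positivity)
      calc 2 * Z * (K * Real.exp (-(b / h))) = 2 * Z * K * Real.exp (-(b / h)) := by ring
        _ ≤ _ := e1
        _ ≤ _ := e2)
    (by
      rw [hεdef]
      have e1 := H2 h h0 hlth2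
      have e2 : (2 * (2 * r + 1) + 1 + (m.N : ℝ)) * h ^ d ≤ 2 * (2 * r + 1) + 1 + Cn := by
        nlinarith
      have e3 : K * Real.exp (-(b / h)) * (2 * (2 * r + 1) + 1 + (m.N : ℝ)) * h ^ d ≤
          s * h ^ d := by
        calc K * Real.exp (-(b / h)) * (2 * (2 * r + 1) + 1 + (m.N : ℝ)) * h ^ d
            = K * Real.exp (-(b / h)) * ((2 * (2 * r + 1) + 1 + (m.N : ℝ)) * h ^ d) := by ring
          _ ≤ K * Real.exp (-(b / h)) * (2 * (2 * r + 1) + 1 + Cn) :=
              mul_le_mul_of_nonneg_left e2 (by positivity)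
          _ = K * (2 * (2 * r + 1) + 1 + Cn) * Real.exp (-(b / h)) := by ring
          _ ≤ 1 / (4 * Z * Cn ^ 2) * h ^ (3 * d) := e1
          _ = s * h ^ d := by
              rw [hsdef, hpow2, hpow3]
              field_simp
      exact le_of_mul_le_mul_right e3 hd0)
  calc ENNReal.ofReal (cb * r ^ ((d : ℝ) / 2)) ≤ ENNReal.ofReal (m.N * h ^ d) :=
        ENNReal.ofReal_le_ofReal hcount
    _ = ENNReal.ofReal (h ^ d) * (m.N : ℝ≥0∞) := by
        rw [mul_comm, ENNReal.ofReal_mul hd0.le, ENNReal.ofReal_natCast]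
    _ ≤ _ := by gcongr

end Pool.Agent.Lib.MP_c84763_mp.U
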