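import Mathlib

/-!
Eigenvalue sums of Schroedinger operators with complex potentials: basic definitions.
-/

set_option autoImplicit false

namespace Pool.Agent.Lib.MP_c84763_mp.U

open MeasureTheory
open scoped ContDiff ENNReal

/-- `ℝ^d` (with the supremum norm; only Lebesgue measure and derivatives matter). -/
abbrev Sp (d : ℕ) : Type := Fin d → ℝ

/-- Complex `L²(ℝ^d)`. -/
abbrev L2 (d : ℕ) : Type := Lp ℂ 2 (volume : Measure (Sp d))

/-- Test functions: smooth with compact support. -/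
structure IsTest {d : ℕ} (φ : Sp d → ℂ) : Prop where
  smooth : ContDiff ℝ ∞ φ
  cpt : HasCompactSupport φ

/-- Partial derivative in the `i`-th coordinate. -/
noncomputable def pd {d : ℕ} {F : Type*} [NormedAddCommGroup F] [NormedSpace ℝ F] (i : Fin d)
    (φ : Sp d → F) (x : Sp d) : F := fderiv ℝ φ x (Pi.single i 1)

/-- `u` lies in the domain of the m-sectorial operator `H = -h² Δ + V` and `H u = w`:
`|V| |u|²` is integrable, `u` has a weak gradient `G` in `L²`, and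
`h² ∫ G·∇φ + ∫ V u φ = ∫ w φ` for all test functions. -/
def Ham {d : ℕ} (V : Sp d → ℂ) (h : ℝ) (u w : L2 d) : Prop :=
  Integrable (fun x => ‖V x‖ * ‖u x‖ ^ 2) ∧
    ∃ G : Fin d → L2 d,
      (∀ i, ∀ φ : Sp d → ℂ, IsTest φ → ∫ x, u x * pd i φ x = -∫ x, G i x * φ x) ∧
      ∀ φ : Sp d → ℂ, IsTest φ →
        (h : ℂ) ^ 2 * (∑ i, ∫ x, G i x * pd i φ x) + (∫ x, V x * u x * φ x) =
          ∫ x, w x * φ x

/-- `GenEig V h E k u`: `(H - E)^k u = 0`. -/
def GenEig {d : ℕ} (V : Sp d → ℂ) (h : ℝ) (E : ℂ) : ℕ → L2 d → Prop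
  | 0, u => u = 0
  | k + 1, u => ∃ w, Ham V h u w ∧ GenEig V h E k (w - E • u)

/-- Algebraic multiplicity of `E`: dimension of the space of all `u` with `(H - E)^k u = 0` for
some `k` (`0` if `E` is not an eigenvalue). -/
noncomputable def algMult {d : ℕ} (V : Sp d → ℂ) (h : ℝ) (E : ℂ) : ℕ∞ :=
  ⨆ (s : Finset (L2 d)) (_ : LinearIndependent ℂ (fun u : s => (u : L2 d)))
    (_ : ∀ u ∈ s, ∃ k, GenEig V h E k u), (s.card : ℕ∞)

/-- Distance of `E` to `[0,∞)`. -/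
noncomputable def δ (E : ℂ) : ℝ := Metric.infDist E {z : ℂ | 0 ≤ z.re ∧ z.im = 0}

/-- Sum of `W (E_j)` over all eigenvalues `E_j` of `-h² Δ + V`, repeated according to algebraic
multiplicity. -/
noncomputable def eigSum {d : ℕ} (V : Sp d → ℂ) (h : ℝ) (W : ℂ → ℝ≥0∞) : ℝ≥0∞ :=
  ∑' E : ℂ, (algMult V h E : ℝ≥0∞) * W E

/-- The sum `S_{γ,σ}(V,h) = ∑_j |E_j|^(-σ) δ(E_j)^(γ+σ)` (the terms with `E_j ∈ [0,∞)` vanish for
`γ > 0`, `σ ≥ 0`). -/
noncomputable def S {d : ℕ} (V : Sp d → ℂ) (h γ σ : ℝ) : ℝ≥0∞ :=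
  eigSum V h (fun E => ENNReal.ofReal (‖E‖ ^ (-σ) * δ E ^ (γ + σ)))

/-- `∑_j |E_j|^(-d/2) δ(E_j)^(γ+d/2) f(log(|E_j|/δ(E_j)))`. -/
noncomputable def Sf {d : ℕ} (V : Sp d → ℂ) (h γ : ℝ) (f : ℝ → ℝ) : ℝ≥0∞ :=
  eigSum V h (fun E => ENNReal.ofReal
    (‖E‖ ^ (-(d : ℝ) / 2) * δ E ^ (γ + d / 2) * f (Real.log (‖E‖ / δ E))))

/-! Auxiliary spaces. -/

/-- Index set of the components: `none` (the function), `some none` (the potential part),
`some (some i)` (the `i`-th derivative). -/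
abbrev Idx (d : ℕ) : Type := Option (Option (Fin d))

abbrev Vec (d : ℕ) : Type := EuclideanSpace ℂ (Idx d)

abbrev X (d : ℕ) : Type := Lp (Vec d) 2 (volume : Measure (Sp d))

def vec {d : ℕ} (z0 zs : ℂ) (z : Fin d → ℂ) : Vec d :=
  WithLp.toLp 2 (fun
    | none => z0
    | some none => zs
    | some (some i) => z i)

/-- `(f, √q f, h ∇ f)`. -/
noncomputable def jet {d : ℕ} (h : ℝ) (q : Sp d → ℝ) (f : Sp d → ℂ) (x : Sp d) : Vec d :=
  vec (f x) ((Real.sqrt (q x) : ℂ) * f x) (fun i => (h : ℂ) * pd i f x)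

/-- Form domain: closure of the jets of the test functions supported in `U`. -/
noncomputable def Dom {d : ℕ} (h : ℝ) (q : Sp d → ℝ) (U : Set (Sp d)) : Submodule ℂ (X d) :=
  (Submodule.span ℂ {x : X d | ∃ f : Sp d → ℂ, IsTest f ∧ tsupport f ⊆ U ∧
    (x : Sp d → Vec d) =ᵐ[volume] jet h q f}).topologicalClosure

/-- First component. -/
noncomputable def J {d : ℕ} : X d →L[ℂ] L2 d :=
  ContinuousLinearMap.compLpL 2 volume
    (EuclideanSpace.proj (none : Idx d) : Vec d →L[ℂ] ℂ)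

/-- Pointwise block multiplier `z ↦ (α z₀, β z_s, γ z_i + δ_i z₀)`. -/
noncomputable def blkFun {d : ℕ} (α β γ : Sp d → ℂ) (dl : Fin d → Sp d → ℂ) (x : Sp d)
    (z : Vec d) : Vec d :=
  vec (α x * z none) (β x * z (some none)) (fun i => γ x * z (some (some i)) + dl i x * z none)

structure BlkOK {d : ℕ} (α β γ : Sp d → ℂ) (dl : Fin d → Sp d → ℂ) : Prop where
  mα : Measurable α
  mβ : Measurable β
  mγ : Measurable γ
  md : ∀ i, Measurable (dl i)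
  bd : ∃ C : ℝ, ∀ x, ‖α x‖ ≤ C ∧ ‖β x‖ ≤ C ∧ ‖γ x‖ ≤ C ∧ ∀ i, ‖dl i x‖ ≤ C

end Pool.Agent.Lib.MP_c84763_mp.U
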