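import Pool.Agent.Lib.MP_c84763_mp.U.VA
import Pool.Agent.Lib.MP_c84763_mp.U.CutL

set_option autoImplicit false

namespace Pool.Agent.Lib.MP_c84763_mp.U

open MeasureTheory
open scoped ContDiff ENNReal

private theorem vb_lint {d : ℕ} {c : Sp d} {l B : ℝ} (hl : 0 < l) (hB : 0 ≤ B)
    {v : Sp d → ℝ} (mv : Measurable v) (hv0 : ∀ x, 0 ≤ v x) {n : ℕ} {Kn : ℝ}
    (hK : ∫⁻ x in Metric.ball c l, ENNReal.ofReal (v x ^ n) ≤ ENNReal.ofReal (Kn * l ^ d))
    {W : Sp d → ℂ} (hW : ∀ x ∈ Metric.ball c l, ‖W x‖ ≤ v x + B) :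
    ∫⁻ x in Metric.ball c l, ‖W x‖ₑ ^ n ≤
      ENNReal.ofReal (2 ^ (n - 1) * (|Kn| + B ^ n * 2 ^ d) * l ^ d) := by
  have hb : MeasurableSet (Metric.ball c l) := Metric.isOpen_ball.measurableSet
  have h1 : ∫⁻ x in Metric.ball c l, ‖W x‖ₑ ^ n ≤ ∫⁻ x in Metric.ball c l,
      ENNReal.ofReal (2 ^ (n - 1)) * (ENNReal.ofReal (v x ^ n) + ENNReal.ofReal (B ^ n)) := by
    refine setLIntegral_mono' hb fun x hx => ?_
    have e1 : ‖W x‖ₑ ≤ ENNReal.ofReal (v x + B) := by
      rw [← ofReal_norm]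
      exact ENNReal.ofReal_le_ofReal (hW x hx)
    calc ‖W x‖ₑ ^ n ≤ ENNReal.ofReal (v x + B) ^ n := pow_le_pow_left' e1 n
      _ = ENNReal.ofReal ((v x + B) ^ n) :=
          (ENNReal.ofReal_pow (add_nonneg (hv0 x) hB) n).symm
      _ ≤ ENNReal.ofReal (2 ^ (n - 1) * (v x ^ n + B ^ n)) :=
          ENNReal.ofReal_le_ofReal (add_pow_le (hv0 x) hB n)
      _ = ENNReal.ofReal (2 ^ (n - 1)) * (ENNReal.ofReal (v x ^ n) + ENNReal.ofReal (B ^ n)) := by
          rw [ENNReal.ofReal_mul (by positivity),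
            ENNReal.ofReal_add (pow_nonneg (hv0 x) n) (pow_nonneg hB n)]
  refine h1.trans ?_
  rw [lintegral_const_mul' _ _ ENNReal.ofReal_ne_top,
    lintegral_add_left (mv.pow_const n).ennreal_ofReal, lintegral_const,
    Measure.restrict_apply MeasurableSet.univ, Set.univ_inter, Real.volume_pi_ball c hl,
    Fintype.card_fin]
  have e2 : ENNReal.ofReal (B ^ n) * ENNReal.ofReal ((2 * l) ^ d) =
      ENNReal.ofReal (B ^ n * 2 ^ d * l ^ d) := by
    rw [← ENNReal.ofReal_mul (pow_nonneg hB n), mul_pow, mul_assoc]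
  have e3 : ENNReal.ofReal (Kn * l ^ d) ≤ ENNReal.ofReal (|Kn| * l ^ d) :=
    ENNReal.ofReal_le_ofReal (mul_le_mul_of_nonneg_right (le_abs_self _) (by positivity))
  rw [e2]
  refine (mul_le_mul_right (add_le_add (hK.trans e3) le_rfl) _).trans ?_
  rw [← ENNReal.ofReal_add (by positivity) (by positivity), ← ENNReal.ofReal_mul (by positivity)]
  refine ENNReal.ofReal_le_ofReal (le_of_eq ?_)
  ring

/-- The potential, with all `L^p` bounds.
Proof sketch: choose `c ∈ U`, `l` small (`l ≤ 1/2`, `ball c l ⊆ U`), `v` from `exists_v`.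
`‖V - V0‖ ≤ (v + 2R + 1) 1_Ω`. For natural `n ≥ 1`,
`∫ (v + 2R + 1)^n 1_Ω ≤ 2^n (K n + (2R+1)^n 2^d) l^d < ∞`, so it is in `L^n` and, the measure of
`Ω` being finite, in `L^p` for `1 ≤ p ≤ n` (`MemLp.mono_exponent` on the restricted measure). With
`n = ⌈p1⌉ + 1` and `l` small enough the `L^n` norm is `≤ ε`; as `|Ω| = (2l)^d ≤ 1`,
`eLpNorm p ≤ eLpNorm n` for `p ≤ n` (`eLpNorm_le_eLpNorm_mul_rpow_measure_univ`). -/
theorem exists_base {d : ℕ} (hd : 0 < d) {V0 : Sp d → ℂ} {R : ℝ} (mV0 : Measurable V0)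
    (bV0 : ∀ x, ‖V0 x‖ ≤ R) {U : Set (Sp d)} (hU : IsOpen U) (hne : U.Nonempty) {ε : ℝ}
    (hε : 0 < ε) (p1 : ℝ) :
    ∃ P : Base d, P.V0 = V0 ∧ P.R = R ∧ P.Ω ⊆ U ∧
      (∀ p : ℝ≥0∞, p ≠ ⊤ → MemLp (fun x => P.V x - V0 x) p) ∧
      ∀ p : ℝ≥0∞, 1 ≤ p → p ≤ ENNReal.ofReal p1 →
        eLpNorm (fun x => P.V x - V0 x) p ≤ ENNReal.ofReal ε := by
  obtain ⟨c, hc⟩ := hne
  obtain ⟨r, hr, hrU⟩ := Metric.isOpen_iff.1 hU c hc
  obtain ⟨K, hK⟩ := exists_v hd c
  have hR : 0 ≤ R := (norm_nonneg _).trans (bV0 c)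
  have hB : (0 : ℝ) ≤ 2 * R + 1 := by linarith
  obtain ⟨n, hn⟩ : ∃ n : ℕ, n = ⌈p1⌉₊ + 1 := ⟨_, rfl⟩
  have hn1 : 1 ≤ n := by omega
  have hnp : p1 ≤ n := by
    rw [hn]
    push_cast
    have := Nat.le_ceil p1
    linarith
  obtain ⟨C, hC⟩ : ∃ C : ℝ, C = 2 ^ (n - 1) * (|K n| + (2 * R + 1) ^ n * 2 ^ d) := ⟨_, rfl⟩
  have hC0 : 0 < C := by
    rw [hC]
    have h1 : 0 < (2 * R + 1) ^ n := pow_pos (by linarith) n
    have := abs_nonneg (K n)
    positivity
  obtain ⟨l, hl⟩ : ∃ l : ℝ, l = min (min r (1 / 2)) (ε ^ n / C) := ⟨_, rfl⟩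
  have hl0 : 0 < l := by
    rw [hl]
    have : 0 < ε ^ n / C := by positivity
    exact lt_min (lt_min hr (by norm_num)) this
  have hlr : l ≤ r := by
    rw [hl]
    exact (min_le_left _ _).trans (min_le_left _ _)
  have hl2 : l ≤ 1 / 2 := by
    rw [hl]
    exact (min_le_left _ _).trans (min_le_right _ _)
  have hlε : C * l ≤ ε ^ n := by
    have h1 : l ≤ ε ^ n / C := by
      rw [hl]
      exact min_le_right _ _
    rw [le_div_iff₀ hC0] at h1
    linarith
  have hld : l ^ d ≤ l := by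
    calc l ^ d ≤ l ^ 1 := pow_le_pow_of_le_one hl0.le (by linarith) hd
      _ = l := pow_one l
  obtain ⟨v, mv, hv0, hvoff, hvin, hvbig, hvint⟩ := hK l hl0
  have hb : MeasurableSet (Metric.ball c l) := Metric.isOpen_ball.measurableSet
  have hvI : Integrable v := by
    refine ⟨mv.aestronglyMeasurable, ?_⟩
    rw [hasFiniteIntegral_iff_ofReal (Filter.Eventually.of_forall hv0)]
    have h1 : ∫⁻ x, ENNReal.ofReal (v x) = ∫⁻ x in Metric.ball c l, ENNReal.ofReal (v x ^ 1) := by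
      rw [← lintegral_indicator hb]
      refine lintegral_congr fun x => ?_
      by_cases hx : x ∈ Metric.ball c l
      · rw [Set.indicator_of_mem hx, pow_one]
      · rw [Set.indicator_of_notMem hx, hvoff x hx, ENNReal.ofReal_zero]
    rw [h1]
    exact (hvint 1).trans_lt ENNReal.ofReal_lt_top
  let P : Base d :=
    { c := c, l := l, R := R, V0 := V0, v := v, hd := hd, l_pos := hl0, R_nonneg := hR,
      mV0 := mV0, bV0 := bV0, mv := mv, v_nonneg := hv0, v_off := hvoff, v_in := hvin,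
      v_int := hvI, v_big := hvbig }
  have hΩ : P.Ω = Metric.ball c l := rfl
  have hV1m : Measurable P.V1 := by
    unfold Base.V1
    exact Measurable.ite P.Ω_meas measurable_const mV0
  have hWm : Measurable fun x => P.V x - V0 x :=
    (hV1m.add (Complex.measurable_ofReal.comp mv)).sub mV0
  have hWoff : ∀ x, x ∉ Metric.ball c l → P.V x - V0 x = 0 := by
    intro x hx
    have h1 : P.V1 x = V0 x := P.V1_notin hx
    have h2 : P.v x = 0 := hvoff x hx
    rw [Base.V, h1, h2, Complex.ofReal_zero, add_zero, sub_self]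
  have hWin : ∀ x ∈ Metric.ball c l, ‖P.V x - V0 x‖ ≤ v x + (2 * R + 1) := by
    intro x hx
    have h1 : P.V1 x = (P.a : ℂ) * Complex.I := P.V1_in hx
    have h2 : P.a = R + 1 := rfl
    have h3 : P.v x = v x := rfl
    rw [Base.V, h1, h2, h3]
    calc ‖((R + 1 : ℝ) : ℂ) * Complex.I + (v x : ℂ) - V0 x‖
        ≤ ‖((R + 1 : ℝ) : ℂ) * Complex.I + (v x : ℂ)‖ + ‖V0 x‖ := norm_sub_le _ _
      _ ≤ ‖((R + 1 : ℝ) : ℂ) * Complex.I‖ + ‖(v x : ℂ)‖ + ‖V0 x‖ :=
          add_le_add (norm_add_le _ _) le_rfl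
      _ ≤ (R + 1) + v x + R := by
          refine add_le_add (add_le_add ?_ ?_) (bV0 x)
          · rw [norm_mul, Complex.norm_I, mul_one, Complex.norm_real, Real.norm_eq_abs,
              abs_of_nonneg (by linarith)]
          · rw [Complex.norm_real, Real.norm_eq_abs, abs_of_nonneg (hv0 x)]
      _ = v x + (2 * R + 1) := by ring
  have hsupp : Function.support (fun x => P.V x - V0 x) ⊆ Metric.ball c l := by
    intro x hx
    by_contra h
    exact hx (hWoff x h)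
  have hlint : ∀ m : ℕ, ∫⁻ x in Metric.ball c l, ‖P.V x - V0 x‖ₑ ^ m ≤
      ENNReal.ofReal (2 ^ (m - 1) * (|K m| + (2 * R + 1) ^ m * 2 ^ d) * l ^ d) := fun m =>
    vb_lint hl0 hB mv hv0 (hvint m) hWin
  have hnorm : ∀ m : ℕ, 1 ≤ m → eLpNorm (fun x => P.V x - V0 x) (m : ℝ≥0∞)
      (volume.restrict (Metric.ball c l)) =
      (∫⁻ x in Metric.ball c l, ‖P.V x - V0 x‖ₑ ^ m) ^ (1 / (m : ℝ)) := by
    intro m hm
    rw [eLpNorm_eq_lintegral_rpow_enorm_toReal (by
      rw [Ne, Nat.cast_eq_zero]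
      omega) (ENNReal.natCast_ne_top m)]
    simp only [ENNReal.toReal_natCast, ENNReal.rpow_natCast]
  have : IsFiniteMeasure ((volume : Measure (Sp d)).restrict (Metric.ball c l)) :=
    ⟨by
      rw [Measure.restrict_apply MeasurableSet.univ, Set.univ_inter, Real.volume_pi_ball c hl0]
      exact ENNReal.ofReal_lt_top⟩
  have hmem : ∀ m : ℕ, 1 ≤ m → MemLp (fun x => P.V x - V0 x) (m : ℝ≥0∞)
      (volume.restrict (Metric.ball c l)) := by
    intro m hm
    refine ⟨hWm.aestronglyMeasurable, ?_⟩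
    rw [hnorm m hm]
    exact ENNReal.rpow_lt_top_of_nonneg (by positivity)
      ((hlint m).trans_lt ENNReal.ofReal_lt_top).ne
  refine ⟨P, rfl, rfl, (Metric.ball_subset_ball hlr).trans hrU, ?_, ?_⟩
  · intro p hp
    have hind : (fun x => P.V x - V0 x) =
        (Metric.ball c l).indicator (fun x => P.V x - V0 x) :=
      (Set.indicator_eq_self.2 hsupp).symm
    rw [hind, memLp_indicator_iff_restrict hb]
    refine (hmem (⌈p.toReal⌉₊ + 1) (by omega)).mono_exponent ?_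
    refine (ENNReal.ofReal_toReal hp).symm.le.trans ?_
    rw [← ENNReal.ofReal_natCast]
    refine ENNReal.ofReal_le_ofReal ?_
    push_cast
    have := Nat.le_ceil p.toReal
    linarith
  · intro p hp1 hp2
    have hpn : p ≤ (n : ℝ≥0∞) := by
      refine hp2.trans ?_
      rw [← ENNReal.ofReal_natCast]
      exact ENNReal.ofReal_le_ofReal hnp
    have hpt : p ≠ ⊤ := (hp2.trans_lt ENNReal.ofReal_lt_top).ne
    rw [← eLpNorm_restrict_eq_of_support_subset hsupp]
    refine (eLpNorm_le_eLpNorm_mul_rpow_measure_univ hpn hWm.aestronglyMeasurable).trans ?_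
    have h1 : (volume.restrict (Metric.ball c l)) Set.univ ^
        (1 / p.toReal - 1 / (n : ℝ≥0∞).toReal) ≤ 1 := by
      refine ENNReal.rpow_le_one ?_ ?_
      · rw [Measure.restrict_apply MeasurableSet.univ, Set.univ_inter, Real.volume_pi_ball c hl0]
        rw [← ENNReal.ofReal_one]
        exact ENNReal.ofReal_le_ofReal (pow_le_one₀ (by linarith) (by linarith))
      · rw [sub_nonneg, ENNReal.toReal_natCast]
        have hp0 : 0 < p.toReal := by
          refine ENNReal.toReal_pos ?_ hpt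
          intro h0
          rw [h0] at hp1
          exact absurd hp1 (by simp)
        refine one_div_le_one_div_of_le hp0 ?_
        have := ENNReal.toReal_mono (ENNReal.natCast_ne_top n) hpn
        rwa [ENNReal.toReal_natCast] at this
    have h2 : eLpNorm (fun x => P.V x - V0 x) (n : ℝ≥0∞)
        (volume.restrict (Metric.ball c l)) ≤ ENNReal.ofReal ε := by
      rw [hnorm n hn1]
      have hn0 : (0 : ℝ) < n := by exact_mod_cast hn1
      have h3 : (∫⁻ x in Metric.ball c l, ‖P.V x - V0 x‖ₑ ^ n) ≤ ENNReal.ofReal ε ^ n := by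
        refine (hlint n).trans ?_
        rw [← hC, ← ENNReal.ofReal_pow hε.le]
        refine ENNReal.ofReal_le_ofReal ?_
        exact (mul_le_mul_of_nonneg_left hld hC0.le).trans hlε
      calc (∫⁻ x in Metric.ball c l, ‖P.V x - V0 x‖ₑ ^ n) ^ (1 / (n : ℝ))
          ≤ (ENNReal.ofReal ε ^ n) ^ (1 / (n : ℝ)) :=
            ENNReal.rpow_le_rpow h3 (by positivity)
        _ = ENNReal.ofReal ε := by
            rw [← ENNReal.rpow_natCast, ← ENNReal.rpow_mul, mul_one_div_cancel hn0.ne',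
              ENNReal.rpow_one]
    calc eLpNorm (fun x => P.V x - V0 x) (n : ℝ≥0∞) (volume.restrict (Metric.ball c l)) *
          (volume.restrict (Metric.ball c l)) Set.univ ^
            (1 / p.toReal - 1 / (n : ℝ≥0∞).toReal)
        ≤ ENNReal.ofReal ε * 1 := mul_le_mul' h2 h1
      _ = ENNReal.ofReal ε := mul_one _

end Pool.Agent.Lib.MP_c84763_mp.U
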