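import Pool.Agent.Lib.MP_c84763_mp.U.Core
import Pool.Agent.Lib.MP_c84763_mp.U.VB

set_option autoImplicit false

namespace Pool.Agent.Lib.MP_c84763_mp.U

open MeasureTheory Filter Topology
open scoped ContDiff ENNReal

theorem Base.V_eq {d : ℕ} (P : Base d) {x : Sp d} (hx : x ∉ P.Ω) : P.V x = P.V0 x := by
  simp [Base.V, P.V1_notin hx, P.v_notin hx]

theorem Base.V_bounds {d : ℕ} (P : Base d) (x : Sp d) :
    -P.R ≤ (P.V x).re ∧ |(P.V x).im| ≤ P.R + 1 := by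
  have hR := P.R_nonneg
  by_cases hx : x ∈ P.Ω
  · have hv := P.v_nonneg x
    have h1 : (P.V x).re = P.v x := by
      simp [Base.V, P.V1_in hx]
    have h2 : (P.V x).im = P.R + 1 := by
      simp [Base.V, P.V1_in hx, Base.a]
    rw [h1, h2, abs_of_nonneg (by linarith)]
    exact ⟨by linarith, le_rfl⟩
  · rw [P.V_eq hx]
    have h1 := P.bV0 x
    have h2 := (abs_le.1 ((Complex.abs_re_le_norm (P.V0 x)).trans h1)).1
    have h3 := (Complex.abs_im_le_norm (P.V0 x)).trans h1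
    exact ⟨h2, by linarith⟩

theorem final {d : ℕ} (hd : 1 ≤ d) (V0 : Sp d → ℂ) (R : ℝ) (mV0 : Measurable V0)
    (bV0 : ∀ x, ‖V0 x‖ ≤ R) (U : Set (Sp d)) (hU : IsOpen U) (hne : U.Nonempty)
    (ε : ℝ) (hε : 0 < ε) (p1 : ℝ) :
    ∃ V : Sp d → ℂ, Measurable V ∧ (∀ x, x ∉ U → V x = V0 x) ∧
      HasCompactSupport (fun x => V x - V0 x) ∧
      (∀ x, -R ≤ (V x).re ∧ |(V x).im| ≤ R + 1) ∧
      (∀ p : ℝ≥0∞, p ≠ ⊤ → MemLp (fun x => V x - V0 x) p) ∧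
      (∀ p : ℝ≥0∞, 1 ≤ p → p ≤ ENNReal.ofReal p1 →
        eLpNorm (fun x => V x - V0 x) p ≤ ENNReal.ofReal ε) ∧
      (∀ γ : ℝ, 0 < γ → ∀ f : ℝ → ℝ, AntitoneOn f (Set.Ici 0) → (∀ t, 0 ≤ t → 0 ≤ f t) →
        ∫⁻ t in Set.Ici (0 : ℝ), ENNReal.ofReal (f t) = ⊤ →
        Tendsto (fun h : ℝ => ENNReal.ofReal (h ^ d) * Sf V h γ f) (𝓝[>] 0) (𝓝 ⊤)) ∧
      (∀ γ : ℝ, 0 < γ → ∀ σ : ℝ, 0 ≤ σ → σ ≤ d / 2 →
        Tendsto (fun h : ℝ => ENNReal.ofReal (h ^ d) * S V h γ σ) (𝓝[>] 0) (𝓝 ⊤)) := by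
  obtain ⟨P, hV0, hPR, hΩ, hLp, hsm⟩ := exists_base hd mV0 bV0 hU hne hε p1
  subst hV0
  subst hPR
  obtain ⟨c, hc, H⟩ := core P
  have ha : 1 ≤ P.a := by
    have := P.R_nonneg
    unfold Base.a
    linarith
  refine ⟨P.V, P.V_meas, fun x hx => P.V_eq fun h => hx (hΩ h), ?_, P.V_bounds, hLp, hsm,
    fun γ hγ f hf hf0 hfi => sf_tendsto hd ha hc H hγ hf hf0 hfi,
    fun γ hγ σ hσ hσ' => s_tendsto hd ha hc H hγ hσ hσ'⟩
  refine HasCompactSupport.of_support_subset_isCompact (isCompact_closedBall P.c P.l) ?_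
  intro x hx
  by_contra h
  apply hx
  have : x ∉ P.Ω := fun h' => h (Metric.ball_subset_closedBall h')
  simp [P.V_eq this]

end Pool.Agent.Lib.MP_c84763_mp.U
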