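import Pool.Agent.Lib.MP_c84763_mp.U.CutL

set_option autoImplicit false

namespace Pool.Agent.Lib.MP_c84763_mp.U

open MeasureTheory
open scoped ContDiff ENNReal

namespace Base

variable {d : ℕ} (P : Base d)

theorem V1_meas : Measurable P.V1 := by
  unfold V1
  exact Measurable.ite P.Ω_meas measurable_const P.mV0

theorem V1_bd (x : Sp d) : ‖P.V1 x‖ ≤ P.a := by
  have hR := P.R_nonneg
  by_cases hx : x ∈ P.Ω
  · rw [P.V1_in hx, norm_mul, Complex.norm_I, mul_one, Complex.norm_real, Real.norm_eq_abs,
      abs_of_nonneg (by unfold a; linarith)]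
  · rw [P.V1_notin hx]
    have := P.bV0 x
    unfold a
    linarith

theorem blkOK : BlkOK P.V1 (fun _ => 1) (fun _ => 1) (fun _ _ => (0 : ℂ)) where
  mα := P.V1_meas
  mβ := measurable_const
  mγ := measurable_const
  md := fun _ => measurable_const
  bd := ⟨P.a, fun x => by
    have hR := P.R_nonneg
    have h1 : (1 : ℝ) ≤ P.a := by unfold a; linarith
    refine ⟨P.V1_bd x, ?_, ?_, fun i => ?_⟩
    · simpa using h1
    · simpa using h1
    · simp only [norm_zero]; linarith⟩

theorem Mop_ae (x : X d) :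
    ∀ᵐ t, (P.Mop x t) none = P.V1 t * (x t) none ∧
      (P.Mop x t) (some none) = (x t) (some none) ∧
      ∀ i, (P.Mop x t) (some (some i)) = (x t) (some (some i)) := by
  filter_upwards [blk_ae P.blkOK x] with t ht
  have ht' : P.Mop x t = blkFun P.V1 (fun _ => 1) (fun _ => 1) (fun _ _ => (0 : ℂ)) t (x t) := ht
  rw [ht']
  refine ⟨?_, ?_, fun i => ?_⟩
  · simp [blkFun, vec_none]
  · simp [blkFun, vec_some_none]
  · simp [blkFun, vec_some_some]

/-- The form. -/
theorem form_val (y x : X d) :
    (inner ℂ y (P.Mop x) : ℂ) = ∫ t, (P.V1 t * (star ((y t) none) * (x t) none) +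
      star ((y t) (some none)) * (x t) (some none) +
      ∑ i, star ((y t) (some (some i))) * (x t) (some (some i))) := by
  rw [inner_X]
  apply integral_congr_ae
  filter_upwards [P.Mop_ae x] with t ht
  obtain ⟨h1, h2, h3⟩ := ht
  rw [h1, h2]
  simp only [h3]
  ring

end Base

end Pool.Agent.Lib.MP_c84763_mp.U
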