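import Pool.Agent.Lib.MP_c84763_mp.U.HamL

set_option autoImplicit false

namespace Pool.Agent.Lib.MP_c84763_mp.U

open MeasureTheory
open scoped ContDiff ENNReal

theorem ham_sum {d : ℕ} {V : Sp d → ℂ} (mV : Measurable V) (iV : LocallyIntegrable V) {h : ℝ}
    {ι : Type*} (s : Finset ι) (c : ι → ℂ) (u w : ι → L2 d) (hH : ∀ j, Ham V h (u j) (w j)) :
    Ham V h (∑ j ∈ s, c j • u j) (∑ j ∈ s, c j • w j) := by
  classical
  induction s using Finset.induction_on with
  | empty => simpa using ham_zero
  | insert a s ha ih =>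
    rw [Finset.sum_insert ha, Finset.sum_insert ha]
    exact ham_add mV iV (ham_smul mV iV _ (hH a)) ih

/-- Generalised eigenvectors of the matrix give generalised eigenfunctions. Induction on `k`
generalising `c`; `T.mulVec c` gives `H (∑ c_j u_j) = ∑ (T c)_k u_k`. -/
theorem genEig_of_mat {d : ℕ} {V : Sp d → ℂ} (mV : Measurable V) (iV : LocallyIntegrable V)
    {h : ℝ} {N : ℕ} (u : Fin N → L2 d) (T : Matrix (Fin N) (Fin N) ℂ)
    (hH : ∀ j, Ham V h (u j) (∑ k, T k j • u k)) (E : ℂ) (k : ℕ) (c : Fin N → ℂ)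
    (hc : ((Matrix.toLin' T - E • (1 : Module.End ℂ (Fin N → ℂ))) ^ k) c = 0) :
    GenEig V h E k (∑ j, c j • u j) := by
  induction k generalizing c with
  | zero =>
    have h0 : c = 0 := by simpa using hc
    subst h0
    simp [GenEig]
  | succ k ih =>
    rw [pow_succ, Module.End.mul_apply] at hc
    refine ⟨∑ j, c j • ∑ k, T k j • u k, ham_sum mV iV _ c u _ hH, ?_⟩
    have key := ih _ hc
    have e : (∑ j, c j • ∑ k, T k j • u k) - E • ∑ j, c j • u j =
        ∑ j, ((Matrix.toLin' T - E • (1 : Module.End ℂ (Fin N → ℂ))) c) j • u j := by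
      have e1 : (∑ j, c j • ∑ k, T k j • u k) = ∑ k, (T.mulVec c) k • u k := by
        simp only [Finset.smul_sum]
        rw [Finset.sum_comm]
        refine Finset.sum_congr rfl fun k _ => ?_
        rw [Matrix.mulVec, dotProduct, Finset.sum_smul]
        refine Finset.sum_congr rfl fun j _ => ?_
        rw [smul_smul, mul_comm]
      rw [e1, Finset.smul_sum, ← Finset.sum_sub_distrib]
      refine Finset.sum_congr rfl fun j _ => ?_
      rw [smul_smul, ← sub_smul]
      simp
    rw [e]
    exact key

/-- Multiplicity bound: the image of a basis of the maximal generalised eigenspace under the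
injective map `c ↦ ∑ c_j u_j` is a linearly independent finite set of generalised
eigenfunctions. -/
theorem algMult_ge {d : ℕ} {V : Sp d → ℂ} (mV : Measurable V) (iV : LocallyIntegrable V)
    {h : ℝ} {N : ℕ} (u : Fin N → L2 d) (hu : LinearIndependent ℂ u)
    (T : Matrix (Fin N) (Fin N) ℂ)
    (hH : ∀ j, Ham V h (u j) (∑ k, T k j • u k)) (E : ℂ) :
    ((Module.finrank ℂ (Module.End.maxGenEigenspace (Matrix.toLin' T) E) : ℕ) : ℕ∞) ≤
      algMult V h E := by
  classical
  set W := Module.End.maxGenEigenspace (Matrix.toLin' T) E with hW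
  let b := Module.finBasis ℂ W
  let Φ : (Fin N → ℂ) →ₗ[ℂ] L2 d := Fintype.linearCombination ℂ u
  have hΦ : ∀ c : Fin N → ℂ, Φ c = ∑ j, c j • u j := fun c => by
    simp [Φ, Fintype.linearCombination_apply]
  have hinj : Function.Injective Φ := by
    exact hu.fintypeLinearCombination_injective
  let v : Fin (Module.finrank ℂ W) → L2 d := fun i => Φ (b i : Fin N → ℂ)
  have hv : LinearIndependent ℂ v := by
    have h1 : LinearIndependent ℂ (fun i => ((b i : W) : Fin N → ℂ)) := by
      have := b.linearIndependent.map' W.subtype (Submodule.ker_subtype W)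
      exact this
    exact h1.map' Φ (LinearMap.ker_eq_bot.2 hinj)
  have hgen : ∀ i, ∃ k, GenEig V h E k (v i) := by
    intro i
    have hm : ((b i : W) : Fin N → ℂ) ∈ Module.End.maxGenEigenspace (Matrix.toLin' T) E :=
      (b i).2
    rw [Module.End.mem_maxGenEigenspace] at hm
    obtain ⟨k, hk⟩ := hm
    refine ⟨k, ?_⟩
    have := genEig_of_mat mV iV u T hH E k _ hk
    simpa only [v, hΦ] using this
  let s : Finset (L2 d) := Finset.univ.image v
  have hcard : s.card = Module.finrank ℂ W := by
    rw [Finset.card_image_of_injective _ hv.injective]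
    simp
  have hli : LinearIndependent ℂ (fun u : s => (u : L2 d)) := by
    have h1 : LinearIndependent ℂ ((↑) : Set.range v → L2 d) := hv.linearIndepOn_id
    have h2 : (s : Set (L2 d)) = Set.range v := by
      simp [s]
    have h3 : LinearIndepOn ℂ id (s : Set (L2 d)) := by
      rw [h2]; exact h1
    exact h3
  have hs : ∀ u ∈ s, ∃ k, GenEig V h E k u := by
    intro u hu'
    obtain ⟨i, _, rfl⟩ := Finset.mem_image.1 hu'
    exact hgen i
  unfold algMult
  rw [← hcard]
  exact le_iSup₂_of_le s hli (le_iSup_of_le hs le_rfl)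

end Pool.Agent.Lib.MP_c84763_mp.U
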