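import Pool.Agent.Lib.MP_c84763_mp.U.Defs

set_option autoImplicit false

namespace Pool.Agent.Lib.MP_c84763_mp.U

open MeasureTheory
open scoped ContDiff ENNReal

private lemma hamL_pd_cont {d : ℕ} {φ : Sp d → ℂ} (hφ : IsTest φ) (i : Fin d) :
    Continuous (pd i φ) := by
  unfold pd
  exact (hφ.smooth.continuous_fderiv (by simp)).clm_apply continuous_const

private lemma hamL_pd_cpt {d : ℕ} {φ : Sp d → ℂ} (hφ : IsTest φ) (i : Fin d) :
    HasCompactSupport (pd i φ) := by
  unfold pd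
  exact hφ.cpt.fderiv_apply (𝕜 := ℝ) _

/-- An `L²` function times a continuous function with compact support is integrable. -/
private lemma hamL_int {d : ℕ} (u : L2 d) {ψ : Sp d → ℂ} (hc : Continuous ψ)
    (hs : HasCompactSupport ψ) : Integrable (fun x => u x * ψ x) := by
  have h1 : MemLp (u : Sp d → ℂ) 2 volume := Lp.memLp u
  have h2 : MemLp ψ 2 volume := hc.memLp_of_hasCompactSupport hs
  exact h1.integrable_mul h2

private lemma hamL_intV {d : ℕ} {V : Sp d → ℂ} (mV : Measurable V) (iV : LocallyIntegrable V)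
    {u : L2 d} (hu : Integrable (fun x => ‖V x‖ * ‖u x‖ ^ 2)) {φ : Sp d → ℂ} (hφ : IsTest φ) :
    Integrable (fun x => V x * u x * φ x) := by
  have hc : Continuous φ := hφ.smooth.continuous
  have h2 : Integrable (fun x => ‖V x‖ * ‖φ x‖ ^ 2) := by
    have hn : LocallyIntegrable (fun x => ‖V x‖) := fun x => (iV x).norm
    have := hn.integrable_smul_right_of_hasCompactSupport (g := fun x => ‖φ x‖ ^ 2)
      (hc.norm.pow 2) (by
        have := hφ.cpt.norm
        exact this.comp_left (g := fun t : ℝ => t ^ 2) (by simp))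
    simpa [smul_eq_mul] using this
  refine (hu.add h2).mono' ?_ ?_
  · exact (mV.aestronglyMeasurable.mul (Lp.aestronglyMeasurable u)).mul hc.aestronglyMeasurable
  · refine Filter.Eventually.of_forall fun x => ?_
    simp only [Pi.add_apply, norm_mul]
    have h0 : 0 ≤ ‖V x‖ := norm_nonneg _
    have : ‖u x‖ * ‖φ x‖ ≤ ‖u x‖ ^ 2 + ‖φ x‖ ^ 2 := by
      nlinarith [sq_nonneg (‖u x‖ - ‖φ x‖), norm_nonneg (u x), norm_nonneg (φ x)]
    calc ‖V x‖ * ‖u x‖ * ‖φ x‖ = ‖V x‖ * (‖u x‖ * ‖φ x‖) := by ring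
      _ ≤ ‖V x‖ * (‖u x‖ ^ 2 + ‖φ x‖ ^ 2) := mul_le_mul_of_nonneg_left this h0
      _ = _ := by ring

/-- `Ham` is a linear relation. (Integrability: `|V| |u+u'|² ≤ 2 |V| |u|² + 2 |V| |u'|²`; the
function `V` should be measurable for `AEStronglyMeasurable`, see the hypothesis. For the
integral of `V u φ`: `|V u φ| ≤ |V| |u|² + |V| |φ|²`, and `|V| |φ|²` is integrable when `V` is
locally integrable.) -/
theorem ham_add {d : ℕ} {V : Sp d → ℂ} (mV : Measurable V) (iV : LocallyIntegrable V) {h : ℝ}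
    {u w u' w' : L2 d} (h1 : Ham V h u w) (h2 : Ham V h u' w') : Ham V h (u + u') (w + w') := by
  obtain ⟨hI1, G1, hg1, he1⟩ := h1
  obtain ⟨hI2, G2, hg2, he2⟩ := h2
  have hadd : ((u + u' : L2 d) : Sp d → ℂ) =ᵐ[volume] fun x => u x + u' x := by
    filter_upwards [Lp.coeFn_add u u'] with x hx
    rw [hx, Pi.add_apply]
  have hsq : Integrable (fun x => ‖V x‖ * ‖(u + u' : L2 d) x‖ ^ 2) := by
    refine ((hI1.const_mul 2).add (hI2.const_mul 2)).mono' ?_ ?_
    · exact mV.aestronglyMeasurable.norm.mul ((Lp.aestronglyMeasurable (u + u')).norm.pow 2)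
    · filter_upwards [hadd] with x hx
      rw [hx]
      simp only [Pi.add_apply]
      have h0 : 0 ≤ ‖V x‖ := norm_nonneg _
      have hn : ‖u x + u' x‖ ≤ ‖u x‖ + ‖u' x‖ := norm_add_le _ _
      have hn0 : 0 ≤ ‖u x + u' x‖ := norm_nonneg _
      have hle : ‖u x + u' x‖ ^ 2 ≤ 2 * ‖u x‖ ^ 2 + 2 * ‖u' x‖ ^ 2 := by
        nlinarith [sq_nonneg (‖u x‖ - ‖u' x‖)]
      rw [Real.norm_of_nonneg (by positivity)]
      calc ‖V x‖ * ‖u x + u' x‖ ^ 2 ≤ ‖V x‖ * (2 * ‖u x‖ ^ 2 + 2 * ‖u' x‖ ^ 2) :=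
            mul_le_mul_of_nonneg_left hle h0
        _ = _ := by ring
  refine ⟨hsq, fun i => G1 i + G2 i, fun i φ hφ => ?_, fun φ hφ => ?_⟩
  · have e1 : ∫ x, (u + u' : L2 d) x * pd i φ x =
        (∫ x, u x * pd i φ x) + ∫ x, u' x * pd i φ x := by
      rw [← integral_add (hamL_int u (hamL_pd_cont hφ i) (hamL_pd_cpt hφ i))
        (hamL_int u' (hamL_pd_cont hφ i) (hamL_pd_cpt hφ i))]
      refine integral_congr_ae ?_
      filter_upwards [hadd] with x hx
      rw [hx]; ring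
    have e2 : ∫ x, (G1 i + G2 i : L2 d) x * φ x =
        (∫ x, G1 i x * φ x) + ∫ x, G2 i x * φ x := by
      rw [← integral_add (hamL_int _ hφ.smooth.continuous hφ.cpt)
        (hamL_int _ hφ.smooth.continuous hφ.cpt)]
      refine integral_congr_ae ?_
      filter_upwards [Lp.coeFn_add (G1 i) (G2 i)] with x hx
      rw [hx, Pi.add_apply]; ring
    rw [e1, e2, hg1 i φ hφ, hg2 i φ hφ]; ring
  · have e1 : ∀ i, ∫ x, (G1 i + G2 i : L2 d) x * pd i φ x =
        (∫ x, G1 i x * pd i φ x) + ∫ x, G2 i x * pd i φ x := by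
      intro i
      rw [← integral_add (hamL_int _ (hamL_pd_cont hφ i) (hamL_pd_cpt hφ i))
        (hamL_int _ (hamL_pd_cont hφ i) (hamL_pd_cpt hφ i))]
      refine integral_congr_ae ?_
      filter_upwards [Lp.coeFn_add (G1 i) (G2 i)] with x hx
      rw [hx, Pi.add_apply]; ring
    have e2 : ∫ x, V x * (u + u' : L2 d) x * φ x =
        (∫ x, V x * u x * φ x) + ∫ x, V x * u' x * φ x := by
      rw [← integral_add (hamL_intV mV iV hI1 hφ) (hamL_intV mV iV hI2 hφ)]
      refine integral_congr_ae ?_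
      filter_upwards [hadd] with x hx
      rw [hx]; ring
    have e3 : ∫ x, (w + w' : L2 d) x * φ x = (∫ x, w x * φ x) + ∫ x, w' x * φ x := by
      rw [← integral_add (hamL_int _ hφ.smooth.continuous hφ.cpt)
        (hamL_int _ hφ.smooth.continuous hφ.cpt)]
      refine integral_congr_ae ?_
      filter_upwards [Lp.coeFn_add w w'] with x hx
      rw [hx, Pi.add_apply]; ring
    rw [Finset.sum_congr rfl (fun i _ => e1 i), Finset.sum_add_distrib, e2, e3, ← he1 φ hφ,
      ← he2 φ hφ]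
    ring

theorem ham_smul {d : ℕ} {V : Sp d → ℂ} (mV : Measurable V) (iV : LocallyIntegrable V) {h : ℝ}
    (c : ℂ) {u w : L2 d} (h1 : Ham V h u w) : Ham V h (c • u) (c • w) := by
  obtain ⟨hI1, G1, hg1, he1⟩ := h1
  have hsm : ∀ f : L2 d, ((c • f : L2 d) : Sp d → ℂ) =ᵐ[volume] fun x => c * f x := by
    intro f
    filter_upwards [Lp.coeFn_smul c f] with x hx
    simp [hx]
  have hint : ∀ (f : L2 d) (ψ : Sp d → ℂ), ∫ x, (c • f : L2 d) x * ψ x = c * ∫ x, f x * ψ x := by
    intro f ψ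
    rw [← integral_const_mul]
    refine integral_congr_ae ?_
    filter_upwards [hsm f] with x hx
    rw [hx]; ring
  have hsq : Integrable (fun x => ‖V x‖ * ‖(c • u : L2 d) x‖ ^ 2) := by
    refine (hI1.const_mul (‖c‖ ^ 2)).congr ?_
    filter_upwards [hsm u] with x hx
    rw [hx, norm_mul]; ring
  refine ⟨hsq, fun i => c • G1 i, fun i φ hφ => ?_, fun φ hφ => ?_⟩
  · rw [hint, hint, hg1 i φ hφ]; ring
  · have e2 : ∫ x, V x * (c • u : L2 d) x * φ x = c * ∫ x, V x * u x * φ x := by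
      rw [← integral_const_mul]
      refine integral_congr_ae ?_
      filter_upwards [hsm u] with x hx
      rw [hx]; ring
    rw [Finset.sum_congr rfl (fun i _ => hint (G1 i) (pd i φ)), ← Finset.mul_sum, e2, hint,
      ← he1 φ hφ]
    ring

theorem ham_zero {d : ℕ} {V : Sp d → ℂ} {h : ℝ} : Ham V h (0 : L2 d) 0 := by
  have h0 : ((0 : L2 d) : Sp d → ℂ) =ᵐ[volume] fun _ => 0 := Lp.coeFn_zero _ _ _
  have hint : ∀ ψ : Sp d → ℂ, ∫ x, (0 : L2 d) x * ψ x = 0 := by
    intro ψ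
    rw [integral_congr_ae (g := fun _ => 0)]
    · simp
    · filter_upwards [h0] with x hx
      rw [hx]; ring
  refine ⟨?_, fun _ => 0, fun i φ _ => ?_, fun φ _ => ?_⟩
  · refine (integrable_zero (Sp d) ℝ volume).congr ?_
    filter_upwards [h0] with x hx
    rw [hx]; simp
  · rw [hint, hint]; ring
  · have e2 : ∫ x, V x * (0 : L2 d) x * φ x = 0 := by
      rw [integral_congr_ae (g := fun _ => 0)]
      · simp
      · filter_upwards [h0] with x hx
        rw [hx]; ring
    rw [Finset.sum_congr rfl (fun i _ => hint (pd i φ)), e2, hint]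
    simp

end Pool.Agent.Lib.MP_c84763_mp.U
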