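import Pool.Agent.Lib.MP_c84763_mp.U.Blk

set_option autoImplicit false

namespace Pool.Agent.Lib.MP_c84763_mp.U

open MeasureTheory

private theorem memLp_comp {d : ℕ} (f : X d) (k : Idx d) :
    MemLp (fun x => (f x) k) 2 (volume : Measure (Sp d)) := by
  have h1 : MemLp (f : Sp d → Vec d) 2 volume := Lp.memLp f
  refine h1.mono ?_ (Filter.Eventually.of_forall fun x => ?_)
  · exact (EuclideanSpace.proj k : Vec d →L[ℂ] ℂ).continuous.comp_aestronglyMeasurable
      h1.aestronglyMeasurable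
  · exact PiLp.norm_apply_le (f x) k

/-- Products of components are integrable (`L²` times `L²`; the components are `L²` because
`‖(f x) k‖ ≤ ‖f x‖`). -/
theorem int_mul {d : ℕ} (f g : X d) (k l : Idx d) :
    Integrable (fun x => star ((f x) k) * (g x) l) :=
  (memLp_comp f k).star.integrable_mul (memLp_comp g l)

/-- All components are square integrable. -/
theorem int_comp {d : ℕ} (f : X d) (k : Idx d) : Integrable (fun x => ‖(f x) k‖ ^ 2) :=
  (memLp_comp f k).integrable_norm_pow (by norm_num)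

/-- Inner product of `X d` in components (`MeasureTheory.L2.inner_def`,
`EuclideanSpace.inner_eq_star_dotProduct` or `PiLp.inner_apply`, `Fintype.sum_option`). -/
theorem inner_X {d : ℕ} (f g : X d) :
    (inner ℂ f g : ℂ) = ∫ x, (star ((f x) none) * (g x) none +
      star ((f x) (some none)) * (g x) (some none) +
      ∑ i, star ((f x) (some (some i))) * (g x) (some (some i))) := by
  rw [MeasureTheory.L2.inner_def]
  refine integral_congr_ae (Filter.Eventually.of_forall fun x => ?_)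
  show (inner ℂ (f x) (g x) : ℂ) = _
  rw [PiLp.inner_apply, Fintype.sum_option, Fintype.sum_option, ← add_assoc]
  have h : ∀ a b : ℂ, (inner ℂ a b : ℂ) = star a * b := fun a b => by
    rw [RCLike.inner_apply, mul_comm]
    rfl
  simp only [h]

/-- Norm of `X d` in components. -/
theorem norm_sq_X {d : ℕ} (f : X d) :
    ‖f‖ ^ 2 = ∫ x, (‖(f x) none‖ ^ 2 + ‖(f x) (some none)‖ ^ 2 +
      ∑ i, ‖(f x) (some (some i))‖ ^ 2) := by
  have h1 := inner_X f f
  rw [inner_self_eq_norm_sq_to_K] at h1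
  have h2 : ∀ a : ℂ, star a * a = ((‖a‖ ^ 2 : ℝ) : ℂ) := fun a => by
    rw [Complex.ofReal_pow]
    exact Complex.conj_mul' a
  simp only [h2] at h1
  have h3 : (fun x => (((‖(f x) none‖ ^ 2 : ℝ) : ℂ) + ((‖(f x) (some none)‖ ^ 2 : ℝ) : ℂ) +
      ∑ i, ((‖(f x) (some (some i))‖ ^ 2 : ℝ) : ℂ))) = fun x =>
      ((‖(f x) none‖ ^ 2 + ‖(f x) (some none)‖ ^ 2 +
        ∑ i, ‖(f x) (some (some i))‖ ^ 2 : ℝ) : ℂ) := by
    funext x
    push_cast
    rfl
  rw [h3, integral_complex_ofReal] at h1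
  have h4 : ((‖f‖ ^ 2 : ℝ) : ℂ) = ((∫ x, (‖(f x) none‖ ^ 2 + ‖(f x) (some none)‖ ^ 2 +
      ∑ i, ‖(f x) (some (some i))‖ ^ 2) : ℝ) : ℂ) := by
    rw [← h1, Complex.ofReal_pow]
    rfl
  exact Complex.ofReal_injective h4

end Pool.Agent.Lib.MP_c84763_mp.U
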