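import Pool.Agent.Lib.MP_c84763_mp.U.Inner

set_option autoImplicit false

namespace Pool.Agent.Lib.MP_c84763_mp.U

open MeasureTheory

private theorem InnerJ_coe {d : ℕ} (f : X d) :
    (J f : Sp d → ℂ) =ᵐ[volume] fun x => (f x) none :=
  ContinuousLinearMap.coeFn_compLpL _ f

theorem inner_J {d : ℕ} (f g : X d) :
    (inner ℂ (J f) (J g) : ℂ) = ∫ x, star ((f x) none) * (g x) none := by
  rw [MeasureTheory.L2.inner_def]
  refine integral_congr_ae ?_
  filter_upwards [InnerJ_coe f, InnerJ_coe g] with x h1 h2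
  rw [h1, h2, RCLike.inner_apply]
  exact mul_comm _ _

theorem norm_sq_J {d : ℕ} (f : X d) : ‖J f‖ ^ 2 = ∫ x, ‖(f x) none‖ ^ 2 := by
  have h1 := inner_J f f
  rw [inner_self_eq_norm_sq_to_K] at h1
  have h2 : ∫ x, star ((f x) none) * (f x) none = ((∫ x, ‖(f x) none‖ ^ 2 : ℝ) : ℂ) := by
    rw [← integral_complex_ofReal]
    refine integral_congr_ae (Filter.Eventually.of_forall fun x => ?_)
    show star ((f x) none) * (f x) none = ((‖(f x) none‖ ^ 2 : ℝ) : ℂ)
    rw [mul_comm]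
    have := Complex.mul_conj ((f x) none)
    rw [Complex.normSq_eq_norm_sq] at this
    exact this
  rw [h2] at h1
  refine Complex.ofReal_injective ?_
  rw [← h1, Complex.ofReal_pow]
  rfl

theorem norm_J_le {d : ℕ} (f : X d) : ‖J f‖ ≤ ‖f‖ := by
  rw [← abs_of_nonneg (norm_nonneg (J f)), ← abs_of_nonneg (norm_nonneg f), ← sq_le_sq,
    norm_sq_J, norm_sq_X]
  refine integral_mono (int_comp f none) (((int_comp f none).add (int_comp f (some none))).add
    (integrable_finsetSum _ fun i _ => int_comp f (some (some i)))) fun x => ?_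
  show ‖(f x) none‖ ^ 2 ≤ ‖(f x) none‖ ^ 2 + ‖(f x) (some none)‖ ^ 2 +
    ∑ i, ‖(f x) (some (some i))‖ ^ 2
  have h1 : 0 ≤ ∑ i, ‖(f x) (some (some i))‖ ^ 2 := Finset.sum_nonneg fun i _ => by positivity
  have h2 : 0 ≤ ‖(f x) (some none)‖ ^ 2 := by positivity
  linarith

end Pool.Agent.Lib.MP_c84763_mp.U
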