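import Mathlib

set_option autoImplicit false

namespace Pool.Agent.Lib.MP_c84763_mp.U

/-- Lax-Milgram on a closed subspace, for a form that is coercive after rotation by `ζ`. -/
theorem inv_lax {X : Type*} [NormedAddCommGroup X] [InnerProductSpace ℂ X] [CompleteSpace X]
    (K : Submodule ℂ X) (hK : IsClosed (K : Set X)) (A : X →L[ℂ] X) (ζ : ℂ) {θ Z : ℝ}
    (hθ : 0 < θ) (hZ : ‖ζ‖ ≤ Z)
    (H : ∀ y ∈ K, θ * ‖y‖ ^ 2 ≤ (ζ * inner ℂ y (A y)).re) :
    ∃ R : X →L[ℂ] X, (∀ z, R z ∈ K) ∧ (∀ z, ‖R z‖ ≤ Z / θ * ‖z‖) ∧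
      ∀ z, ∀ φ ∈ K, (inner ℂ φ (A (R z)) : ℂ) = inner ℂ φ z := by
  have hZ0 : 0 ≤ Z := (norm_nonneg _).trans hZ
  by_cases hζ : ζ = 0
  · refine ⟨0, fun z => by simp, fun z => ?_, fun z φ hφ => ?_⟩
    · simp only [zero_apply, norm_zero]
      positivity
    · have h := H φ hφ
      rw [hζ, zero_mul, Complex.zero_re] at h
      have h1 : ‖φ‖ ^ 2 ≤ 0 := by
        by_contra hc
        push Not at hc
        have := mul_pos hθ hc
        linarith
      have h2 : φ = 0 := by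
        have : ‖φ‖ = 0 := by nlinarith [norm_nonneg φ]
        exact norm_eq_zero.mp this
      subst h2
      simp
  have : CompleteSpace K := hK.completeSpace_coe
  let P : X →L[ℂ] K := K.orthogonalProjectionOnto
  have hP : ∀ (z : X) (φ : K), (inner ℂ φ (P z) : ℂ) = inner ℂ (φ : X) z := by
    intro z φ
    exact Submodule.inner_orthogonalProjectionOnto_eq_of_mem_left φ z
  have hPn : ∀ z : X, ‖P z‖ ≤ ‖z‖ := by
    intro z
    exact K.norm_orthogonalProjectionOnto_apply_le z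
  let B : K →L[ℂ] K := P ∘L (ζ • A) ∘L K.subtypeL
  have hB : ∀ (x φ : K), (inner ℂ φ (B x) : ℂ) = ζ * inner ℂ (φ : X) (A (x : X)) := by
    intro x φ
    show (inner ℂ φ (P ((ζ • A) (x : X))) : ℂ) = _
    rw [hP]
    show (inner ℂ (φ : X) (ζ • A (x : X)) : ℂ) = _
    rw [inner_smul_right]
  have hlow2 : ∀ x : K, θ * ‖x‖ ^ 2 ≤ (inner ℂ x (B x) : ℂ).re := by
    intro x
    rw [hB x x]
    have := H (x : X) x.2
    simpa using this
  have hlow : ∀ x : K, θ * ‖x‖ ≤ ‖B x‖ := by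
    intro x
    by_cases hx : ‖x‖ = 0
    · rw [hx, mul_zero]; exact norm_nonneg _
    have hx' : 0 < ‖x‖ := lt_of_le_of_ne (norm_nonneg _) (Ne.symm hx)
    have h1 := hlow2 x
    have h2 : (inner ℂ x (B x) : ℂ).re ≤ ‖x‖ * ‖B x‖ :=
      (Complex.re_le_norm _).trans (norm_inner_le_norm x (B x))
    have h3 : (θ * ‖x‖) * ‖x‖ ≤ ‖B x‖ * ‖x‖ := by nlinarith
    exact le_of_mul_le_mul_right h3 hx'
  have hanti : AntilipschitzWith (Real.toNNReal θ⁻¹) B := by
    refine AddMonoidHomClass.antilipschitz_of_bound B (fun x => ?_)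
    rw [Real.coe_toNNReal _ (inv_nonneg.mpr hθ.le)]
    rw [inv_mul_eq_div, le_div_iff₀ hθ, mul_comm]
    exact hlow x
  have hcl : IsClosed (Set.range B) := hanti.isClosed_range B.uniformContinuous
  have hinj : LinearMap.ker (B : K →ₗ[ℂ] K) = ⊥ := by
    rw [LinearMap.ker_eq_bot]
    exact hanti.injective
  have hcomp : IsClosed ((LinearMap.range (B : K →ₗ[ℂ] K) : Submodule ℂ K) : Set K) := by
    rw [LinearMap.coe_range]
    exact hcl
  have : CompleteSpace (LinearMap.range (B : K →ₗ[ℂ] K)) := hcomp.completeSpace_coe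
  have hran : LinearMap.range (B : K →ₗ[ℂ] K) = ⊤ := by
    rw [← Submodule.orthogonal_eq_bot_iff]
    rw [Submodule.eq_bot_iff]
    intro φ hφ
    rw [Submodule.mem_orthogonal'] at hφ
    have h1 : (inner ℂ φ (B φ) : ℂ) = 0 := hφ (B φ) ⟨φ, rfl⟩
    have h2 := hlow2 φ
    rw [h1, Complex.zero_re] at h2
    have h3 : ‖φ‖ ^ 2 ≤ 0 := by
      by_contra hc
      push Not at hc
      have := mul_pos hθ hc
      linarith
    have : ‖φ‖ = 0 := by nlinarith [norm_nonneg φ]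
    exact norm_eq_zero.mp this
  let E : K ≃L[ℂ] K := ContinuousLinearEquiv.ofBijective B hinj hran
  have hE : ∀ w : K, B (E.symm w) = w := fun w =>
    ContinuousLinearEquiv.ofBijective_apply_symm_apply B hinj hran w
  let R : X →L[ℂ] X := K.subtypeL ∘L (E.symm : K →L[ℂ] K) ∘L (ζ • P)
  have hR : ∀ z : X, R z = ((E.symm (ζ • P z) : K) : X) := fun z => rfl
  refine ⟨R, fun z => ?_, fun z => ?_, fun z φ hφ => ?_⟩
  · rw [hR]; exact (E.symm (ζ • P z)).2
  · rw [hR]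
    have h1 := hlow (E.symm (ζ • P z))
    rw [hE] at h1
    have h2 : ‖ζ • P z‖ ≤ Z * ‖z‖ := by
      rw [norm_smul]
      exact mul_le_mul hZ (hPn z) (norm_nonneg _) hZ0
    have h3 : θ * ‖(E.symm (ζ • P z) : K)‖ ≤ Z * ‖z‖ := h1.trans h2
    rw [div_mul_eq_mul_div, le_div_iff₀ hθ, mul_comm]
    exact h3
  · rw [hR]
    have h1 := hB (E.symm (ζ • P z)) ⟨φ, hφ⟩
    rw [hE, inner_smul_right, hP] at h1
    exact (mul_left_cancel₀ hζ h1).symm

end Pool.Agent.Lib.MP_c84763_mp.U
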