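import Pool.Agent.Lib.MP_c84763_mp.U.Defs

set_option autoImplicit false

namespace Pool.Agent.Lib.MP_c84763_mp.U

open MeasureTheory
open scoped ContDiff ENNReal

/-- The grid cell `{x | ∀ i, k_i ≤ m x_i < k_i + 1}` of side `1/m`. -/
def cell {d : ℕ} (m : ℕ) (k : Fin d → ℤ) : Set (Sp d) :=
  {x | ∀ i, (k i : ℝ) ≤ m * x i ∧ (m : ℝ) * x i < k i + 1}

/-- The cells that meet a cube: at most `(2 l m + 2)^d`. -/
theorem cells_cover {d : ℕ} (c : Sp d) {l : ℝ} (hl : 0 < l) {m : ℕ} (hm : 1 ≤ m) :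
    ∃ s : Finset (Fin d → ℤ), (s.card : ℝ) ≤ ((2 * l + 2) * m) ^ d ∧
      ∀ x ∈ Metric.ball c l, ∃ k ∈ s, x ∈ cell m k := by
  classical
  have hm1 : (1 : ℝ) ≤ m := by exact_mod_cast hm
  refine ⟨Fintype.piFinset fun i => Finset.Icc ⌊(m : ℝ) * (c i - l)⌋ ⌊(m : ℝ) * (c i + l)⌋, ?_, ?_⟩
  · rw [Fintype.card_piFinset]
    push_cast
    calc ∏ i : Fin d, ((Finset.Icc ⌊(m : ℝ) * (c i - l)⌋ ⌊(m : ℝ) * (c i + l)⌋).card : ℝ)
        ≤ ∏ _i : Fin d, ((2 * l + 2) * m) := by
          refine Finset.prod_le_prod (fun i _ => Nat.cast_nonneg _) fun i _ => ?_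
          rw [Int.card_Icc]
          have h1 : (⌊(m : ℝ) * (c i + l)⌋ : ℝ) ≤ (m : ℝ) * (c i + l) := Int.floor_le _
          have h2 : (m : ℝ) * (c i - l) - 1 < (⌊(m : ℝ) * (c i - l)⌋ : ℝ) := Int.sub_one_lt_floor _
          have h3 : ⌊(m : ℝ) * (c i - l)⌋ ≤ ⌊(m : ℝ) * (c i + l)⌋ := by
            refine Int.floor_le_floor ?_
            gcongr
            linarith
          have h4 : (((⌊(m : ℝ) * (c i + l)⌋ + 1 - ⌊(m : ℝ) * (c i - l)⌋).toNat : ℕ) : ℝ) =
              ((⌊(m : ℝ) * (c i + l)⌋ + 1 - ⌊(m : ℝ) * (c i - l)⌋ : ℤ) : ℝ) := by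
            have : (((⌊(m : ℝ) * (c i + l)⌋ + 1 - ⌊(m : ℝ) * (c i - l)⌋).toNat : ℕ) : ℤ) =
                ⌊(m : ℝ) * (c i + l)⌋ + 1 - ⌊(m : ℝ) * (c i - l)⌋ := Int.toNat_of_nonneg (by omega)
            exact_mod_cast congrArg (fun z : ℤ => (z : ℝ)) this
          rw [h4]
          push_cast
          nlinarith
      _ = _ := by rw [Finset.prod_const, Finset.card_univ, Fintype.card_fin]
  · intro x hx
    refine ⟨fun i => ⌊(m : ℝ) * x i⌋, ?_, fun i => ⟨Int.floor_le _, Int.lt_floor_add_one _⟩⟩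
    rw [Fintype.mem_piFinset]
    intro i
    rw [Finset.mem_Icc]
    have h1 : |x i - c i| < l := by
      have := (dist_pi_lt_iff hl).1 (Metric.mem_ball.1 hx) i
      rwa [Real.dist_eq] at this
    rw [abs_lt] at h1
    constructor
    · refine Int.floor_le_floor ?_
      gcongr
      linarith
    · refine Int.floor_le_floor ?_
      gcongr
      linarith

private theorem pcB_cell_eq {d : ℕ} {m : ℕ} (hm : 1 ≤ m) (k : Fin d → ℤ) :
    cell m k = Set.pi Set.univ fun i => Set.Ico ((k i : ℝ) / m) (((k i : ℝ) + 1) / m) := by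
  have hm0 : (0 : ℝ) < m := by exact_mod_cast hm
  ext x
  simp only [cell, Set.mem_setOf_eq, Set.mem_pi, Set.mem_univ, true_implies, Set.mem_Ico]
  refine forall_congr' fun i => ?_
  rw [div_le_iff₀ hm0, lt_div_iff₀ hm0, mul_comm (x i)]

private theorem pcB_cell_meas {d : ℕ} {m : ℕ} (hm : 1 ≤ m) (k : Fin d → ℤ) :
    MeasurableSet (cell m k : Set (Sp d)) := by
  rw [pcB_cell_eq hm]
  exact MeasurableSet.univ_pi fun i => measurableSet_Ico

private theorem pcB_cell_vol {d : ℕ} {m : ℕ} (hm : 1 ≤ m) (k : Fin d → ℤ) :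
    volume (cell m k : Set (Sp d)) = ENNReal.ofReal (((m : ℝ) ^ d)⁻¹) := by
  have hm0 : (0 : ℝ) < m := by exact_mod_cast hm
  rw [pcB_cell_eq hm, Real.volume_pi_Ico]
  have h1 : ∀ i : Fin d, ((k i : ℝ) + 1) / m - (k i : ℝ) / m = (m : ℝ)⁻¹ := by
    intro i
    field_simp
    ring
  simp only [h1]
  rw [Finset.prod_const, Finset.card_univ, Fintype.card_fin, ← ENNReal.ofReal_pow (by positivity),
    inv_pow]

private theorem pcB_cell_disj {d : ℕ} {m : ℕ} {k k' : Fin d → ℤ} {x : Sp d}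
    (h : x ∈ cell m k) (h' : x ∈ cell m k') : k = k' := by
  funext i
  have h1 := h i
  have h2 := h' i
  have h3 : (k i : ℝ) < k' i + 1 := h1.1.trans_lt h2.2
  have h4 : (k' i : ℝ) < k i + 1 := h2.1.trans_lt h1.2
  have h5 : k i < k' i + 1 := by exact_mod_cast h3
  have h6 : k' i < k i + 1 := by exact_mod_cast h4
  omega

private theorem pcB_cell_sub {d : ℕ} {m : ℕ} (hm : 1 ≤ m) {k : Fin d → ℤ} {x z : Sp d}
    (h : x ∈ cell m k) (h' : x + z ∈ cell m k) : z ∈ Metric.closedBall (0 : Sp d) (1 / m) := by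
  have hm0 : (0 : ℝ) < m := by exact_mod_cast hm
  rw [mem_closedBall_zero_iff, pi_norm_le_iff_of_nonneg (by positivity)]
  intro i
  have h1 := h i
  have h2 := h' i
  rw [Pi.add_apply, mul_add] at h2
  have h3 : |(m : ℝ) * z i| ≤ 1 := by
    rw [abs_le]
    constructor <;> linarith [h1.1, h1.2, h2.1, h2.2]
  rw [abs_mul, abs_of_pos hm0] at h3
  rw [Real.norm_eq_abs, le_div_iff₀ hm0]
  linarith

/-- Jensen on a set of finite positive volume. -/
private theorem pcB_jensen {d : ℕ} {Q : Set (Sp d)} {v : ℝ} (hv : 0 < v)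
    (hvol : volume Q = ENNReal.ofReal v⁻¹) {φ : Sp d → ℂ} (h1 : IntegrableOn φ Q)
    (h2 : IntegrableOn (fun y => ‖φ y‖ ^ 2) Q) :
    ‖(v : ℂ) * ∫ y in Q, φ y‖ ^ 2 ≤ v * ∫ y in Q, ‖φ y‖ ^ 2 := by
  have hvr : volume.real Q = v⁻¹ := by
    rw [Measure.real, hvol, ENNReal.toReal_ofReal (by positivity)]
  haveI : IsFiniteMeasure (volume.restrict Q) := ⟨by
    rw [Measure.restrict_apply_univ, hvol]
    exact ENNReal.ofReal_lt_top⟩
  set I : ℝ := ∫ y in Q, ‖φ y‖ with hI
  have hI0 : 0 ≤ I := integral_nonneg fun _ => norm_nonneg _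
  have h3 : ‖∫ y in Q, φ y‖ ≤ I := norm_integral_le_integral_norm _
  have h4 : 0 ≤ ∫ y in Q, (‖φ y‖ - v * I) ^ 2 := integral_nonneg fun _ => sq_nonneg _
  have h5 : ∫ y in Q, (‖φ y‖ - v * I) ^ 2 = (∫ y in Q, ‖φ y‖ ^ 2) - v * I ^ 2 := by
    have e1 : ∀ y, (‖φ y‖ - v * I) ^ 2 = ‖φ y‖ ^ 2 - 2 * (v * I) * ‖φ y‖ + (v * I) ^ 2 := by
      intro y; ring
    simp only [e1]
    have i2 : Integrable (fun y => 2 * (v * I) * ‖φ y‖) (volume.restrict Q) :=
      h1.norm.const_mul _
    have i1 : Integrable (fun y => ‖φ y‖ ^ 2 - 2 * (v * I) * ‖φ y‖) (volume.restrict Q) :=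
      h2.sub i2
    rw [integral_add i1 (integrable_const _), integral_sub h2 i2, integral_const_mul,
      integral_const, ← hI, Measure.real, Measure.restrict_apply_univ, ← Measure.real, hvr,
      smul_eq_mul]
    field_simp
    ring
  rw [h5] at h4
  rw [norm_mul, mul_pow, Complex.norm_real, Real.norm_of_nonneg hv.le]
  calc v ^ 2 * ‖∫ y in Q, φ y‖ ^ 2 ≤ v ^ 2 * I ^ 2 := by gcongr
    _ = v * (v * I ^ 2) := by ring
    _ ≤ v * ∫ y in Q, ‖φ y‖ ^ 2 := by
        refine mul_le_mul_of_nonneg_left ?_ hv.le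
        linarith

private theorem pcB_intOn {d : ℕ} {m : ℕ} (hm : 1 ≤ m) (k : Fin d → ℤ) {E : Type}
    [NormedAddCommGroup E] {g : Sp d → E} (hg : Continuous g) : IntegrableOn g (cell m k) := by
  have h1 : (cell m k : Set (Sp d)) ⊆
      Set.pi Set.univ fun i => Set.Icc ((k i : ℝ) / m) (((k i : ℝ) + 1) / m) := by
    rw [pcB_cell_eq hm]
    exact Set.pi_mono fun i _ => Set.Ico_subset_Icc_self
  exact (hg.continuousOn.integrableOn_compact (isCompact_univ_pi fun i => isCompact_Icc)).mono_set h1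

private theorem pcB_point {d : ℕ} {m : ℕ} (hm : 1 ≤ m) {k : Fin d → ℤ} {f : Sp d → ℂ}
    (hf : Continuous f) {x : Sp d} (hx : x ∈ cell m k) :
    ‖f x - (m : ℂ) ^ d * ∫ y in cell m k, f y‖ ^ 2 ≤
      (m : ℝ) ^ d * ∫ z in Metric.closedBall (0 : Sp d) (1 / m), ‖f (x + z) - f x‖ ^ 2 := by
  have hm0 : (0 : ℝ) < m := by exact_mod_cast hm
  have hv : (0 : ℝ) < (m : ℝ) ^ d := by positivity
  have hvr : volume.real (cell m k : Set (Sp d)) = ((m : ℝ) ^ d)⁻¹ := by
    rw [Measure.real, pcB_cell_vol hm, ENNReal.toReal_ofReal (by positivity)]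
  have hφ : Continuous fun y => f x - f y := continuous_const.sub hf
  have h1 := pcB_jensen hv (pcB_cell_vol hm k) (pcB_intOn hm k hφ)
    (pcB_intOn hm k (hφ.norm.pow 2))
  have h2 : f x - (m : ℂ) ^ d * ∫ y in cell m k, f y =
      (((m : ℝ) ^ d : ℝ) : ℂ) * ∫ y in cell m k, (f x - f y) := by
    haveI : IsFiniteMeasure (volume.restrict (cell m k : Set (Sp d))) := ⟨by
      rw [Measure.restrict_apply_univ, pcB_cell_vol hm]
      exact ENNReal.ofReal_lt_top⟩
    rw [integral_sub (integrable_const _) (pcB_intOn hm k hf), integral_const, Measure.real,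
      Measure.restrict_apply_univ, ← Measure.real, hvr, mul_sub, Complex.real_smul]
    push_cast
    rw [← mul_assoc, mul_inv_cancel₀ (by exact_mod_cast hv.ne'), one_mul]
  rw [h2]
  refine h1.trans (mul_le_mul_of_nonneg_left ?_ hv.le)
  -- change of variables
  have h3 : ∫ y in cell m k, ‖f x - f y‖ ^ 2 =
      ∫ z, (cell m k).indicator (fun y => ‖f x - f y‖ ^ 2) (x + z) := by
    rw [integral_add_left_eq_self (fun y => (cell m k).indicator (fun y => ‖f x - f y‖ ^ 2) y) x,
      integral_indicator (pcB_cell_meas hm k)]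
  rw [h3, ← integral_indicator Metric.isClosed_closedBall.measurableSet]
  refine integral_mono_of_nonneg (Filter.Eventually.of_forall fun z => ?_) ?_
    (Filter.Eventually.of_forall fun z => ?_)
  · exact Set.indicator_nonneg (fun y _ => by positivity) _
  · rw [integrable_indicator_iff Metric.isClosed_closedBall.measurableSet]
    refine ContinuousOn.integrableOn_compact (isCompact_closedBall _ _) ?_
    exact (((hf.comp (continuous_const.add continuous_id)).sub continuous_const).norm.pow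
      2).continuousOn
  · show (cell m k).indicator (fun y => ‖f x - f y‖ ^ 2) (x + z) ≤
      (Metric.closedBall (0 : Sp d) (1 / m)).indicator (fun z => ‖f (x + z) - f x‖ ^ 2) z
    by_cases h4 : x + z ∈ cell m k
    · rw [Set.indicator_of_mem h4, Set.indicator_of_mem (pcB_cell_sub hm hx h4), norm_sub_rev]
    · rw [Set.indicator_of_notMem h4]
      exact Set.indicator_nonneg (fun y _ => by positivity) _

private theorem pcB_prod {d : ℕ} {f : Sp d → ℂ} (hf : Continuous f) (hc : HasCompactSupport f)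
    (ρ : ℝ) : Integrable (Function.uncurry fun (z x : Sp d) => ‖f (x + z) - f x‖ ^ 2)
      ((volume.restrict (Metric.closedBall (0 : Sp d) ρ)).prod volume) := by
  set B := Metric.closedBall (0 : Sp d) ρ with hB
  have hBc : IsCompact B := isCompact_closedBall _ _
  have hcont : Continuous (Function.uncurry fun (z x : Sp d) => ‖f (x + z) - f x‖ ^ 2) := by
    have h1 : Continuous fun p : Sp d × Sp d => f (p.2 + p.1) :=
      hf.comp (continuous_snd.add continuous_fst)
    exact ((h1.sub (hf.comp continuous_snd)).norm.pow 2)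
  let K' : Set (Sp d) := tsupport f ∪ (fun p : Sp d × Sp d => p.1 - p.2) '' (tsupport f ×ˢ B)
  have hK' : IsCompact K' := by
    refine IsCompact.union hc ?_
    exact (IsCompact.prod hc hBc).image (continuous_fst.sub continuous_snd)
  have h1 : IntegrableOn (Function.uncurry fun (z x : Sp d) => ‖f (x + z) - f x‖ ^ 2) (B ×ˢ K')
      ((volume : Measure (Sp d)).prod volume) :=
    hcont.continuousOn.integrableOn_compact (hBc.prod hK')
  have h2 : IntegrableOn (Function.uncurry fun (z x : Sp d) => ‖f (x + z) - f x‖ ^ 2)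
      (B ×ˢ Set.univ) ((volume : Measure (Sp d)).prod volume) := by
    refine IntegrableOn.of_forall_diff_eq_zero h1
      (Metric.isClosed_closedBall.measurableSet.prod MeasurableSet.univ) ?_
    rintro ⟨z, x⟩ ⟨⟨hz, _⟩, hx⟩
    have hxK : x ∉ K' := fun h => hx ⟨hz, h⟩
    have e1 : f x = 0 := by
      refine image_eq_zero_of_notMem_tsupport fun h => hxK (Or.inl h)
    have e2 : f (x + z) = 0 := by
      refine image_eq_zero_of_notMem_tsupport fun h => hxK (Or.inr ?_)
      exact ⟨(x + z, z), ⟨h, hz⟩, by simp⟩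
    simp [Function.uncurry, e1, e2]
  have h3 : (volume.restrict B).prod (volume : Measure (Sp d)) =
      ((volume : Measure (Sp d)).prod volume).restrict (B ×ˢ Set.univ) := by
    conv_lhs => rw [← Measure.restrict_univ (μ := (volume : Measure (Sp d)))]
    rw [Measure.restrict_univ, ← Measure.prod_restrict, Measure.restrict_univ]
  rw [h3]
  exact h2

private theorem pcB_norm_sq {d : ℕ} (w : L2 d) : ‖w‖ ^ 2 = ∫ x, ‖w x‖ ^ 2 := by
  have h1 : (inner ℂ w w : ℂ) = ∫ x, (inner ℂ (w x) (w x) : ℂ) := L2.inner_def w w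
  rw [inner_self_eq_norm_sq_to_K] at h1
  have h2 : ∀ x, (inner ℂ (w x) (w x) : ℂ) = ((‖w x‖ ^ 2 : ℝ) : ℂ) := by
    intro x
    rw [inner_self_eq_norm_sq_to_K]
    push_cast
    rfl
  simp only [h2] at h1
  rw [integral_complex_ofReal] at h1
  have h3 : ((‖w‖ ^ 2 : ℝ) : ℂ) = ((∫ x, ‖w x‖ ^ 2 : ℝ) : ℂ) := by
    rw [← h1]
    push_cast
    rfl
  exact_mod_cast h3

/-- Averaging over finitely many cells: a bounded operator of rank `≤ s.card` whose error is
controlled by translations.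
Proof sketch: `A g = ∑_{k ∈ s} m^d (∫_{Q_k} g) 1_{Q_k}`, `Q_k` disjoint cells of volume `m^{-d}`. For
`f` vanishing off `⋃_{k ∈ s} Q_k`, on each cell
`∫_Q ‖f - f_Q‖² ≤ m^d ∫_Q ∫_Q ‖f y - f x‖² dy dx ≤ m^d ∫_{‖z‖ ≤ 1/m} ∫_{x ∈ Q} ‖f (x+z) - f x‖²`
(Cauchy-Schwarz, substitution `y = x + z`); sum over the cells. -/
theorem cell_avg {d : ℕ} {m : ℕ} (hm : 1 ≤ m) (s : Finset (Fin d → ℤ)) :
    ∃ A : L2 d →L[ℂ] L2 d, Module.Finite ℂ (LinearMap.range (A : L2 d →ₗ[ℂ] L2 d)) ∧
      Module.finrank ℂ (LinearMap.range (A : L2 d →ₗ[ℂ] L2 d)) ≤ s.card ∧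
      ∀ (u : L2 d) (f : Sp d → ℂ), IsTest f → (u : Sp d → ℂ) =ᵐ[volume] f →
        (∀ x, f x ≠ 0 → ∃ k ∈ s, x ∈ cell m k) →
        ‖u - A u‖ ^ 2 ≤ m ^ d * ∫ z in Metric.closedBall (0 : Sp d) (1 / m),
          ∫ x, ‖f (x + z) - f x‖ ^ 2 := by
  classical
  have hfin : ∀ k : Fin d → ℤ, volume (cell m k : Set (Sp d)) ≠ ⊤ := fun k => by
    rw [pcB_cell_vol hm]
    exact ENNReal.ofReal_ne_top
  let χ : (Fin d → ℤ) → L2 d := fun k =>
    indicatorConstLp 2 (pcB_cell_meas hm k) (hfin k) (1 : ℂ)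
  let A : L2 d →L[ℂ] L2 d := ∑ k ∈ s, ((m : ℂ) ^ d) • ((innerSL ℂ (χ k)).smulRight (χ k))
  have hA : ∀ u, A u = ∑ k ∈ s, ((m : ℂ) ^ d * inner ℂ (χ k) u) • χ k := by
    intro u
    simp only [A, ContinuousLinearMap.sum_apply, ContinuousLinearMap.smul_apply,
      ContinuousLinearMap.smulRight_apply, innerSL_apply_apply, smul_smul]
  have hle : LinearMap.range (A : L2 d →ₗ[ℂ] L2 d) ≤
      Submodule.span ℂ ((s.image χ : Finset (L2 d)) : Set (L2 d)) := by
    rintro _ ⟨u, rfl⟩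
    show A u ∈ _
    rw [hA]
    refine Submodule.sum_mem _ fun k hk => Submodule.smul_mem _ _ (Submodule.subset_span ?_)
    exact Finset.mem_coe.2 (Finset.mem_image_of_mem χ hk)
  haveI hfd : Module.Finite ℂ (Submodule.span ℂ ((s.image χ : Finset (L2 d)) : Set (L2 d))) :=
    Module.Finite.span_of_finite ℂ (Finset.finite_toSet _)
  have hfr := Submodule.finiteDimensional_of_le hle
  refine ⟨A, hfr, ?_, ?_⟩
  · calc Module.finrank ℂ (LinearMap.range (A : L2 d →ₗ[ℂ] L2 d))
        ≤ Module.finrank ℂ (Submodule.span ℂ ((s.image χ : Finset (L2 d)) : Set (L2 d))) :=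
          Submodule.finrank_mono hle
      _ ≤ (s.image χ).card := finrank_span_finset_le_card _
      _ ≤ s.card := Finset.card_image_le
  · intro u f hf hu hsupp
    have hfc : Continuous f := hf.smooth.continuous
    let c : (Fin d → ℤ) → ℂ := fun k => (m : ℂ) ^ d * ∫ y in cell m k, f y
    have hc : ∀ k, (m : ℂ) ^ d * inner ℂ (χ k) u = c k := by
      intro k
      have h1 : (inner ℂ (χ k) u : ℂ) = ∫ y in cell m k, u y :=
        L2.inner_indicatorConstLp_one (pcB_cell_meas hm k) (hfin k) u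
      rw [h1]
      show _ = (m : ℂ) ^ d * ∫ y in cell m k, f y
      congr 1
      exact integral_congr_ae (ae_restrict_of_ae hu)
    have hcoe : ∀ t : Finset (Fin d → ℤ), ((∑ k ∈ t, c k • χ k : L2 d) : Sp d → ℂ) =ᵐ[volume]
        fun x => ∑ k ∈ t, (cell m k).indicator (fun _ => c k) x := by
      intro t
      induction t using Finset.induction_on with
      | empty =>
        simp only [Finset.sum_empty]
        exact Lp.coeFn_zero _ _ _
      | insert a t ha ih =>
        rw [Finset.sum_insert ha]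
        filter_upwards [Lp.coeFn_add (c a • χ a) (∑ k ∈ t, c k • χ k), ih,
          Lp.coeFn_smul (c a) (χ a), indicatorConstLp_coeFn (p := 2) (hs := pcB_cell_meas hm a)
            (hμs := hfin a) (c := (1 : ℂ))] with x h1 h2 h3 h4
        rw [h1, Pi.add_apply, h2, h3, Pi.smul_apply, Finset.sum_insert ha]
        congr 1
        have h5 : (χ a : Sp d → ℂ) x = (cell m a).indicator (fun _ => (1 : ℂ)) x := h4
        rw [h5]
        by_cases h6 : x ∈ cell m a
        · rw [Set.indicator_of_mem h6, Set.indicator_of_mem h6, smul_eq_mul, mul_one]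
        · rw [Set.indicator_of_notMem h6, Set.indicator_of_notMem h6, smul_zero]
    have hAu : A u = ∑ k ∈ s, c k • χ k := by
      rw [hA]
      exact Finset.sum_congr rfl fun k _ => by rw [hc]
    set B := Metric.closedBall (0 : Sp d) (1 / m) with hB
    have hprod := pcB_prod hfc hf.cpt (1 / m)
    have hswap : ∫ z in B, ∫ x, ‖f (x + z) - f x‖ ^ 2 =
        ∫ x, ∫ z in B, ‖f (x + z) - f x‖ ^ 2 := integral_integral_swap hprod
    have hHint : Integrable (fun x => ∫ z in B, ‖f (x + z) - f x‖ ^ 2) :=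
      hprod.integral_prod_right
    have hpt : ∀ x, ‖f x - ∑ k ∈ s, (cell m k).indicator (fun _ => c k) x‖ ^ 2 ≤
        (m : ℝ) ^ d * ∫ z in B, ‖f (x + z) - f x‖ ^ 2 := by
      intro x
      by_cases h1 : ∃ k ∈ s, x ∈ cell m k
      · obtain ⟨k, hk, hxk⟩ := h1
        have h2 : ∑ k ∈ s, (cell m k).indicator (fun _ => c k) x = c k := by
          rw [Finset.sum_eq_single_of_mem k hk fun k' _ hne => ?_, Set.indicator_of_mem hxk]
          refine Set.indicator_of_notMem (fun h => hne ?_) _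
          exact pcB_cell_disj h hxk
        rw [h2]
        exact pcB_point hm hfc hxk
      · have h2 : f x = 0 := by
          by_contra h3
          exact h1 (hsupp x h3)
        have h3 : ∑ k ∈ s, (cell m k).indicator (fun _ => c k) x = 0 := by
          refine Finset.sum_eq_zero fun k hk => Set.indicator_of_notMem (fun h => h1 ⟨k, hk, h⟩) _
        rw [h2, h3, sub_zero, norm_zero, zero_pow two_ne_zero]
        refine mul_nonneg (by positivity) (integral_nonneg fun _ => by positivity)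
    rw [hswap, pcB_norm_sq, ← integral_const_mul]
    have hae : (fun x => ‖(u - A u : L2 d) x‖ ^ 2) =ᵐ[volume]
        fun x => ‖f x - ∑ k ∈ s, (cell m k).indicator (fun _ => c k) x‖ ^ 2 := by
      filter_upwards [Lp.coeFn_sub u (A u), hu, hcoe s] with x h1 h2 h3
      rw [h1, Pi.sub_apply, h2, hAu, h3]
    rw [integral_congr_ae hae]
    exact integral_mono_of_nonneg (Filter.Eventually.of_forall fun x => by positivity)
      (hHint.const_mul _) (Filter.Eventually.of_forall hpt)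

end Pool.Agent.Lib.MP_c84763_mp.U
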