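import Pool.Agent.Lib.MP_c84763_mp.U.PcA
import Pool.Agent.Lib.MP_c84763_mp.U.PcB
import Pool.Agent.Lib.MP_c84763_mp.U.InnerJ

set_option autoImplicit false

namespace Pool.Agent.Lib.MP_c84763_mp.U

open MeasureTheory
open scoped ContDiff ENNReal

/-- `x` is the jet of a test function supported in `U`. -/
private def PcC_isJet {d : ℕ} (h : ℝ) (q : Sp d → ℝ) (U : Set (Sp d)) (x : X d) : Prop :=
  ∃ f : Sp d → ℂ, IsTest f ∧ tsupport f ⊆ U ∧ (x : Sp d → Vec d) =ᵐ[volume] jet h q f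

private theorem PcC_diff {d : ℕ} {f : Sp d → ℂ} (hf : IsTest f) : Differentiable ℝ f :=
  hf.smooth.differentiable (by simp)

private theorem PcC_zero {d : ℕ} (h : ℝ) (q : Sp d → ℝ) (U : Set (Sp d)) :
    PcC_isJet h q U (0 : X d) := by
  refine ⟨fun _ => 0, ⟨contDiff_const, HasCompactSupport.zero⟩, ?_, ?_⟩
  · have : tsupport (fun _ : Sp d => (0 : ℂ)) = ∅ := tsupport_eq_empty_iff.2 rfl
    rw [this]
    exact Set.empty_subset _
  · refine (Lp.coeFn_zero (Vec d) 2 volume).trans (Filter.Eventually.of_forall fun x => ?_)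
    show (0 : Vec d) = jet h q (fun _ => 0) x
    ext k
    rcases k with _ | k
    · simp [jet, vec]
    · rcases k with _ | i
      · simp [jet, vec]
      · simp [jet, vec, pd]

private theorem PcC_add {d : ℕ} {h : ℝ} {q : Sp d → ℝ} {U : Set (Sp d)} {x y : X d}
    (hx : PcC_isJet h q U x) (hy : PcC_isJet h q U y) : PcC_isJet h q U (x + y) := by
  obtain ⟨f, hf, hfU, hxf⟩ := hx
  obtain ⟨g, hg, hgU, hyg⟩ := hy
  refine ⟨fun z => f z + g z, ⟨hf.smooth.add hg.smooth, hf.cpt.add hg.cpt⟩, ?_, ?_⟩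
  · exact (tsupport_add f g).trans (Set.union_subset hfU hgU)
  · filter_upwards [Lp.coeFn_add x y, hxf, hyg] with z h1 h2 h3
    rw [h1, Pi.add_apply, h2, h3]
    have hpd : ∀ i, pd i (fun z => f z + g z) z = pd i f z + pd i g z := by
      intro i
      have := fderiv_fun_add (PcC_diff hf z) (PcC_diff hg z)
      simp only [pd]
      rw [this]
      rfl
    ext k
    rcases k with _ | k
    · simp [jet, vec]
    · rcases k with _ | i
      · simp [jet, vec, mul_add]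
      · simp [jet, vec, hpd, mul_add]

private theorem PcC_smul {d : ℕ} {h : ℝ} {q : Sp d → ℝ} {U : Set (Sp d)} {x : X d} (c : ℂ)
    (hx : PcC_isJet h q U x) : PcC_isJet h q U (c • x) := by
  obtain ⟨f, hf, hfU, hxf⟩ := hx
  refine ⟨fun z => c * f z, ⟨contDiff_const.mul hf.smooth, hf.cpt.mul_left⟩, ?_, ?_⟩
  · exact (tsupport_mul_subset_right).trans hfU
  · filter_upwards [Lp.coeFn_smul c x, hxf] with z h1 h2
    rw [h1, Pi.smul_apply, h2]
    have hpd : ∀ i, pd i (fun z => c * f z) z = c * pd i f z := by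
      intro i
      have := fderiv_const_mul (PcC_diff hf z) c
      simp only [pd]
      rw [this]
      rfl
    ext k
    rcases k with _ | k
    · simp [jet, vec]
    · rcases k with _ | i
      · simp [jet, vec]
        ring
      · simp [jet, vec, hpd]
        ring

private theorem PcC_span {d : ℕ} {h : ℝ} {q : Sp d → ℝ} {U : Set (Sp d)} {x : X d}
    (hx : x ∈ Submodule.span ℂ {x : X d | ∃ f : Sp d → ℂ, IsTest f ∧ tsupport f ⊆ U ∧
      (x : Sp d → Vec d) =ᵐ[volume] jet h q f}) : PcC_isJet h q U x := by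
  induction hx using Submodule.span_induction with
  | mem x hx => exact hx
  | zero => exact PcC_zero h q U
  | add x y _ _ hx hy => exact PcC_add hx hy
  | smul c x _ hx => exact PcC_smul c hx

private theorem PcC_grad {d : ℕ} {h : ℝ} {q : Sp d → ℝ} {f : Sp d → ℂ} {x : X d}
    (hxf : (x : Sp d → Vec d) =ᵐ[volume] jet h q f) :
    h ^ 2 * ∑ i, ∫ y, ‖pd i f y‖ ^ 2 ≤ ‖x‖ ^ 2 := by
  have hint := int_comp x
  have h2 : ∀ i, ∫ y, ‖(x y) (some (some i))‖ ^ 2 = h ^ 2 * ∫ y, ‖pd i f y‖ ^ 2 := by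
    intro i
    rw [← integral_const_mul]
    refine integral_congr_ae ?_
    filter_upwards [hxf] with y hy
    rw [hy]
    show ‖(h : ℂ) * pd i f y‖ ^ 2 = _
    rw [norm_mul, mul_pow, Complex.norm_real, Real.norm_eq_abs, sq_abs]
  rw [norm_sq_X, Finset.mul_sum]
  simp only [← h2]
  rw [← integral_finsetSum _ fun i _ => hint (some (some i))]
  refine integral_mono (integrable_finsetSum _ fun i _ => hint (some (some i)))
    (((hint none).add (hint (some none))).add
      (integrable_finsetSum _ fun i _ => hint (some (some i)))) fun y => ?_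
  have h3 : 0 ≤ ‖(x y) none‖ ^ 2 := sq_nonneg _
  have h4 : 0 ≤ ‖(x y) (some none)‖ ^ 2 := sq_nonneg _
  simp only
  linarith

private theorem PcC_ball {d m : ℕ} (hm : 1 ≤ m) {f : Sp d → ℂ} (hf : IsTest f) :
    (m : ℝ) ^ d * ∫ z in Metric.closedBall (0 : Sp d) (1 / m), ∫ x, ‖f (x + z) - f x‖ ^ 2 ≤
      2 ^ d * d * (1 / m) ^ 2 * ∑ i, ∫ y, ‖pd i f y‖ ^ 2 := by
  have hm0 : (0 : ℝ) < m := by exact_mod_cast hm
  set S : ℝ := ∑ i, ∫ y, ‖pd i f y‖ ^ 2 with hS
  have hvol : volume (Metric.closedBall (0 : Sp d) (1 / m)) =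
      ENNReal.ofReal ((2 * (1 / m)) ^ d) := by
    rw [Real.volume_pi_closedBall _ (by positivity), Fintype.card_fin]
  have hfin : volume (Metric.closedBall (0 : Sp d) (1 / m)) ≠ ⊤ := by
    rw [hvol]
    exact ENNReal.ofReal_ne_top
  have h1 : ∫ z in Metric.closedBall (0 : Sp d) (1 / m), ∫ x, ‖f (x + z) - f x‖ ^ 2 ≤
      ∫ _ in Metric.closedBall (0 : Sp d) (1 / m), (d : ℝ) * ((1 / m) ^ 2 * S) := by
    refine integral_mono_of_nonneg (Filter.Eventually.of_forall fun z =>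
      integral_nonneg fun x => sq_nonneg _) (integrableOn_const hfin) ?_
    refine (ae_restrict_iff' Metric.isClosed_closedBall.measurableSet).2
      (Filter.Eventually.of_forall fun z hz => ?_)
    refine (shift_bound hf z).trans (mul_le_mul_of_nonneg_left ?_ (Nat.cast_nonneg d))
    rw [hS, Finset.mul_sum]
    refine Finset.sum_le_sum fun i _ => mul_le_mul_of_nonneg_right ?_
      (integral_nonneg fun _ => sq_nonneg _)
    have h2 : |z i| ≤ 1 / m := by
      have h3 : ‖z‖ ≤ 1 / m := mem_closedBall_zero_iff.1 hz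
      exact (norm_le_pi_norm z i).trans h3
    rw [← sq_abs]
    exact pow_le_pow_left₀ (abs_nonneg _) h2 2
  have h4 : ∫ _ in Metric.closedBall (0 : Sp d) (1 / m), (d : ℝ) * ((1 / m) ^ 2 * S) =
      (2 * (1 / m)) ^ d * ((d : ℝ) * ((1 / m) ^ 2 * S)) := by
    rw [setIntegral_const, smul_eq_mul, Measure.real, hvol, ENNReal.toReal_ofReal (by positivity)]
  rw [h4] at h1
  have h5 : (m : ℝ) ^ d * (2 * (1 / m)) ^ d = 2 ^ d := by
    rw [← mul_pow]
    congr 1
    field_simp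
  calc (m : ℝ) ^ d * ∫ z in Metric.closedBall (0 : Sp d) (1 / m), ∫ x, ‖f (x + z) - f x‖ ^ 2
      ≤ (m : ℝ) ^ d * ((2 * (1 / m)) ^ d * ((d : ℝ) * ((1 / m) ^ 2 * S))) :=
        mul_le_mul_of_nonneg_left h1 (by positivity)
    _ = ((m : ℝ) ^ d * (2 * (1 / m)) ^ d) * ((d : ℝ) * ((1 / m) ^ 2 * S)) := by ring
    _ = 2 ^ d * d * (1 / m) ^ 2 * S := by
        rw [h5]
        ring

/-- Finite-rank approximation of `J` on `Dom h q (ball c l)`, uniformly in `q`.
Proof sketch: take `A` from `cell_avg` for the cells of `cells_cover`. For a test function `f`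
supported in the cube and `x` with `x =ᵐ jet h q f`: by `cell_avg` and `shift_bound`
`‖J x - A (J x)‖² ≤ m^d (2/m)^d d (1/m²) ∑ ∫ ‖∂_i f‖² ≤ 2^d d / (m h)² ‖x‖²` (`norm_sq_X`). Linear
combinations of jets of test functions supported in `U` are jets of test functions supported in
`U` (a.e.), and the inequality passes to the closure by continuity. -/
theorem exists_finrank {d : ℕ} (c : Sp d) {l : ℝ} (hl : 0 < l) :
    ∃ Cp : ℝ, 1 ≤ Cp ∧ ∀ m : ℕ, 1 ≤ m → ∃ A : L2 d →L[ℂ] L2 d,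
      Module.Finite ℂ (LinearMap.range (A : L2 d →ₗ[ℂ] L2 d)) ∧
      (Module.finrank ℂ (LinearMap.range (A : L2 d →ₗ[ℂ] L2 d)) : ℝ) ≤ Cp * m ^ d ∧
      ∀ (h : ℝ) (q : Sp d → ℝ), 0 < h → ∀ x ∈ Dom h q (Metric.ball c l),
        ‖J x - A (J x)‖ ≤ Cp / (m * h) * ‖x‖ := by
  have hP : (0 : ℝ) ≤ (2 * l + 2) ^ d := by positivity
  have hQ : (0 : ℝ) ≤ 2 ^ d * d := by positivity
  refine ⟨(2 * l + 2) ^ d + 2 ^ d * d + 1, by linarith, fun m hm => ?_⟩
  have hm0 : (0 : ℝ) < m := by exact_mod_cast hm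
  obtain ⟨s, hs, hcov⟩ := cells_cover c hl hm
  obtain ⟨A, hA1, hA2, hA3⟩ := cell_avg (d := d) hm s
  refine ⟨A, hA1, ?_, ?_⟩
  · have h1 : (Module.finrank ℂ (LinearMap.range (A : L2 d →ₗ[ℂ] L2 d)) : ℝ) ≤ (s.card : ℝ) := by
      exact_mod_cast hA2
    refine (h1.trans hs).trans ?_
    rw [mul_pow]
    exact mul_le_mul_of_nonneg_right (by linarith) (by positivity)
  · intro h q hh x hx
    have hclosed : IsClosed {x : X d | ‖J x - A (J x)‖ ≤
        ((2 * l + 2) ^ d + 2 ^ d * d + 1) / (m * h) * ‖x‖} := by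
      refine isClosed_le ?_ (continuous_const.mul continuous_norm)
      exact ((J.continuous).sub (A.continuous.comp J.continuous)).norm
    refine closure_minimal (fun y hy => ?_) hclosed hx
    obtain ⟨f, hf, hfU, hyf⟩ := PcC_span hy
    have hJ : (J y : Sp d → ℂ) =ᵐ[volume] f := by
      have h1 : (J y : Sp d → ℂ) =ᵐ[volume] fun z => (y z) none :=
        ContinuousLinearMap.coeFn_compLpL (EuclideanSpace.proj (none : Idx d) : Vec d →L[ℂ] ℂ) y
      refine h1.trans ?_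
      filter_upwards [hyf] with z hz
      rw [hz]
      rfl
    have h1 := hA3 (J y) f hf hJ fun z hz =>
      hcov z (hfU (subset_tsupport f (Function.mem_support.2 hz)))
    have h2 := h1.trans (PcC_ball hm hf)
    have h3 := PcC_grad hyf
    set S : ℝ := ∑ i, ∫ y, ‖pd i f y‖ ^ 2 with hS
    have hS0 : 0 ≤ S := Finset.sum_nonneg fun i _ => integral_nonneg fun _ => sq_nonneg _
    have hCp : (2 : ℝ) ^ d * d ≤ ((2 * l + 2) ^ d + 2 ^ d * d + 1) ^ 2 := by
      nlinarith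
    have hCp0 : (0 : ℝ) < (2 * l + 2) ^ d + 2 ^ d * d + 1 := by linarith
    show ‖J y - A (J y)‖ ≤ ((2 * l + 2) ^ d + 2 ^ d * d + 1) / (m * h) * ‖y‖
    refine (pow_le_pow_iff_left₀ (norm_nonneg _) (by positivity) (two_ne_zero)).1 ?_
    calc ‖J y - A (J y)‖ ^ 2 ≤ 2 ^ d * d * (1 / m) ^ 2 * S := h2
      _ ≤ ((2 * l + 2) ^ d + 2 ^ d * d + 1) ^ 2 * (1 / m) ^ 2 * S := by
          refine mul_le_mul_of_nonneg_right (mul_le_mul_of_nonneg_right hCp (by positivity)) hS0
      _ = (((2 * l + 2) ^ d + 2 ^ d * d + 1) / (m * h)) ^ 2 * (h ^ 2 * S) := by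
          field_simp
      _ ≤ (((2 * l + 2) ^ d + 2 ^ d * d + 1) / (m * h)) ^ 2 * ‖y‖ ^ 2 :=
          mul_le_mul_of_nonneg_left h3 (sq_nonneg _)
      _ = (((2 * l + 2) ^ d + 2 ^ d * d + 1) / (m * h) * ‖y‖) ^ 2 := by rw [mul_pow]

end Pool.Agent.Lib.MP_c84763_mp.U
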