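import Pool.Agent.Lib.MP_c84763_mp.U.SpA
import Pool.Agent.Lib.MP_c84763_mp.U.PcC
import Pool.Agent.Lib.MP_c84763_mp.U.CutL

set_option autoImplicit false

namespace Pool.Agent.Lib.MP_c84763_mp.U

open MeasureTheory
open scoped ContDiff ENNReal

private theorem MdA_finrank_compact {d : ℕ} (A : L2 d →L[ℂ] L2 d)
    (hA : Module.Finite ℂ (LinearMap.range (A : L2 d →ₗ[ℂ] L2 d))) : IsCompactOperator A := by
  haveI : ProperSpace (LinearMap.range (A : L2 d →ₗ[ℂ] L2 d)) := FiniteDimensional.proper ℂ _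
  let A' : L2 d →L[ℂ] LinearMap.range (A : L2 d →ₗ[ℂ] L2 d) :=
    A.codRestrict (LinearMap.range (A : L2 d →ₗ[ℂ] L2 d)) fun x => ⟨x, rfl⟩
  have h1 : IsCompactOperator A' := isCompactOperator_of_locallyCompactSpace_dom A'
  exact h1.clm_comp (LinearMap.range (A : L2 d →ₗ[ℂ] L2 d)).subtypeL

private theorem MdA_compact_of {Y L : Type*} [NormedAddCommGroup Y] [NormedSpace ℂ Y]
    [NormedAddCommGroup L] [NormedSpace ℂ L] [CompleteSpace L] (T : Y →L[ℂ] L)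
    (F : ℕ → Y →L[ℂ] L) (c : ℕ → ℝ) (hc : Filter.Tendsto c Filter.atTop (nhds 0))
    (hc0 : ∀ m, 0 ≤ c m) (h : ∀ m y, ‖F m y - T y‖ ≤ c m * ‖y‖)
    (hF : ∀ m, IsCompactOperator (F m)) : IsCompactOperator T := by
  have h1 : Filter.Tendsto F Filter.atTop (nhds T) := by
    rw [tendsto_iff_norm_sub_tendsto_zero]
    refine squeeze_zero (fun m => norm_nonneg _) (fun m => ?_) hc
    exact ContinuousLinearMap.opNorm_le_bound _ (hc0 m) fun y => h m y
  exact isCompactOperator_of_tendsto h1 (Filter.Eventually.of_forall hF)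

namespace Cut

variable {d : ℕ} {P : Base d} {M : ℝ} (Q : Cut P M)

/-- `J` is compact on `Y h`: it is the norm limit of the finite-rank operators `A_m ∘ J` of
`exists_finrank` (`isCompactOperator_of_tendsto`; finite-rank operators are compact). -/
theorem J_compact {h : ℝ} (h0 : 0 < h) :
    IsCompactOperator ((J : X d →L[ℂ] L2 d) ∘L (Q.Y h).subtypeL) := by
  obtain ⟨Cp, hCp, H⟩ := exists_finrank P.c P.l_pos
  choose A hA1 hA2 hA3 using fun m : ℕ => H (m + 1) (Nat.succ_le_succ (Nat.zero_le m))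
  have hlim : Filter.Tendsto (fun m : ℕ => Cp / h * (1 / ((m : ℝ) + 1))) Filter.atTop (nhds 0) := by
    have := (tendsto_one_div_add_atTop_nhds_zero_nat (𝕜 := ℝ)).const_mul (Cp / h)
    rwa [mul_zero] at this
  refine MdA_compact_of _ (fun m : ℕ => A m ∘L ((J : X d →L[ℂ] L2 d) ∘L (Q.Y h).subtypeL)) _ hlim
    (fun m => by positivity) (fun m y => ?_) (fun m => ?_)
  · have h1 := hA3 m h (Q.q h) h0 (y : X d) y.2
    have h2 : ‖(A m ∘L ((J : X d →L[ℂ] L2 d) ∘L (Q.Y h).subtypeL)) y -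
        ((J : X d →L[ℂ] L2 d) ∘L (Q.Y h).subtypeL) y‖ = ‖J (y : X d) - A m (J (y : X d))‖ :=
      norm_sub_rev _ _
    rw [h2]
    refine h1.trans (le_of_eq ?_)
    have h3 : ‖(y : X d)‖ = ‖y‖ := rfl
    rw [h3]
    push_cast
    field_simp
  · exact (MdA_finrank_compact (A m) (hA1 m)).comp_clm
      ((J : X d →L[ℂ] L2 d) ∘L (Q.Y h).subtypeL)

/-- Dimension bound: `exists_finrank` with `m = ⌈Cp √(2 (2r+1)) / h⌉` and `dim_le`. -/
theorem dim_bound {r : ℝ} (hr : 1 ≤ r) :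
    ∃ C : ℝ, 0 < C ∧ ∀ h : ℝ, 0 < h → h ≤ 1 → ∀ S : Submodule ℂ (Q.Y h), Module.Finite ℂ S →
      (∀ y ∈ S, 1 / (2 * r + 1) * ‖y‖ ^ 2 ≤ ‖J (y : X d)‖ ^ 2) →
      (Module.finrank ℂ S : ℝ) * h ^ d ≤ C := by
  obtain ⟨Cp, hCp, H⟩ := exists_finrank P.c P.l_pos
  have hCp0 : 0 < Cp := by linarith
  set K : ℝ := Real.sqrt (2 * (2 * r + 1)) with hK
  have hK2 : K ^ 2 = 2 * (2 * r + 1) := Real.sq_sqrt (by linarith)
  have hK0 : 0 < K := Real.sqrt_pos.2 (by linarith)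
  refine ⟨Cp * (Cp * K + 1) ^ d, by positivity, fun h h0 h1 S _ hS => ?_⟩
  set m : ℕ := ⌈Cp * K / h⌉₊ with hm
  have hm1 : Cp * K / h ≤ m := Nat.le_ceil _
  have hm0 : (0 : ℝ) < m := lt_of_lt_of_le (by positivity) hm1
  have hm1' : 1 ≤ m := by exact_mod_cast hm0
  have hm2 : (m : ℝ) ≤ Cp * K / h + 1 := (Nat.ceil_lt_add_one (by positivity)).le
  obtain ⟨A, hA1, hA2, hA3⟩ := H m hm1'
  have hε : Cp / (m * h) ≤ 1 / K := by
    rw [div_le_iff₀ h0] at hm1
    rw [div_le_div_iff₀ (by positivity) hK0, one_mul]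
    exact hm1
  have hε2 : (Cp / (m * h)) ^ 2 < 1 / (2 * r + 1) := by
    calc (Cp / (m * h)) ^ 2 ≤ (1 / K) ^ 2 := by gcongr
      _ = 1 / (2 * (2 * r + 1)) := by rw [div_pow, one_pow, hK2]
      _ < 1 / (2 * r + 1) := by
          refine one_div_lt_one_div_of_lt (by linarith) ?_
          linarith
  have hdim := dim_le (X := Q.Y h) ((J : X d →L[ℂ] L2 d) ∘L (Q.Y h).subtypeL) A hA1 le_rfl
    (S := S) (ε := Cp / (m * h)) (a := 1 / (2 * r + 1)) (by positivity) hε2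
    (fun y _ => hA3 h (Q.q h) h0 (y : X d) y.2) hS
  have hfr : (Module.finrank ℂ S : ℝ) ≤ Cp * m ^ d := by
    refine le_trans ?_ hA2
    exact_mod_cast hdim.2
  calc (Module.finrank ℂ S : ℝ) * h ^ d ≤ Cp * m ^ d * h ^ d := by gcongr
    _ = Cp * (m * h) ^ d := by rw [mul_pow]; ring
    _ ≤ Cp * (Cp * K + 1) ^ d := by
        gcongr
        calc (m : ℝ) * h ≤ (Cp * K / h + 1) * h := by gcongr
          _ = Cp * K + h := by field_simp
          _ ≤ Cp * K + 1 := by linarith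

end Cut

end Pool.Agent.Lib.MP_c84763_mp.U
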