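import Pool.Agent.Lib.MP_c84763_mp.U.Defs

set_option autoImplicit false

namespace Pool.Agent.Lib.MP_c84763_mp.U

open MeasureTheory
open scoped ContDiff ENNReal

private lemma PcA_fderiv {d : ℕ} (f : Sp d → ℂ) (y z : Sp d) :
    fderiv ℝ f y z = ∑ i, (z i : ℂ) * pd i f y := by
  have h : z = ∑ i, z i • (Pi.single i (1 : ℝ) : Sp d) := by
    funext j
    simp [Finset.sum_apply, Pi.single_apply]
  conv_lhs => rw [h]
  rw [map_sum]
  apply Finset.sum_congr rfl
  intro i _
  rw [map_smul]
  simp [pd]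

private lemma PcA_pd_cont {d : ℕ} {f : Sp d → ℂ} (hf : IsTest f) (i : Fin d) :
    Continuous (pd i f) := by
  have h := hf.smooth.continuous_fderiv (by simp)
  exact h.clm_apply continuous_const

private lemma PcA_pd_cpt {d : ℕ} {f : Sp d → ℂ} (hf : IsTest f) (i : Fin d) :
    HasCompactSupport (pd i f) := hf.cpt.fderiv_apply (𝕜 := ℝ) _

private lemma PcA_norm {d : ℕ} (f : Sp d → ℂ) (y z : Sp d) :
    ‖fderiv ℝ f y z‖ ^ 2 ≤ d * ∑ i, z i ^ 2 * ‖pd i f y‖ ^ 2 := by
  rw [PcA_fderiv]
  have h1 : ‖∑ i, (z i : ℂ) * pd i f y‖ ≤ ∑ i, |z i| * ‖pd i f y‖ := by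
    refine (norm_sum_le _ _).trans (le_of_eq ?_)
    apply Finset.sum_congr rfl
    intro i _
    rw [norm_mul, Complex.norm_real, Real.norm_eq_abs]
  have h2 := sq_sum_le_card_mul_sum_sq (s := (Finset.univ : Finset (Fin d)))
    (f := fun i => |z i| * ‖pd i f y‖)
  rw [Finset.card_univ, Fintype.card_fin] at h2
  refine (pow_le_pow_left₀ (norm_nonneg _) h1 2).trans (h2.trans (le_of_eq ?_))
  congr 1
  apply Finset.sum_congr rfl
  intro i _
  rw [mul_pow, sq_abs]

private lemma PcA_cs {φ : ℝ → ℝ} (hφ : Continuous φ) :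
    (∫ t in (0 : ℝ)..1, φ t) ^ 2 ≤ ∫ t in (0 : ℝ)..1, φ t ^ 2 := by
  set m := ∫ t in (0 : ℝ)..1, φ t with hm
  have h0 : 0 ≤ ∫ t in (0 : ℝ)..1, (φ t - m) ^ 2 := by
    apply intervalIntegral.integral_nonneg zero_le_one
    intro t _
    exact sq_nonneg _
  have h1 : ∫ t in (0 : ℝ)..1, (φ t - m) ^ 2 = (∫ t in (0 : ℝ)..1, φ t ^ 2) - m ^ 2 := by
    have e1 : (fun t => (φ t - m) ^ 2) = fun t => φ t ^ 2 - (2 * m) * φ t + m ^ 2 := by
      funext t; ring
    rw [e1, intervalIntegral.integral_add, intervalIntegral.integral_sub,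
      intervalIntegral.integral_const_mul, ← hm, intervalIntegral.integral_const]
    · simp only [sub_zero, one_smul]
      ring
    · exact (hφ.pow 2).intervalIntegrable _ _
    · exact (continuous_const.mul hφ).intervalIntegrable _ _
    · exact ((hφ.pow 2).sub (continuous_const.mul hφ)).intervalIntegrable _ _
    · exact continuous_const.intervalIntegrable _ _
  linarith

private lemma PcA_pt {d : ℕ} {f : Sp d → ℂ} (hf : IsTest f) (z x : Sp d) :
    ‖f (x + z) - f x‖ ^ 2 ≤
      ∫ t in (0 : ℝ)..1, (d : ℝ) * ∑ i, z i ^ 2 * ‖pd i f (x + t • z)‖ ^ 2 := by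
  have hline : ∀ t : ℝ, HasDerivAt (fun t : ℝ => x + t • z) z t := by
    intro t
    simpa using ((hasDerivAt_id t).smul_const z).const_add x
  have hcl : Continuous (fun t : ℝ => x + t • z) := by fun_prop
  have hd : ∀ t : ℝ, HasDerivAt (fun t : ℝ => f (x + t • z)) (fderiv ℝ f (x + t • z) z) t := by
    intro t
    have h1 : HasFDerivAt f (fderiv ℝ f (x + t • z)) (x + t • z) :=
      ((hf.smooth.differentiable (by simp)) _).hasFDerivAt
    exact h1.comp_hasDerivAt t (hline t)
  have hcont : Continuous (fun t : ℝ => fderiv ℝ f (x + t • z) z) := by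
    have h := hf.smooth.continuous_fderiv (by simp)
    exact (h.comp hcl).clm_apply continuous_const
  have h1 : ∫ t in (0 : ℝ)..1, fderiv ℝ f (x + t • z) z = f (x + z) - f x := by
    rw [intervalIntegral.integral_eq_sub_of_hasDerivAt (fun t _ => hd t)
      (hcont.intervalIntegrable _ _)]
    simp
  have h2 : ‖f (x + z) - f x‖ ≤ ∫ t in (0 : ℝ)..1, ‖fderiv ℝ f (x + t • z) z‖ := by
    rw [← h1]
    exact intervalIntegral.norm_integral_le_integral_norm zero_le_one
  refine (pow_le_pow_left₀ (norm_nonneg _) h2 2).trans ((PcA_cs hcont.norm).trans ?_)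
  apply intervalIntegral.integral_mono_on zero_le_one
  · exact (hcont.norm.pow 2).intervalIntegrable _ _
  · apply Continuous.intervalIntegrable
    apply continuous_const.mul
    apply continuous_finsetSum
    intro i _
    exact continuous_const.mul (((PcA_pd_cont hf i).comp hcl).norm.pow 2)
  · intro t _
    exact PcA_norm f _ z

/-- Translation estimate.
Proof sketch: `f (x + z) - f x = ∫_0^1 ∑ z_i ∂_i f (x + t z) dt`, so
`‖f (x+z) - f x‖² ≤ d ∑ z_i² ∫_0^1 ‖∂_i f (x + t z)‖² dt`; integrate in `x` (Fubini, translation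
invariance). -/
theorem shift_bound {d : ℕ} {f : Sp d → ℂ} (hf : IsTest f) (z : Sp d) :
    ∫ x, ‖f (x + z) - f x‖ ^ 2 ≤ d * ∑ i, z i ^ 2 * ∫ x, ‖pd i f x‖ ^ 2 := by
  have hint : ∀ i, Integrable (fun x => ‖pd i f x‖ ^ 2) := by
    intro i
    apply Continuous.integrable_of_hasCompactSupport ((PcA_pd_cont hf i).norm.pow 2)
    exact (PcA_pd_cpt hf i).norm.comp_left (g := fun y : ℝ => y ^ 2) (by simp)
  have hshift : ∀ i (t : ℝ), ∫ x, ‖pd i f (x + t • z)‖ ^ 2 = ∫ x, ‖pd i f x‖ ^ 2 := by
    intro i t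
    exact integral_add_right_eq_self (fun x => ‖pd i f x‖ ^ 2) (t • z)
  set ν : Measure ℝ := volume.restrict (Set.Ioc (0 : ℝ) 1) with hν
  have hprod : ∀ i, Integrable (fun p : Sp d × ℝ => ‖pd i f (p.1 + p.2 • z)‖ ^ 2)
      ((volume : Measure (Sp d)).prod ν) := by
    intro i
    have hc : Continuous (fun p : Sp d × ℝ => ‖pd i f (p.1 + p.2 • z)‖ ^ 2) := by
      have : Continuous (fun p : Sp d × ℝ => p.1 + p.2 • z) := by fun_prop
      exact ((PcA_pd_cont hf i).comp this).norm.pow 2
    rw [integrable_prod_iff' hc.aestronglyMeasurable]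
    constructor
    · refine Filter.Eventually.of_forall fun t => ?_
      exact (hint i).comp_add_right (t • z)
    · have : (fun t : ℝ => ∫ x : Sp d, ‖‖pd i f (x + t • z)‖ ^ 2‖) =
          fun _ => ∫ x, ‖pd i f x‖ ^ 2 := by
        funext t
        rw [← hshift i t]
        congr 1
        funext x
        rw [Real.norm_eq_abs, abs_of_nonneg (by positivity)]
      simp only [this]
      exact integrable_const _
  have hG : Integrable (fun p : Sp d × ℝ => (d : ℝ) * ∑ i, z i ^ 2 * ‖pd i f (p.1 + p.2 • z)‖ ^ 2)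
      ((volume : Measure (Sp d)).prod ν) := by
    apply Integrable.const_mul
    apply integrable_finsetSum
    intro i _
    exact (hprod i).const_mul _
  have e1 : ∫ x, ‖f (x + z) - f x‖ ^ 2 ≤
      ∫ x : Sp d, ∫ t, (d : ℝ) * ∑ i, z i ^ 2 * ‖pd i f (x + t • z)‖ ^ 2 ∂ν := by
    apply integral_mono_of_nonneg
    · exact Filter.Eventually.of_forall fun x => by positivity
    · exact hG.integral_prod_left
    · refine Filter.Eventually.of_forall fun x => ?_
      have := PcA_pt hf z x
      rw [intervalIntegral.integral_of_le zero_le_one] at this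
      exact this
  refine e1.trans (le_of_eq ?_)
  rw [integral_integral_swap hG]
  have e2 : ∀ t : ℝ, ∫ x : Sp d, (d : ℝ) * ∑ i, z i ^ 2 * ‖pd i f (x + t • z)‖ ^ 2 =
      d * ∑ i, z i ^ 2 * ∫ x, ‖pd i f x‖ ^ 2 := by
    intro t
    rw [integral_const_mul, integral_finsetSum]
    · congr 1
      apply Finset.sum_congr rfl
      intro i _
      rw [integral_const_mul, hshift]
    · intro i _
      exact ((hint i).comp_add_right (t • z)).const_mul _
  simp only [e2]
  rw [integral_const]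
  simp [hν]

end Pool.Agent.Lib.MP_c84763_mp.U
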