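import Pool.Agent.Lib.MP_c84763_mp.U.ResD

set_option autoImplicit false

namespace Pool.Agent.Lib.MP_c84763_mp.U

open MeasureTheory
open scoped ContDiff ENNReal

namespace Cut

variable {d : ℕ} {P : Base d} {M : ℝ} (Q : Cut P M)

private theorem resa_sqrt {v q : ℝ} (hv : 0 ≤ v) (hq : 0 ≤ q) (h : q = 0 → v = 0) :
    Real.sqrt (v / q) * Real.sqrt v * Real.sqrt q = v := by
  rcases eq_or_lt_of_le hq with h0 | h0
  · rw [h h0.symm]
    simp
  · rw [Real.sqrt_div hv]
    have h1 : Real.sqrt q ≠ 0 := (Real.sqrt_pos.2 h0).ne'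
    have h2 := Real.mul_self_sqrt hv
    field_simp
    nlinarith

private theorem resa_int {d : ℕ} {A B C D : Sp d → ℂ} (hA : Integrable A) (hB : Integrable B)
    (hC : Integrable C) (hD : Integrable D) (z w : ℂ) :
    ((∫ t, A t) - z * ∫ t, B t) - (∫ t, C t) + w * ∫ t, D t =
      ∫ t, (A t - z * B t - C t + w * D t) := by
  have h1 : Integrable (fun t => A t - z * B t) := hA.sub (hB.const_mul z)
  have h2 : Integrable (fun t => A t - z * B t - C t) := h1.sub hC
  rw [integral_add h2 (hD.const_mul w), integral_sub h1 hC, integral_sub hA (hB.const_mul z),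
    integral_const_mul, integral_const_mul]

/-- Pointwise identity behind `res_id`. -/
private theorem resa_pt {d : ℕ} {v q χ k hh lam a : ℝ} {V1 y0 e0 ys es : ℂ} {yi ei : Fin d → ℂ}
    {p : Fin d → ℝ} (hv : 0 ≤ v) (hq : 0 ≤ q) (h1 : q = 0 → v = 0) (h2 : v = 0 → q = 0)
    (hys : ys = (Real.sqrt v : ℂ) * y0) (hes : es = (Real.sqrt q : ℂ) * e0)
    (hk : k = v - q) (hV : V1 * e0 = (a : ℂ) * Complex.I * e0) :
    (V1 * (star y0 * ((χ : ℂ) * e0)) + star ys * (((χ * Real.sqrt (v / q) : ℝ) : ℂ) * es) +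
      ∑ i, star (yi i) * ((χ : ℂ) * ei i + ((hh * p i : ℝ) : ℂ) * e0)) -
      ((lam : ℂ) + (a : ℂ) * Complex.I) * (star y0 * ((χ : ℂ) * e0)) -
      (star ((χ : ℂ) * y0) * e0 + star (((χ * Real.sqrt (q / v) : ℝ) : ℂ) * ys) * es +
      ∑ i, star ((χ : ℂ) * yi i + ((hh * p i : ℝ) : ℂ) * y0) * ei i) +
      (1 + (lam : ℂ)) * (star ((χ : ℂ) * y0) * e0) =
    ((k * χ : ℝ) : ℂ) * (star y0 * e0) +
      (hh : ℂ) * ∑ i, ((p i : ℝ) : ℂ) * (star (yi i) * e0 - star y0 * ei i) := by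
  have hst : ∀ r : ℝ, star (r : ℂ) = (r : ℂ) := fun r => Complex.conj_ofReal r
  have hA : star ys * (((χ * Real.sqrt (v / q) : ℝ) : ℂ) * es) =
      ((χ * v : ℝ) : ℂ) * (star y0 * e0) := by
    rw [hys, hes, star_mul', hst]
    have h3 := resa_sqrt hv hq h1
    have h4 : ((χ * v : ℝ) : ℂ) = ((χ * (Real.sqrt (v / q) * Real.sqrt v * Real.sqrt q) : ℝ) : ℂ) := by
      rw [h3]
    rw [h4]
    push_cast
    ring
  have hB : star (((χ * Real.sqrt (q / v) : ℝ) : ℂ) * ys) * es =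
      ((χ * q : ℝ) : ℂ) * (star y0 * e0) := by
    rw [hys, hes, star_mul', star_mul', hst, hst]
    have h3 := resa_sqrt hq hv h2
    have h4 : ((χ * q : ℝ) : ℂ) = ((χ * (Real.sqrt (q / v) * Real.sqrt q * Real.sqrt v) : ℝ) : ℂ) := by
      rw [h3]
    rw [h4]
    push_cast
    ring
  have hS : ∑ i, star (yi i) * ((χ : ℂ) * ei i + ((hh * p i : ℝ) : ℂ) * e0) -
      ∑ i, star ((χ : ℂ) * yi i + ((hh * p i : ℝ) : ℂ) * y0) * ei i =
      (hh : ℂ) * ∑ i, ((p i : ℝ) : ℂ) * (star (yi i) * e0 - star y0 * ei i) := by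
    rw [← Finset.sum_sub_distrib, Finset.mul_sum]
    refine Finset.sum_congr rfl fun i _ => ?_
    rw [star_add, star_mul', star_mul', hst, hst]
    push_cast
    ring
  have hC : star ((χ : ℂ) * y0) = (χ : ℂ) * star y0 := by rw [star_mul', hst]
  have hV' : V1 * (star y0 * ((χ : ℂ) * e0)) = (a : ℂ) * Complex.I * (star y0 * ((χ : ℂ) * e0)) := by
    linear_combination (star y0 * (χ : ℂ)) * hV
  rw [hA, hB, hC, hV', ← hS, hk]
  push_cast
  ring

/-- The residual of the transplanted eigenfunction.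
Proof sketch: apply `eig` to `φ = dn y ∈ Y`:
`∫ χ ȳ_0 e_0 + χ √(q/v) ȳ_s e_s + ∑ (χ ȳ_i + h ∂_i χ ȳ_0) e_i = (1 + lam) ∫ χ ȳ_0 e_0`
(`inner_X`, `inner_J`, `dn_ae`). With `y_s = √v y_0` (`D_pot`), `e_s = √q e_0` (`Y_pot`),
`√(q/v) √v = √q` (where `v = 0` also `q = 0`), `√(v/q) √q = √v` (where `q = 0` also `v = 0`, as
`v ≤ 2 q`), `V1 = a i` where `e ≠ 0` (`Y_off`, `V1_in`), `form_val` and `up_ae`:
`⟪y, Mop (up e)⟫ = a i ∫ χ ȳ_0 e_0 + ∫ χ v ȳ_0 e_0 + ∑ ∫ (χ ȳ_i e_i + h ∂_i χ ȳ_i e_0)`.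
Subtract, using `v - q = κ 1_T`. -/
theorem res_id {h : ℝ} (hM : 2 * Q.κ h ≤ M) {e : X d} (he : e ∈ Q.Y h) {lam : ℝ}
    (eig : ∀ φ ∈ Q.Y h, (inner ℂ φ e : ℂ) = ((1 + lam : ℝ) : ℂ) * inner ℂ (J φ) (J e))
    {y : X d} (hy : y ∈ P.D h) :
    (inner ℂ y (P.Mop (Q.up h e)) : ℂ) -
      ((lam : ℂ) + (P.a : ℂ) * Complex.I) * inner ℂ (J y) (J (Q.up h e)) = Q.resv h y e := by
  have hκM := Q.κ_le hM
  have hdn := Q.dn_mem hM hy
  have heig := eig _ hdn
  rw [inner_X, inner_J] at heig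
  rw [P.form_val, inner_J]
  have hIB : Integrable (fun t => star ((y t) none) * (Q.up h e t) none) := int_mul y _ none none
  have hIA : Integrable (fun t => P.V1 t * (star ((y t) none) * (Q.up h e t) none) +
      star ((y t) (some none)) * (Q.up h e t) (some none) +
      ∑ i, star ((y t) (some (some i))) * (Q.up h e t) (some (some i))) := by
    refine Integrable.add (Integrable.add ?_ (int_mul y _ (some none) (some none)))
      (integrable_finsetSum _ fun i _ => int_mul y _ (some (some i)) (some (some i)))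
    exact Integrable.bdd_mul (c := P.a) hIB P.V1_meas.aestronglyMeasurable
      (Filter.Eventually.of_forall P.V1_bd)
  have hID : Integrable (fun t => star ((Q.dn h y t) none) * (e t) none) := int_mul _ e none none
  have hIC : Integrable (fun t => star ((Q.dn h y t) none) * (e t) none +
      star ((Q.dn h y t) (some none)) * (e t) (some none) +
      ∑ i, star ((Q.dn h y t) (some (some i))) * (e t) (some (some i))) := by
    refine Integrable.add (Integrable.add hID (int_mul _ e (some none) (some none)))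
      (integrable_finsetSum _ fun i _ => int_mul _ e (some (some i)) (some (some i)))
  have h0 : ∀ IA IB IC ID : ℂ, IC = ((1 + lam : ℝ) : ℂ) * ID →
      IA - ((lam : ℂ) + (P.a : ℂ) * Complex.I) * IB =
      ((IA - ((lam : ℂ) + (P.a : ℂ) * Complex.I) * IB) - IC) + (1 + (lam : ℂ)) * ID := by
    intro IA IB IC ID hh
    rw [hh]
    push_cast
    ring
  rw [h0 _ _ _ _ heig, resa_int hIA hIB hIC hID]
  unfold resv
  refine integral_congr_ae ?_
  filter_upwards [Q.up_ae hM e, Q.dn_ae hM y, P.D_pot hy, Q.Y_pot he, Q.Y_off he] with t h1 h2 h3 h4 h5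
  obtain ⟨u0, us, ui⟩ := h1
  obtain ⟨d0, ds, di⟩ := h2
  simp only [u0, us, ui, d0, ds, di]
  have hv := P.v_nonneg t
  have hq := Q.q_nonneg hκM t
  refine resa_pt (v := P.v t) (q := Q.q h t) (yi := fun i => (y t) (some (some i)))
    (ei := fun i => (e t) (some (some i))) (p := fun i => pd i Q.χ t) hv hq ?_ ?_ h3 h4 ?_ ?_
  · intro hz
    have := Q.v_le hM t
    rw [hz] at this
    linarith
  · intro hz
    have := Q.q_le h t
    rw [hz] at this
    linarith
  · unfold Cut.q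
    ring
  · by_cases hΩ : t ∈ P.Ω
    · rw [P.V1_in hΩ]
    · rw [h5 hΩ]
      simp

end Cut

end Pool.Agent.Lib.MP_c84763_mp.U
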