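import Pool.Agent.Lib.MP_c84763_mp.U.CutM
import Pool.Agent.Lib.MP_c84763_mp.U.Form

set_option autoImplicit false

namespace Pool.Agent.Lib.MP_c84763_mp.U

open MeasureTheory
open scoped ContDiff ENNReal

namespace Cut

variable {d : ℕ} {P : Base d} {M : ℝ} (Q : Cut P M)

/-- The residual. -/
noncomputable def resv (h : ℝ) (y e : X d) : ℂ :=
  ∫ t, (((Q.T.indicator (fun _ => Q.κ h) t * Q.χ t : ℝ) : ℂ) *
      (star ((y t) none) * (e t) none) +
    (h : ℂ) * ∑ i, ((pd i Q.χ t : ℝ) : ℂ) * (star ((y t) (some (some i))) * (e t) none -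
      star ((y t) none) * (e t) (some (some i))))

end Cut

end Pool.Agent.Lib.MP_c84763_mp.U
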