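import Pool.Agent.Lib.MP_c84763_mp.U.Defs

set_option autoImplicit false

namespace Pool.Agent.Lib.MP_c84763_mp.U

open MeasureTheory
open scoped ContDiff ENNReal

/-- The region containing the eigenvalues produced at level `r`. -/
def BB (a r : ℝ) : Set ℂ := {E | a - 1 / 4 ≤ E.im ∧ ‖E‖ ≤ 2 * r + a + 1}

theorem δ_ge {E : ℂ} (hE : 0 ≤ E.im) : E.im ≤ δ E := by
  have hne : ({z : ℂ | 0 ≤ z.re ∧ z.im = 0}).Nonempty := ⟨0, by simp⟩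
  refine (Metric.le_infDist hne).2 fun z hz => ?_
  calc E.im = (E - z).im := by rw [Complex.sub_im, hz.2, sub_zero]
    _ ≤ |(E - z).im| := le_abs_self _
    _ ≤ ‖E - z‖ := Complex.abs_im_le_norm _
    _ = dist E z := (dist_eq_norm E z).symm

theorem δ_le (E : ℂ) : δ E ≤ ‖E‖ := by
  have h0 : (0 : ℂ) ∈ {z : ℂ | 0 ≤ z.re ∧ z.im = 0} := by simp
  have := Metric.infDist_le_dist_of_mem (x := E) h0
  simpa [δ] using this

/-- Lower bound for the weight on `BB a (2^k)`: `δ E ≥ 3/4`, `‖E‖ ≤ (a+3) 2^k`, so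
`log (‖E‖ / δ E) ≤ (k + c1) log 2` with `c1 = log (4 (a+3) / 3) / log 2`, and
`0 ≤ log (‖E‖ / δ E)`. -/
theorem w_lower {a : ℝ} (ha : 1 ≤ a) (d : ℕ) {γ : ℝ} (hγ : 0 < γ) {f : ℝ → ℝ}
    (hf : AntitoneOn f (Set.Ici 0)) (hf0 : ∀ t, 0 ≤ t → 0 ≤ f t) (k : ℕ) {E : ℂ}
    (hE : E ∈ BB a (2 ^ k)) :
    (3 / 4 : ℝ) ^ (γ + d / 2) * (((a + 3) * 2 ^ k) ^ (-(d : ℝ) / 2) *
      f ((k + Real.log (4 * (a + 3) / 3) / Real.log 2) * Real.log 2)) ≤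
      ‖E‖ ^ (-(d : ℝ) / 2) * δ E ^ (γ + d / 2) * f (Real.log (‖E‖ / δ E)) := by
  obtain ⟨h1, h2⟩ := hE
  have hk : (1 : ℝ) ≤ 2 ^ k := one_le_pow₀ (by norm_num)
  have hN : ‖E‖ ≤ (a + 3) * 2 ^ k := by
    refine h2.trans ?_
    nlinarith
  have h34 : (3 / 4 : ℝ) ≤ δ E := by
    have h3 : (3 / 4 : ℝ) ≤ E.im := by linarith
    exact h3.trans (δ_ge (by linarith))
  have hδ : 0 < δ E := by linarith
  have hle := δ_le E
  have hE0 : 0 < ‖E‖ := hδ.trans_le hle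
  have hl2 : 0 < Real.log 2 := Real.log_pos (by norm_num)
  have e1 : ((k : ℝ) + Real.log (4 * (a + 3) / 3) / Real.log 2) * Real.log 2 =
      Real.log (4 * (a + 3) / 3 * 2 ^ k) := by
    rw [Real.log_mul (by positivity) (by positivity), Real.log_pow, add_mul,
      div_mul_cancel₀ _ hl2.ne']
    ring
  have hlog0 : 0 ≤ Real.log (‖E‖ / δ E) := by
    refine Real.log_nonneg ?_
    rw [le_div_iff₀ hδ, one_mul]
    exact hle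
  have hlog : Real.log (‖E‖ / δ E) ≤
      ((k : ℝ) + Real.log (4 * (a + 3) / 3) / Real.log 2) * Real.log 2 := by
    rw [e1]
    refine Real.log_le_log (by positivity) ?_
    rw [div_le_iff₀ hδ]
    calc ‖E‖ ≤ (a + 3) * 2 ^ k := hN
      _ = 4 * (a + 3) / 3 * 2 ^ k * (3 / 4) := by ring
      _ ≤ 4 * (a + 3) / 3 * 2 ^ k * δ E := by gcongr
  have hff : f ((k + Real.log (4 * (a + 3) / 3) / Real.log 2) * Real.log 2) ≤
      f (Real.log (‖E‖ / δ E)) := hf hlog0 (hlog0.trans hlog) hlog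
  have hff0 : 0 ≤ f ((k + Real.log (4 * (a + 3) / 3) / Real.log 2) * Real.log 2) :=
    hf0 _ (hlog0.trans hlog)
  have hp1 : (3 / 4 : ℝ) ^ (γ + d / 2) ≤ δ E ^ (γ + d / 2) :=
    Real.rpow_le_rpow (by norm_num) h34 (by positivity)
  have hp2 : ((a + 3) * 2 ^ k) ^ (-(d : ℝ) / 2) ≤ ‖E‖ ^ (-(d : ℝ) / 2) := by
    refine Real.rpow_le_rpow_of_nonpos hE0 hN ?_
    have : (0 : ℝ) ≤ d := Nat.cast_nonneg d
    linarith
  calc (3 / 4 : ℝ) ^ (γ + d / 2) * (((a + 3) * 2 ^ k) ^ (-(d : ℝ) / 2) *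
      f ((k + Real.log (4 * (a + 3) / 3) / Real.log 2) * Real.log 2))
      ≤ δ E ^ (γ + d / 2) * (‖E‖ ^ (-(d : ℝ) / 2) * f (Real.log (‖E‖ / δ E))) := by
        refine mul_le_mul hp1 (mul_le_mul hp2 hff hff0 (by positivity)) ?_ (by positivity)
        exact mul_nonneg (by positivity) hff0
    _ = _ := by ring

/-- Comparison of the two sums: for `0 ≤ σ ≤ d/2`,
`‖E‖^(-d/2) δ^(γ+d/2) ≤ ‖E‖^(-σ) δ^(γ+σ)` as `δ E ≤ ‖E‖` (`δ E = 0` gives `0` on the left since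
`γ + d/2 > 0`). -/
theorem w_comp (d : ℕ) {γ σ : ℝ} (hγ : 0 < γ) (hσ : 0 ≤ σ) (hσ' : σ ≤ d / 2) (E : ℂ) :
    ‖E‖ ^ (-(d : ℝ) / 2) * δ E ^ (γ + d / 2) * (1 : ℝ) ≤ ‖E‖ ^ (-σ) * δ E ^ (γ + σ) := by
  have hδ0 : 0 ≤ δ E := Metric.infDist_nonneg
  have hd : (0 : ℝ) ≤ (d : ℝ) / 2 := by positivity
  rcases hδ0.eq_or_lt with h0 | h1
  · rw [← h0, Real.zero_rpow (by positivity), mul_zero, zero_mul]
    positivity
  · have h2 := δ_le E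
    have h3 : 0 < ‖E‖ := h1.trans_le h2
    have e1 : ‖E‖ ^ (-(d : ℝ) / 2) = ‖E‖ ^ (-σ) * ‖E‖ ^ (-((d : ℝ) / 2 - σ)) := by
      rw [← Real.rpow_add h3]
      congr 1
      ring
    have e2 : δ E ^ (γ + d / 2) = δ E ^ (γ + σ) * δ E ^ ((d : ℝ) / 2 - σ) := by
      rw [← Real.rpow_add h1]
      congr 1
      ring
    have h4 : ‖E‖ ^ (-((d : ℝ) / 2 - σ)) * δ E ^ ((d : ℝ) / 2 - σ) ≤ 1 := by
      rw [Real.rpow_neg h3.le, inv_mul_le_iff₀ (Real.rpow_pos_of_pos h3 _), mul_one]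
      exact Real.rpow_le_rpow h1.le h2 (sub_nonneg.2 hσ')
    rw [e1, e2, mul_one]
    calc ‖E‖ ^ (-σ) * ‖E‖ ^ (-((d : ℝ) / 2 - σ)) * (δ E ^ (γ + σ) * δ E ^ ((d : ℝ) / 2 - σ))
        = (‖E‖ ^ (-σ) * δ E ^ (γ + σ)) *
          (‖E‖ ^ (-((d : ℝ) / 2 - σ)) * δ E ^ ((d : ℝ) / 2 - σ)) := by ring
      _ ≤ (‖E‖ ^ (-σ) * δ E ^ (γ + σ)) * 1 := by
          refine mul_le_mul_of_nonneg_left h4 ?_
          positivity
      _ = _ := mul_one _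

end Pool.Agent.Lib.MP_c84763_mp.U
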