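import Mathlib

set_option autoImplicit false

namespace Pool.Agent.Lib.MP_c84763_mp.U

/-- Telescoping bound for nested sets: if `φ ≥ 0` is antitone and `B k` increases with `k`, the
weighted sum of indicators is at most `W` whenever `φ k ≤ W` on each `B k`. (Let `k0` be the
least `k < K` with `E ∈ B k`; the sum is `φ k0 - φ K ≤ φ k0`.) -/
theorem tel_bound {α : Type*} {B : ℕ → Set α} (hB : Monotone B) {φ : ℕ → ℝ} (hφ : Antitone φ)
    (h0 : ∀ k, 0 ≤ φ k) (E : α) {W : ℝ} (hW0 : 0 ≤ W) (hW : ∀ k, E ∈ B k → φ k ≤ W) (K : ℕ) :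
    ∑ k ∈ Finset.range K, (φ k - φ (k + 1)) * (B k).indicator (fun _ => (1 : ℝ)) E ≤ W := by
  have key : ((∃ k < K, E ∈ B k) →
      ∑ k ∈ Finset.range K, (φ k - φ (k + 1)) * (B k).indicator (fun _ => (1 : ℝ)) E + φ K ≤ W) ∧
      ((¬ ∃ k < K, E ∈ B k) →
        ∑ k ∈ Finset.range K, (φ k - φ (k + 1)) * (B k).indicator (fun _ => (1 : ℝ)) E = 0) := by
    induction K with
    | zero =>
      refine ⟨?_, fun _ => by simp⟩
      rintro ⟨k, hk, -⟩
      omega
    | succ K ih =>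
      rw [Finset.sum_range_succ]
      constructor
      · rintro ⟨k, hk, hkE⟩
        have hKE : E ∈ B K := hB (Nat.lt_succ_iff.1 hk) hkE
        rw [Set.indicator_of_mem hKE]
        by_cases h : ∃ k < K, E ∈ B k
        · have := ih.1 h
          linarith
        · have := ih.2 h
          have h2 := hW K hKE
          linarith
      · intro h
        have h1 : ¬ ∃ k < K, E ∈ B k := by
          rintro ⟨k, hk, hkE⟩
          exact h ⟨k, Nat.lt_succ_of_lt hk, hkE⟩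
        have h2 : E ∉ B K := fun h3 => h ⟨K, Nat.lt_succ_self K, h3⟩
        rw [ih.2 h1, Set.indicator_of_notMem h2, mul_zero, add_zero]
  by_cases h : ∃ k < K, E ∈ B k
  · have := key.1 h
    have h1 := h0 K
    linarith
  · rw [key.2 h]
    exact hW0

open MeasureTheory in
private theorem smB_lint {c1 : ℝ} (hc1 : 0 ≤ c1) {f : ℝ → ℝ}
    (hf : AntitoneOn f (Set.Ici 0)) (hf0 : ∀ t, 0 ≤ t → 0 ≤ f t)
    (hfi : ∫⁻ t in Set.Ici (0 : ℝ), ENNReal.ofReal (f t) = ⊤) {M : ℝ}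
    (hM : ∀ K : ℕ, ∑ k ∈ Finset.range K, f ((k + c1) * Real.log 2) ≤ M) : False := by
  have hl : 0 < Real.log 2 := Real.log_pos (by norm_num)
  obtain ⟨l, hl'⟩ : ∃ l, l = Real.log 2 := ⟨_, rfl⟩
  rw [← hl'] at hM hl
  have hsub : Set.Ici (0 : ℝ) ⊆ Set.Ico 0 (c1 * l) ∪
      ⋃ k : ℕ, Set.Ico ((k + c1) * l) ((k + 1 + c1) * l) := by
    intro t ht
    by_cases h : t < c1 * l
    · exact Or.inl ⟨ht, h⟩
    · right
      push Not at h
      rw [Set.mem_iUnion]
      have h1 : 0 ≤ t / l - c1 := by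
        rw [sub_nonneg, le_div_iff₀ hl]
        exact h
      refine ⟨⌊t / l - c1⌋₊, ?_, ?_⟩
      · have := Nat.floor_le h1
        have h2 : (⌊t / l - c1⌋₊ : ℝ) + c1 ≤ t / l := by linarith
        calc ((⌊t / l - c1⌋₊ : ℝ) + c1) * l ≤ t / l * l := mul_le_mul_of_nonneg_right h2 hl.le
          _ = t := div_mul_cancel₀ t hl.ne'
      · have := Nat.lt_floor_add_one (t / l - c1)
        have h2 : t / l < (⌊t / l - c1⌋₊ : ℝ) + 1 + c1 := by linarith
        calc t = t / l * l := (div_mul_cancel₀ t hl.ne').symm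
          _ < _ := mul_lt_mul_of_pos_right h2 hl
  have hpiece : ∀ a b : ℝ, 0 ≤ a → ∫⁻ t in Set.Ico a b, ENNReal.ofReal (f t) ≤
      ENNReal.ofReal (f a) * ENNReal.ofReal (b - a) := by
    intro a b ha
    calc ∫⁻ t in Set.Ico a b, ENNReal.ofReal (f t)
        ≤ ∫⁻ _t in Set.Ico a b, ENNReal.ofReal (f a) := by
          refine setLIntegral_mono' measurableSet_Ico fun x hx => ?_
          exact ENNReal.ofReal_le_ofReal (hf ha (le_trans ha hx.1) hx.1)
      _ = _ := by rw [setLIntegral_const, Real.volume_Ico]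
  have h1 : (⊤ : ENNReal) ≤ ENNReal.ofReal (f 0) * ENNReal.ofReal (c1 * l) +
      ENNReal.ofReal M * ENNReal.ofReal l := by
    rw [← hfi]
    calc ∫⁻ t in Set.Ici (0 : ℝ), ENNReal.ofReal (f t)
        ≤ ∫⁻ t in Set.Ico 0 (c1 * l) ∪
          ⋃ k : ℕ, Set.Ico ((k + c1) * l) ((k + 1 + c1) * l), ENNReal.ofReal (f t) :=
          lintegral_mono_set hsub
      _ ≤ (∫⁻ t in Set.Ico 0 (c1 * l), ENNReal.ofReal (f t)) +
          ∫⁻ t in ⋃ k : ℕ, Set.Ico ((k + c1) * l) ((k + 1 + c1) * l), ENNReal.ofReal (f t) :=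
          lintegral_union_le _ _ _
      _ ≤ _ := by
        refine add_le_add ?_ ?_
        · have := hpiece 0 (c1 * l) le_rfl
          rwa [sub_zero] at this
        · refine (lintegral_iUnion_le _ _).trans ?_
          refine ENNReal.tsum_le_of_sum_range_le fun n => ?_
          calc ∑ k ∈ Finset.range n, ∫⁻ t in Set.Ico ((k + c1) * l) ((k + 1 + c1) * l),
                ENNReal.ofReal (f t)
              ≤ ∑ k ∈ Finset.range n, ENNReal.ofReal (f ((k + c1) * l)) * ENNReal.ofReal l := by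
                refine Finset.sum_le_sum fun k _ => ?_
                have := hpiece ((k + c1) * l) ((k + 1 + c1) * l) (by positivity)
                have e : ((k : ℝ) + 1 + c1) * l - (k + c1) * l = l := by ring
                rwa [e] at this
            _ = ENNReal.ofReal (∑ k ∈ Finset.range n, f ((k + c1) * l)) * ENNReal.ofReal l := by
                rw [← Finset.sum_mul, ENNReal.ofReal_sum_of_nonneg]
                intro k _
                exact hf0 _ (by positivity)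
            _ ≤ _ := mul_le_mul_left (ENNReal.ofReal_le_ofReal (hM n)) _
  have h2 : ENNReal.ofReal (f 0) * ENNReal.ofReal (c1 * l) +
      ENNReal.ofReal M * ENNReal.ofReal l < ⊤ := by
    refine ENNReal.add_lt_top.2 ⟨?_, ?_⟩ <;>
      exact ENNReal.mul_lt_top ENNReal.ofReal_lt_top ENNReal.ofReal_lt_top
  exact absurd h1 (not_le.2 h2)

/-- Abel summation and divergence: with `φ k = (C 2^k)^(-d/2) f((k + c1) log 2)`,
`∑_{k<K} (φ k - φ (k+1)) 2^{k d/2} ≥ C^(-d/2) ((1 - 2^(-d/2)) ∑_{1≤k<K} f((k+c1) log 2) - f(c1 log 2))`,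
and the last sum diverges by comparison with `∫ f = ∞`. -/
theorem abel_div {d : ℕ} (hd : 0 < d) {C c1 : ℝ} (hC : 0 < C) (hc1 : 0 ≤ c1) {f : ℝ → ℝ}
    (hf : AntitoneOn f (Set.Ici 0)) (hf0 : ∀ t, 0 ≤ t → 0 ≤ f t)
    (hfi : ∫⁻ t in Set.Ici (0 : ℝ), ENNReal.ofReal (f t) = ⊤) (A : ℝ) :
    ∃ K : ℕ, A ≤ ∑ k ∈ Finset.range K,
      ((C * 2 ^ k) ^ (-(d : ℝ) / 2) * f ((k + c1) * Real.log 2) -
        (C * 2 ^ (k + 1)) ^ (-(d : ℝ) / 2) * f (((k + 1 : ℕ) + c1) * Real.log 2)) *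
        ((2 : ℝ) ^ k) ^ ((d : ℝ) / 2) := by
  by_contra hcon
  push Not at hcon
  have hl : 0 < Real.log 2 := Real.log_pos (by norm_num)
  have hd' : (0 : ℝ) < d := by exact_mod_cast hd
  obtain ⟨q, hq⟩ : ∃ q : ℝ, q = (2 : ℝ) ^ ((d : ℝ) / 2) := ⟨_, rfl⟩
  have hq1 : 1 < q := by
    rw [hq]
    exact Real.one_lt_rpow (by norm_num) (by positivity)
  obtain ⟨C', hC'⟩ : ∃ C' : ℝ, C' = C ^ (-(d : ℝ) / 2) := ⟨_, rfl⟩
  have hC'0 : 0 < C' := by
    rw [hC']
    exact Real.rpow_pos_of_pos hC _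
  have e1 : ∀ k : ℕ, ((2 : ℝ) ^ k) ^ ((d : ℝ) / 2) = q ^ k := by
    intro k
    rw [hq, ← Real.rpow_natCast, ← Real.rpow_natCast, ← Real.rpow_mul (by norm_num),
      ← Real.rpow_mul (by norm_num), mul_comm]
  have e2 : ∀ k : ℕ, (C * 2 ^ k) ^ (-(d : ℝ) / 2) = C' * (q ^ k)⁻¹ := by
    intro k
    rw [Real.mul_rpow hC.le (by positivity), hC', ← e1, ← Real.rpow_neg (by positivity)]
    congr 2
    ring
  have hterm : ∀ k : ℕ, C' * (1 - q⁻¹) * f ((k + c1) * Real.log 2) ≤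
      ((C * 2 ^ k) ^ (-(d : ℝ) / 2) * f ((k + c1) * Real.log 2) -
        (C * 2 ^ (k + 1)) ^ (-(d : ℝ) / 2) * f (((k + 1 : ℕ) + c1) * Real.log 2)) *
        ((2 : ℝ) ^ k) ^ ((d : ℝ) / 2) := by
    intro k
    rw [e1, e2, e2]
    have h1 : f (((k + 1 : ℕ) + c1) * Real.log 2) ≤ f ((k + c1) * Real.log 2) := by
      refine hf ?_ ?_ ?_
      · show (0 : ℝ) ≤ _
        positivity
      · show (0 : ℝ) ≤ _
        positivity
      · refine mul_le_mul_of_nonneg_right ?_ hl.le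
        push_cast
        linarith
    have hqk : q ^ k ≠ 0 := by positivity
    have hq0 : q ≠ 0 := by positivity
    have e3 : (C' * (q ^ k)⁻¹ * f ((k + c1) * Real.log 2) -
        C' * (q ^ (k + 1))⁻¹ * f (((k + 1 : ℕ) + c1) * Real.log 2)) * q ^ k =
        C' * f ((k + c1) * Real.log 2) - C' * q⁻¹ * f (((k + 1 : ℕ) + c1) * Real.log 2) := by
      rw [pow_succ]
      field_simp
    rw [e3]
    have h2 : C' * q⁻¹ * f (((k + 1 : ℕ) + c1) * Real.log 2) ≤
        C' * q⁻¹ * f ((k + c1) * Real.log 2) :=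
      mul_le_mul_of_nonneg_left h1 (by positivity)
    linarith
  have hc0 : 0 < C' * (1 - q⁻¹) := by
    have : q⁻¹ < 1 := inv_lt_one_of_one_lt₀ hq1
    have h2 : 0 < 1 - q⁻¹ := by linarith
    positivity
  refine smB_lint hc1 hf hf0 hfi (M := A / (C' * (1 - q⁻¹))) fun K => ?_
  rw [le_div_iff₀ hc0, mul_comm, Finset.mul_sum]
  exact (Finset.sum_le_sum fun k _ => hterm k).trans (hcon K).le

end Pool.Agent.Lib.MP_c84763_mp.U
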