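import Pool.Agent.Lib.MP_c84763_mp.U.SmA
import Pool.Agent.Lib.MP_c84763_mp.U.SmB

set_option autoImplicit false

namespace Pool.Agent.Lib.MP_c84763_mp.U

open MeasureTheory Filter Topology
open scoped ContDiff ENNReal

theorem BB_mono {a : ℝ} : Monotone (fun k : ℕ => BB a (2 ^ k)) := by
  intro i j hij E hE
  refine ⟨hE.1, hE.2.trans ?_⟩
  have : (2 : ℝ) ^ i ≤ 2 ^ j := pow_le_pow_right₀ (by norm_num) hij
  linarith

/-- The weighted sum diverges.
Proof sketch: fix `A`; `K` from `abel_div`; `h` smaller than all `h0 (2^k)`, `k < K`. With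
`c2 = (3/4)^(γ + d/2)`, `φ k` as in `abel_div` (`C = a + 3`), `w_lower` and `tel_bound` (applied to
`c2 φ`) give
`Sf ≥ ∑' E, algMult E * ∑_{k<K} ofReal (c2 (φ k - φ (k+1))) 1_{BB a (2^k)} E`, exchange the
sums (`ENNReal.tsum_mul_left`, `tsum_finsetSum...`), multiply by `h^d` and use `H`. -/
theorem sf_tendsto {d : ℕ} (hd : 0 < d) {V : Sp d → ℂ} {a c : ℝ} (ha : 1 ≤ a) (hc : 0 < c)
    (H : ∀ r : ℝ, 1 ≤ r → ∃ h0 > 0, ∀ h, 0 < h → h < h0 →
      ENNReal.ofReal (c * r ^ ((d : ℝ) / 2)) ≤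
        ENNReal.ofReal (h ^ d) * ∑' E : ℂ, (algMult V h E : ℝ≥0∞) * (BB a r).indicator 1 E)
    {γ : ℝ} (hγ : 0 < γ) {f : ℝ → ℝ}
    (hf : AntitoneOn f (Set.Ici 0)) (hf0 : ∀ t, 0 ≤ t → 0 ≤ f t)
    (hfi : ∫⁻ t in Set.Ici (0 : ℝ), ENNReal.ofReal (f t) = ⊤) :
    Tendsto (fun h => ENNReal.ofReal (h ^ d) * Sf V h γ f) (𝓝[>] 0) (𝓝 ⊤) := by
  have hl2 : 0 < Real.log 2 := Real.log_pos (by norm_num)
  have hC0 : 0 < a + 3 := by linarith
  have hc10 : 0 ≤ Real.log (4 * (a + 3) / 3) / Real.log 2 := by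
    apply div_nonneg _ hl2.le
    apply Real.log_nonneg
    linarith
  have hc20 : (0 : ℝ) < (3 / 4 : ℝ) ^ (γ + d / 2) := by positivity
  obtain ⟨c1, hc1⟩ : ∃ c1, c1 = Real.log (4 * (a + 3) / 3) / Real.log 2 := ⟨_, rfl⟩
  obtain ⟨c2, hc2⟩ : ∃ c2, c2 = (3 / 4 : ℝ) ^ (γ + d / 2) := ⟨_, rfl⟩
  rw [← hc1] at hc10
  rw [← hc2] at hc20
  obtain ⟨φ, hφd⟩ : ∃ φ : ℕ → ℝ, ∀ k : ℕ, φ k =
      ((a + 3) * 2 ^ k) ^ (-(d : ℝ) / 2) * f ((k + c1) * Real.log 2) := ⟨_, fun _ => rfl⟩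
  have harg : ∀ k : ℕ, (0 : ℝ) ≤ (k + c1) * Real.log 2 := fun k => by positivity
  have hφ0 : ∀ k, 0 ≤ φ k := fun k => by
    rw [hφd]
    exact mul_nonneg (by positivity) (hf0 _ (harg k))
  have hφ : Antitone φ := by
    apply antitone_nat_of_succ_le
    intro k
    rw [hφd, hφd]
    apply mul_le_mul
    · apply Real.rpow_le_rpow_of_nonpos (by positivity)
      · have : (2 : ℝ) ^ k ≤ 2 ^ (k + 1) := pow_le_pow_right₀ (by norm_num) (by omega)
        gcongr
      · have : (0 : ℝ) ≤ d := Nat.cast_nonneg d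
        linarith
    · refine hf (harg k) (harg (k + 1)) ?_
      push_cast
      nlinarith
    · exact hf0 _ (harg _)
    · positivity
  rw [ENNReal.tendsto_nhds_top_iff_nnreal]
  intro x
  obtain ⟨K, hK⟩ := abel_div hd hC0 hc10 hf hf0 hfi (((x : ℝ) + 1) / (c2 * c))
  have hK' : ((x : ℝ) + 1) / (c2 * c) ≤
      ∑ k ∈ Finset.range K, (φ k - φ (k + 1)) * ((2 : ℝ) ^ k) ^ ((d : ℝ) / 2) := by
    refine hK.trans_eq ?_
    refine Finset.sum_congr rfl fun k _ => ?_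
    rw [hφd, hφd]
  have hev : ∀ k ∈ Finset.range K, ∀ᶠ h in 𝓝[>] (0 : ℝ),
      ENNReal.ofReal (c * ((2 : ℝ) ^ k) ^ ((d : ℝ) / 2)) ≤
        ENNReal.ofReal (h ^ d) *
          ∑' E : ℂ, (algMult V h E : ℝ≥0∞) * (BB a (2 ^ k)).indicator 1 E := by
    intro k _
    obtain ⟨h0, hh0, hh⟩ := H (2 ^ k) (one_le_pow₀ (by norm_num))
    filter_upwards [Ioo_mem_nhdsGT hh0] with h hhh
    exact hh h hhh.1 hhh.2
  rw [← Filter.eventually_all_finset] at hev
  filter_upwards [hev] with h hh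
  have hdiff : ∀ k, 0 ≤ c2 * (φ k - φ (k + 1)) := fun k =>
    mul_nonneg hc20.le (sub_nonneg.2 (hφ (Nat.le_succ k)))
  have hpt : ∀ E : ℂ, ∑ k ∈ Finset.range K, ENNReal.ofReal (c2 * (φ k - φ (k + 1))) *
      (BB a (2 ^ k)).indicator 1 E ≤ ENNReal.ofReal
        (‖E‖ ^ (-(d : ℝ) / 2) * δ E ^ (γ + d / 2) * f (Real.log (‖E‖ / δ E))) := by
    intro E
    have hδ0 : 0 ≤ δ E := Metric.infDist_nonneg
    have hlog : 0 ≤ Real.log (‖E‖ / δ E) := by
      rcases hδ0.eq_or_lt with h0 | h0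
      · rw [← h0]; simp
      · apply Real.log_nonneg
        rw [le_div_iff₀ h0, one_mul]
        exact δ_le E
    have hW0 : 0 ≤ ‖E‖ ^ (-(d : ℝ) / 2) * δ E ^ (γ + d / 2) * f (Real.log (‖E‖ / δ E)) :=
      mul_nonneg (by positivity) (hf0 _ hlog)
    have hW : ∀ k, E ∈ BB a (2 ^ k) → c2 * φ k ≤
        ‖E‖ ^ (-(d : ℝ) / 2) * δ E ^ (γ + d / 2) * f (Real.log (‖E‖ / δ E)) := by
      intro k hk
      have := w_lower ha d hγ hf hf0 k hk
      rw [hφd, hc2, hc1]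
      exact this
    have ht := tel_bound (B := fun k : ℕ => BB a (2 ^ k)) BB_mono (φ := fun k => c2 * φ k)
      (fun i j hij => mul_le_mul_of_nonneg_left (hφ hij) hc20.le)
      (fun k => mul_nonneg hc20.le (hφ0 k)) E hW0 hW K
    refine le_trans (le_of_eq ?_) (ENNReal.ofReal_le_ofReal ht)
    rw [ENNReal.ofReal_sum_of_nonneg]
    · refine Finset.sum_congr rfl fun k _ => ?_
      by_cases hE : E ∈ BB a (2 ^ k)
      · simp [Set.indicator_of_mem hE, mul_sub]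
      · simp [Set.indicator_of_notMem hE]
    · intro k _
      refine mul_nonneg ?_ (Set.indicator_nonneg (fun _ _ => zero_le_one) _)
      have := hdiff k
      rw [mul_sub] at this
      exact this
  have hx : ENNReal.ofReal ((x : ℝ) + 1) ≤ ENNReal.ofReal (h ^ d) * Sf V h γ f := by
    calc ENNReal.ofReal ((x : ℝ) + 1)
        ≤ ENNReal.ofReal (∑ k ∈ Finset.range K,
            (c2 * (φ k - φ (k + 1))) * (c * ((2 : ℝ) ^ k) ^ ((d : ℝ) / 2))) := by
          apply ENNReal.ofReal_le_ofReal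
          rw [div_le_iff₀ (by positivity)] at hK'
          refine hK'.trans_eq ?_
          rw [Finset.sum_mul]
          refine Finset.sum_congr rfl fun k _ => ?_
          ring
      _ = ∑ k ∈ Finset.range K, ENNReal.ofReal (c2 * (φ k - φ (k + 1))) *
            ENNReal.ofReal (c * ((2 : ℝ) ^ k) ^ ((d : ℝ) / 2)) := by
          rw [ENNReal.ofReal_sum_of_nonneg]
          · refine Finset.sum_congr rfl fun k _ => ?_
            rw [ENNReal.ofReal_mul (hdiff k)]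
          · intro k _
            exact mul_nonneg (hdiff k) (by positivity)
      _ ≤ ∑ k ∈ Finset.range K, ENNReal.ofReal (c2 * (φ k - φ (k + 1))) *
            (ENNReal.ofReal (h ^ d) *
              ∑' E : ℂ, (algMult V h E : ℝ≥0∞) * (BB a (2 ^ k)).indicator 1 E) := by
          refine Finset.sum_le_sum fun k hk => ?_
          gcongr
          exact hh k hk
      _ = ENNReal.ofReal (h ^ d) * ∑' E : ℂ, (algMult V h E : ℝ≥0∞) *
            ∑ k ∈ Finset.range K, ENNReal.ofReal (c2 * (φ k - φ (k + 1))) *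
              (BB a (2 ^ k)).indicator 1 E := by
          have h1 : ∀ k ∈ Finset.range K, ENNReal.ofReal (c2 * (φ k - φ (k + 1))) *
              (ENNReal.ofReal (h ^ d) *
                ∑' E : ℂ, (algMult V h E : ℝ≥0∞) * (BB a (2 ^ k)).indicator 1 E) =
              ENNReal.ofReal (h ^ d) * ∑' E : ℂ, (algMult V h E : ℝ≥0∞) *
                (ENNReal.ofReal (c2 * (φ k - φ (k + 1))) * (BB a (2 ^ k)).indicator 1 E) := by
            intro k _
            rw [mul_left_comm, ← ENNReal.tsum_mul_left]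
            congr 1
            refine tsum_congr fun E => ?_
            rw [mul_left_comm]
          rw [Finset.sum_congr rfl h1, ← Finset.mul_sum]
          congr 1
          rw [← Summable.tsum_finsetSum (fun _ _ => ENNReal.summable)]
          refine tsum_congr fun E => ?_
          rw [Finset.mul_sum]
      _ ≤ ENNReal.ofReal (h ^ d) * Sf V h γ f := by
          unfold Sf eigSum
          gcongr with E
          exact hpt E
  refine lt_of_lt_of_le ?_ hx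
  rw [ENNReal.ofReal_add (NNReal.coe_nonneg x) zero_le_one, ENNReal.ofReal_coe_nnreal,
    ENNReal.ofReal_one]
  exact ENNReal.lt_add_right ENNReal.coe_ne_top one_ne_zero

theorem s_tendsto {d : ℕ} (hd : 0 < d) {V : Sp d → ℂ} {a c : ℝ} (ha : 1 ≤ a) (hc : 0 < c)
    (H : ∀ r : ℝ, 1 ≤ r → ∃ h0 > 0, ∀ h, 0 < h → h < h0 →
      ENNReal.ofReal (c * r ^ ((d : ℝ) / 2)) ≤
        ENNReal.ofReal (h ^ d) * ∑' E : ℂ, (algMult V h E : ℝ≥0∞) * (BB a r).indicator 1 E)
    {γ σ : ℝ} (hγ : 0 < γ) (hσ : 0 ≤ σ) (hσ' : σ ≤ d / 2) :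
    Tendsto (fun h => ENNReal.ofReal (h ^ d) * S V h γ σ) (𝓝[>] 0) (𝓝 ⊤) := by
  have h1 := sf_tendsto hd ha hc H hγ (f := fun _ => (1 : ℝ)) antitoneOn_const
    (fun _ _ => zero_le_one) (by simp)
  refine tendsto_nhds_top_mono h1 (Eventually.of_forall fun h => ?_)
  show ENNReal.ofReal (h ^ d) * Sf V h γ (fun _ => (1 : ℝ)) ≤ ENNReal.ofReal (h ^ d) * S V h γ σ
  gcongr
  unfold Sf S eigSum
  refine ENNReal.tsum_le_tsum fun E => ?_
  gcongr
  exact ENNReal.ofReal_le_ofReal (w_comp d hγ hσ hσ' E)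

end Pool.Agent.Lib.MP_c84763_mp.U
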