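import Mathlib

set_option autoImplicit false

namespace Pool.Agent.Lib.MP_c84763_mp.U

/-- Pigeonhole: a finite set of at most `n` reals leaves a gap of size `(b - a)/(n+2)` in
`[a, b]`. (Divide `[a, b]` into `n + 1` closed subintervals of length `(b - a)/(n+1)` with disjoint
interiors; some open subinterval contains no point of the set.) -/
theorem exists_gap (s : Finset ℝ) (n : ℕ) (hs : s.card ≤ n) {a b : ℝ} (hab : a < b) :
    ∃ β α : ℝ, a ≤ β ∧ β < α ∧ α ≤ b ∧ (b - a) / (n + 2) ≤ α - β ∧ ∀ x ∈ s, x ≤ β ∨ α ≤ x := by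
  have hn : (0 : ℝ) < n + 1 := by positivity
  set δ : ℝ := (b - a) / (n + 1) with hδ
  have hδ0 : 0 < δ := div_pos (sub_pos.2 hab) hn
  have hδn : δ * (n + 1) = b - a := div_mul_cancel₀ _ hn.ne'
  by_contra hcon
  have key : ∀ k : Fin (n + 1), ∃ x ∈ s, a + (k : ℕ) * δ < x ∧ x < a + ((k : ℕ) + 1) * δ := by
    intro k
    by_contra hk
    push Not at hk
    apply hcon
    have hk1 : ((k : ℕ) : ℝ) + 1 ≤ n + 1 := by
      have := k.2
      exact_mod_cast Nat.succ_le_of_lt this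
    refine ⟨a + (k : ℕ) * δ, a + ((k : ℕ) + 1) * δ, ?_, ?_, ?_, ?_, ?_⟩
    · have : 0 ≤ ((k : ℕ) : ℝ) * δ := by positivity
      linarith
    · nlinarith
    · have : (((k : ℕ) : ℝ) + 1) * δ ≤ (n + 1) * δ := mul_le_mul_of_nonneg_right hk1 hδ0.le
      linarith
    · have h1 : a + (((k : ℕ) : ℝ) + 1) * δ - (a + ((k : ℕ) : ℝ) * δ) = δ := by ring
      rw [h1, hδ]
      exact div_le_div_of_nonneg_left (sub_pos.2 hab).le hn (by linarith)
    · intro x hx
      by_cases h : a + ((k : ℕ) : ℝ) * δ < x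
      · exact Or.inr (hk x hx h)
      · exact Or.inl (not_lt.1 h)
  choose f hf1 hf2 hf3 using key
  have hinj : Function.Injective fun k => (⟨f k, hf1 k⟩ : s) := by
    intro i j hij
    have hij' : f i = f j := congrArg Subtype.val hij
    by_contra hne
    rcases lt_or_gt_of_ne hne with h | h
    · have h1 : ((i : ℕ) : ℝ) + 1 ≤ ((j : ℕ) : ℝ) := by exact_mod_cast Nat.succ_le_of_lt h
      have h2 : (((i : ℕ) : ℝ) + 1) * δ ≤ ((j : ℕ) : ℝ) * δ :=
        mul_le_mul_of_nonneg_right h1 hδ0.le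
      have h3 := hf3 i
      have h4 := hf2 j
      rw [hij'] at h3
      linarith
    · have h1 : ((j : ℕ) : ℝ) + 1 ≤ ((i : ℕ) : ℝ) := by exact_mod_cast Nat.succ_le_of_lt h
      have h2 : (((j : ℕ) : ℝ) + 1) * δ ≤ ((i : ℕ) : ℝ) * δ :=
        mul_le_mul_of_nonneg_right h1 hδ0.le
      have h3 := hf3 j
      have h4 := hf2 i
      rw [hij'] at h4
      linarith
  have hc := Fintype.card_le_of_injective _ hinj
  rw [Fintype.card_fin, Fintype.card_coe] at hc
  omega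

/-- Bounded below on a finite-rank approximable map forces small dimension. -/
theorem dim_le {X L : Type*} [NormedAddCommGroup X] [InnerProductSpace ℂ X]
    [NormedAddCommGroup L] [InnerProductSpace ℂ L] (J : X →L[ℂ] L) (A : L →L[ℂ] L) {n : ℕ}
    (hA : Module.Finite ℂ (LinearMap.range (A : L →ₗ[ℂ] L)))
    (hA' : Module.finrank ℂ (LinearMap.range (A : L →ₗ[ℂ] L)) ≤ n) {S : Submodule ℂ X}
    {ε a : ℝ} (hε : 0 ≤ ε) (hεa : ε ^ 2 < a) (h1 : ∀ y ∈ S, ‖J y - A (J y)‖ ≤ ε * ‖y‖)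
    (h2 : ∀ y ∈ S, a * ‖y‖ ^ 2 ≤ ‖J y‖ ^ 2) :
    Module.Finite ℂ S ∧ Module.finrank ℂ S ≤ n := by
  let g : S →ₗ[ℂ] LinearMap.range (A : L →ₗ[ℂ] L) :=
    ((A : L →ₗ[ℂ] L).rangeRestrict.comp (J : X →ₗ[ℂ] L)).comp S.subtype
  have hg : Function.Injective g := by
    rw [← LinearMap.ker_eq_bot, LinearMap.ker_eq_bot']
    intro y hy
    have hy1 : A (J (y : X)) = 0 := congrArg Subtype.val hy
    have h3 := h1 y y.2
    rw [hy1, sub_zero] at h3
    have h4 := h2 y y.2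
    have h5 : ‖J (y : X)‖ ^ 2 ≤ (ε * ‖(y : X)‖) ^ 2 :=
      pow_le_pow_left₀ (norm_nonneg _) h3 2
    have h6 : (a - ε ^ 2) * ‖(y : X)‖ ^ 2 ≤ 0 := by nlinarith
    have h7 : ‖(y : X)‖ ^ 2 ≤ 0 := by
      by_contra h
      push Not at h
      have := mul_pos (sub_pos.2 hεa) h
      linarith
    have h8 : ‖(y : X)‖ = 0 := by
      have := sq_nonneg ‖(y : X)‖
      exact pow_eq_zero_iff (two_ne_zero) |>.1 (le_antisymm h7 this)
    exact Subtype.ext (norm_eq_zero.1 h8)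
  haveI := hA
  exact ⟨Module.Finite.of_injective g hg, (LinearMap.finrank_le_finrank_of_injective hg).trans hA'⟩

end Pool.Agent.Lib.MP_c84763_mp.U
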