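import Pool.Agent.Lib.MP_c84763_mp.U.Defs

set_option autoImplicit false

namespace Pool.Agent.Lib.MP_c84763_mp.U

open MeasureTheory
open scoped ContDiff ENNReal

/-- The counting function used for `exists_v`. -/
private noncomputable def VA_v {d : ℕ} (c : Sp d) (l : ℝ) (x : Sp d) : ℝ :=
  if dist x c < l then ((⌊-Real.logb 2 (1 - dist x c / l)⌋₊ : ℕ) : ℝ) else 0

private theorem VA_meas {d : ℕ} (c : Sp d) (l : ℝ) : Measurable (VA_v c l) := by
  unfold VA_v
  have hd : Measurable (fun x : Sp d => dist x c) := (continuous_id.dist continuous_const).measurable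
  refine Measurable.ite (measurableSet_lt hd measurable_const) ?_ measurable_const
  have h1 : Measurable (fun x : Sp d => -Real.logb 2 (1 - dist x c / l)) := by
    unfold Real.logb
    exact ((Real.measurable_log.comp (measurable_const.sub (hd.div_const l))).div_const _).neg
  have h2 : Measurable (fun x : Sp d => (⌊-Real.logb 2 (1 - dist x c / l)⌋₊ : ℕ)) :=
    Nat.measurable_floor.comp h1
  exact (measurable_from_nat (f := fun n : ℕ => (n : ℝ))).comp h2

private theorem VA_ge {d : ℕ} (c : Sp d) {l : ℝ} (hl : 0 < l) (x : Sp d) (hx : dist x c < l)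
    (j : ℕ) : (j ≤ ⌊-Real.logb 2 (1 - dist x c / l)⌋₊) ↔ l * (1 - (1 / 2 : ℝ) ^ j) ≤ dist x c := by
  have hr : dist x c / l < 1 := (div_lt_one hl).2 hx
  have hr0 : 0 ≤ dist x c / l := div_nonneg dist_nonneg hl.le
  have hp : 0 < 1 - dist x c / l := by linarith
  have hlog : 0 ≤ -Real.logb 2 (1 - dist x c / l) := by
    have : Real.logb 2 (1 - dist x c / l) ≤ 0 :=
      Real.logb_nonpos (by norm_num) hp.le (by linarith)
    linarith
  rw [Nat.le_floor_iff hlog]
  have e1 : ((j : ℝ) ≤ -Real.logb 2 (1 - dist x c / l)) ↔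
      Real.logb 2 (1 - dist x c / l) ≤ -(j : ℝ) := by constructor <;> intro h <;> linarith
  rw [e1, Real.logb_le_iff_le_rpow (by norm_num) hp, Real.rpow_neg (by norm_num),
    Real.rpow_natCast]
  have e2 : ((2 : ℝ) ^ j)⁻¹ = (1 / 2 : ℝ) ^ j := by rw [one_div, inv_pow]
  rw [e2]
  have e3 : (1 - dist x c / l ≤ (1 / 2 : ℝ) ^ j) ↔ (1 - (1 / 2 : ℝ) ^ j ≤ dist x c / l) := by
    constructor <;> intro h <;> linarith
  rw [e3, le_div_iff₀ hl, mul_comm]

/-- The function `v`, blowing up logarithmically at the boundary of the cube.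
Proof sketch: `v x = max 0 (- log (2 (1 - dist x c / l)))` on `ball c l`, `0` elsewhere.
`v > t` exactly on `{l (1 - e^{-t}/2) < dist x c < l}`, of measure at most
`(2l)^d (1 - (1 - e^{-t}/2)^d) ≤ (2 l)^d d e^{-t}/2` (volume of sup-norm balls,
`Real.volume_pi_ball`); layer cake (`MeasureTheory.lintegral_rpow_eq_lintegral_meas_lt_mul` or a sum
over the sets `{k ≤ v < k+1}`, `v^n ≤ (k+1)^n`, `∑ (k+1)^n e^{-k} < ∞`). -/
theorem exists_v {d : ℕ} (hd : 0 < d) (c : Sp d) : ∃ K : ℕ → ℝ, ∀ l : ℝ, 0 < l →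
    ∃ v : Sp d → ℝ, Measurable v ∧ (∀ x, 0 ≤ v x) ∧ (∀ x, x ∉ Metric.ball c l → v x = 0) ∧
      (∀ x ∈ Metric.ball c (l / 2), v x = 0) ∧
      (∀ M : ℝ, ∃ w, 0 < w ∧ w ≤ l / 2 ∧
        ∀ x ∈ Metric.ball c l, x ∉ Metric.ball c (l - w) → M ≤ v x) ∧
      ∀ n : ℕ, ∫⁻ x in Metric.ball c l, ENNReal.ofReal (v x ^ n) ≤
        ENNReal.ofReal (K n * l ^ d) := by
  have hsum : ∀ n : ℕ, Summable (fun j : ℕ => (j : ℝ) ^ n * (1 / 2 : ℝ) ^ j) := by
    intro n
    exact summable_pow_mul_geometric_of_norm_lt_one n (by norm_num)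
  refine ⟨fun n => (∑' j : ℕ, (j : ℝ) ^ n * (1 / 2 : ℝ) ^ j) * (d * 2 ^ d), ?_⟩
  intro l hl
  refine ⟨VA_v c l, VA_meas c l, ?_, ?_, ?_, ?_, ?_⟩
  · intro x
    unfold VA_v
    split_ifs
    · positivity
    · exact le_refl _
  · intro x hx
    rw [Metric.mem_ball] at hx
    simp [VA_v, hx]
  · intro x hx
    rw [Metric.mem_ball] at hx
    have hx' : dist x c < l := by linarith
    have h1 : ¬ (1 ≤ ⌊-Real.logb 2 (1 - dist x c / l)⌋₊) := by
      rw [VA_ge c hl x hx' 1]
      intro h
      norm_num at h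
      linarith
    have h2 : ⌊-Real.logb 2 (1 - dist x c / l)⌋₊ = 0 := by omega
    simp [VA_v, hx', h2]
  · intro M
    obtain ⟨j, hj⟩ := exists_nat_ge M
    refine ⟨l * (1 / 2 : ℝ) ^ (j + 1), by positivity, ?_, ?_⟩
    · have : (1 / 2 : ℝ) ^ (j + 1) ≤ 1 / 2 := by
        rw [pow_succ]
        have := pow_le_one₀ (n := j) (by norm_num : (0:ℝ) ≤ 1 / 2) (by norm_num)
        linarith
      nlinarith
    · intro x hx hx'
      rw [Metric.mem_ball] at hx hx'
      have h1 : j + 1 ≤ ⌊-Real.logb 2 (1 - dist x c / l)⌋₊ := by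
        rw [VA_ge c hl x hx]
        push Not at hx'
        linarith
      have h2 : VA_v c l x = ((⌊-Real.logb 2 (1 - dist x c / l)⌋₊ : ℕ) : ℝ) := by
        simp [VA_v, hx]
      rw [h2]
      have h3 : ((j + 1 : ℕ) : ℝ) ≤ ((⌊-Real.logb 2 (1 - dist x c / l)⌋₊ : ℕ) : ℝ) := by
        exact_mod_cast h1
      push_cast at h3
      linarith
  · intro n
    -- shells
    set S : ℕ → Set (Sp d) := fun j => Metric.ball c l \ Metric.ball c (l * (1 - (1 / 2 : ℝ) ^ j))
      with hS
    have hSm : ∀ j, MeasurableSet (S j) := fun j => measurableSet_ball.diff measurableSet_ball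
    have hvol : ∀ j, volume (S j) ≤ ENNReal.ofReal ((1 / 2 : ℝ) ^ j * ((d * 2 ^ d) * l ^ d)) := by
      intro j
      have hq0 : (0 : ℝ) < (1 / 2 : ℝ) ^ j := by positivity
      have hq1 : (1 / 2 : ℝ) ^ j ≤ 1 := pow_le_one₀ (by norm_num) (by norm_num)
      have hd1 : (1 : ℝ) ≤ d := by exact_mod_cast hd
      rcases Nat.eq_zero_or_pos j with h0 | h0
      · subst h0
        have : S 0 ⊆ Metric.ball c l := Set.sdiff_subset
        refine (measure_mono this).trans ?_
        rw [Real.volume_pi_ball c hl, Fintype.card_fin]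
        apply ENNReal.ofReal_le_ofReal
        rw [mul_pow]
        have : 0 < (2 : ℝ) ^ d * l ^ d := by positivity
        simp only [pow_zero]
        nlinarith
      · have hq2 : (1 / 2 : ℝ) ^ j < 1 := pow_lt_one₀ (by norm_num) (by norm_num) h0.ne'
        have hr : 0 < l * (1 - (1 / 2 : ℝ) ^ j) := mul_pos hl (by linarith)
        have hsub : Metric.ball c (l * (1 - (1 / 2 : ℝ) ^ j)) ⊆ Metric.ball c l := by
          apply Metric.ball_subset_ball
          nlinarith
        have hfin : volume (Metric.ball c (l * (1 - (1 / 2 : ℝ) ^ j))) ≠ ⊤ := by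
          rw [Real.volume_pi_ball c hr]
          exact ENNReal.ofReal_ne_top
        have hm := measure_sdiff (μ := (volume : Measure (Sp d))) hsub
          measurableSet_ball.nullMeasurableSet hfin
        rw [hS]
        simp only
        rw [hm, Real.volume_pi_ball c hr, Real.volume_pi_ball c hl, Fintype.card_fin,
          ← ENNReal.ofReal_sub _ (by positivity)]
        apply ENNReal.ofReal_le_ofReal
        have hb := one_add_mul_le_pow (a := -(1 / 2 : ℝ) ^ j) (by linarith) d
        have e1 : (2 * (l * (1 - (1 / 2 : ℝ) ^ j))) ^ d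
            = (2 ^ d * l ^ d) * (1 + -(1 / 2 : ℝ) ^ j) ^ d := by
          rw [← mul_pow, ← mul_pow]
          congr 1
          ring
        rw [e1, mul_pow]
        have hp : 0 < (2 : ℝ) ^ d * l ^ d := by positivity
        nlinarith
    have hpt : ∀ x ∈ Metric.ball c l, ENNReal.ofReal (VA_v c l x ^ n) ≤
        ∑' j : ℕ, ENNReal.ofReal ((j : ℝ) ^ n) * (S j).indicator 1 x := by
      intro x hx
      have hx' : dist x c < l := by rwa [Metric.mem_ball] at hx
      set j := ⌊-Real.logb 2 (1 - dist x c / l)⌋₊ with hj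
      have h1 : VA_v c l x = (j : ℝ) := by simp [VA_v, hx', hj]
      have h2 : x ∈ S j := by
        refine ⟨hx, ?_⟩
        rw [Metric.mem_ball]
        push Not
        exact (VA_ge c hl x hx' j).1 hj.le
      refine le_trans ?_ (ENNReal.le_tsum j)
      rw [h1, Set.indicator_of_mem h2]
      simp
    calc ∫⁻ x in Metric.ball c l, ENNReal.ofReal (VA_v c l x ^ n)
        ≤ ∫⁻ x in Metric.ball c l, ∑' j : ℕ, ENNReal.ofReal ((j : ℝ) ^ n) * (S j).indicator 1 x :=
          setLIntegral_mono' measurableSet_ball hpt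
      _ ≤ ∫⁻ x, ∑' j : ℕ, ENNReal.ofReal ((j : ℝ) ^ n) * (S j).indicator 1 x :=
          setLIntegral_le_lintegral _ _
      _ = ∑' j : ℕ, ∫⁻ x, ENNReal.ofReal ((j : ℝ) ^ n) * (S j).indicator 1 x := by
          apply lintegral_tsum
          intro j
          exact ((measurable_one.indicator (hSm j)).const_mul _).aemeasurable
      _ = ∑' j : ℕ, ENNReal.ofReal ((j : ℝ) ^ n) * volume (S j) := by
          congr 1
          funext j
          rw [lintegral_const_mul _ (measurable_one.indicator (hSm j)),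
            lintegral_indicator_one (hSm j)]
      _ ≤ ∑' j : ℕ, ENNReal.ofReal ((j : ℝ) ^ n * (1 / 2 : ℝ) ^ j * ((d * 2 ^ d) * l ^ d)) := by
          apply ENNReal.tsum_le_tsum
          intro j
          rw [mul_assoc, ENNReal.ofReal_mul (by positivity)]
          gcongr
          exact hvol j
      _ = ENNReal.ofReal ((∑' j : ℕ, (j : ℝ) ^ n * (1 / 2 : ℝ) ^ j) * (d * 2 ^ d) * l ^ d) := by
          rw [← ENNReal.ofReal_tsum_of_nonneg (fun j => by positivity)
            ((hsum n).mul_right _), tsum_mul_right]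
          congr 1
          ring

end Pool.Agent.Lib.MP_c84763_mp.U
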